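import Pool.Agent.Lib_helper41.LSP.DefsG

/-! Block KSI: Laplace transforms of the kernel. -/

namespace Pool.Agent.LSP

open Pool.Agent.LEV Pool.Agent.LVB Pool.Agent.KSL
open Pool.Agent.FG61 (mu phi cc ff AA Lam)
open Complex MeasureTheory Filter Topology UpperHalfPlane ModularGroup ProbabilityTheory
open scoped MatrixGroups Modular ENNReal ModularForm ComplexConjugate ContDiff

/-- the elementary kernel -/
noncomputable def ksi_k (ρ : ℝ → ℝ) (t : ℝ) : ℂ := (ρ t : ℂ) * (1 - (t : ℂ) * Complex.I)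

theorem ksi_cont {T : ℝ} {ρ : ℝ → ℝ} (hρ : Ker T ρ) : Continuous (ksi_k ρ) := by
  unfold ksi_k
  exact (Complex.continuous_ofReal.comp hρ.cont).mul (by fun_prop)

theorem ksi_cs {T : ℝ} {ρ : ℝ → ℝ} (hρ : Ker T ρ) : HasCompactSupport (ksi_k ρ) := by
  refine HasCompactSupport.intro (isCompact_Icc (a := -T) (b := T)) fun t ht => ?_
  have : T < |t| := by
    by_contra hcon
    exact ht (abs_le.mp (not_lt.mp hcon))
  unfold ksi_k
  rw [hρ.supp t this, Complex.ofReal_zero, zero_mul]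

theorem ksi_int {T : ℝ} {ρ : ℝ → ℝ} (hρ : Ker T ρ) : Integrable (ksi_k ρ) :=
  (ksi_cont hρ).integrable_of_hasCompactSupport (ksi_cs hρ)

/-- the integrand -/
noncomputable def ksi_F (ρ : ℝ → ℝ) (m : ℕ) (y t : ℝ) : ℂ :=
  ((Real.exp (-2 * Real.pi * m * y) : ℝ) : ℂ) *
    (ksi_k ρ t * cexp (-(2 * Real.pi * (-(m * y)) * t : ℝ) * Complex.I))

theorem ksi_norm (ρ : ℝ → ℝ) (m : ℕ) (y t : ℝ) :
    ‖ksi_F ρ m y t‖ = Real.exp (-2 * Real.pi * m * y) * ‖ksi_k ρ t‖ := by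
  unfold ksi_F
  rw [norm_mul, norm_mul, Complex.norm_real, Real.norm_eq_abs, Real.abs_exp]
  have h : ‖cexp (-(2 * Real.pi * (-(m * y)) * t : ℝ) * Complex.I)‖ = 1 := by
    rw [← Complex.ofReal_neg]
    exact Complex.norm_exp_ofReal_mul_I _
  rw [h, mul_one]

theorem ksi_Fint {T : ℝ} {ρ : ℝ → ℝ} (hρ : Ker T ρ) {m : ℕ} (hm : 1 ≤ m) :
    Integrable (Function.uncurry (ksi_F ρ m))
      ((volume.restrict (Set.Ioi (0 : ℝ))).prod volume) := by
  have h1 : Integrable (fun y : ℝ => Real.exp (-2 * Real.pi * m * y))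
      (volume.restrict (Set.Ioi (0 : ℝ))) := by
    have hm' : (0 : ℝ) < m := by exact_mod_cast hm
    exact integrableOn_exp_mul_Ioi (a := -2 * Real.pi * m) (by
      have := mul_pos (mul_pos two_pos Real.pi_pos) hm'
      linarith) 0
  have h2 : Integrable (fun t : ℝ => ‖ksi_k ρ t‖) := (ksi_int hρ).norm
  refine (h1.mul_prod h2).mono' ?_ (ae_of_all _ fun p => ?_)
  · refine Continuous.aestronglyMeasurable ?_
    have h3 := ksi_cont hρ
    unfold ksi_F Function.uncurry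
    refine Continuous.mul ?_ (Continuous.mul (h3.comp continuous_snd) ?_)
    · fun_prop
    · fun_prop
  · exact (ksi_norm ρ m p.1 p.2).le

theorem ksi_eq (ρ : ℝ → ℝ) (m : ℕ) (y : ℝ) :
    ∫ t : ℝ, ksi_F ρ m y t =
      ((Real.exp (-2 * Real.pi * m * y) : ℝ) : ℂ) * kh ρ (-(m * y)) := by
  unfold ksi_F ksi_k kh
  rw [integral_const_mul]

theorem ksi_inner {T : ℝ} {ρ : ℝ → ℝ} (_hρ : Ker T ρ) {m : ℕ} (hm : 1 ≤ m) (t : ℝ) :
    ∫ y in Set.Ioi (0 : ℝ), ksi_F ρ m y t = (ρ t : ℂ) * (1 / (2 * Real.pi * m)) := by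
  have hm' : (0 : ℝ) < m := by exact_mod_cast hm
  set a : ℂ := -(2 * Real.pi * m * (1 - (t : ℂ) * Complex.I)) with ha
  have hre : a.re < 0 := by
    have h : a.re = -(2 * Real.pi * m) := by
      rw [ha]
      simp
    rw [h]
    have := mul_pos (mul_pos two_pos Real.pi_pos) hm'
    linarith
  have h1 : ∀ y : ℝ, ksi_F ρ m y t = ksi_k ρ t * cexp (a * y) := by
    intro y
    unfold ksi_F
    rw [Complex.ofReal_exp, mul_comm, mul_assoc, ← Complex.exp_add]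
    congr 2
    rw [ha]
    push_cast
    ring
  simp only [h1]
  rw [integral_const_mul, integral_exp_mul_complex_Ioi hre]
  have h0 : (1 - (t : ℂ) * Complex.I) ≠ 0 := by
    intro h
    have := congrArg Complex.re h
    simp at this
  have hpi : (Real.pi : ℂ) ≠ 0 := by exact_mod_cast Real.pi_ne_zero
  have hmc : (m : ℂ) ≠ 0 := by exact_mod_cast hm'.ne'
  rw [ha]
  unfold ksi_k
  simp only [Complex.ofReal_zero, mul_zero, Complex.exp_zero]
  field_simp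

theorem kh_laplace_pr {T : ℝ} {ρ : ℝ → ℝ} (hρ : KerL T ρ) {m : ℕ} (hm : 1 ≤ m) :
    IntegrableOn (fun y : ℝ => ((Real.exp (-2 * Real.pi * m * y) : ℝ) : ℂ) * kh ρ (-(m * y)))
      (Set.Ioi 0) ∧
    ∫ y in Set.Ioi (0 : ℝ), ((Real.exp (-2 * Real.pi * m * y) : ℝ) : ℂ) * kh ρ (-(m * y)) =
      1 / (2 * Real.pi * m) := by
  have hK := hρ.toKer
  have hF := ksi_Fint hK hm
  have h1 := hF.integral_prod_left
  simp only [Function.uncurry] at h1
  simp only [ksi_eq] at h1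
  refine ⟨h1, ?_⟩
  have h2 := integral_integral_swap hF
  simp only [ksi_eq] at h2
  rw [h2]
  simp only [ksi_inner hK hm]
  rw [integral_mul_const]
  have h3 : ∫ t : ℝ, (ρ t : ℂ) = ((∫ t : ℝ, ρ t : ℝ) : ℂ) := integral_ofReal
  rw [h3, hK.int]
  simp

theorem ksi_bd {T : ℝ} {ρ : ℝ → ℝ} (u : ℝ) : ‖kh ρ u‖ ≤ ∫ t : ℝ, ‖ksi_k ρ t‖ := by
  unfold kh
  refine (norm_integral_le_integral_norm _).trans (le_of_eq ?_)
  refine integral_congr_ae (ae_of_all _ fun t => ?_)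
  show ‖(ρ t : ℂ) * (1 - (t : ℂ) * Complex.I) * cexp (-(2 * Real.pi * u * t : ℝ) * Complex.I)‖ = _
  rw [norm_mul]
  have h : ‖cexp (-(2 * Real.pi * u * t : ℝ) * Complex.I)‖ = 1 := by
    rw [← Complex.ofReal_neg]
    exact Complex.norm_exp_ofReal_mul_I _
  rw [h, mul_one]
  rfl

theorem kh_laplace_err_pr {T : ℝ} {ρ : ℝ → ℝ} (hρ : KerL T ρ) : ∃ C : ℝ, 0 < C ∧ ∀ m : ℕ, 1 ≤ m →
    ∀ yS : ℝ, 0 < yS →
    ‖(∫ y in Set.Ioi yS, ((Real.exp (-2 * Real.pi * m * y) : ℝ) : ℂ) * kh ρ (-(m * y))) -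
      1 / (2 * Real.pi * m)‖ ≤ C * yS := by
  have hnn : 0 ≤ ∫ t : ℝ, ‖ksi_k ρ t‖ := integral_nonneg fun t => norm_nonneg _
  refine ⟨(∫ t : ℝ, ‖ksi_k ρ t‖) + 1, by linarith, fun m hm yS hyS => ?_⟩
  obtain ⟨h1, h2⟩ := kh_laplace_pr hρ hm
  set f : ℝ → ℂ := fun y => ((Real.exp (-2 * Real.pi * m * y) : ℝ) : ℂ) * kh ρ (-(m * y)) with hf
  have h3 : (∫ y in Set.Ioi (0 : ℝ), f y) = (∫ y in Set.Ioc 0 yS, f y) + ∫ y in Set.Ioi yS, f y := by
    rw [← setIntegral_union (Set.Ioc_disjoint_Ioi le_rfl) measurableSet_Ioi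
      (h1.mono_set Set.Ioc_subset_Ioi_self) (h1.mono_set (Set.Ioi_subset_Ioi hyS.le)),
      Set.Ioc_union_Ioi_eq_Ioi hyS.le]
  have h4 : (∫ y in Set.Ioi yS, f y) - 1 / (2 * Real.pi * m) = -∫ y in Set.Ioc 0 yS, f y := by
    rw [← h2, h3]
    ring
  rw [h4, norm_neg]
  have h5 : ∀ y ∈ Set.Ioc 0 yS, ‖f y‖ ≤ ∫ t : ℝ, ‖ksi_k ρ t‖ := by
    intro y hy
    rw [hf]
    simp only
    rw [norm_mul, Complex.norm_real, Real.norm_eq_abs, Real.abs_exp]
    have h6 : Real.exp (-2 * Real.pi * m * y) ≤ 1 := by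
      rw [Real.exp_le_one_iff]
      have : 0 ≤ 2 * Real.pi * m * y :=
        mul_nonneg (mul_nonneg (mul_nonneg two_pos.le Real.pi_pos.le) (Nat.cast_nonneg m)) hy.1.le
      linarith
    calc Real.exp (-2 * Real.pi * m * y) * ‖kh ρ (-(m * y))‖ ≤ 1 * ‖kh ρ (-(m * y))‖ :=
          mul_le_mul_of_nonneg_right h6 (norm_nonneg _)
      _ = ‖kh ρ (-(m * y))‖ := one_mul _
      _ ≤ _ := ksi_bd (T := T) _
  have h7 := norm_setIntegral_le_of_norm_le_const (μ := volume) (s := Set.Ioc 0 yS)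
    measure_Ioc_lt_top h5
  refine h7.trans ?_
  rw [measureReal_def, Real.volume_Ioc, sub_zero, ENNReal.toReal_ofReal hyS.le]
  exact mul_le_mul_of_nonneg_right (by linarith) hyS.le

theorem kh_laplace : type_of% @kh_laplace_pr := @kh_laplace_pr
theorem kh_laplace_err : type_of% @kh_laplace_err_pr := @kh_laplace_err_pr

end Pool.Agent.LSP
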