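import Pool.Agent.Lib_helper41.LSP.DefsG

/-! LSP, block KFA (helper12): antisymmetry, support and size of the function `GG`. -/

namespace Pool.Agent.LSP

open Pool.Agent.LEV Pool.Agent.LVB Pool.Agent.KSL
open Pool.Agent.FG61 (mu phi cc ff AA Lam)
open Complex MeasureTheory Filter Topology UpperHalfPlane ModularGroup ProbabilityTheory
open scoped MatrixGroups Modular ENNReal ModularForm ComplexConjugate ContDiff

/-- the integrand of `GG` -/
noncomputable def kfF (ρ : ℝ → ℝ) (u t y : ℝ) : ℝ :=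
  (1 - 2 * u + t * tp u t y) * ρ t * ρ (tp u t y) / y

theorem kfa_eq (ρ : ℝ → ℝ) (u : ℝ) :
    GG ρ u = ∫ t : ℝ, ∫ y in Set.Ioi (0 : ℝ), kfF ρ u t y := rfl

/-- inversion `y ↦ 1 / (c y)` -/
theorem kfa_inv (f : ℝ → ℝ) {c : ℝ} (hc : 0 < c) :
    ∫ y in Set.Ioi (0 : ℝ), f (1 / (c * y)) / y = ∫ y in Set.Ioi (0 : ℝ), f y / y := by
  have h1 : ∫ y in Set.Ioi (0 : ℝ), f (1 / (c * y)) / y =
      ∫ y in Set.Ioi (0 : ℝ), f (1 / y) / y := by
    have h2 := integral_comp_mul_left_Ioi (fun y => f (1 / y) / y) (0 : ℝ) hc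
    rw [mul_zero, smul_eq_mul] at h2
    have h3 : ∫ y in Set.Ioi (0 : ℝ), f (1 / (c * y)) / (c * y) =
        c⁻¹ * ∫ y in Set.Ioi (0 : ℝ), f (1 / (c * y)) / y := by
      rw [← integral_const_mul]
      refine integral_congr_ae (Eventually.of_forall fun y => ?_)
      simp only
      rw [div_mul_eq_div_div]
      field_simp
    rw [h3] at h2
    have := hc.ne'
    exact mul_left_cancel₀ (inv_ne_zero this) h2
  rw [h1]
  have h4 := integral_comp_rpow_Ioi (fun y => f y / y) (p := -1) (by norm_num)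
  rw [← h4]
  refine setIntegral_congr_fun measurableSet_Ioi fun y hy => ?_
  have hy' : (0 : ℝ) < y := hy
  simp only [abs_neg, abs_one, one_mul, smul_eq_mul]
  rw [Real.rpow_neg_one, show (-1 - 1 : ℝ) = -2 by norm_num, Real.rpow_neg hy'.le,
    show (2 : ℝ) = ((2 : ℕ) : ℝ) by norm_num, Real.rpow_natCast, one_div]
  field_simp

theorem gg_anti_pr (ρ : ℝ → ℝ) (hρ : ∀ t, ρ (-t) = ρ t) (u : ℝ) : GG ρ (1 - u) = -GG ρ u := by
  rw [kfa_eq, kfa_eq, ← integral_neg]
  congr 1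
  funext t
  have hc : (0 : ℝ) < 1 + t ^ 2 := by positivity
  have h := kfa_inv (fun y => (1 - 2 * (1 - u) + t * tp (1 - u) t y) * ρ t * ρ (tp (1 - u) t y)) hc
  have h2 : ∫ y in Set.Ioi (0 : ℝ), kfF ρ (1 - u) t y = ∫ y in Set.Ioi (0 : ℝ),
      (1 - 2 * (1 - u) + t * tp (1 - u) t y) * ρ t * ρ (tp (1 - u) t y) / y := rfl
  rw [h2, ← h, ← integral_neg]
  refine setIntegral_congr_fun measurableSet_Ioi fun y hy => ?_
  have hy' : (0 : ℝ) < y := hy
  have h3 : tp (1 - u) t (1 / ((1 + t ^ 2) * y)) = -tp u t y := by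
    unfold tp
    field_simp
    ring
  rw [h3, hρ]
  unfold kfF
  ring

/-- the Gram inequality -/
theorem kfa_gram (u t y : ℝ) (hy : 0 < y) :
    (1 - 2 * u + t * tp u t y) ^ 2 ≤ (1 + t ^ 2) * (1 + tp u t y ^ 2) := by
  have h : (1 + t ^ 2) * (1 + tp u t y ^ 2) - (1 - 2 * u + t * tp u t y) ^ 2 =
      ((1 - u) / y + u * (1 + t ^ 2) * y) ^ 2 := by
    unfold tp
    field_simp
    ring
  nlinarith [sq_nonneg ((1 - u) / y + u * (1 + t ^ 2) * y)]

/-- on the support the factor is bounded -/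
theorem kfa_fac {T u t y : ℝ} (_hT : 0 ≤ T) (hy : 0 < y) (ht : |t| ≤ T) (h : |tp u t y| ≤ T) :
    |1 - 2 * u + t * tp u t y| ≤ 1 + T ^ 2 := by
  have h1 := kfa_gram u t y hy
  have h2 : t ^ 2 ≤ T ^ 2 := sq_le_sq' (by linarith [abs_le.1 ht]) (abs_le.1 ht).2
  have h3 : tp u t y ^ 2 ≤ T ^ 2 := sq_le_sq' (by linarith [abs_le.1 h]) (abs_le.1 h).2
  refine abs_le_of_sq_le_sq ?_ (by positivity)
  calc (1 - 2 * u + t * tp u t y) ^ 2 ≤ (1 + t ^ 2) * (1 + tp u t y ^ 2) := h1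
    _ ≤ (1 + T ^ 2) * (1 + T ^ 2) := by
        refine mul_le_mul (by linarith) (by linarith) (by positivity) (by positivity)
    _ = (1 + T ^ 2) ^ 2 := by ring

theorem kfa_u {T u t y : ℝ} (hT : 0 ≤ T) (hy : 0 < y) (ht : |t| ≤ T) (h : |tp u t y| ≤ T) :
    |u| ≤ 1 + T ^ 2 := by
  have h1 := kfa_fac hT hy ht h
  have h2 : |t * tp u t y| ≤ T ^ 2 := by
    rw [abs_mul, sq]
    exact mul_le_mul ht h (abs_nonneg _) hT
  have h3 := abs_le.1 h1
  have h4 := abs_le.1 h2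
  rw [abs_le]
  constructor <;> linarith

/-- outside of the support the integrand vanishes -/
theorem kfa_zero {T : ℝ} {ρ : ℝ → ℝ} (hρ : Ker T ρ) {u t y : ℝ} (h : T < |t| ∨ T < |tp u t y|) :
    kfF ρ u t y = 0 := by
  unfold kfF
  rcases h with h | h
  · rw [hρ.supp t h]; ring
  · rw [hρ.supp _ h]; ring

theorem gg_supp_pr {T : ℝ} {ρ : ℝ → ℝ} (hρ : KerL T ρ) {u : ℝ} (hu : 1 + T ^ 2 < |u|) :
    GG ρ u = 0 := by
  have hT : 0 ≤ T := le_trans zero_le_one hρ.T1
  rw [kfa_eq]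
  have h : ∀ t : ℝ, ∫ y in Set.Ioi (0 : ℝ), kfF ρ u t y = 0 := by
    intro t
    refine setIntegral_eq_zero_of_forall_eq_zero fun y hy => ?_
    refine kfa_zero hρ.toKer ?_
    by_contra hc
    push Not at hc
    exact absurd (kfa_u hT hy hc.1 hc.2) (not_le.2 hu)
  simp [h]

/-- the constant of the range -/
noncomputable def kfC (T : ℝ) : ℝ := 20 * (1 + T) ^ 4

theorem kfC_pos {T : ℝ} (hT : 0 ≤ T) : 0 < kfC T := by unfold kfC; positivity

/-- the range of `y` -/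
theorem kfa_range {T u t y : ℝ} (hT : 1 ≤ T) (hy : 0 < y) (ht : |t| ≤ T)
    (h : |tp u t y| ≤ T) : |1 - u| / kfC T ≤ y ∧ |u| * y ≤ kfC T := by
  have hT0 : (0 : ℝ) ≤ T := le_trans zero_le_one hT
  have hu := kfa_u hT0 hy ht h
  have hC := kfC_pos hT0
  have h1u : |1 - u| ≤ 2 + T ^ 2 := by
    calc |1 - u| ≤ |(1 : ℝ)| + |u| := abs_sub _ _
      _ ≤ 2 + T ^ 2 := by rw [abs_one]; linarith
  have ht2 : t ^ 2 ≤ T ^ 2 := sq_le_sq' (by linarith [abs_le.1 ht]) (abs_le.1 ht).2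
  have hw : |(1 - 2 * u) * t| ≤ (3 + 2 * T ^ 2) * T := by
    rw [abs_mul]
    refine mul_le_mul ?_ ht (abs_nonneg _) (by positivity)
    have := abs_le.1 hu
    rw [abs_le]
    constructor <;> linarith
  have hK : |(1 - u) / y - u * (1 + t ^ 2) * y| ≤ T + (3 + 2 * T ^ 2) * T := by
    have : (1 - u) / y - u * (1 + t ^ 2) * y = tp u t y - (1 - 2 * u) * t := by unfold tp; ring
    rw [this]
    exact (abs_sub _ _).trans (add_le_add h hw)
  have hpoly : T + (3 + 2 * T ^ 2) * T + (2 + T ^ 2) + (1 + T ^ 2) * (1 + T ^ 2) ≤ kfC T := by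
    unfold kfC
    nlinarith [mul_nonneg hT0 hT0, mul_nonneg (mul_nonneg hT0 hT0) hT0,
      mul_nonneg (mul_nonneg (mul_nonneg hT0 hT0) hT0) hT0]
  have hC1 : 1 ≤ kfC T := by
    unfold kfC
    nlinarith [mul_nonneg hT0 hT0, mul_nonneg (mul_nonneg hT0 hT0) hT0,
      mul_nonneg (mul_nonneg (mul_nonneg hT0 hT0) hT0) hT0]
  have hp1 : 0 ≤ |1 - u| := abs_nonneg _
  have hp2 : 0 ≤ |u| := abs_nonneg _
  rcases le_total 1 y with h1 | h1
  · constructor
    · rw [div_le_iff₀ hC]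
      nlinarith [hpoly, h1u, mul_nonneg hT0 hT0]
    · have h2 : |u| * (1 + t ^ 2) * y ≤ T + (3 + 2 * T ^ 2) * T + |1 - u| / y := by
        have e1 : |u * (1 + t ^ 2) * y| = |u| * (1 + t ^ 2) * y := by
          rw [abs_mul, abs_mul, abs_of_pos hy, abs_of_pos (by positivity : (0 : ℝ) < 1 + t ^ 2)]
        have e2 : |(1 - u) / y| = |1 - u| / y := by rw [abs_div, abs_of_pos hy]
        have e3 : |u * (1 + t ^ 2) * y| ≤ |(1 - u) / y - u * (1 + t ^ 2) * y| + |(1 - u) / y| := by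
          have : u * (1 + t ^ 2) * y = (1 - u) / y - ((1 - u) / y - u * (1 + t ^ 2) * y) := by ring
          calc |u * (1 + t ^ 2) * y| = |(1 - u) / y - ((1 - u) / y - u * (1 + t ^ 2) * y)| := by
                rw [← this]
            _ ≤ |(1 - u) / y| + |(1 - u) / y - u * (1 + t ^ 2) * y| := abs_sub _ _
            _ = _ := by ring
        rw [e1, e2] at e3
        linarith
      have h3 : |1 - u| / y ≤ |1 - u| := div_le_self hp1 h1
      have h4 : |u| * y ≤ |u| * (1 + t ^ 2) * y := by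
        nlinarith [mul_nonneg hp2 hy.le, sq_nonneg t, mul_nonneg (mul_nonneg hp2 (sq_nonneg t)) hy.le]
      nlinarith [hpoly, h1u, mul_nonneg hT0 hT0, sq_nonneg (1 + T ^ 2)]
  · constructor
    · have h2 : |1 - u| / y ≤ T + (3 + 2 * T ^ 2) * T + |u| * (1 + t ^ 2) * y := by
        have e1 : |u * (1 + t ^ 2) * y| = |u| * (1 + t ^ 2) * y := by
          rw [abs_mul, abs_mul, abs_of_pos hy, abs_of_pos (by positivity : (0 : ℝ) < 1 + t ^ 2)]
        have e2 : |(1 - u) / y| = |1 - u| / y := by rw [abs_div, abs_of_pos hy]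
        have e3 : |(1 - u) / y| ≤ |(1 - u) / y - u * (1 + t ^ 2) * y| + |u * (1 + t ^ 2) * y| := by
          calc |(1 - u) / y| = |((1 - u) / y - u * (1 + t ^ 2) * y) + u * (1 + t ^ 2) * y| := by
                congr 1; ring
            _ ≤ _ := abs_add_le _ _
        rw [e1, e2] at e3
        linarith
      have h3 : |u| * (1 + t ^ 2) * y ≤ (1 + T ^ 2) * (1 + T ^ 2) := by
        calc |u| * (1 + t ^ 2) * y ≤ |u| * (1 + t ^ 2) * 1 :=
              mul_le_mul_of_nonneg_left h1 (by positivity)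
          _ ≤ (1 + T ^ 2) * (1 + T ^ 2) := by
              rw [mul_one]
              exact mul_le_mul hu (by linarith) (by positivity) (by positivity)
      have h4 : |1 - u| / y ≤ kfC T := by nlinarith [hpoly, sq_nonneg T]
      rw [div_le_iff₀ hy] at h4
      rw [div_le_iff₀ hC]
      linarith
    · calc |u| * y ≤ |u| * 1 := mul_le_mul_of_nonneg_left h1 hp2
        _ ≤ kfC T := by nlinarith [hpoly, hu, mul_nonneg hT0 hT0, sq_nonneg (1 + T ^ 2)]

/-- a bound for the kernel -/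
theorem kfa_rho {T : ℝ} {ρ : ℝ → ℝ} (hρ : Ker T ρ) : ∃ R : ℝ, 0 < R ∧ ∀ t, ρ t ≤ R := by
  obtain ⟨x, -, hx⟩ := (isCompact_Icc (a := -T) (b := T)).exists_isMaxOn
    ⟨0, by constructor <;> linarith [hρ.T1]⟩ hρ.cont.continuousOn
  refine ⟨ρ x + 1, by linarith [hρ.nonneg x], fun t => ?_⟩
  by_cases h : |t| ≤ T
  · have : ρ t ≤ ρ x := hx (abs_le.1 h)
    linarith
  · rw [hρ.supp t (not_le.1 h)]
    linarith [hρ.nonneg x]

theorem kfa_meas {T : ℝ} {ρ : ℝ → ℝ} (hρ : Ker T ρ) :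
    Measurable (fun p : ℝ × ℝ × ℝ => kfF ρ p.1 p.2.1 p.2.2) := by
  have hr : Measurable ρ := hρ.cont.measurable
  unfold kfF tp
  fun_prop

/-- a dominating function of `y` -/
theorem kfa_dom {lo hi M : ℝ} (hlo : 0 < lo) (h : ℝ → ℝ) (hh : ContinuousOn h (Set.Ioi 0)) :
    IntegrableOn ((Set.Icc lo hi).indicator (fun y => M * h y)) (Set.Ioi 0) := by
  have h1 : IntegrableOn (fun y => M * h y) (Set.Icc lo hi) :=
    ContinuousOn.integrableOn_compact isCompact_Icc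
      (continuousOn_const.mul (hh.mono fun y hy => lt_of_lt_of_le hlo hy.1))
  exact (h1.integrable_indicator measurableSet_Icc).integrableOn

theorem kfa_dom_eq {lo hi M : ℝ} (hlo : 0 < lo) (h : ℝ → ℝ) :
    ∫ y in Set.Ioi (0 : ℝ), (Set.Icc lo hi).indicator (fun y => M * h y) y =
      M * ∫ y in Set.Icc lo hi, h y := by
  have h1 : Set.Ioi (0 : ℝ) ∩ Set.Icc lo hi = Set.Icc lo hi :=
    Set.inter_eq_right.2 fun y hy => lt_of_lt_of_le hlo hy.1
  rw [setIntegral_indicator measurableSet_Icc, h1, integral_const_mul]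

theorem kfa_pt {T : ℝ} {ρ : ℝ → ℝ} (hρ : Ker T ρ) {R : ℝ} (hR : ∀ t, ρ t ≤ R) (u t y : ℝ)
    (hy : 0 < y) : |kfF ρ u t y| ≤ (Set.Icc (-T) T).indicator (fun _ => (1 : ℝ)) t *
      (Set.Icc (|1 - u| / kfC T) (kfC T / |u|)).indicator
        (fun y => ((1 + T ^ 2) * R ^ 2) * (1 / y)) y ∨ u = 0 := by
  have hT0 : (0 : ℝ) ≤ T := le_trans zero_le_one hρ.T1
  by_cases hu0 : u = 0
  · exact Or.inr hu0
  left
  by_cases h : |t| ≤ T ∧ |tp u t y| ≤ T
  · have h1 := kfa_range hρ.T1 hy h.1 h.2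
    have h2 : y ≤ kfC T / |u| := by
      rw [le_div_iff₀ (abs_pos.2 hu0), mul_comm]
      exact h1.2
    rw [Set.indicator_of_mem (show t ∈ Set.Icc (-T) T from abs_le.1 h.1),
      Set.indicator_of_mem (show y ∈ Set.Icc (|1 - u| / kfC T) (kfC T / |u|) from ⟨h1.1, h2⟩),
      one_mul]
    unfold kfF
    have h3 := kfa_fac hT0 hy h.1 h.2
    rw [abs_div, abs_mul, abs_mul, abs_of_pos hy, abs_of_nonneg (hρ.nonneg t),
      abs_of_nonneg (hρ.nonneg (tp u t y)), mul_one_div]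
    have hR0 : 0 ≤ R := (hρ.nonneg t).trans (hR t)
    refine div_le_div_of_nonneg_right ?_ hy.le
    calc |1 - 2 * u + t * tp u t y| * ρ t * ρ (tp u t y) ≤ (1 + T ^ 2) * R * R :=
          mul_le_mul (mul_le_mul h3 (hR t) (hρ.nonneg t) (by positivity)) (hR _)
            (hρ.nonneg _) (by positivity)
      _ = (1 + T ^ 2) * R ^ 2 := by ring
  · rw [kfa_zero hρ (by
      by_contra hc
      push Not at hc
      exact h hc), abs_zero]
    refine mul_nonneg (Set.indicator_nonneg (fun _ _ => zero_le_one) _)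
      (Set.indicator_nonneg (fun x hx => ?_) _)
    have hx0 : 0 ≤ x := le_trans (div_nonneg (abs_nonneg _) (kfC_pos hT0).le) hx.1
    positivity

/-- the inner integrals -/
theorem kfa_inner {T : ℝ} {ρ : ℝ → ℝ} (hρ : Ker T ρ) {R : ℝ} (hR : ∀ t, ρ t ≤ R) {u : ℝ}
    (hu : u ≠ 0) (hu1 : u ≠ 1) (t : ℝ) :
    IntegrableOn (fun y => kfF ρ u t y) (Set.Ioi 0) ∧
    |∫ y in Set.Ioi (0 : ℝ), kfF ρ u t y| ≤ (Set.Icc (-T) T).indicator (fun _ =>
      (1 + T ^ 2) * R ^ 2 * (2 * Real.log (kfC T) + |Real.log u| + |Real.log (1 - u)|)) t := by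
  have hT0 : (0 : ℝ) ≤ T := le_trans zero_le_one hρ.T1
  have hC := kfC_pos hT0
  have hC1 : 1 ≤ kfC T := by
    unfold kfC
    nlinarith [mul_nonneg hT0 hT0, mul_nonneg (mul_nonneg hT0 hT0) hT0,
      mul_nonneg (mul_nonneg (mul_nonneg hT0 hT0) hT0) hT0]
  have hlo : 0 < |1 - u| / kfC T := div_pos (abs_pos.2 (sub_ne_zero.2 hu1.symm)) hC
  have hhi : 0 < kfC T / |u| := div_pos hC (abs_pos.2 hu)
  have hd := kfa_dom (hi := kfC T / |u|) (M := (1 + T ^ 2) * R ^ 2) hlo (fun y => 1 / y)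
    (continuousOn_const.div continuousOn_id fun y hy => ne_of_gt hy)
  have hpt : ∀ y ∈ Set.Ioi (0 : ℝ), |kfF ρ u t y| ≤ (Set.Icc (-T) T).indicator
      (fun _ => (1 : ℝ)) t * (Set.Icc (|1 - u| / kfC T) (kfC T / |u|)).indicator
        (fun y => ((1 + T ^ 2) * R ^ 2) * (1 / y)) y := fun y hy =>
    (kfa_pt hρ hR u t y hy).resolve_right hu
  have hd2 := hd.const_mul ((Set.Icc (-T) T).indicator (fun _ => (1 : ℝ)) t)
  have hm : Measurable (fun y => kfF ρ u t y) :=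
    (kfa_meas hρ).comp (measurable_const.prodMk (measurable_const.prodMk measurable_id))
  refine ⟨Integrable.mono' hd2 hm.aestronglyMeasurable
    ((ae_restrict_iff' measurableSet_Ioi).2 (Eventually.of_forall fun y hy => ?_)), ?_⟩
  · rw [Real.norm_eq_abs]
    exact hpt y hy
  have h1 := norm_integral_le_of_norm_le (f := fun y => kfF ρ u t y) hd2
    ((ae_restrict_iff' measurableSet_Ioi).2 (Eventually.of_forall fun y hy => by
      rw [Real.norm_eq_abs]; exact hpt y hy))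
  rw [integral_const_mul, kfa_dom_eq hlo] at h1
  have h2 : ∫ y in Set.Icc (|1 - u| / kfC T) (kfC T / |u|), 1 / y ≤
      2 * Real.log (kfC T) + |Real.log u| + |Real.log (1 - u)| := by
    have hp : 0 ≤ Real.log (kfC T) := Real.log_nonneg hC1
    rcases le_total (|1 - u| / kfC T) (kfC T / |u|) with h | h
    · rw [integral_Icc_eq_integral_Ioc, ← intervalIntegral.integral_of_le h,
        integral_one_div_of_pos hlo hhi, Real.log_div hhi.ne' hlo.ne',
        Real.log_div hC.ne' (abs_pos.2 hu).ne',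
        Real.log_div (abs_pos.2 (sub_ne_zero.2 hu1.symm)).ne' hC.ne', Real.log_abs, Real.log_abs]
      linarith [neg_abs_le (Real.log u), neg_abs_le (Real.log (1 - u))]
    · have : (volume (Set.Icc (|1 - u| / kfC T) (kfC T / |u|))) = 0 := by
        rw [Real.volume_Icc]
        simpa using h
      rw [setIntegral_measure_zero _ this]
      positivity
  rw [Real.norm_eq_abs] at h1
  refine h1.trans ?_
  by_cases ht : t ∈ Set.Icc (-T) T
  · rw [Set.indicator_of_mem ht, Set.indicator_of_mem ht, one_mul]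
    exact mul_le_mul_of_nonneg_left h2 (by positivity)
  · rw [Set.indicator_of_notMem ht, Set.indicator_of_notMem ht, zero_mul]

/-- the outer integral exists -/
theorem kfa_outer {T : ℝ} {ρ : ℝ → ℝ} (hρ : Ker T ρ) {u : ℝ}
    (hu : u ≠ 0) (hu1 : u ≠ 1) :
    Integrable (fun t => ∫ y in Set.Ioi (0 : ℝ), kfF ρ u t y) := by
  obtain ⟨R, -, hR⟩ := kfa_rho hρ
  have hm : StronglyMeasurable (fun p : ℝ × ℝ => kfF ρ u p.1 p.2) :=
    ((kfa_meas hρ).comp (measurable_const.prodMk measurable_id)).stronglyMeasurable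
  have h2 : Integrable ((Set.Icc (-T) T).indicator (fun _ : ℝ =>
      (1 + T ^ 2) * R ^ 2 * (2 * Real.log (kfC T) + |Real.log u| + |Real.log (1 - u)|))) := by
    rw [integrable_indicator_iff measurableSet_Icc]
    exact integrableOn_const (by rw [Real.volume_Icc]; exact ENNReal.ofReal_ne_top)
  refine Integrable.mono' h2 hm.integral_prod_right.aestronglyMeasurable
    (Eventually.of_forall fun t => ?_)
  rw [Real.norm_eq_abs]
  exact (kfa_inner hρ hR hu hu1 t).2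

theorem gg_bound_pr {T : ℝ} {ρ : ℝ → ℝ} (hρ : KerL T ρ) : ∃ C : ℝ, 0 < C ∧ ∀ u : ℝ, u ≠ 0 → u ≠ 1 →
    |GG ρ u| ≤ C * (1 + |Real.log u| + |Real.log (1 - u)|) := by
  obtain ⟨R, hR0, hR⟩ := kfa_rho hρ.toKer
  have hT1 := hρ.T1
  have hT0 : (0 : ℝ) ≤ T := le_trans zero_le_one hT1
  have hC1 : 1 ≤ kfC T := by
    unfold kfC
    nlinarith [mul_nonneg hT0 hT0, mul_nonneg (mul_nonneg hT0 hT0) hT0,
      mul_nonneg (mul_nonneg (mul_nonneg hT0 hT0) hT0) hT0]
  have hlog := Real.log_nonneg hC1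
  refine ⟨2 * T * ((1 + T ^ 2) * R ^ 2) * (2 * Real.log (kfC T) + 1), by positivity,
    fun u hu hu1 => ?_⟩
  have h2 : Integrable ((Set.Icc (-T) T).indicator (fun _ : ℝ =>
      (1 + T ^ 2) * R ^ 2 * (2 * Real.log (kfC T) + |Real.log u| + |Real.log (1 - u)|))) := by
    rw [integrable_indicator_iff measurableSet_Icc]
    exact integrableOn_const (by rw [Real.volume_Icc]; exact ENNReal.ofReal_ne_top)
  have h1 := norm_integral_le_of_norm_le (f := fun t => ∫ y in Set.Ioi (0 : ℝ), kfF ρ u t y) h2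
    (Eventually.of_forall fun t => by
      rw [Real.norm_eq_abs]
      exact (kfa_inner hρ.toKer hR hu hu1 t).2)
  rw [integral_indicator measurableSet_Icc, setIntegral_const, Real.norm_eq_abs, smul_eq_mul,
    measureReal_def, Real.volume_Icc, ENNReal.toReal_ofReal (by linarith)] at h1
  rw [kfa_eq]
  refine h1.trans ?_
  have e : (T - -T) * ((1 + T ^ 2) * R ^ 2 *
      (2 * Real.log (kfC T) + |Real.log u| + |Real.log (1 - u)|)) =
      2 * T * ((1 + T ^ 2) * R ^ 2) *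
        (2 * Real.log (kfC T) + |Real.log u| + |Real.log (1 - u)|) := by ring
  rw [e, mul_assoc (2 * T * ((1 + T ^ 2) * R ^ 2)) (2 * Real.log (kfC T) + 1)]
  refine mul_le_mul_of_nonneg_left ?_ (by positivity)
  nlinarith [mul_nonneg hlog (abs_nonneg (Real.log u)),
    mul_nonneg hlog (abs_nonneg (Real.log (1 - u)))]

theorem gg_anti : type_of% @gg_anti_pr := @gg_anti_pr
theorem gg_supp : type_of% @gg_supp_pr := @gg_supp_pr
theorem gg_bound : type_of% @gg_bound_pr := @gg_bound_pr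

end Pool.Agent.LSP
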