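import Pool.Agent.Lib_helper41.LSP.DefsG
import Pool.Agent.Lib_helper41.LSPG.KFA

/-!
# LSP, block KFB: regularity of the kernel (helper6)
-/

namespace Pool.Agent.LSP

open Pool.Agent.LEV Pool.Agent.LVB Pool.Agent.KSL
open Pool.Agent.FG61 (mu phi cc ff AA Lam)
open Complex MeasureTheory Filter Topology UpperHalfPlane ModularGroup ProbabilityTheory
open scoped MatrixGroups Modular ENNReal ModularForm ComplexConjugate ContDiff

/-- the integrand -/
noncomputable def kfb_F (ρ : ℝ → ℝ) (u t y : ℝ) : ℝ :=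
  (1 - 2 * u + t * tp u t y) * ρ t * ρ (tp u t y) / y

theorem kfb_meas {ρ : ℝ → ℝ} (hc : Continuous ρ) :
    Measurable (fun p : (ℝ × ℝ) × ℝ => kfb_F ρ p.1.1 p.1.2 p.2) := by
  have h := hc.measurable
  unfold kfb_F tp
  fun_prop

theorem kfb_meas1 {ρ : ℝ → ℝ} (hc : Continuous ρ) :
    StronglyMeasurable (fun p : ℝ × ℝ => ∫ y in Set.Ioi (0 : ℝ), kfb_F ρ p.1 p.2 y) :=
  (kfb_meas hc).stronglyMeasurable.integral_prod_right'

theorem kfb_gg (ρ : ℝ → ℝ) (u : ℝ) :
    GG ρ u = ∫ t : ℝ, ∫ y in Set.Ioi (0 : ℝ), kfb_F ρ u t y := rfl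

theorem gg_meas_pr {T : ℝ} {ρ : ℝ → ℝ} (hρ : KerL T ρ) : Measurable (GG ρ) := by
  have h : StronglyMeasurable (fun u : ℝ => ∫ t : ℝ, ∫ y in Set.Ioi (0 : ℝ), kfb_F ρ u t y) :=
    (kfb_meas1 hρ.cont).integral_prod_right'
  exact h.measurable

/-- bounds for the weight -/
theorem kfb_rho {T : ℝ} {ρ : ℝ → ℝ} (hρ : KerL T ρ) : ∃ L R : ℝ, 0 ≤ L ∧ 0 ≤ R ∧
    (∀ s t, |ρ s - ρ t| ≤ L * |s - t|) ∧ (∀ s, |ρ s| ≤ R) ∧
    ∀ s t, |s * ρ s - t * ρ t| ≤ (T * L + R) * |s - t| := by
  obtain ⟨L, hL⟩ := hρ.lip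
  have hT := hρ.T1
  have hL0 : 0 ≤ L := by
    have := hL 1 0
    have h1 : |(1 : ℝ) - 0| = 1 := by norm_num
    rw [h1] at this
    have := abs_nonneg (ρ 1 - ρ 0)
    linarith
  have hR : ∀ s, |ρ s| ≤ L * (2 * T + 1) := by
    intro s
    by_cases hs : T < |s|
    · rw [hρ.supp s hs, abs_zero]; positivity
    · push Not at hs
      have h1 := hL s (T + 1)
      rw [hρ.supp (T + 1) (by rw [abs_of_pos (by linarith)]; linarith), sub_zero] at h1
      refine h1.trans (mul_le_mul_of_nonneg_left ?_ hL0)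
      rw [abs_le] at hs ⊢
      constructor <;> linarith [hs.1, hs.2]
  refine ⟨L, L * (2 * T + 1), hL0, by positivity, hL, hR, ?_⟩
  have key : ∀ s t, |s| ≤ T →
      |s * ρ s - t * ρ t| ≤ (T * L + L * (2 * T + 1)) * |s - t| := by
    intro s t hs
    have e1 : s * ρ s - t * ρ t = s * (ρ s - ρ t) + (s - t) * ρ t := by ring
    rw [e1]
    refine (abs_add_le _ _).trans ?_
    rw [abs_mul, abs_mul]
    have h1 : |s| * |ρ s - ρ t| ≤ T * (L * |s - t|) :=
      mul_le_mul hs (hL s t) (abs_nonneg _) (by linarith)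
    have h2 : |s - t| * |ρ t| ≤ |s - t| * (L * (2 * T + 1)) :=
      mul_le_mul_of_nonneg_left (hR t) (abs_nonneg _)
    nlinarith
  intro s t
  by_cases hs : |s| ≤ T
  · exact key s t hs
  · by_cases ht : |t| ≤ T
    · have := key t s ht
      rw [abs_sub_comm, abs_sub_comm s t]
      exact this
    · push Not at hs ht
      rw [hρ.supp s hs, hρ.supp t ht]
      simp only [mul_zero, sub_zero, abs_zero]
      positivity

/-- the size parameter -/
noncomputable def kfb_S (u v : ℝ) : ℝ := 1 / |u| + 1 / |1 - u| + 1 / |v| + 1 / |1 - v|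

/-- range of `y` on the support -/
theorem kfb_range {T U : ℝ} (hT : 1 ≤ T) (hU : 1 ≤ U) {u t y : ℝ} (hu0 : u ≠ 0) (hu1 : u ≠ 1)
    (hu : |u| ≤ U) (ht : |t| ≤ T) (hy : 0 < y) (h : |tp u t y| ≤ T) :
    y ≤ (T + (1 + U) * (1 + T ^ 2) + (1 + 2 * U) * T) * (1 / |u|) ∧
      1 / y ≤ (T + (1 + U) * (1 + T ^ 2) + (1 + 2 * U) * T) * (1 / |1 - u|) := by
  have hup : 0 < |u| := abs_pos.mpr hu0
  have hup1 : 0 < |1 - u| := abs_pos.mpr (sub_ne_zero.mpr (Ne.symm hu1))
  have h1u : |1 - u| ≤ 1 + U := by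
    rw [abs_le] at hu ⊢; constructor <;> linarith [hu.1, hu.2]
  have h12u : |1 - 2 * u| ≤ 1 + 2 * U := by
    rw [abs_le] at hu ⊢; constructor <;> linarith [hu.1, hu.2]
  have ht2 : t ^ 2 ≤ T ^ 2 := by
    rw [← sq_abs t]; exact pow_le_pow_left₀ (abs_nonneg _) ht 2
  have hmul : |(1 - 2 * u) * t| ≤ (1 + 2 * U) * T := by
    rw [abs_mul]; exact mul_le_mul h12u ht (abs_nonneg _) (by linarith)
  have hU0 : (0 : ℝ) ≤ (1 + 2 * U) * T := by positivity
  have hq : (0 : ℝ) ≤ (1 + U) * T ^ 2 := by positivity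
  constructor
  · rw [mul_one_div, le_div_iff₀ hup]
    by_cases hy1 : y ≤ 1
    · calc y * |u| ≤ 1 * U := mul_le_mul hy1 hu hup.le (by norm_num)
        _ ≤ _ := by nlinarith
    · push Not at hy1
      have e1 : u * (1 + t ^ 2) * y = (1 - u) / y + (1 - 2 * u) * t - tp u t y := by
        unfold tp; ring
      have e2 : |u * (1 + t ^ 2) * y| ≤ |(1 - u) / y| + |(1 - 2 * u) * t| + |tp u t y| := by
        rw [e1]
        refine (abs_sub _ _).trans ?_
        gcongr
        exact abs_add_le _ _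
      have e3 : |(1 - u) / y| ≤ 1 + U := by
        rw [abs_div, abs_of_pos hy]
        exact (div_le_self (abs_nonneg _) hy1.le).trans h1u
      have e4 : |u * (1 + t ^ 2) * y| = (y * |u|) * (1 + t ^ 2) := by
        rw [abs_mul, abs_mul, abs_of_pos hy, abs_of_pos (by positivity : (0 : ℝ) < 1 + t ^ 2)]
        ring
      rw [e4] at e2
      have e5 : y * |u| ≤ (y * |u|) * (1 + t ^ 2) := by
        have : 0 ≤ y * |u| * t ^ 2 := by positivity
        nlinarith
      nlinarith
  · rw [mul_one_div, div_le_div_iff₀ hy hup1]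
    by_cases hy1 : 1 ≤ y
    · have : 1 * |1 - u| ≤ (1 + U) * 1 := by linarith
      nlinarith
    · push Not at hy1
      have e1 : (1 - u) / y = u * (1 + t ^ 2) * y + (-((1 - 2 * u) * t)) + tp u t y := by
        unfold tp; ring
      have e2 : |(1 - u) / y| ≤ |u * (1 + t ^ 2) * y| + |(1 - 2 * u) * t| + |tp u t y| := by
        rw [e1]
        refine (abs_add_le _ _).trans ?_
        gcongr
        refine (abs_add_le _ _).trans ?_
        rw [abs_neg]
      have e4 : |u * (1 + t ^ 2) * y| ≤ U * (1 + T ^ 2) := by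
        rw [abs_mul, abs_mul, abs_of_pos hy, abs_of_pos (by positivity : (0 : ℝ) < 1 + t ^ 2)]
        calc |u| * (1 + t ^ 2) * y ≤ |u| * (1 + t ^ 2) * 1 := by gcongr
          _ ≤ U * (1 + T ^ 2) := by rw [mul_one]; gcongr
      have e5 : |(1 - u) / y| ≤ T + (1 + U) * (1 + T ^ 2) + (1 + 2 * U) * T := by nlinarith
      rw [abs_div, abs_of_pos hy, div_le_iff₀ hy] at e5
      linarith

/-- integrals of bounded functions with bounded support -/
theorem kfb_int {f : ℝ → ℝ → ℝ} (hf : Measurable (fun p : ℝ × ℝ => f p.1 p.2)) {T Y W : ℝ}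
    (hT : 0 ≤ T) (hY : 0 ≤ Y) (_ : 0 ≤ W)
    (hb : ∀ t y, 0 < y → |f t y| ≤ W) (h0 : ∀ t y, 0 < y → (T < |t| ∨ Y < y) → f t y = 0) :
    (∀ t, IntegrableOn (f t) (Set.Ioi 0)) ∧
    Integrable (fun t => ∫ y in Set.Ioi (0 : ℝ), f t y) ∧
    |∫ t : ℝ, ∫ y in Set.Ioi (0 : ℝ), f t y| ≤ 2 * T * (W * Y) := by
  have hm1 : ∀ t, Measurable (f t) := fun t => hf.comp (measurable_const.prodMk measurable_id)
  have hi : ∀ t, IntegrableOn (f t) (Set.Ioi 0) := by
    intro t
    have h1 : Set.Ioi (0 : ℝ) = Set.Ioc 0 Y ∪ Set.Ioi Y := (Set.Ioc_union_Ioi_eq_Ioi hY).symm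
    rw [h1]
    refine IntegrableOn.union ?_ ?_
    · refine Measure.integrableOn_of_bounded (M := W) (by simp) (hm1 t).aestronglyMeasurable ?_
      refine (ae_restrict_iff' measurableSet_Ioc).mpr (Eventually.of_forall fun y hy => ?_)
      rw [Real.norm_eq_abs]
      exact hb t y hy.1
    · refine (integrableOn_zero (s := Set.Ioi Y)).congr_fun ?_ measurableSet_Ioi
      intro y hy
      exact (h0 t y (lt_of_le_of_lt hY hy) (Or.inr hy)).symm
  have hin : ∀ t, |∫ y in Set.Ioi (0 : ℝ), f t y| ≤ W * Y := by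
    intro t
    have h1 : ∫ y in Set.Ioi (0 : ℝ), f t y = ∫ y in Set.Ioc 0 Y, f t y := by
      refine setIntegral_eq_of_subset_of_forall_sdiff_eq_zero measurableSet_Ioi
        (fun y hy => hy.1) ?_
      intro y hy
      refine h0 t y hy.1 (Or.inr ?_)
      by_contra hc
      push Not at hc
      exact hy.2 ⟨hy.1, hc⟩
    rw [h1]
    have h2 := norm_setIntegral_le_of_norm_le_const (μ := volume) (s := Set.Ioc 0 Y) (f := f t)
      (C := W) (by simp) (fun y hy => by rw [Real.norm_eq_abs]; exact hb t y hy.1)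
    rw [Real.norm_eq_abs] at h2
    refine h2.trans (le_of_eq ?_)
    simp [hY]
  have hz : ∀ t, T < |t| → ∫ y in Set.Ioi (0 : ℝ), f t y = 0 := by
    intro t ht
    rw [setIntegral_congr_fun (g := fun _ => (0 : ℝ)) measurableSet_Ioi
      (fun y hy => h0 t y hy (Or.inl ht))]
    simp
  have hm : StronglyMeasurable (fun t => ∫ y in Set.Ioi (0 : ℝ), f t y) :=
    hf.stronglyMeasurable.integral_prod_right'
  have hset : ∫ t : ℝ, ∫ y in Set.Ioi (0 : ℝ), f t y =
      ∫ t in Set.Icc (-T) T, ∫ y in Set.Ioi (0 : ℝ), f t y := by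
    symm
    refine setIntegral_eq_integral_of_forall_compl_eq_zero ?_
    intro t ht
    refine hz t ?_
    by_contra hc
    push Not at hc
    exact ht (abs_le.mp hc)
  refine ⟨hi, ?_, ?_⟩
  · have h1 : IntegrableOn (fun t => ∫ y in Set.Ioi (0 : ℝ), f t y) (Set.Icc (-T) T) := by
      refine Measure.integrableOn_of_bounded (M := W * Y) (by simp)
        hm.aestronglyMeasurable ?_
      refine Eventually.of_forall fun t => ?_
      rw [Real.norm_eq_abs]
      exact hin t
    rw [← integrableOn_univ]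
    refine h1.of_forall_sdiff_eq_zero MeasurableSet.univ ?_
    intro t ht
    refine hz t ?_
    by_contra hc
    push Not at hc
    exact ht.2 (abs_le.mp hc)
  · rw [hset]
    have h2 := norm_setIntegral_le_of_norm_le_const (μ := volume) (s := Set.Icc (-T) T)
      (f := fun t => ∫ y in Set.Ioi (0 : ℝ), f t y)
      (C := W * Y) (by simp) (fun t _ => by rw [Real.norm_eq_abs]; exact hin t)
    rw [Real.norm_eq_abs] at h2
    refine h2.trans (le_of_eq ?_)
    rw [Measure.real, Real.volume_Icc, ENNReal.toReal_ofReal (by linarith)]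
    ring

/-- the pointwise bounds -/
theorem kfb_point {T : ℝ} {ρ : ℝ → ℝ} (hρ : KerL T ρ) {U : ℝ} (hU : 1 ≤ U) :
    ∃ K C : ℝ, 0 < K ∧ 0 < C ∧ ∀ u v : ℝ, u ≠ 0 → u ≠ 1 → v ≠ 0 → v ≠ 1 → |u| ≤ U → |v| ≤ U →
      (∀ t y, 0 < y → |kfb_F ρ u t y| ≤ K * kfb_S u v) ∧
      (∀ t y, 0 < y → (T < |t| ∨ C * kfb_S u v < y) → kfb_F ρ u t y = 0) ∧
      (∀ t y, 0 < y → |kfb_F ρ u t y - kfb_F ρ v t y| ≤ K * |u - v| * kfb_S u v ^ 2) := by
  obtain ⟨L, R, hL, hR, hLip, hB, hLip2⟩ := kfb_rho hρ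
  have hT := hρ.T1
  have hT0 : 0 ≤ T := by linarith
  have hU0 : 0 ≤ U := by linarith
  obtain ⟨C1, hC1⟩ : ∃ C1, C1 = T + (1 + U) * (1 + T ^ 2) + (1 + 2 * U) * T := ⟨_, rfl⟩
  have hC10 : 0 < C1 := by rw [hC1]; positivity
  obtain ⟨C3, hC3⟩ : ∃ C3, C3 = C1 + (1 + T ^ 2) * C1 + 2 * T * U := ⟨_, rfl⟩
  have hC30 : 0 ≤ C3 := by rw [hC3]; positivity
  obtain ⟨C5, hC5⟩ : ∃ C5, C5 = ((1 + 2 * U) * L + T * (T * L + R)) * C3 + 2 * R * U := ⟨_, rfl⟩
  have hC50 : 0 ≤ C5 := by rw [hC5]; positivity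
  refine ⟨(1 + 2 * U + T ^ 2) * R * R * C1 + R * C1 * C5 + 1, C1, by positivity, hC10, ?_⟩
  intro u v hu0 hu1 hv0 hv1 hu hv
  have p1 : 0 < 1 / |u| := by have := abs_pos.mpr hu0; positivity
  have p2 : 0 < 1 / |1 - u| := by
    have := abs_pos.mpr (sub_ne_zero.mpr (Ne.symm hu1)); positivity
  have p3 : 0 < 1 / |v| := by have := abs_pos.mpr hv0; positivity
  have p4 : 0 < 1 / |1 - v| := by
    have := abs_pos.mpr (sub_ne_zero.mpr (Ne.symm hv1)); positivity
  obtain ⟨S, hS⟩ : ∃ S, S = kfb_S u v := ⟨_, rfl⟩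
  rw [← hS]
  have hS' : S = 1 / |u| + 1 / |1 - u| + 1 / |v| + 1 / |1 - v| := hS
  have hSpos : 0 < S := by rw [hS']; positivity
  have hUS : 1 ≤ U * S := by
    have h1 : 1 ≤ U * (1 / |u|) := by
      rw [mul_one_div, le_div_iff₀ (abs_pos.mpr hu0)]; linarith
    have h2 : 1 / |u| ≤ S := by rw [hS']; linarith
    calc (1 : ℝ) ≤ U * (1 / |u|) := h1
      _ ≤ U * S := mul_le_mul_of_nonneg_left h2 hU0
  have hru : ∀ t y, 0 < y → |t| ≤ T → |tp u t y| ≤ T → y ≤ C1 * S ∧ 1 / y ≤ C1 * S := by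
    intro t y hy ht h
    obtain ⟨h1, h2⟩ := kfb_range hT hU hu0 hu1 hu ht hy h
    rw [← hC1] at h1 h2
    exact ⟨h1.trans (mul_le_mul_of_nonneg_left (by rw [hS']; linarith) hC10.le),
      h2.trans (mul_le_mul_of_nonneg_left (by rw [hS']; linarith) hC10.le)⟩
  have hrv : ∀ t y, 0 < y → |t| ≤ T → |tp v t y| ≤ T → y ≤ C1 * S ∧ 1 / y ≤ C1 * S := by
    intro t y hy ht h
    obtain ⟨h1, h2⟩ := kfb_range hT hU hv0 hv1 hv ht hy h
    rw [← hC1] at h1 h2
    exact ⟨h1.trans (mul_le_mul_of_nonneg_left (by rw [hS']; linarith) hC10.le),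
      h2.trans (mul_le_mul_of_nonneg_left (by rw [hS']; linarith) hC10.le)⟩
  have hz1 : ∀ w t y, T < |t| → kfb_F ρ w t y = 0 := by
    intro w t y ht
    unfold kfb_F
    rw [hρ.supp t ht]; simp
  have hz2 : ∀ w t y, T < |tp w t y| → kfb_F ρ w t y = 0 := by
    intro w t y ht
    unfold kfb_F
    rw [hρ.supp (tp w t y) ht]; simp
  refine ⟨?_, ?_, ?_⟩
  · intro t y hy
    by_cases ht : |t| ≤ T
    · by_cases ht' : |tp u t y| ≤ T
      · obtain ⟨h1, h2⟩ := hru t y hy ht ht'
        have h3 : |1 - 2 * u + t * tp u t y| ≤ 1 + 2 * U + T ^ 2 := by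
          refine (abs_add_le _ _).trans ?_
          have e1 : |1 - 2 * u| ≤ 1 + 2 * U := by
            rw [abs_le] at hu ⊢; constructor <;> linarith [hu.1, hu.2]
          have e2 : |t * tp u t y| ≤ T ^ 2 := by
            rw [abs_mul, sq]; exact mul_le_mul ht ht' (abs_nonneg _) hT0
          linarith
        have h4 : |kfb_F ρ u t y| = |1 - 2 * u + t * tp u t y| * |ρ t| * |ρ (tp u t y)| * (1 / y) := by
          unfold kfb_F
          rw [abs_div, abs_mul, abs_mul, abs_of_pos hy]; ring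
        rw [h4]
        have hy1 : 0 ≤ 1 / y := by positivity
        calc |1 - 2 * u + t * tp u t y| * |ρ t| * |ρ (tp u t y)| * (1 / y)
            ≤ (1 + 2 * U + T ^ 2) * R * R * (C1 * S) := by
              gcongr
              · exact hB t
              · exact hB _
          _ = (1 + 2 * U + T ^ 2) * R * R * C1 * S := by ring
          _ ≤ ((1 + 2 * U + T ^ 2) * R * R * C1 + R * C1 * C5 + 1) * S := by
              refine mul_le_mul_of_nonneg_right ?_ hSpos.le
              have : 0 ≤ R * C1 * C5 := by positivity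
              linarith
      · push Not at ht'
        rw [hz2 u t y ht', abs_zero]; positivity
    · push Not at ht
      rw [hz1 u t y ht, abs_zero]; positivity
  · intro t y hy h
    rcases h with h | h
    · exact hz1 u t y h
    · by_cases ht : |t| ≤ T
      · by_cases ht' : |tp u t y| ≤ T
        · exact absurd (hru t y hy ht ht').1 (not_le.mpr h)
        · exact hz2 u t y (not_le.mp ht')
      · exact hz1 u t y (not_le.mp ht)
  · intro t y hy
    by_cases ht : |t| ≤ T
    · by_cases ht' : |tp u t y| ≤ T ∨ |tp v t y| ≤ T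
      · obtain ⟨h1, h2⟩ : y ≤ C1 * S ∧ 1 / y ≤ C1 * S := by
          rcases ht' with h | h
          · exact hru t y hy ht h
          · exact hrv t y hy ht h
        have hd : |tp u t y - tp v t y| ≤ |u - v| * (C3 * S) := by
          have e1 : tp u t y - tp v t y = (u - v) * (-(1 / y) + (-((1 + t ^ 2) * y)) + (-(2 * t))) := by
            unfold tp; field_simp; ring
          rw [e1, abs_mul]
          refine mul_le_mul_of_nonneg_left ?_ (abs_nonneg _)
          refine (abs_add_le _ _).trans ?_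
          have e2 : |-(1 / y) + -((1 + t ^ 2) * y)| ≤ 1 / y + (1 + t ^ 2) * y := by
            refine (abs_add_le _ _).trans ?_
            rw [abs_neg, abs_neg, abs_of_pos (by positivity), abs_of_pos (by positivity)]
          have e3 : |-(2 * t)| ≤ 2 * T := by
            rw [abs_neg, abs_mul, abs_two]; linarith
          have ht2 : t ^ 2 ≤ T ^ 2 := by
            rw [← sq_abs t]; exact pow_le_pow_left₀ (abs_nonneg _) ht 2
          have e4 : (1 + t ^ 2) * y ≤ (1 + T ^ 2) * (C1 * S) := by gcongr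
          have e5 : 2 * T ≤ 2 * T * (U * S) := by
            have : 0 ≤ 2 * T := by linarith
            nlinarith
          rw [hC3]
          nlinarith
        have hN : |(1 - 2 * u + t * tp u t y) * ρ (tp u t y) -
            (1 - 2 * v + t * tp v t y) * ρ (tp v t y)| ≤ |u - v| * (C5 * S) := by
          have e1 : (1 - 2 * u + t * tp u t y) * ρ (tp u t y) -
            (1 - 2 * v + t * tp v t y) * ρ (tp v t y) =
            (1 - 2 * u) * (ρ (tp u t y) - ρ (tp v t y)) + (-(2 * (u - v) * ρ (tp v t y))) +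
              t * (tp u t y * ρ (tp u t y) - tp v t y * ρ (tp v t y)) := by ring
          have f1 : |(1 - 2 * u) * (ρ (tp u t y) - ρ (tp v t y))| ≤
              (1 + 2 * U) * (L * (|u - v| * (C3 * S))) := by
            rw [abs_mul]
            have e1 : |1 - 2 * u| ≤ 1 + 2 * U := by
              rw [abs_le] at hu ⊢; constructor <;> linarith [hu.1, hu.2]
            refine mul_le_mul e1 ?_ (abs_nonneg _) (by positivity)
            exact (hLip _ _).trans (mul_le_mul_of_nonneg_left hd hL)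
          have f2 : |-(2 * (u - v) * ρ (tp v t y))| ≤ 2 * |u - v| * R * (U * S) := by
            rw [abs_neg, abs_mul, abs_mul, abs_two]
            calc 2 * |u - v| * |ρ (tp v t y)| ≤ 2 * |u - v| * R := by
                  refine mul_le_mul_of_nonneg_left (hB _) (by positivity)
              _ ≤ 2 * |u - v| * R * (U * S) :=
                  le_mul_of_one_le_right (by positivity) hUS
          have f3 : |t * (tp u t y * ρ (tp u t y) - tp v t y * ρ (tp v t y))| ≤
              T * ((T * L + R) * (|u - v| * (C3 * S))) := by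
            rw [abs_mul]
            refine mul_le_mul ht ?_ (abs_nonneg _) hT0
            exact (hLip2 _ _).trans (mul_le_mul_of_nonneg_left hd (by positivity))
          rw [e1]
          refine (abs_add_le _ _).trans ?_
          refine (add_le_add ((abs_add_le _ _).trans (add_le_add f1 f2)) f3).trans (le_of_eq ?_)
          rw [hC5]; ring
        have e1 : kfb_F ρ u t y - kfb_F ρ v t y = ((1 - 2 * u + t * tp u t y) * ρ (tp u t y) -
            (1 - 2 * v + t * tp v t y) * ρ (tp v t y)) * ρ t * (1 / y) := by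
          unfold kfb_F; ring
        rw [e1, abs_mul, abs_mul, abs_of_pos (by positivity : 0 < 1 / y)]
        calc |(1 - 2 * u + t * tp u t y) * ρ (tp u t y) -
            (1 - 2 * v + t * tp v t y) * ρ (tp v t y)| * |ρ t| * (1 / y)
            ≤ (|u - v| * (C5 * S)) * R * (C1 * S) := by
              gcongr
              exact hB t
          _ = (R * C1 * C5) * |u - v| * S ^ 2 := by ring
          _ ≤ _ := by
              gcongr
              have : 0 ≤ (1 + 2 * U + T ^ 2) * R * R * C1 := by positivity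
              linarith
      · push Not at ht'
        rw [hz2 u t y ht'.1, hz2 v t y ht'.2, sub_zero, abs_zero]; positivity
    · push Not at ht
      rw [hz1 u t y ht, hz1 v t y ht, sub_zero, abs_zero]; positivity

theorem gg_lip_pr {T : ℝ} {ρ : ℝ → ℝ} (hρ : KerL T ρ) : ∃ C : ℝ, 0 < C ∧ ∀ u v : ℝ, u ≠ 0 → u ≠ 1 →
    v ≠ 0 → v ≠ 1 → |GG ρ u - GG ρ v| ≤
      C * |u - v| * (1 / |u| + 1 / |1 - u| + 1 / |v| + 1 / |1 - v|) ^ 3 := by
  have hT := hρ.T1
  have hT0 : 0 ≤ T := by linarith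
  obtain ⟨U, hUd⟩ : ∃ U, U = 2 + T ^ 2 := ⟨_, rfl⟩
  have hU : 1 ≤ U := by rw [hUd]; nlinarith
  obtain ⟨K, C, hK, hC, hp⟩ := kfb_point hρ hU
  have hmeas : ∀ u, Measurable (fun p : ℝ × ℝ => kfb_F ρ u p.1 p.2) := fun u =>
    (kfb_meas hρ.cont).comp ((measurable_const.prodMk measurable_fst).prodMk measurable_snd)
  have hSpos : ∀ u v : ℝ, u ≠ 0 → 0 < kfb_S u v := by
    intro u v hu
    have := abs_pos.mpr hu
    unfold kfb_S
    positivity
  have hsingle : ∀ v : ℝ, v ≠ 0 → v ≠ 1 → |v| ≤ U →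
      |GG ρ v| ≤ 2 * T * ((K * kfb_S v v) * (C * kfb_S v v)) := by
    intro v h0 h1 hv
    obtain ⟨a1, a2, _⟩ := hp v v h0 h1 h0 h1 hv hv
    have hS := hSpos v v h0
    exact (kfb_int (hmeas v) hT0 (by positivity) (by positivity) a1 a2).2.2
  have hfar : ∀ u v : ℝ, u ≠ 0 → u ≠ 1 → v ≠ 0 → v ≠ 1 → U < |u| → |v| ≤ U →
      |GG ρ v| ≤ (8 * T * K * C * (U + 1)) * |u - v| * kfb_S u v ^ 3 := by
    intro u v hu0 hu1 hv0 hv1 hu hv
    by_cases hv2 : 1 + T ^ 2 < |v|
    · rw [gg_supp hρ hv2, abs_zero]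
      have := hSpos u v hu0
      positivity
    · push Not at hv2
      have huv : 1 ≤ |u - v| := by
        have := abs_sub_abs_le_abs_sub u v
        rw [hUd] at hu
        linarith
      have h1 := hsingle v hv0 hv1 hv
      have hS := hSpos u v hu0
      have hSv := hSpos v v hv0
      have h2 : kfb_S v v ≤ 2 * kfb_S u v := by
        unfold kfb_S
        have : 0 ≤ 1 / |u| := by positivity
        have : 0 ≤ 1 / |1 - u| := by positivity
        linarith
      have hUS : 1 ≤ U * kfb_S u v := by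
        have h1 : 1 ≤ U * (1 / |v|) := by
          rw [mul_one_div, le_div_iff₀ (abs_pos.mpr hv0)]; linarith
        have h2 : 1 / |v| ≤ kfb_S u v := by
          unfold kfb_S
          have : 0 ≤ 1 / |u| := by positivity
          have : 0 ≤ 1 / |1 - u| := by positivity
          have : 0 ≤ 1 / |1 - v| := by positivity
          linarith
        calc (1 : ℝ) ≤ U * (1 / |v|) := h1
          _ ≤ U * kfb_S u v := mul_le_mul_of_nonneg_left h2 (by linarith)
      calc |GG ρ v| ≤ 2 * T * ((K * kfb_S v v) * (C * kfb_S v v)) := h1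
        _ ≤ 2 * T * ((K * (2 * kfb_S u v)) * (C * (2 * kfb_S u v))) := by gcongr
        _ = (8 * T * K * C) * kfb_S u v ^ 2 * 1 * 1 := by ring
        _ ≤ (8 * T * K * C) * kfb_S u v ^ 2 * (U * kfb_S u v) * |u - v| := by gcongr
        _ = (8 * T * K * C * U) * |u - v| * kfb_S u v ^ 3 := by ring
        _ ≤ _ := by
            gcongr
            linarith
  have hsymm : ∀ u v : ℝ, kfb_S u v = kfb_S v u := by
    intro u v; unfold kfb_S; ring
  refine ⟨8 * T * K * C * (U + 1), by positivity, ?_⟩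
  intro u v hu0 hu1 hv0 hv1
  change |GG ρ u - GG ρ v| ≤ (8 * T * K * C * (U + 1)) * |u - v| * kfb_S u v ^ 3
  by_cases hu : |u| ≤ U
  · by_cases hv : |v| ≤ U
    · obtain ⟨a1, a2, a3⟩ := hp u v hu0 hu1 hv0 hv1 hu hv
      obtain ⟨b1, b2, _⟩ := hp v u hv0 hv1 hu0 hu1 hv hu
      have hS := hSpos u v hu0
      rw [hsymm v u] at b1 b2
      obtain ⟨c1, c2, _⟩ := kfb_int (hmeas u) hT0 (by positivity) (by positivity) a1 a2
      obtain ⟨d1, d2, _⟩ := kfb_int (hmeas v) hT0 (by positivity) (by positivity) b1 b2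
      have e1 := (kfb_int (f := fun t y => kfb_F ρ u t y - kfb_F ρ v t y)
        ((hmeas u).sub (hmeas v)) hT0 (Y := C * kfb_S u v)
        (W := K * |u - v| * kfb_S u v ^ 2) (by positivity) (by positivity) a3
        (fun t y hy h => by rw [a2 t y hy h, b2 t y hy h, sub_zero])).2.2
      have e2 : GG ρ u - GG ρ v =
          ∫ t : ℝ, ∫ y in Set.Ioi (0 : ℝ), (kfb_F ρ u t y - kfb_F ρ v t y) := by
        rw [kfb_gg, kfb_gg, ← integral_sub c2 d2]
        refine integral_congr_ae (Eventually.of_forall fun t => ?_)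
        exact (integral_sub (c1 t) (d1 t)).symm
      rw [e2]
      refine e1.trans ?_
      calc 2 * T * (K * |u - v| * kfb_S u v ^ 2 * (C * kfb_S u v))
          = (2 * T * K * C * 1) * |u - v| * kfb_S u v ^ 3 := by ring
        _ ≤ (8 * T * K * C * (U + 1)) * |u - v| * kfb_S u v ^ 3 := by
            gcongr <;> linarith
    · push Not at hv
      have hv2 : 1 + T ^ 2 < |v| := by rw [hUd] at hv; linarith
      rw [gg_supp hρ hv2, sub_zero]
      have := hfar v u hv0 hv1 hu0 hu1 hv hu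
      rwa [hsymm v u, abs_sub_comm v u] at this
  · push Not at hu
    have hu2 : 1 + T ^ 2 < |u| := by rw [hUd] at hu; linarith
    rw [gg_supp hρ hu2, zero_sub, abs_neg]
    by_cases hv : |v| ≤ U
    · exact hfar u v hu0 hu1 hv0 hv1 hu hv
    · push Not at hv
      have hv2 : 1 + T ^ 2 < |v| := by rw [hUd] at hv; linarith
      rw [gg_supp hρ hv2, abs_zero]
      have := hSpos u v hu0
      positivity

theorem gg_lip : type_of% @gg_lip_pr := @gg_lip_pr
theorem gg_meas : type_of% @gg_meas_pr := @gg_meas_pr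

end Pool.Agent.LSP
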