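import Pool.Agent.Lib_helper41.LSPG.KFA
import Pool.Agent.Lib_helper41.LSPG.KFB
import Pool.Agent.Lib_helper31.LSP.DefsO

namespace Pool.Agent.LSP

/-- the function `GG` satisfies the hypotheses of part O -/
theorem gok_gg {T : ℝ} {ρ : ℝ → ℝ} (hρ : KerL T ρ) : ∃ c : ℝ, LSPO.GOK (GG ρ) (1 + T ^ 2) c := by
  obtain ⟨C₁, h1, h1'⟩ := gg_bound hρ
  obtain ⟨C₂, h2, h2'⟩ := gg_lip hρ
  refine ⟨max 1 (max C₁ C₂), ?_, le_max_left _ _, ?_, ?_, ?_⟩
  · nlinarith [sq_nonneg T]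
  · intro u hu
    exact gg_supp hρ hu
  · intro u hu hu1
    refine (h1' u hu hu1).trans ?_
    rw [Real.log_abs, Real.log_abs]
    refine mul_le_mul_of_nonneg_right ((le_max_left C₁ C₂).trans (le_max_right _ _)) ?_
    positivity
  · intro u v hu hu1 hv hv1
    refine (h2' u v hu hu1 hv hv1).trans ?_
    rw [one_div, one_div, one_div, one_div]
    refine mul_le_mul_of_nonneg_right ?_ (by positivity)
    exact mul_le_mul_of_nonneg_right ((le_max_right C₁ C₂).trans (le_max_right _ _)) (abs_nonneg _)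

/-- the antisymmetry -/
theorem gg_anti_all {T : ℝ} {ρ : ℝ → ℝ} (hρ : KerL T ρ) (u : ℝ) : GG ρ (1 - u) = -GG ρ u :=
  gg_anti ρ hρ.even u

end Pool.Agent.LSP
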