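import Pool.Agent.Lib_helper41.LSP.DefsG
import Pool.Agent.Lib_helper68.LEV.GID
import Pool.Agent.Lib_helper68.LEV.GIH
import Pool.Agent.Lib_helper68.LEV.LHI
import Pool.Agent.Lib_helper68.LEV.HPO
import Pool.Agent.Lib_helper68.KSLF.GHK
import Pool.Agent.Lib_helper68.KSLF.WWF

/-! LSP, part G, block GHF. -/

namespace Pool.Agent.LSP

open Pool.Agent.LEV Pool.Agent.LVB Pool.Agent.KSL
open Pool.Agent.FG61 (mu phi cc ff AA Lam)
open Complex MeasureTheory Filter Topology UpperHalfPlane ModularGroup ProbabilityTheory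
open scoped MatrixGroups Modular ENNReal ModularForm ComplexConjugate ContDiff

section
variable {N : ℕ} [Fact N.Prime]

/-- the transformation formula -/
theorem ghf_trans (f : S2 N) {W : S2 N →ₗ[ℂ] S2 N} (hW : IsFricke W) {e j α : ℕ} (he : 0 < e)
    (hα : ∃ b : ℤ, (N : ℤ) * α * j + 1 = e * b) {u : ℝ} (hu : 0 < u) :
    ev f ((α : ℝ) / e) u = -(((N : ℂ) * (e : ℂ) ^ 2 * (u : ℂ) ^ 2)⁻¹ *
      ev (W f) ((j : ℝ) / e) (1 / (N * (e : ℝ) ^ 2 * u))) := by
  obtain ⟨b, hb⟩ := hα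
  have hN : (0 : ℝ) < N := by exact_mod_cast (Fact.out : N.Prime).pos
  have heR : (0 : ℝ) < e := by exact_mod_cast he
  set v : ℝ := 1 / (N * (e : ℝ) ^ 2 * u) with hv_def
  have hv : 0 < v := by positivity
  have hzim : 0 < (((((j : ℝ) / e : ℝ)) : ℂ) + (v : ℂ) * Complex.I).im := by
    rw [GID_im]
    exact hv
  set z : ℍ := ⟨((((j : ℝ) / e : ℝ)) : ℂ) + (v : ℂ) * Complex.I, hzim⟩ with hz_def
  have hzc : (z : ℂ) = ((((j : ℝ) / e : ℝ)) : ℂ) + (v : ℂ) * Complex.I := rfl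
  -- the matrix
  have hdet : (e : ℤ) * b - (-(j : ℤ)) * (-((N : ℤ) * α)) = 1 := by
    rw [← hb]
    ring
  set g : SL(2, ℤ) := ⟨!![(e : ℤ), -(j : ℤ); -((N : ℤ) * α), b], by
    rw [Matrix.det_fin_two_of]
    exact hdet⟩ with hg_def
  have g00 : g 0 0 = (e : ℤ) := rfl
  have g01 : g 0 1 = -(j : ℤ) := rfl
  have g10 : g 1 0 = -((N : ℤ) * α) := rfl
  have g11 : g 1 1 = b := rfl
  have hg0 : g ∈ CongruenceSubgroup.Gamma0 N := by
    rw [CongruenceSubgroup.Gamma0_mem, g10]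
    push_cast
    simp
  -- equivariance
  have heq := fam_equi (W f) g OnePoint.infty z
  rw [(pa_inf_iff g).mpr hg0, fam_inf] at heq
  have hfr := hW f (g • z)
  rw [heq] at hfr
  -- the points
  have hjd : jd g z = (b : ℂ) - (N : ℂ) * α * z := by
    unfold jd
    rw [g10, g11]
    push_cast
    ring
  have hgz : ((g • z : ℍ) : ℂ) = ((e : ℂ) * z - j) / jd g z := by
    rw [Pool.Agent.GL2.RSA_coe_smul, g00, g01]
    unfold jd
    push_cast
    ring
  have hjd0 : jd g z ≠ 0 := Pool.Agent.GL2.RSA_denom_ne g z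
  have heC : (e : ℂ) ≠ 0 := by exact_mod_cast he.ne'
  have hNC : (N : ℂ) ≠ 0 := by exact_mod_cast hN.ne'
  have huC : (u : ℂ) ≠ 0 := by exact_mod_cast hu.ne'
  have hvC : (v : ℂ) = 1 / ((N : ℂ) * (e : ℂ) ^ 2 * (u : ℂ)) := by
    rw [hv_def]
    push_cast
    ring
  have hezj : (e : ℂ) * z - j = (e : ℂ) * (v : ℂ) * Complex.I := by
    rw [hzc]
    push_cast
    have : (e : ℂ) ≠ 0 := by exact_mod_cast he.ne'
    field_simp
    ring
  have hwz : wz N (g • z) = ⟨((((α : ℝ) / e : ℝ)) : ℂ) + (u : ℂ) * Complex.I, by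
      rw [GID_im]; exact hu⟩ := by
    apply UpperHalfPlane.ext
    show -1 / ((N : ℂ) * ((g • z : ℍ) : ℂ)) = ((((α : ℝ) / e : ℝ)) : ℂ) + (u : ℂ) * Complex.I
    rw [hgz, hezj]
    have h5 : jd g z = (e : ℂ)⁻¹ - (N : ℂ) * α * (v : ℂ) * Complex.I := by
      rw [hjd, hzc]
      have h6 : (b : ℂ) = ((N : ℂ) * α * j + 1) / e := by
        rw [eq_div_iff heC]
        have h7 := congrArg (fun t : ℤ => (t : ℂ)) hb
        push_cast at h7
        rw [h7]
        ring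
      rw [h6]
      push_cast
      field_simp
      ring
    have h8 : -1 / ((N : ℂ) * ((e : ℂ) * (v : ℂ) * Complex.I / jd g z)) =
        -(jd g z) / ((N : ℂ) * ((e : ℂ) * (v : ℂ) * Complex.I)) := by
      field_simp
    rw [h8, h5, hvC]
    push_cast
    have hI : Complex.I ≠ 0 := Complex.I_ne_zero
    field_simp
    ring_nf
    rw [Complex.I_sq]
    ring
  rw [hwz] at hfr
  rw [GID_ev f _ hu, GID_ev (W f) _ hv]
  have h9 : ((g • z : ℍ) : ℂ) ≠ 0 := (g • z : ℍ).ne_zero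
  have h10 : f (⟨((((α : ℝ) / e : ℝ)) : ℂ) + (u : ℂ) * Complex.I, by rw [GID_im]; exact hu⟩ : ℍ) =
      ((N : ℂ) * ((g • z : ℍ) : ℂ) ^ 2 * (jd g z ^ 2 * (W f) z)) := by
    have h11 : (N : ℂ) * ((g • z : ℍ) : ℂ) ^ 2 ≠ 0 := by positivity
    rw [hfr, mul_inv_cancel_left₀ h11]
  rw [h10, hgz]
  have h12 : (N : ℂ) * (((e : ℂ) * z - j) / jd g z) ^ 2 * (jd g z ^ 2 * (W f) z) =
      (N : ℂ) * ((e : ℂ) * z - j) ^ 2 * (W f) z := by
    field_simp
  rw [h12, hezj]
  have h13 : (Complex.I) ^ 2 = -1 := Complex.I_sq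
  show _ = -(_ * (W f) z)
  generalize (W f) z = w
  rw [hvC]
  have h14 : ((e : ℂ) * (1 / ((N : ℂ) * (e : ℂ) ^ 2 * (u : ℂ))) * Complex.I) ^ 2 =
      -((e : ℂ) * (1 / ((N : ℂ) * (e : ℂ) ^ 2 * (u : ℂ)))) ^ 2 := by
    rw [mul_pow _ Complex.I, h13]
    ring
  rw [h14]
  field_simp

/-- the part near zero -/
theorem ghf_near (f : S2 N) {e j α : ℕ} (he : 0 < e)
    (hα : ∃ b : ℤ, (N : ℤ) * α * j + 1 = e * b) :
    IntegrableOn (fun v : ℝ => ev f ((j : ℝ) / e) v)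
      (Set.Ioo 0 (1 / ((e : ℝ) * Real.sqrt N))) := by
  obtain ⟨W, hW⟩ := fricke_exists (N := N)
  have hN : (0 : ℝ) < N := by exact_mod_cast (Fact.out : N.Prime).pos
  have heR : (0 : ℝ) < e := by exact_mod_cast he
  have hsN : 0 < Real.sqrt N := Real.sqrt_pos.mpr hN
  set c : ℝ := 1 / ((e : ℝ) * Real.sqrt N) with hc_def
  have hc : 0 < c := by positivity
  set κ : ℝ := N * (e : ℝ) ^ 2 with hκ_def
  have hκ : 0 < κ := by positivity
  have hcκ : κ * c * c = 1 := by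
    have hs : Real.sqrt N * Real.sqrt N = N := Real.mul_self_sqrt hN.le
    rw [hκ_def, hc_def]
    field_simp
    nlinarith
  have himg := GID_image hc hκ hcκ
  have hder : ∀ u ∈ Set.Ioi c, HasDerivWithinAt (fun u : ℝ => 1 / (κ * u))
      (-(1 / (κ * u ^ 2))) (Set.Ioi c) u := by
    intro u hu
    exact (GID_deriv hκ (hc.trans hu)).hasDerivWithinAt
  have hfun : Set.EqOn (fun u : ℝ => |(-(1 / (κ * u ^ 2)))| • ev f ((j : ℝ) / e) (1 / (κ * u)))
      (fun u : ℝ => -ev (W f) ((α : ℝ) / e) u) (Set.Ioi c) := by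
    intro u hu
    have hu0 : 0 < u := hc.trans hu
    show |(-(1 / (κ * u ^ 2)))| • ev f ((j : ℝ) / e) (1 / (κ * u)) = -ev (W f) ((α : ℝ) / e) u
    rw [ghf_trans (W f) hW he hα hu0, fricke_sq hW f, neg_neg, abs_neg,
      abs_of_pos (by positivity), Complex.real_smul]
    rw [hκ_def]
    push_cast
    rw [one_div]
  rw [← himg, integrableOn_image_iff_integrableOn_abs_deriv_smul measurableSet_Ioi hder
    (GID_inj hκ hc)]
  exact (integrableOn_congr_fun hfun measurableSet_Ioi).mpr (GID_int (W f) _ hc).neg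

theorem ghf_int_coprime (f : S2 N) {e j : ℕ} (he : 0 < e) (heN : e.Coprime N) (hj : e.Coprime j) :
    IntegrableOn (fun v : ℝ => ev f ((j : ℝ) / e) v) (Set.Ioi 0) := by
  have hN : (0 : ℝ) < N := by exact_mod_cast (Fact.out : N.Prime).pos
  have heR : (0 : ℝ) < e := by exact_mod_cast he
  have hsN : 0 < Real.sqrt N := Real.sqrt_pos.mpr hN
  set c : ℝ := 1 / ((e : ℝ) * Real.sqrt N) with hc_def
  have hc : 0 < c := by positivity
  have hun : Set.Ioc 0 c ∪ Set.Ioi c = Set.Ioi 0 := Set.Ioc_union_Ioi_eq_Ioi hc.le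
  have hcop : (N * j).Coprime e := Nat.Coprime.mul_left heN.symm hj.symm
  rw [← hun]
  refine IntegrableOn.union ?_ (GID_int f _ hc)
  rw [integrableOn_Ioc_iff_integrableOn_Ioo]
  exact ghf_near f he (GID_al_ex he hcop)

/-- integrability for all fractions -/
theorem ghf_int (f : S2 N) {e : ℕ} (he : 0 < e) (heN : e.Coprime N) (j : ℕ) :
    IntegrableOn (fun v : ℝ => ev f ((j : ℝ) / e) v) (Set.Ioi 0) := by
  have hg : 0 < e.gcd j := Nat.gcd_pos_of_pos_left j he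
  set d := e / e.gcd j with hd
  set i := j / e.gcd j with hi
  have hde : d ∣ e := Nat.div_dvd_of_dvd (Nat.gcd_dvd_left e j)
  have hd0 : 0 < d := Nat.pos_of_dvd_of_pos hde he
  have hcop : d.Coprime i := Nat.coprime_div_gcd_div_gcd hg
  have h := ghf_int_coprime f hd0 (Nat.Coprime.coprime_dvd_left hde heN) hcop
  have heq : ((j : ℝ) / e) = ((i : ℝ) / d) := by
    have e1 : e = e.gcd j * d := (Nat.mul_div_cancel' (Nat.gcd_dvd_left e j)).symm
    have e2 : j = e.gcd j * i := (Nat.mul_div_cancel' (Nat.gcd_dvd_right e j)).symm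
    have e3 : (e : ℝ) = (e.gcd j : ℝ) * d := by exact_mod_cast e1
    have e4 : (j : ℝ) = (e.gcd j : ℝ) * i := by exact_mod_cast e2
    have hgR : ((e.gcd j : ℕ) : ℝ) ≠ 0 := by exact_mod_cast hg.ne'
    rw [e3, e4, mul_div_mul_left _ _ hgR]
  rw [heq]
  exact h

theorem ghf_intH (f : S2 N) {e : ℕ} (he : 0 < e)
    (heN : e.Coprime N) : IntegrableOn (fun v : ℝ => GIH_H f e v) (Set.Ioi 0) := by
  unfold GIH_H
  exact MeasureTheory.integrable_finsetSum _ (fun j _ => ghf_int f he heN j)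

theorem ghf_total {f : S2 N} (hf : IsNew f) {m : ℕ} (hm : 1 ≤ m)
    (hmN : m.Coprime N) : ∑ e ∈ m.divisors, GIH_I f e = co f m * GIH_I f 1 := by
  rw [← Nat.sum_div_divisors m (fun e => GIH_I f e)]
  have h2 : ∫ v in Set.Ioi (0 : ℝ), co f m * GIH_H f 1 v =
      ∫ v in Set.Ioi (0 : ℝ), ∑ d ∈ m.divisors, ((d : ℂ) / ((m / d : ℕ) : ℂ)) *
      GIH_H f (m / d) ((d : ℝ) / ((m / d : ℕ) : ℝ) * v) :=
    setIntegral_congr_fun measurableSet_Ioi (fun v hv => GHK_rel hf hm hmN hv)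
  rw [integral_const_mul] at h2
  unfold GIH_I
  rw [h2, integral_finsetSum]
  · apply Finset.sum_congr rfl
    intro d hd
    have hdm : d ∣ m := Nat.dvd_of_mem_divisors hd
    have hd0 : 0 < d := Nat.pos_of_mem_divisors hd
    have ha0 : 0 < m / d := Nat.div_pos (Nat.le_of_dvd hm hdm) hd0
    have hdR : (0 : ℝ) < d := by exact_mod_cast hd0
    have haR : (0 : ℝ) < ((m / d : ℕ) : ℝ) := by exact_mod_cast ha0
    have hdC : (d : ℂ) ≠ 0 := by exact_mod_cast hd0.ne'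
    have haC : ((m / d : ℕ) : ℂ) ≠ 0 := by exact_mod_cast ha0.ne'
    rw [integral_const_mul, integral_comp_mul_left_Ioi (fun v => GIH_H f (m / d) v) 0
      (b := (d : ℝ) / ((m / d : ℕ) : ℝ)) (by positivity), mul_zero, Complex.real_smul]
    push_cast
    field_simp
  · intro d hd
    have hdm : d ∣ m := Nat.dvd_of_mem_divisors hd
    have hd0 : 0 < d := Nat.pos_of_mem_divisors hd
    have ha0 : 0 < m / d := Nat.div_pos (Nat.le_of_dvd hm hdm) hd0
    have hdR : (0 : ℝ) < d := by exact_mod_cast hd0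
    have haR : (0 : ℝ) < ((m / d : ℕ) : ℝ) := by exact_mod_cast ha0
    have hcop : (m / d).Coprime N := Nat.Coprime.coprime_dvd_left (Nat.div_dvd_of_dvd hdm) hmN
    have i2 := ghf_intH f ha0 hcop
    have := (integrableOn_Ioi_comp_mul_left_iff (fun v => GIH_H f (m / d) v) 0
      (a := (d : ℝ) / ((m / d : ℕ) : ℝ)) (by positivity)).mpr (by rw [mul_zero]; exact i2)
    exact this.const_mul _

theorem ghf_I_eq (f : S2 N) {e : ℕ} (he : 0 < e) (heN : e.Coprime N) :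
    GIH_I f e = ∑ d ∈ e.divisors, ∑ j ∈ RR d, ∫ v in Set.Ioi (0 : ℝ), ev f ((j : ℝ) / d) v := by
  unfold GIH_I GIH_H
  rw [integral_finsetSum _ (fun j _ => ghf_int f he heN j),
    GIH_reduced he (fun x => ∫ v in Set.Ioi (0 : ℝ), ev f x v)]
  rfl

end

theorem geo_hecke_full_pr {N : ℕ} [Fact N.Prime] {f : S2 N} (hf : IsNew f) {m : ℕ} (hm : 1 ≤ m)
    (hmN : m.Coprime N) :
    co f m * Lh f = 2 * Real.pi * ∑ e ∈ m.divisors, ((m / e).divisors.card : ℂ) *
      ∑ j ∈ RR e, ∫ v in Set.Ioi (0 : ℝ), ev f ((j : ℝ) / e) v := by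
  have h2 := (lh_int_pr f).2
  have h3 : GIH_I f 1 = ∫ v in Set.Ioi (0 : ℝ), ev f 0 v := by
    unfold GIH_I GIH_H
    simp
  rw [h2, ← h3]
  have h4 := ghf_total hf hm hmN
  have h5 : ∑ e ∈ m.divisors, GIH_I f e = ∑ e ∈ m.divisors, ∑ d ∈ e.divisors,
      ∑ j ∈ RR d, ∫ v in Set.Ioi (0 : ℝ), ev f ((j : ℝ) / d) v := by
    apply Finset.sum_congr rfl
    intro e he
    have hem : e ∣ m := Nat.dvd_of_mem_divisors he
    exact ghf_I_eq f (Nat.pos_of_dvd_of_pos hem hm) (Nat.Coprime.coprime_dvd_left hem hmN)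
  rw [h5, GIH_swap hm] at h4
  rw [h4]
  ring

theorem mx_fun_pr {N : ℕ} [Fact N.Prime] {f : S2 N} (hf : IsNew f) {E : ℕ} (hE : E < N) {x : ℕ → ℝ}
    (hx : ∀ e, x e ≠ 0 → 1 ≤ e ∧ e ≤ E) :
    Lh f * ((MX E x (la f) : ℝ) : ℂ) = 2 * Real.pi * ∑ q ∈ Finset.Icc 1 E, (wX E x q : ℂ) *
      ∑ j ∈ RR q, ∫ v in Set.Ioi (0 : ℝ), ev f ((j : ℝ) / q) v := by
  have hNp : N.Prime := Fact.out
  have hcop : ∀ e ∈ Finset.Icc 1 E, e.Coprime N := by
    intro e he
    rw [Finset.mem_Icc] at he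
    exact (Nat.coprime_of_lt_prime (by omega) (by omega) hNp).symm
  have hreal : ∀ n, (co f n).im = 0 := fun n => new_real hf n
  set J : ℕ → ℂ := fun q => ∑ j ∈ RR q, ∫ v in Set.Ioi (0 : ℝ), ev f ((j : ℝ) / q) v with hJ
  have h1 : Lh f * ((MX E x (la f) : ℝ) : ℂ) = ∑ e ∈ Finset.Icc 1 E,
      ((x e / e : ℝ) : ℂ) * (co f e * Lh f) := by
    unfold MX
    rw [Complex.ofReal_sum, Finset.mul_sum]
    refine Finset.sum_congr rfl fun e he => ?_
    have he' := Finset.mem_Icc.mp he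
    have heR : (0 : ℝ) < e := by exact_mod_cast (by omega : 0 < e)
    rw [um_new_pr hf hreal (by omega) (hcop e he)]
    have h2 : co f e = (((co f e).re : ℝ) : ℂ) := by
      apply Complex.ext
      · simp
      · simp [hreal e]
    have h3 : x e / Real.sqrt e * la f e = x e / e * (co f e).re := by
      unfold la
      have hs : Real.sqrt e * Real.sqrt e = e := Real.mul_self_sqrt heR.le
      have hs0 : 0 < Real.sqrt e := Real.sqrt_pos.mpr heR
      rw [div_mul_div_comm, hs]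
      ring
    rw [h3, h2]
    push_cast
    simp only [Complex.ofReal_re]
    ring
  have h2 : ∀ e ∈ Finset.Icc 1 E, ((x e / e : ℝ) : ℂ) * (co f e * Lh f) =
      ∑ q ∈ Finset.Icc 1 E, if q ∣ e then 2 * (Real.pi : ℂ) * ((((x e / e * tau (e / q)) : ℝ) : ℂ) *
        J q) else 0 := by
    intro e he
    have he' := Finset.mem_Icc.mp he
    rw [geo_hecke_full_pr hf he'.1 (hcop e he)]
    have h3 : e.divisors = (Finset.Icc 1 E).filter (fun q => q ∣ e) := by
      ext d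
      simp only [Nat.mem_divisors, Finset.mem_filter, Finset.mem_Icc]
      constructor
      · rintro ⟨h4, _⟩
        have h5 : 1 ≤ d := Nat.pos_of_dvd_of_pos h4 (by omega)
        have h6 : d ≤ e := Nat.le_of_dvd (by omega) h4
        exact ⟨⟨h5, by omega⟩, h4⟩
      · rintro ⟨_, h4⟩
        exact ⟨h4, by omega⟩
    rw [← Finset.sum_filter, ← h3, Finset.mul_sum, Finset.mul_sum]
    refine Finset.sum_congr rfl fun q _ => ?_
    unfold tau
    push_cast
    ring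
  rw [h1, Finset.sum_congr rfl h2, Finset.sum_comm, Finset.mul_sum]
  refine Finset.sum_congr rfl fun q _ => ?_
  rw [← Finset.sum_filter]
  unfold wX
  rw [Complex.ofReal_sum, Finset.sum_mul, Finset.mul_sum]

/-- the zero mode -/
theorem ww_zero_x_pr {E : ℕ} {x : ℕ → ℝ} (hx : ∀ e, x e ≠ 0 → 1 ≤ e ∧ e ≤ E) :
    WW E (wX E x) 0 = ∑ e ∈ Finset.Icc 1 E, x e * sg1 e / e := by
  unfold WW wX
  have h2 : ∀ q ∈ Finset.Icc 1 E, (∑ e ∈ (Finset.Icc 1 E).filter (fun e => q ∣ e),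
      x e / e * tau (e / q)) * cc q 0 =
      ∑ e ∈ Finset.Icc 1 E, if q ∣ e then x e / e * (tau (e / q) * cc q 0) else 0 := by
    intro q _
    rw [Finset.sum_mul, Finset.sum_filter]
    refine Finset.sum_congr rfl fun e _ => ?_
    split_ifs <;> ring
  rw [Finset.sum_congr rfl h2, Finset.sum_comm]
  refine Finset.sum_congr rfl fun e he => ?_
  have he' := Finset.mem_Icc.mp he
  have h3 : e.divisors = (Finset.Icc 1 E).filter (fun q => q ∣ e) := by
    ext d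
    simp only [Nat.mem_divisors, Finset.mem_filter, Finset.mem_Icc]
    constructor
    · rintro ⟨h4, _⟩
      have h5 : 1 ≤ d := Nat.pos_of_dvd_of_pos h4 (by omega)
      have h6 : d ≤ e := Nat.le_of_dvd (by omega) h4
      exact ⟨⟨h5, by omega⟩, h4⟩
    · rintro ⟨_, h4⟩
      exact ⟨h4, by omega⟩
  rw [← Finset.sum_filter, ← h3, ← Finset.mul_sum]
  have h4 := wwf_sum_tau 0 he'.1
  rw [Nat.gcd_zero_right] at h4
  unfold tau
  rw [h4]
  unfold sg1
  ring

theorem geo_hecke_full : type_of% @geo_hecke_full_pr := @geo_hecke_full_pr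
theorem mx_fun : type_of% @mx_fun_pr := @mx_fun_pr
theorem ww_zero_x : type_of% @ww_zero_x_pr := @ww_zero_x_pr

end Pool.Agent.LSP
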