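import Pool.Agent.Lib_helper41.LSP.DefsG

namespace Pool.Agent.LSP

open Pool.Agent.LEV Pool.Agent.LVB Pool.Agent.KSL
open Pool.Agent.FG61 (mu phi cc ff AA Lam)
open Complex MeasureTheory Filter Topology UpperHalfPlane ModularGroup ProbabilityTheory
open scoped MatrixGroups Modular ENNReal ModularForm ComplexConjugate ContDiff

theorem pt_coe_pr (x : ℝ) {y : ℝ} (hy : 0 < y) :
    ((pt x y : ℍ) : ℂ) = (x : ℂ) + (y : ℂ) * Complex.I ∧ (pt x y).re = x ∧ (pt x y).im = y := by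
  have h1 : 0 < ((x : ℂ) + (y : ℂ) * Complex.I).im := by simp [hy]
  have h2 : ((pt x y : ℍ) : ℂ) = (x : ℂ) + (y : ℂ) * Complex.I := by
    unfold pt
    rw [UpperHalfPlane.ofComplex_apply_of_im_pos h1]
  refine ⟨h2, ?_, ?_⟩
  · have : (pt x y).re = ((pt x y : ℍ) : ℂ).re := rfl
    rw [this, h2]; simp
  · have : (pt x y).im = ((pt x y : ℍ) : ℂ).im := rfl
    rw [this, h2]; simp

theorem COO_range : Set.range UpperHalfPlane.coe = {w : ℂ | 0 < w.im} := by
  ext w
  constructor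
  · rintro ⟨z, rfl⟩
    exact z.im_pos
  · intro hw
    exact ⟨⟨w, hw⟩, rfl⟩

theorem COO_meas : Measurable (fun z : ℍ => (1 / NNReal.mk z.im z.im_pos.le : NNReal) ^ 2) := by
  have h : Measurable (fun z : ℍ => NNReal.mk z.im z.im_pos.le) :=
    (UpperHalfPlane.continuous_im.measurable).subtype_mk
  exact (measurable_const.div h).pow_const 2

theorem COO_smul (F : ℍ → ℂ) (z : ℍ) :
    ((1 / NNReal.mk z.im z.im_pos.le : NNReal) ^ 2) • (F z * ((z.im ^ 2 : ℝ) : ℂ)) = F z := by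
  have hz : (z.im : ℂ) ≠ 0 := by exact_mod_cast z.im_pos.ne'
  rw [NNReal.smul_def]
  push_cast
  rw [Complex.real_smul]
  push_cast
  field_simp

theorem COO_pre : (measurableEquivRealProd.symm ⁻¹' {w : ℂ | 0 < w.im}) =
    (Set.univ : Set ℝ) ×ˢ Set.Ioi (0 : ℝ) := by
  ext p
  simp [measurableEquivRealProd]

theorem COO_pt (p : ℝ × ℝ) : UpperHalfPlane.ofComplex (measurableEquivRealProd.symm p) =
    pt p.1 p.2 := by
  unfold pt
  congr 1
  apply Complex.ext <;> simp [measurableEquivRealProd]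

theorem COO_mset : MeasurableSet {w : ℂ | 0 < w.im} :=
  measurableSet_lt measurable_const Complex.measurable_im

theorem coo_eq_pr (F : ℍ → ℂ) : ∫ z : ℍ, F z * ((z.im ^ 2 : ℝ) : ℂ) =
    ∫ p : ℝ × ℝ in (Set.univ : Set ℝ) ×ˢ Set.Ioi (0 : ℝ), F (pt p.1 p.2) := by
  rw [UpperHalfPlane.volume_def, integral_withDensity_eq_integral_smul COO_meas]
  simp only [COO_smul]
  have h1 : ∫ z : ℍ, F z ∂(volume.comap UpperHalfPlane.coe) =
      ∫ w : ℂ in {w : ℂ | 0 < w.im}, F (UpperHalfPlane.ofComplex w) := by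
    rw [← COO_range, ← measurableEmbedding_coe.map_comap, measurableEmbedding_coe.integral_map]
    simp only [UpperHalfPlane.ofComplex_apply]
  rw [h1]
  have h2 := Complex.volume_preserving_equiv_real_prod.symm.setIntegral_preimage_emb
    measurableEquivRealProd.symm.measurableEmbedding
    (fun w : ℂ => F (UpperHalfPlane.ofComplex w)) {w : ℂ | 0 < w.im}
  rw [← h2, COO_pre]
  simp only [COO_pt]

theorem coo_iff_pr {F : ℍ → ℂ} : Integrable (fun z : ℍ => F z * ((z.im ^ 2 : ℝ) : ℂ)) ↔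
    Integrable (fun p : ℝ × ℝ => F (pt p.1 p.2))
      (volume.restrict ((Set.univ : Set ℝ) ×ˢ Set.Ioi (0 : ℝ))) := by
  rw [UpperHalfPlane.volume_def, integrable_withDensity_iff_integrable_smul COO_meas]
  simp only [COO_smul]
  have h1 : Integrable F (volume.comap UpperHalfPlane.coe) ↔
      IntegrableOn (fun w : ℂ => F (UpperHalfPlane.ofComplex w)) {w : ℂ | 0 < w.im} := by
    unfold IntegrableOn
    rw [← COO_range, ← measurableEmbedding_coe.map_comap,
      measurableEmbedding_coe.integrable_map_iff]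
    simp only [Function.comp_def, UpperHalfPlane.ofComplex_apply]
  rw [h1]
  have h2 := Complex.volume_preserving_equiv_real_prod.symm.integrableOn_comp_preimage
    measurableEquivRealProd.symm.measurableEmbedding
    (f := fun w : ℂ => F (UpperHalfPlane.ofComplex w)) (s := {w : ℂ | 0 < w.im})
  rw [← h2, COO_pre]
  simp only [Function.comp_def, COO_pt]
  rfl

theorem COO_prod : (volume : Measure (ℝ × ℝ)).restrict ((Set.univ : Set ℝ) ×ˢ Set.Ioi (0 : ℝ)) =
    (volume : Measure ℝ).prod (volume.restrict (Set.Ioi (0 : ℝ))) := by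
  have h : (volume : Measure (ℝ × ℝ)) = (volume : Measure ℝ).prod volume := rfl
  rw [h, ← Measure.prod_restrict, Measure.restrict_univ]

theorem coo_iter_pr {F : ℍ → ℂ} (h : Integrable (fun z : ℍ => F z * ((z.im ^ 2 : ℝ) : ℂ))) :
    ∫ z : ℍ, F z * ((z.im ^ 2 : ℝ) : ℂ) = ∫ y in Set.Ioi (0 : ℝ), ∫ x : ℝ, F (pt x y) := by
  rw [coo_eq_pr, COO_prod]
  rw [coo_iff_pr, COO_prod] at h
  rw [integral_prod_symm _ h]

/-- coordinates along the rays from `l` -/
theorem coo_cone_pr {F : ℍ → ℂ} (h : Integrable (fun z : ℍ => F z * ((z.im ^ 2 : ℝ) : ℂ))) (l : ℝ) :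
    ∫ z : ℍ, F z * ((z.im ^ 2 : ℝ) : ℂ) =
      ∫ t : ℝ, ∫ y in Set.Ioi (0 : ℝ), F (pt (l + t * y) y) * (y : ℂ) := by
  have hint := coo_iff_pr.mp h
  rw [coo_eq_pr]
  set s : Set (ℝ × ℝ) := (Set.univ : Set ℝ) ×ˢ Set.Ioi (0 : ℝ) with hs
  set φ : ℝ × ℝ → ℝ × ℝ := fun p => (l + p.1 * p.2, p.2) with hφ
  set φ' : ℝ × ℝ → (ℝ × ℝ →L[ℝ] ℝ × ℝ) := fun p =>
    LinearMap.toContinuousLinearMap (Matrix.toLin (Module.Basis.finTwoProd ℝ)
      (Module.Basis.finTwoProd ℝ) !![p.2, p.1; 0, 1]) with hφ'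
  have hms : MeasurableSet s := MeasurableSet.univ.prod measurableSet_Ioi
  have hder : ∀ p ∈ s, HasFDerivWithinAt φ (φ' p) s p := by
    intro p _
    apply HasFDerivAt.hasFDerivWithinAt
    simp only [hφ, hφ']
    rw [Matrix.toLin_finTwoProd_toContinuousLinearMap]
    refine HasFDerivAt.prodMk ?_ ?_
    · have := ((hasFDerivAt_fst (𝕜 := ℝ) (p := p)).mul (hasFDerivAt_snd (𝕜 := ℝ) (p := p))).const_add l
      convert! this using 1
      ext <;> simp
    · convert! (hasFDerivAt_snd (𝕜 := ℝ) (p := p)) using 1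
      ext <;> simp
  have hdet : ∀ p : ℝ × ℝ, (φ' p).det = p.2 := by
    intro p
    simp only [hφ']
    rw [LinearMap.det_toContinuousLinearMap, LinearMap.det_toLin, Matrix.det_fin_two_of]
    ring
  have hinj : Set.InjOn φ s := by
    rintro ⟨a, b⟩ hp ⟨c, d⟩ hq heq
    simp only [hφ, Prod.mk.injEq] at heq
    obtain ⟨h1, h2⟩ := heq
    subst h2
    have hb : b ≠ 0 := ne_of_gt (Set.mem_prod.mp hp).2
    have h3 : a * b = c * b := by linarith
    rw [mul_right_cancel₀ hb h3]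
  have him : φ '' s = s := by
    ext p
    constructor
    · rintro ⟨q, hq, rfl⟩
      exact ⟨Set.mem_univ _, (Set.mem_prod.mp hq).2⟩
    · intro hp
      have hp2 : p.2 ≠ 0 := ne_of_gt (Set.mem_prod.mp hp).2
      refine ⟨((p.1 - l) / p.2, p.2), ⟨Set.mem_univ _, (Set.mem_prod.mp hp).2⟩, ?_⟩
      simp only [hφ]
      ext
      · simp only
        field_simp
        ring
      · rfl
  have h1 := integral_image_eq_integral_abs_det_fderiv_smul volume hms hder hinj
    (fun p : ℝ × ℝ => F (pt p.1 p.2))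
  have h2 := integrableOn_image_iff_integrableOn_abs_det_fderiv_smul volume hms hder hinj
    (fun p : ℝ × ℝ => F (pt p.1 p.2))
  rw [him] at h1 h2
  have h3 : IntegrableOn (fun p : ℝ × ℝ => F (pt (l + p.1 * p.2) p.2) * (p.2 : ℂ)) s := by
    refine (h2.mp hint).congr_fun (fun p hp => ?_) hms
    have hp2 : 0 < p.2 := (Set.mem_prod.mp hp).2
    simp only [hdet, abs_of_pos hp2, hφ]
    rw [Complex.real_smul, mul_comm]
  rw [h1]
  have h4 : ∫ p in s, |(φ' p).det| • F (pt (φ p).1 (φ p).2) =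
      ∫ p in s, F (pt (l + p.1 * p.2) p.2) * (p.2 : ℂ) := by
    refine setIntegral_congr_fun hms (fun p hp => ?_)
    have hp2 : 0 < p.2 := (Set.mem_prod.mp hp).2
    simp only [hdet, abs_of_pos hp2, hφ]
    rw [Complex.real_smul, mul_comm]
  rw [h4]
  unfold IntegrableOn at h3
  rw [hs, COO_prod] at h3 ⊢
  rw [integral_prod _ h3]



theorem pt_coe : type_of% @pt_coe_pr := @pt_coe_pr
theorem coo_iff : type_of% @coo_iff_pr := @coo_iff_pr
theorem coo_eq : type_of% @coo_eq_pr := @coo_eq_pr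
theorem coo_iter : type_of% @coo_iter_pr := @coo_iter_pr
theorem coo_cone : type_of% @coo_cone_pr := @coo_cone_pr

end Pool.Agent.LSP
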