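import Pool.Agent.Lib_helper41.LSP.DefsG
import Pool.Agent.Lib_helper41.LSPG.COO

/-! LSP, part G, block CSQ: the norm of a truncated cone. -/

namespace Pool.Agent.LSP

open Pool.Agent.LEV Pool.Agent.LVB Pool.Agent.KSL
open Pool.Agent.FG61 (mu phi cc ff AA Lam)
open Complex MeasureTheory Filter Topology UpperHalfPlane ModularGroup ProbabilityTheory
open scoped MatrixGroups Modular ENNReal ModularForm ComplexConjugate ContDiff

/-- the square of the norm of the truncated cone -/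
noncomputable def csq_h (ρ : ℝ → ℝ) (c l Y x y : ℝ) : ℝ :=
  if y < Y ∧ y < Y * (c * ((x - l) ^ 2 + y ^ 2)) then
    ρ ((x - l) / y) ^ 2 * (1 + ((x - l) / y) ^ 2) / y ^ 2 else 0

/-- the same in the coordinates of the rays -/
noncomputable def csq_f (ρ : ℝ → ℝ) (A y t : ℝ) : ℝ :=
  if 1 < A * y * (1 + t ^ 2) then (1 + t ^ 2) * ρ t ^ 2 / y else 0

theorem csq_val (ρ : ℝ → ℝ) (N q : ℕ) (l Y x : ℝ) {y : ℝ} (hy : 0 < y) :
    ‖coneY ρ N q l Y (pt x y)‖ ^ 2 = csq_h ρ (N * (q : ℝ) ^ 2) l Y x y := by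
  obtain ⟨h1, h2, h3⟩ := pt_coe x hy
  have hn : ‖((pt x y : ℍ) : ℂ) - (l : ℂ)‖ ^ 2 = (x - l) ^ 2 + y ^ 2 := by
    rw [h1, ← Complex.normSq_eq_norm_sq, Complex.normSq_apply]
    simp
    ring
  unfold coneY csq_h
  rw [h3, hn]
  by_cases hc : y < Y ∧ y < Y * (↑N * (q : ℝ) ^ 2 * ((x - l) ^ 2 + y ^ 2))
  · rw [if_pos hc, if_pos hc]
    unfold cone
    rw [h2, h3, norm_mul, mul_pow, ← Complex.normSq_eq_norm_sq (1 + _), Complex.normSq_apply]
    simp only [Complex.norm_real, Real.norm_eq_abs, sq_abs, Complex.add_re, Complex.one_re,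
      Complex.mul_re, Complex.ofReal_re, Complex.I_re, mul_zero, Complex.ofReal_im, Complex.I_im,
      mul_one, sub_self, add_zero, Complex.add_im, Complex.one_im, Complex.mul_im, zero_add]
    rw [div_pow]
    ring
  · rw [if_neg hc, if_neg hc]
    simp

theorem csq_hf (ρ : ℝ → ℝ) {c l Y : ℝ} {y : ℝ} (hy : 0 < y) (hY : y < Y) (t : ℝ) :
    y * csq_h ρ c l Y (l + t * y) y = csq_f ρ (c * Y) y t := by
  unfold csq_h csq_f
  have e1 : (l + t * y - l) / y = t := by field_simp; ring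
  have e2 : Y * (c * ((l + t * y - l) ^ 2 + y ^ 2)) = y * (c * Y * y * (1 + t ^ 2)) := by ring
  rw [e1, e2]
  have h3 : (y < Y ∧ y < y * (c * Y * y * (1 + t ^ 2))) ↔ 1 < c * Y * y * (1 + t ^ 2) := by
    constructor
    · rintro ⟨-, h⟩
      by_contra hc
      push Not at hc
      have := mul_le_mul_of_nonneg_left hc hy.le
      linarith
    · intro h
      refine ⟨hY, ?_⟩
      have := mul_lt_mul_of_pos_left h hy
      linarith
  by_cases h : 1 < c * Y * y * (1 + t ^ 2)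
  · rw [if_pos (h3.2 h), if_pos h]
    field_simp
  · rw [if_neg (fun h' => h (h3.1 h')), if_neg h, mul_zero]

theorem csq_fib (ρ : ℝ → ℝ) {c l Y : ℝ} {y : ℝ} (hy : 0 < y) (hY : y < Y) :
    ∫ x : ℝ, csq_h ρ c l Y x y = ∫ t : ℝ, csq_f ρ (c * Y) y t := by
  have h1 : ∫ t : ℝ, csq_h ρ c l Y (l + t * y) y = |y⁻¹| * ∫ x : ℝ, csq_h ρ c l Y x y := by
    have := MeasureTheory.Measure.integral_comp_mul_right (fun x : ℝ => csq_h ρ c l Y (l + x) y) y
    rw [this, smul_eq_mul]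
    congr 1
    exact integral_add_left_eq_self (fun x : ℝ => csq_h ρ c l Y x y) l
  have h2 : ∫ t : ℝ, csq_f ρ (c * Y) y t = y * ∫ t : ℝ, csq_h ρ c l Y (l + t * y) y := by
    rw [← integral_const_mul]
    refine integral_congr_ae (Filter.Eventually.of_forall fun t => ?_)
    exact (csq_hf ρ hy hY t).symm
  rw [h2, h1, abs_of_pos (inv_pos.2 hy)]
  field_simp

theorem csq_f_nonneg (ρ : ℝ → ℝ) (A : ℝ) {y : ℝ} (hy : 0 < y) (t : ℝ) : 0 ≤ csq_f ρ A y t := by
  unfold csq_f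
  split_ifs
  · positivity
  · exact le_rfl

theorem csq_gint {T : ℝ} {ρ : ℝ → ℝ} (hρ : KerL T ρ) {h : ℝ → ℝ} (hh : Continuous h) :
    Integrable (fun t : ℝ => (1 + t ^ 2) * ρ t ^ 2 * h t) := by
  have hc : Continuous (fun t : ℝ => (1 + t ^ 2) * ρ t ^ 2 * h t) := by
    have := hρ.cont
    fun_prop
  refine hc.integrable_of_hasCompactSupport ?_
  refine HasCompactSupport.of_support_subset_isCompact (isCompact_Icc (a := -T) (b := T)) ?_
  intro t ht
  by_contra hcon
  apply ht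
  have : T < |t| := by
    by_contra h'
    push Not at h'
    exact hcon ⟨by linarith [neg_abs_le t], by linarith [le_abs_self t]⟩
  simp [hρ.supp t this]

theorem csq_meas {T : ℝ} {ρ : ℝ → ℝ} (hρ : KerL T ρ) (A : ℝ) :
    Measurable (fun p : ℝ × ℝ => csq_f ρ A p.1 p.2) := by
  have hρm : Measurable ρ := hρ.cont.measurable
  unfold csq_f
  refine Measurable.ite ?_ ?_ measurable_const
  · exact measurableSet_lt measurable_const (by fun_prop)
  · fun_prop

/-- integrability in the coordinates of the rays -/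
theorem csq_int {T : ℝ} {ρ : ℝ → ℝ} (hρ : KerL T ρ) {A : ℝ} (hA : 0 < A) (y₂ : ℝ) :
    Integrable (fun p : ℝ × ℝ => csq_f ρ A p.1 p.2)
      ((volume.restrict (Set.Ioc 0 y₂)).prod volume) := by
  have hk : Integrable (fun t : ℝ => (1 + t ^ 2) * ρ t ^ 2 * (A * (1 + t ^ 2))) :=
    csq_gint hρ (by fun_prop)
  have hk1 : Integrable (fun _ : ℝ => (1 : ℝ)) (volume.restrict (Set.Ioc 0 y₂)) :=
    integrable_const _
  have hd := hk1.mul_prod hk
  refine hd.mono' (csq_meas hρ A).aestronglyMeasurable ?_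
  have hae : ∀ᵐ p : ℝ × ℝ ∂((volume.restrict (Set.Ioc 0 y₂)).prod volume), 0 < p.1 := by
    have h1 : ∀ᵐ y : ℝ ∂(volume.restrict (Set.Ioc 0 y₂)), 0 < y := by
      filter_upwards [ae_restrict_mem measurableSet_Ioc] with y hy using hy.1
    exact Measure.quasiMeasurePreserving_fst.ae h1
  filter_upwards [hae] with p hp
  rw [Real.norm_eq_abs, abs_of_nonneg (csq_f_nonneg ρ A hp p.2), one_mul]
  unfold csq_f
  split_ifs with h
  · rw [div_le_iff₀ hp]
    have h0 : 0 ≤ (1 + p.2 ^ 2) * ρ p.2 ^ 2 := by positivity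
    have := mul_le_mul_of_nonneg_left h.le h0
    linarith
  · positivity

theorem csq_yint {A y₂ : ℝ} (hA : 0 < A) (h1 : 0 < y₂) (h3 : 1 / A ≤ y₂) (t s : ℝ) :
    ∫ y in Set.Ioc 0 y₂, (if 1 < A * y * (1 + t ^ 2) then s / y else 0) =
      s * (Real.log y₂ + Real.log (A * (1 + t ^ 2))) := by
  have ht : 0 < 1 + t ^ 2 := by positivity
  have ha : 0 < A * (1 + t ^ 2) := by positivity
  set a : ℝ := 1 / (A * (1 + t ^ 2)) with hadef
  have hapos : 0 < a := by positivity
  have hale : a ≤ y₂ := by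
    refine le_trans ?_ h3
    rw [hadef]
    apply one_div_le_one_div_of_le hA
    nlinarith [sq_nonneg t]
  have hset : (fun y : ℝ => if 1 < A * y * (1 + t ^ 2) then s / y else 0) =
      (Set.Ioi a).indicator (fun y : ℝ => s / y) := by
    funext y
    by_cases h : a < y
    · rw [Set.indicator_of_mem (by exact h), if_pos]
      rw [hadef, div_lt_iff₀ ha] at h
      linarith
    · rw [Set.indicator_of_notMem (by exact h), if_neg]
      intro h'
      apply h
      rw [hadef, div_lt_iff₀ ha]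
      linarith
  rw [hset, setIntegral_indicator measurableSet_Ioi]
  have hI : Set.Ioc 0 y₂ ∩ Set.Ioi a = Set.Ioc a y₂ := by
    ext y
    simp only [Set.mem_inter_iff, Set.mem_Ioc, Set.mem_Ioi]
    constructor
    · rintro ⟨⟨h4, h5⟩, h6⟩
      exact ⟨h6, h5⟩
    · rintro ⟨h4, h5⟩
      exact ⟨⟨hapos.trans h4, h5⟩, h4⟩
  rw [hI, ← intervalIntegral.integral_of_le hale]
  have h4 : ∫ y in a..y₂, s / y = s * ∫ y in a..y₂, y⁻¹ := by
    rw [← intervalIntegral.integral_const_mul]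
    simp only [div_eq_mul_inv]
  rw [h4, integral_inv_of_pos hapos h1, Real.log_div h1.ne' hapos.ne', hadef, one_div,
    Real.log_inv, sub_neg_eq_add]

/-- the norm of the lower part of a truncated cone -/
theorem cone_sq_pr {T : ℝ} {ρ : ℝ → ℝ} (hρ : KerL T ρ) {N q : ℕ} (hN : 1 ≤ N) (hq : 1 ≤ q) (l : ℝ)
    {Y y₂ : ℝ} (h1 : 0 < y₂) (h2 : y₂ ≤ Y) (h3 : 1 / (N * (q : ℝ) ^ 2 * Y) ≤ y₂) :
    IntegrableOn (fun y : ℝ => ∫ x : ℝ, ‖coneY ρ N q l Y (pt x y)‖ ^ 2) (Set.Ioc 0 y₂) ∧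
    ∫ y in Set.Ioc 0 y₂, ∫ x : ℝ, ‖coneY ρ N q l Y (pt x y)‖ ^ 2 =
      Cr ρ * (Real.log y₂ + Real.log (N * (q : ℝ) ^ 2 * Y)) + Cl ρ := by
  have hN' : (0 : ℝ) < N := by exact_mod_cast hN
  have hq' : (0 : ℝ) < q := by exact_mod_cast hq
  have hY : 0 < Y := h1.trans_le h2
  set A : ℝ := N * (q : ℝ) ^ 2 * Y with hAdef
  have hA : 0 < A := by positivity
  have hint := csq_int hρ hA y₂
  have hae : ∀ᵐ y : ℝ ∂(volume.restrict (Set.Ioc 0 y₂)),
      ∫ x : ℝ, ‖coneY ρ N q l Y (pt x y)‖ ^ 2 = ∫ t : ℝ, csq_f ρ A y t := by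
    have hne : ∀ᵐ y : ℝ ∂(volume.restrict (Set.Ioc 0 y₂)), y ≠ Y := by
      refine ae_restrict_of_ae ?_
      exact Measure.ae_ne volume Y
    filter_upwards [ae_restrict_mem measurableSet_Ioc, hne] with y hy hyY
    have hyY' : y < Y := lt_of_le_of_ne (hy.2.trans h2) hyY
    rw [← csq_fib ρ (l := l) hy.1 hyY']
    refine integral_congr_ae (Filter.Eventually.of_forall fun x => ?_)
    exact csq_val ρ N q l Y x hy.1
  constructor
  · exact (hint.integral_prod_left).congr (hae.mono fun y hy => hy.symm)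
  · rw [integral_congr_ae hae, integral_integral_swap hint]
    have h4 : ∀ t : ℝ, ∫ y in Set.Ioc 0 y₂, csq_f ρ A y t =
        (1 + t ^ 2) * ρ t ^ 2 * (Real.log y₂ + Real.log (A * (1 + t ^ 2))) := by
      intro t
      unfold csq_f
      exact csq_yint hA h1 h3 t _
    rw [integral_congr_ae (Filter.Eventually.of_forall h4)]
    have h5 : ∀ t : ℝ, (1 + t ^ 2) * ρ t ^ 2 * (Real.log y₂ + Real.log (A * (1 + t ^ 2))) =
        (1 + t ^ 2) * ρ t ^ 2 * (Real.log y₂ + Real.log A) +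
          (1 + t ^ 2) * ρ t ^ 2 * Real.log (1 + t ^ 2) := by
      intro t
      rw [Real.log_mul hA.ne' (by positivity)]
      ring
    rw [integral_congr_ae (Filter.Eventually.of_forall h5), integral_add, integral_mul_const]
    · unfold Cr Cl
      ring
    · exact csq_gint hρ continuous_const
    · refine csq_gint hρ ?_
      refine Continuous.log (by fun_prop) fun t => ?_
      positivity

theorem csq_hmeas {T : ℝ} {ρ : ℝ → ℝ} (hρ : KerL T ρ) (c l Y : ℝ) :
    Measurable (fun p : ℝ × ℝ => csq_h ρ c l Y p.1 p.2) := by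
  have hρm : Measurable ρ := hρ.cont.measurable
  unfold csq_h
  have m1 : Measurable (fun p : ℝ × ℝ => p.2) := measurable_snd
  have m2 : Measurable (fun p : ℝ × ℝ => Y * (c * ((p.1 - l) ^ 2 + p.2 ^ 2))) := by fun_prop
  refine Measurable.ite ?_ ?_ measurable_const
  · exact (measurableSet_lt m1 measurable_const).inter (measurableSet_lt m1 m2)
  · fun_prop

theorem csq_h_nonneg (ρ : ℝ → ℝ) (c l Y x y : ℝ) : 0 ≤ csq_h ρ c l Y x y := by
  unfold csq_h
  split_ifs
  · positivity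
  · exact le_rfl

theorem csq_h_zero (ρ : ℝ → ℝ) (c l : ℝ) {Y y : ℝ} (h : Y ≤ y) (x : ℝ) :
    csq_h ρ c l Y x y = 0 := by
  unfold csq_h
  rw [if_neg]
  rintro ⟨h1, -⟩
  linarith

theorem csq_hint {T : ℝ} {ρ : ℝ → ℝ} (hρ : KerL T ρ) (c l Y : ℝ) {y : ℝ} (hy : 0 < y) :
    Integrable (fun x : ℝ => csq_h ρ c l Y x y) := by
  have h1 : Integrable (fun t : ℝ => (1 + t ^ 2) * ρ t ^ 2 * (1 / y ^ 2)) :=
    csq_gint hρ continuous_const
  have h2 := (h1.comp_div hy.ne').comp_sub_right l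
  refine h2.mono' ?_ (Filter.Eventually.of_forall fun x => ?_)
  · exact ((csq_hmeas hρ c l Y).comp (measurable_id.prodMk measurable_const)).aestronglyMeasurable
  · rw [Real.norm_eq_abs, abs_of_nonneg (csq_h_nonneg ρ c l Y x y)]
    unfold csq_h
    split_ifs
    · apply le_of_eq
      ring
    · positivity

/-- the norm of a truncated cone -/
theorem cone_norm_pr {T : ℝ} {ρ : ℝ → ℝ} (hρ : KerL T ρ) {N q : ℕ} (hN : 1 ≤ N) (hq : 1 ≤ q) (l : ℝ)
    {Y : ℝ} (hY : 1 ≤ Y) : ipH (coneY ρ N q l Y) (coneY ρ N q l Y) =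
      ((Cr ρ * Real.log (Y ^ 2 * (N * (q : ℝ) ^ 2)) + Cl ρ : ℝ) : ℂ) := by
  have hN1 : (1 : ℝ) ≤ N := by exact_mod_cast hN
  have hq1 : (1 : ℝ) ≤ q := by exact_mod_cast hq
  have hY0 : 0 < Y := by linarith
  have hc1 : 1 ≤ (N : ℝ) * (q : ℝ) ^ 2 := by nlinarith
  have h3 : 1 / ((N : ℝ) * (q : ℝ) ^ 2 * Y) ≤ Y := by
    rw [div_le_iff₀ (by positivity)]
    nlinarith [mul_le_mul hc1 hY zero_le_one (by positivity), mul_le_mul hY hY zero_le_one hY0.le]
  obtain ⟨hi, he⟩ := cone_sq_pr hρ hN hq l hY0 le_rfl h3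
  set c : ℝ := (N : ℝ) * (q : ℝ) ^ 2 with hcdef
  have hF : ∀ x y : ℝ, 0 < y → coneY ρ N q l Y (pt x y) * conj (coneY ρ N q l Y (pt x y)) =
      ((csq_h ρ c l Y x y : ℝ) : ℂ) := by
    intro x y hy
    rw [Complex.mul_conj, Complex.normSq_eq_norm_sq, csq_val ρ N q l Y x hy]
  -- integrability over the height
  have hi2 : IntegrableOn (fun y : ℝ => ∫ x : ℝ, csq_h ρ c l Y x y) (Set.Ioi 0) := by
    rw [← Set.Ioc_union_Ioi_eq_Ioi hY0.le]
    refine IntegrableOn.union ?_ ?_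
    · refine hi.congr ?_
      filter_upwards [ae_restrict_mem measurableSet_Ioc] with y hy
      refine integral_congr_ae (Filter.Eventually.of_forall fun x => ?_)
      exact csq_val ρ N q l Y x hy.1
    · refine (integrable_zero ℝ ℝ _).congr ?_
      filter_upwards [ae_restrict_mem measurableSet_Ioi] with y hy
      have : ∀ x, csq_h ρ c l Y x y = 0 := csq_h_zero ρ c l (le_of_lt hy)
      simp [this]
  have hprod : Integrable (fun p : ℝ × ℝ => ((csq_h ρ c l Y p.1 p.2 : ℝ) : ℂ))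
      ((volume : Measure ℝ).prod (volume.restrict (Set.Ioi 0))) := by
    have hr : Integrable (fun p : ℝ × ℝ => csq_h ρ c l Y p.1 p.2)
        ((volume : Measure ℝ).prod (volume.restrict (Set.Ioi 0))) := by
     rw [integrable_prod_iff' (csq_hmeas hρ c l Y).aestronglyMeasurable]
     constructor
     · filter_upwards [ae_restrict_mem measurableSet_Ioi] with y hy
       exact csq_hint hρ c l Y hy
     · refine hi2.congr ?_
       refine Filter.Eventually.of_forall fun y => ?_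
       refine integral_congr_ae (Filter.Eventually.of_forall fun x => ?_)
       simp only
       rw [Real.norm_eq_abs, abs_of_nonneg (csq_h_nonneg ρ c l Y x y)]
    exact hr.ofReal
  have hint : Integrable (fun z : ℍ => (coneY ρ N q l Y z * conj (coneY ρ N q l Y z)) *
      ((z.im ^ 2 : ℝ) : ℂ)) := by
    rw [coo_iff (F := fun z : ℍ => coneY ρ N q l Y z * conj (coneY ρ N q l Y z))]
    have hm : (volume : Measure (ℝ × ℝ)).restrict ((Set.univ : Set ℝ) ×ˢ Set.Ioi (0 : ℝ)) =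
        (volume : Measure ℝ).prod (volume.restrict (Set.Ioi 0)) := by
      rw [Measure.volume_eq_prod, ← Measure.prod_restrict, Measure.restrict_univ]
    refine Integrable.congr (hm ▸ hprod) ?_
    have hms : MeasurableSet ((Set.univ : Set ℝ) ×ˢ Set.Ioi (0 : ℝ)) :=
      MeasurableSet.univ.prod measurableSet_Ioi
    filter_upwards [ae_restrict_mem hms] with p hp
    exact (hF p.1 p.2 hp.2).symm
  have hval : ipH (coneY ρ N q l Y) (coneY ρ N q l Y) =
      ((∫ y in Set.Ioi (0 : ℝ), ∫ x : ℝ, csq_h ρ c l Y x y : ℝ) : ℂ) := by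
    unfold ipH
    rw [coo_iter (F := fun z : ℍ => coneY ρ N q l Y z * conj (coneY ρ N q l Y z)) hint]
    rw [← integral_complex_ofReal]
    refine setIntegral_congr_fun measurableSet_Ioi fun y hy => ?_
    rw [← integral_complex_ofReal]
    refine integral_congr_ae (Filter.Eventually.of_forall fun x => ?_)
    exact hF x y hy
  rw [hval]
  congr 1
  rw [← Set.Ioc_union_Ioi_eq_Ioi hY0.le, setIntegral_union (Set.Ioc_disjoint_Ioi le_rfl)
    measurableSet_Ioi (hi2.mono_set (Set.Ioc_subset_Ioi_self))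
    (hi2.mono_set (Set.Ioi_subset_Ioi hY0.le))]
  have e1 : ∫ y in Set.Ioc 0 Y, ∫ x : ℝ, csq_h ρ c l Y x y =
      ∫ y in Set.Ioc 0 Y, ∫ x : ℝ, ‖coneY ρ N q l Y (pt x y)‖ ^ 2 := by
    refine setIntegral_congr_fun measurableSet_Ioc fun y hy => ?_
    refine integral_congr_ae (Filter.Eventually.of_forall fun x => ?_)
    exact (csq_val ρ N q l Y x hy.1).symm
  have e2 : ∫ y in Set.Ioi Y, ∫ x : ℝ, csq_h ρ c l Y x y = 0 := by
    rw [← integral_zero ℝ ℝ (μ := volume.restrict (Set.Ioi Y))]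
    refine setIntegral_congr_fun measurableSet_Ioi fun y hy => ?_
    have : ∀ x, csq_h ρ c l Y x y = 0 := csq_h_zero ρ c l (le_of_lt hy)
    simp [this]
  rw [e1, e2, he, add_zero]
  congr 2
  rw [← Real.log_mul hY0.ne' (by positivity)]
  congr 1
  ring

theorem cone_sq : type_of% @cone_sq_pr := @cone_sq_pr
theorem cone_norm : type_of% @cone_norm_pr := @cone_norm_pr

end Pool.Agent.LSP
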