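import Pool.Agent.Lib_helper41.LSP.DefsG
import Pool.Agent.Lib_helper41.LSPG.COO

/-! LSP, part G, block PAL: truncated cones at high and at low height. -/

namespace Pool.Agent.LSP

open Pool.Agent.LEV Pool.Agent.LVB Pool.Agent.KSL
open Pool.Agent.FG61 (mu phi cc ff AA Lam)
open Complex MeasureTheory Filter Topology UpperHalfPlane ModularGroup ProbabilityTheory
open scoped MatrixGroups Modular ENNReal ModularForm ComplexConjugate ContDiff

/-- above `1 / (N Y)` the cones are not truncated -/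
theorem pa_high_pr (ρ : ℝ → ℝ) {N : ℕ} (hN : 1 ≤ N) (E : ℕ) (w : ℕ → ℝ) {y Y : ℝ} (hy : 0 < y)
    (h1 : 1 / (N * Y) < y) (h2 : y < Y) (x : ℝ) : KY ρ N E w Y (pt x y) = KC ρ E w (pt x y) := by
  obtain ⟨hc, hre, him⟩ := pt_coe x hy
  have hN' : (1 : ℝ) ≤ N := by exact_mod_cast hN
  have hY : 0 < Y := hy.trans h2
  unfold KY KC
  refine Finset.sum_congr rfl fun q hq => ?_
  congr 1
  refine Finset.sum_congr rfl fun j hj => ?_
  have hq1 : 1 ≤ q := (Finset.mem_Icc.1 hq).1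
  have hq' : (1 : ℝ) ≤ q := by exact_mod_cast hq1
  unfold coneY
  rw [if_pos]
  refine ⟨by rw [him]; exact h2, ?_⟩
  rw [him]
  have hn : y ^ 2 ≤ ‖((pt x y : ℍ) : ℂ) - (((j : ℝ) / q : ℝ) : ℂ)‖ ^ 2 := by
    have h3 : y ≤ ‖((pt x y : ℍ) : ℂ) - (((j : ℝ) / q : ℝ) : ℂ)‖ := by
      have h4 := Complex.abs_im_le_norm (((pt x y : ℍ) : ℂ) - (((j : ℝ) / q : ℝ) : ℂ))
      have h5 : (((pt x y : ℍ) : ℂ) - (((j : ℝ) / q : ℝ) : ℂ)).im = y := by
        rw [Complex.sub_im, Complex.ofReal_im, sub_zero]; exact him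
      rw [h5, abs_of_pos hy] at h4
      exact h4
    exact pow_le_pow_left₀ hy.le h3 2
  have h6 : 1 < y * (N * Y) := by
    have h7 : 0 < (N : ℝ) * Y := by positivity
    rw [div_lt_iff₀ h7] at h1
    exact h1
  have h8 : (1 : ℝ) ≤ (q : ℝ) ^ 2 := by nlinarith
  calc y < y * (y * (N * Y)) := by nlinarith
    _ = Y * (N * 1 * y ^ 2) := by ring
    _ ≤ Y * (N * (q : ℝ) ^ 2 * y ^ 2) := by gcongr
    _ ≤ Y * (N * (q : ℝ) ^ 2 * ‖((pt x y : ℍ) : ℂ) - (((j : ℝ) / q : ℝ) : ℂ)‖ ^ 2) := by gcongr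

/-- above `Y` everything vanishes -/
theorem pa_top_pr (ρ : ℝ → ℝ) (N E : ℕ) (w : ℕ → ℝ) {y Y : ℝ} (hy : 0 < y) (h2 : Y ≤ y) (x : ℝ) :
    KY ρ N E w Y (pt x y) = 0 := by
  obtain ⟨hc, hre, him⟩ := pt_coe x hy
  unfold KY
  refine Finset.sum_eq_zero fun q hq => ?_
  rw [Finset.sum_eq_zero, mul_zero]
  intro j hj
  unfold coneY
  rw [if_neg]
  rintro ⟨h, -⟩
  rw [him] at h
  linarith

/-- a sum with at most one nonzero term -/
theorem pal_single {ι : Type*} (S : Finset ι) (a : ι → ℂ)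
    (h : ∀ i ∈ S, ∀ j ∈ S, a i ≠ 0 → a j ≠ 0 → i = j) :
    ‖∑ i ∈ S, a i‖ ^ 2 = ∑ i ∈ S, ‖a i‖ ^ 2 := by
  classical
  by_cases h0 : ∃ i ∈ S, a i ≠ 0
  · obtain ⟨i, hi, hne⟩ := h0
    have h1 : ∀ j ∈ S, j ≠ i → a j = 0 := by
      intro j hj hji
      by_contra hh
      exact hji (h j hj i hi hh hne)
    rw [Finset.sum_eq_single_of_mem i hi h1, Finset.sum_eq_single_of_mem i hi
      (fun j hj hji => by rw [h1 j hj hji]; simp)]
  · push Not at h0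
    rw [Finset.sum_eq_zero h0, Finset.sum_eq_zero (fun i hi => by rw [h0 i hi]; simp)]
    simp

/-- on the support the slope is bounded -/
theorem pal_supp {T : ℝ} {ρ : ℝ → ℝ} (hρ : KerL T ρ) (N q : ℕ) (l Y : ℝ) {y : ℝ} (hy : 0 < y) (x : ℝ)
    (h : coneY ρ N q l Y (pt x y) ≠ 0) : |x - l| ≤ T * y := by
  obtain ⟨hc, hre, him⟩ := pt_coe x hy
  unfold coneY at h
  split_ifs at h with hh
  · by_contra hcon
    apply h
    unfold cone
    rw [hre, him, hρ.toKer.supp ((x - l) / y)]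
    · simp
    · rw [abs_div, abs_of_pos hy, lt_div_iff₀ hy]
      linarith
  · exact absurd rfl h

/-- fractions close to each other are equal -/
theorem pal_frac {E q q' j j' : ℕ} {n n' : ℤ} (hq : q ∈ Finset.Icc 1 E) (hq' : q' ∈ Finset.Icc 1 E)
    (hj : j ∈ RR q) (hj' : j' ∈ RR q')
    (h : |((j : ℝ) / q - n) - ((j' : ℝ) / q' - n')| < 1 / (E : ℝ) ^ 2) :
    n = n' ∧ q = q' ∧ j = j' := by
  rw [Finset.mem_Icc] at hq hq'
  unfold RR at hj hj'
  rw [Finset.mem_filter, Finset.mem_range] at hj hj'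
  have hqp : (0 : ℝ) < q := by exact_mod_cast hq.1
  have hqp' : (0 : ℝ) < q' := by exact_mod_cast hq'.1
  have hqE : (q : ℝ) ≤ E := by exact_mod_cast hq.2
  have hqE' : (q' : ℝ) ≤ E := by exact_mod_cast hq'.2
  have hE : (0 : ℝ) < E := lt_of_lt_of_le hqp hqE
  have h1 : ((j : ℝ) / q - n) - ((j' : ℝ) / q' - n') =
      ((((j : ℤ) - n * q) * q' - ((j' : ℤ) - n' * q') * q : ℤ) : ℝ) / (q * q') := by
    push_cast
    field_simp
  rw [h1, abs_div, abs_of_pos (mul_pos hqp hqp'), div_lt_div_iff₀ (mul_pos hqp hqp') (by positivity),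
    one_mul] at h
  have h2 : |((((j : ℤ) - n * q) * q' - ((j' : ℤ) - n' * q') * q : ℤ) : ℝ)| < 1 := by
    by_contra hcon
    push Not at hcon
    have h3 : (q : ℝ) * q' ≤ (E : ℝ) ^ 2 := by
      rw [pow_two]; exact mul_le_mul hqE hqE' hqp'.le hE.le
    nlinarith [pow_pos hE 2]
  have h4 : ((j : ℤ) - n * q) * q' = ((j' : ℤ) - n' * q') * q := by
    have h5 : |(((j : ℤ) - n * q) * q' - ((j' : ℤ) - n' * q') * q : ℤ)| < 1 := by
      exact_mod_cast h2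
    have := Int.abs_lt_one_iff.1 h5
    linarith
  have hcop : IsCoprime (q : ℤ) ((j : ℤ) - n * q) := by
    have h5 : IsCoprime (q : ℤ) (j : ℤ) := Nat.isCoprime_iff_coprime.2 hj.2
    have h6 := IsCoprime.add_mul_right_right h5 (-n)
    have h7 : (j : ℤ) - n * q = (j : ℤ) + -n * q := by ring
    rw [h7]; exact h6
  have hcop' : IsCoprime (q' : ℤ) ((j' : ℤ) - n' * q') := by
    have h5 : IsCoprime (q' : ℤ) (j' : ℤ) := Nat.isCoprime_iff_coprime.2 hj'.2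
    have h6 := IsCoprime.add_mul_right_right h5 (-n')
    have h7 : (j' : ℤ) - n' * q' = (j' : ℤ) + -n' * q' := by ring
    rw [h7]; exact h6
  have hd : (q : ℤ) ∣ (q' : ℤ) := hcop.dvd_of_dvd_mul_left ⟨(j' : ℤ) - n' * q', by rw [h4]; ring⟩
  have hd' : (q' : ℤ) ∣ (q : ℤ) := hcop'.dvd_of_dvd_mul_left ⟨(j : ℤ) - n * q, by rw [← h4]; ring⟩
  have hqq : q = q' := Nat.dvd_antisymm (Int.natCast_dvd_natCast.1 hd) (Int.natCast_dvd_natCast.1 hd')
  subst hqq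
  have h8 : (j : ℤ) - n * q = (j' : ℤ) - n' * q := by
    have hqz : (q : ℤ) ≠ 0 := by
      have := hq.1; positivity
    exact mul_right_cancel₀ hqz h4
  have hjq : (j : ℤ) < q := by exact_mod_cast hj.1
  have hjq' : (j' : ℤ) < q := by exact_mod_cast hj'.1
  have hj0 : (0 : ℤ) ≤ j := by positivity
  have hj0' : (0 : ℤ) ≤ j' := by positivity
  have h9 : (n - n') * q < 1 * q := by nlinarith
  have h10 : (-1) * (q : ℤ) < (n - n') * q := by nlinarith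
  have hqz : (0 : ℤ) < q := by exact_mod_cast hq.1
  have h11 : n - n' < 1 := lt_of_mul_lt_mul_right h9 hqz.le
  have h12 : -1 < n - n' := lt_of_mul_lt_mul_right h10 hqz.le
  have h13 : n = n' := by omega
  subst h13
  refine ⟨rfl, rfl, ?_⟩
  have : (j : ℤ) = j' := by linarith
  exact_mod_cast this

theorem pal_meas {T : ℝ} {ρ : ℝ → ℝ} (hρ : KerL T ρ) (N q : ℕ) (l Y : ℝ) {y : ℝ} (hy : 0 < y) :
    Integrable (fun x : ℝ => ‖coneY ρ N q l Y (pt x y)‖ ^ 2) := by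
  classical
  have hcont : Continuous (fun x : ℝ => ‖((ρ ((x - l) / y) / y : ℝ) : ℂ) *
      (1 + (((x - l) / y : ℝ) : ℂ) * Complex.I)‖ ^ 2) := by
    have := hρ.toKer.cont
    fun_prop
  have hcs : HasCompactSupport (fun x : ℝ => ‖((ρ ((x - l) / y) / y : ℝ) : ℂ) *
      (1 + (((x - l) / y : ℝ) : ℂ) * Complex.I)‖ ^ 2) := by
    apply HasCompactSupport.intro (isCompact_Icc (a := l - T * y) (b := l + T * y))
    intro x hx
    rw [hρ.toKer.supp ((x - l) / y)]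
    · simp
    · rw [abs_div, abs_of_pos hy, lt_div_iff₀ hy]
      by_contra hcon
      push Not at hcon
      rw [abs_le] at hcon
      exact hx ⟨by linarith [hcon.1], by linarith [hcon.2]⟩
  have hint : Integrable (fun x : ℝ => ‖((ρ ((x - l) / y) / y : ℝ) : ℂ) *
      (1 + (((x - l) / y : ℝ) : ℂ) * Complex.I)‖ ^ 2) :=
    hcont.integrable_of_hasCompactSupport hcs
  have hset : MeasurableSet {x : ℝ | y < Y ∧ y < Y * (N * (q : ℝ) ^ 2 *
      ‖((x : ℂ) + (y : ℂ) * Complex.I) - (l : ℂ)‖ ^ 2)} := by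
    have hc2 : Continuous (fun x : ℝ => Y * (N * (q : ℝ) ^ 2 *
        ‖((x : ℂ) + (y : ℂ) * Complex.I) - (l : ℂ)‖ ^ 2)) := by fun_prop
    have h2 : MeasurableSet {x : ℝ | y < Y * (N * (q : ℝ) ^ 2 *
        ‖((x : ℂ) + (y : ℂ) * Complex.I) - (l : ℂ)‖ ^ 2)} :=
      measurableSet_lt measurable_const hc2.measurable
    exact (MeasurableSet.const (y < Y)).inter h2
  have heq : (fun x : ℝ => ‖coneY ρ N q l Y (pt x y)‖ ^ 2) =
      {x : ℝ | y < Y ∧ y < Y * (N * (q : ℝ) ^ 2 *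
      ‖((x : ℂ) + (y : ℂ) * Complex.I) - (l : ℂ)‖ ^ 2)}.indicator
      (fun x : ℝ => ‖((ρ ((x - l) / y) / y : ℝ) : ℂ) *
      (1 + (((x - l) / y : ℝ) : ℂ) * Complex.I)‖ ^ 2) := by
    funext x
    obtain ⟨hc, hre, him⟩ := pt_coe x hy
    unfold coneY
    rw [him, hc]
    by_cases hx : y < Y ∧ y < Y * (N * (q : ℝ) ^ 2 *
      ‖((x : ℂ) + (y : ℂ) * Complex.I) - (l : ℂ)‖ ^ 2)
    · rw [if_pos hx, Set.indicator_of_mem (by exact hx)]
      unfold cone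
      rw [hre, him]
    · rw [if_neg hx, Set.indicator_of_notMem (by exact hx)]
      simp
  rw [heq]
  exact hint.indicator hset

/-- below `yo` the cones are disjoint -/
theorem pa_low_pr {T : ℝ} {ρ : ℝ → ℝ} (hρ : KerL T ρ) {N E : ℕ} (hN : 1 ≤ N) (hE1 : 1 ≤ E)
    (w : ℕ → ℝ) (Y : ℝ) {y : ℝ} (hy : 0 < y) (h : y < yo T E) :
    ∫ x in (0 : ℝ)..1, ‖∑' n : ℤ, KY ρ N E w Y (pt (x + n) y)‖ ^ 2 =
      ∑ q ∈ Finset.Icc 1 E, w q ^ 2 * ∑ j ∈ RR q,
        ∫ x : ℝ, ‖coneY ρ N q ((j : ℝ) / q) Y (pt x y)‖ ^ 2 := by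
  classical
  have hT : 1 ≤ T := hρ.toKer.T1
  have hE : (1 : ℝ) ≤ E := by exact_mod_cast hE1
  have hTy : 2 * (T * y) < 1 / (E : ℝ) ^ 2 := by
    unfold yo at h
    have h1 : 0 < 2 * T * (E : ℝ) ^ 2 := by positivity
    have h2 : 0 < (E : ℝ) ^ 2 := by positivity
    rw [lt_div_iff₀ h1] at h
    rw [lt_div_iff₀ h2]
    nlinarith
  have hTy1 : T * y < 1 := by
    have : 1 / (E : ℝ) ^ 2 ≤ 1 := by
      rw [div_le_one (by positivity)]
      nlinarith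
    nlinarith [mul_pos (lt_of_lt_of_le one_pos hT) hy]
  -- the support in n
  have hsupp : ∀ x ∈ Set.Icc (0 : ℝ) 1, ∀ n : ℤ, n ∉ Finset.Icc (-3 : ℤ) 3 →
      ∀ q ∈ Finset.Icc 1 E, ∀ j ∈ RR q, coneY ρ N q ((j : ℝ) / q) Y (pt (x + n) y) = 0 := by
    intro x hx n hn q hq j hj
    by_contra hne
    have h1 := pal_supp hρ N q ((j : ℝ) / q) Y hy (x + n) hne
    have hq0 : (0 : ℝ) < q := by exact_mod_cast (Finset.mem_Icc.1 hq).1
    have hj0 : (j : ℝ) / q < 1 := by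
      rw [div_lt_one hq0]
      have := (Finset.mem_filter.1 hj).1
      rw [Finset.mem_range] at this
      exact_mod_cast this
    have hj1 : (0 : ℝ) ≤ (j : ℝ) / q := by positivity
    rw [abs_le] at h1
    apply hn
    rw [Finset.mem_Icc]
    constructor
    · have : (-3 : ℝ) < n := by linarith [h1.1, hx.2]
      have : (-3 : ℤ) < n := by exact_mod_cast this
      omega
    · have : (n : ℝ) < 3 := by linarith [h1.2, hx.1]
      have : n < (3 : ℤ) := by exact_mod_cast this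
      omega
  let S : Finset (ℤ × ((_ : ℕ) × ℕ)) := (Finset.Icc (-3 : ℤ) 3) ×ˢ ((Finset.Icc 1 E).sigma RR)
  have hpt : ∀ x ∈ Set.Icc (0 : ℝ) 1, ‖∑' n : ℤ, KY ρ N E w Y (pt (x + n) y)‖ ^ 2 =
      ∑ n ∈ Finset.Icc (-3 : ℤ) 3, ∑ q ∈ Finset.Icc 1 E, ∑ j ∈ RR q,
        w q ^ 2 * ‖coneY ρ N q ((j : ℝ) / q) Y (pt (x + n) y)‖ ^ 2 := by
    intro x hx
    have h1 : ∑' n : ℤ, KY ρ N E w Y (pt (x + n) y) =
        ∑ n ∈ Finset.Icc (-3 : ℤ) 3, KY ρ N E w Y (pt (x + n) y) := by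
      apply tsum_eq_sum
      intro n hn
      unfold KY
      refine Finset.sum_eq_zero fun q hq => ?_
      rw [Finset.sum_eq_zero, mul_zero]
      intro j hj
      exact hsupp x hx n hn q hq j hj
    have h2 : ∑ n ∈ Finset.Icc (-3 : ℤ) 3, KY ρ N E w Y (pt (x + n) y) =
        ∑ i ∈ S, (w i.2.1 : ℂ) * coneY ρ N i.2.1 ((i.2.2 : ℝ) / i.2.1) Y (pt (x + i.1) y) := by
      rw [Finset.sum_product]
      refine Finset.sum_congr rfl fun n hn => ?_
      rw [Finset.sum_sigma]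
      unfold KY
      refine Finset.sum_congr rfl fun q hq => ?_
      rw [Finset.mul_sum]
    have h3 : ∑ n ∈ Finset.Icc (-3 : ℤ) 3, ∑ q ∈ Finset.Icc 1 E, ∑ j ∈ RR q,
        w q ^ 2 * ‖coneY ρ N q ((j : ℝ) / q) Y (pt (x + n) y)‖ ^ 2 =
        ∑ i ∈ S, ‖(w i.2.1 : ℂ) * coneY ρ N i.2.1 ((i.2.2 : ℝ) / i.2.1) Y (pt (x + i.1) y)‖ ^ 2 := by
      rw [Finset.sum_product]
      refine Finset.sum_congr rfl fun n hn => ?_
      rw [Finset.sum_sigma]
      refine Finset.sum_congr rfl fun q hq => ?_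
      refine Finset.sum_congr rfl fun j hj => ?_
      rw [norm_mul, mul_pow, Complex.norm_real, Real.norm_eq_abs, sq_abs]
    rw [h1, h2, h3]
    apply pal_single
    rintro ⟨n, q, j⟩ hi ⟨n', q', j'⟩ hi' hne hne'
    rw [Finset.mem_product, Finset.mem_sigma] at hi hi'
    simp only at hi hi' hne hne'
    have h4 := pal_supp hρ N q ((j : ℝ) / q) Y hy (x + n) (right_ne_zero_of_mul hne)
    have h5 := pal_supp hρ N q' ((j' : ℝ) / q') Y hy (x + n') (right_ne_zero_of_mul hne')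
    have h6 : |((j : ℝ) / q - n) - ((j' : ℝ) / q' - n')| < 1 / (E : ℝ) ^ 2 := by
      rw [abs_le] at h4 h5
      rw [abs_lt]
      constructor <;> linarith [h4.1, h4.2, h5.1, h5.2]
    obtain ⟨e1, e2, e3⟩ := pal_frac hi.2.1 hi'.2.1 hi.2.2 hi'.2.2 h6
    subst e1 e2 e3
    rfl
  have hI : ∀ n : ℤ, ∀ q j : ℕ, IntervalIntegrable (fun x : ℝ =>
      w q ^ 2 * ‖coneY ρ N q ((j : ℝ) / q) Y (pt (x + n) y)‖ ^ 2) volume 0 1 := by
    intro n q j
    apply Integrable.intervalIntegrable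
    exact ((pal_meas hρ N q ((j : ℝ) / q) Y hy).comp_add_right (n : ℝ)).const_mul _
  have hstep : ∫ x in (0 : ℝ)..1, ‖∑' n : ℤ, KY ρ N E w Y (pt (x + n) y)‖ ^ 2 =
      ∫ x in (0 : ℝ)..1, ∑ n ∈ Finset.Icc (-3 : ℤ) 3, ∑ q ∈ Finset.Icc 1 E, ∑ j ∈ RR q,
        w q ^ 2 * ‖coneY ρ N q ((j : ℝ) / q) Y (pt (x + n) y)‖ ^ 2 := by
    apply intervalIntegral.integral_congr
    intro x hx
    rw [Set.uIcc_of_le zero_le_one] at hx
    exact hpt x hx
  have hsJ : ∀ n : ℤ, ∀ q : ℕ, IntervalIntegrable (fun x : ℝ => ∑ j ∈ RR q,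
      w q ^ 2 * ‖coneY ρ N q ((j : ℝ) / q) Y (pt (x + n) y)‖ ^ 2) volume 0 1 := by
    intro n q
    have := IntervalIntegrable.sum (RR q) (f := fun j : ℕ => fun x : ℝ =>
      w q ^ 2 * ‖coneY ρ N q ((j : ℝ) / q) Y (pt (x + n) y)‖ ^ 2) (μ := volume) (a := 0) (b := 1)
      (fun j _ => hI n q j)
    refine this.congr ?_
    intro x _
    rw [Finset.sum_apply]
  have hsI : ∀ n : ℤ, IntervalIntegrable (fun x : ℝ => ∑ q ∈ Finset.Icc 1 E, ∑ j ∈ RR q,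
      w q ^ 2 * ‖coneY ρ N q ((j : ℝ) / q) Y (pt (x + n) y)‖ ^ 2) volume 0 1 := by
    intro n
    have := IntervalIntegrable.sum (Finset.Icc 1 E) (f := fun q : ℕ => fun x : ℝ => ∑ j ∈ RR q,
      w q ^ 2 * ‖coneY ρ N q ((j : ℝ) / q) Y (pt (x + n) y)‖ ^ 2) (μ := volume) (a := 0) (b := 1)
      (fun q _ => hsJ n q)
    refine this.congr ?_
    intro x _
    rw [Finset.sum_apply]
  rw [hstep, intervalIntegral.integral_finsetSum (fun n hn => hsI n)]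
  have hq : ∀ n : ℤ, ∫ x in (0 : ℝ)..1, ∑ q ∈ Finset.Icc 1 E, ∑ j ∈ RR q,
        w q ^ 2 * ‖coneY ρ N q ((j : ℝ) / q) Y (pt (x + n) y)‖ ^ 2 =
      ∑ q ∈ Finset.Icc 1 E, ∑ j ∈ RR q, w q ^ 2 * ∫ x in (0 : ℝ)..1,
        ‖coneY ρ N q ((j : ℝ) / q) Y (pt (x + n) y)‖ ^ 2 := by
    intro n
    rw [intervalIntegral.integral_finsetSum]
    · refine Finset.sum_congr rfl fun q hq => ?_
      rw [intervalIntegral.integral_finsetSum]
      · refine Finset.sum_congr rfl fun j hj => ?_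
        rw [intervalIntegral.integral_const_mul]
      · intro j hj; exact hI n q j
    · intro q hq
      exact hsJ n q
  rw [Finset.sum_congr rfl (fun n _ => hq n), Finset.sum_comm]
  refine Finset.sum_congr rfl fun q hq => ?_
  rw [Finset.sum_comm, Finset.mul_sum]
  refine Finset.sum_congr rfl fun j hj => ?_
  rw [← Finset.mul_sum]
  congr 1
  have h1 := (pal_meas hρ N q ((j : ℝ) / q) Y hy).hasSum_intervalIntegral_comp_add_int
  rw [← h1.tsum_eq]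
  symm
  apply tsum_eq_sum
  intro n hn
  have : ∫ x in (0 : ℝ)..1, ‖coneY ρ N q ((j : ℝ) / q) Y (pt (x + n) y)‖ ^ 2 =
      ∫ x in (0 : ℝ)..1, (0 : ℝ) := by
    apply intervalIntegral.integral_congr
    intro x hx
    rw [Set.uIcc_of_le zero_le_one] at hx
    simp only
    rw [hsupp x hx n hn q hq j hj]
    simp
  rw [this]
  simp

theorem pa_high : type_of% @pa_high_pr := @pa_high_pr
theorem pa_top : type_of% @pa_top_pr := @pa_top_pr
theorem pa_low : type_of% @pa_low_pr := @pa_low_pr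

end Pool.Agent.LSP
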