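import Pool.Agent.Lib_helper41.LSP.DefsG

namespace Pool.Agent.LSP

open Pool.Agent.LEV Pool.Agent.LVB Pool.Agent.KSL
open Pool.Agent.FG61 (mu phi cc ff AA Lam)
open Complex MeasureTheory Filter Topology UpperHalfPlane ModularGroup ProbabilityTheory
open scoped MatrixGroups Modular ENNReal ModularForm ComplexConjugate ContDiff

theorem MOB_det (A : M2) : (A.map (Int.cast : ℤ → ℝ)).det = ((A.det : ℤ) : ℝ) := by
  rw [Matrix.det_fin_two, Matrix.det_fin_two]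
  simp [Matrix.map_apply]

/-- the matrix in `GL₂(ℝ)` -/
noncomputable def MOB_g (A : M2) (hA : 0 < A.det) : GL (Fin 2) ℝ :=
  Matrix.GeneralLinearGroup.mkOfDetNeZero (A.map (Int.cast : ℤ → ℝ)) (by
    rw [MOB_det]
    exact_mod_cast hA.ne')

theorem MOB_apply (A : M2) (hA : 0 < A.det) (i j : Fin 2) : MOB_g A hA i j = (A i j : ℝ) := rfl

theorem MOB_gdet (A : M2) (hA : 0 < A.det) : (MOB_g A hA).det.val = ((A.det : ℤ) : ℝ) := MOB_det A

theorem MOB_pos (A : M2) (hA : 0 < A.det) : 0 < (MOB_g A hA).det.val := by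
  rw [MOB_gdet]
  exact_mod_cast hA

theorem MOB_num (A : M2) (hA : 0 < A.det) (z : ℂ) :
    num (MOB_g A hA) z = ((A 0 0 : ℤ) : ℂ) * z + ((A 0 1 : ℤ) : ℂ) := by
  unfold num
  rw [MOB_apply, MOB_apply]
  push_cast
  ring

theorem MOB_denom (A : M2) (hA : 0 < A.det) (z : ℂ) :
    denom (MOB_g A hA) z = ((A 1 0 : ℤ) : ℂ) * z + ((A 1 1 : ℤ) : ℂ) := by
  unfold denom
  rw [MOB_apply, MOB_apply]
  push_cast
  ring

theorem MOB_smul (A : M2) (hA : 0 < A.det) (z : ℍ) : mz A z = MOB_g A hA • z := by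
  unfold mz
  rw [← MOB_num A hA, ← MOB_denom A hA, ← coe_smul_of_det_pos (MOB_pos A hA),
    UpperHalfPlane.ofComplex_apply]

theorem MOB_ne {A : M2} (hA : 0 < A.det) (z : ℍ) :
    ((A 1 0 : ℤ) : ℂ) * (z : ℂ) + ((A 1 1 : ℤ) : ℂ) ≠ 0 := by
  rw [← MOB_denom A hA]
  exact denom_ne_zero _ _

theorem mz_coe_pr {A : M2} (hA : 0 < A.det) (z : ℍ) : ((mz A z : ℍ) : ℂ) =
      (((A 0 0 : ℤ) : ℂ) * (z : ℂ) + ((A 0 1 : ℤ) : ℂ)) /
        (((A 1 0 : ℤ) : ℂ) * (z : ℂ) + ((A 1 1 : ℤ) : ℂ)) ∧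
    (mz A z).im = (A.det : ℤ) * z.im /
      ‖((A 1 0 : ℤ) : ℂ) * (z : ℂ) + ((A 1 1 : ℤ) : ℂ)‖ ^ 2 := by
  rw [MOB_smul A hA]
  constructor
  · rw [coe_smul_of_det_pos (MOB_pos A hA), MOB_num, MOB_denom]
  · rw [UpperHalfPlane.im_smul_eq_div_normSq, abs_of_pos (MOB_pos A hA), MOB_gdet, MOB_denom,
      Complex.normSq_eq_norm_sq]

theorem MOB_detmul {A B : M2} (hA : 0 < A.det) (hB : 0 < B.det) : 0 < (A * B).det := by
  rw [Matrix.det_mul]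
  exact mul_pos hA hB

theorem MOB_gmul {A B : M2} (hA : 0 < A.det) (hB : 0 < B.det) :
    MOB_g (A * B) (MOB_detmul hA hB) = MOB_g A hA * MOB_g B hB := by
  ext i j
  rw [MOB_apply]
  rw [Matrix.GeneralLinearGroup.coe_mul, Matrix.mul_apply, Matrix.mul_apply]
  push_cast
  rfl

theorem mz_mul_pr {A B : M2} (hA : 0 < A.det) (hB : 0 < B.det) (z : ℍ) :
    mz A (mz B z) = mz (A * B) z := by
  rw [MOB_smul A hA, MOB_smul B hB, MOB_smul _ (MOB_detmul hA hB), MOB_gmul hA hB, mul_smul]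

theorem MOB_sldet (γ : SL(2, ℤ)) : 0 < ((γ : SL(2, ℤ)) : M2).det := by
  rw [Matrix.SpecialLinearGroup.det_coe]
  exact one_pos

theorem mz_sl_pr (γ : SL(2, ℤ)) (z : ℍ) : mz (γ : M2) z = γ • z := by
  apply UpperHalfPlane.ext
  rw [(mz_coe_pr (MOB_sldet γ) z).1, coe_specialLinearGroup_apply]
  simp

theorem mz_int_pr {A : M2} (hA : 0 < A.det) (F : ℍ → ℂ) :
    ∫ z : ℍ, F (mz A z) = ∫ z : ℍ, F z := by
  simp only [MOB_smul A hA]
  exact integral_smul_eq_self F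

theorem mz_integrable_pr {A : M2} (hA : 0 < A.det) {F : ℍ → ℂ} (hF : Integrable F) :
    Integrable (fun z : ℍ => F (mz A z)) := by
  simp only [MOB_smul A hA]
  exact (measurePreserving_smul (MOB_g A hA) (volume : Measure ℍ)).integrable_comp_of_integrable hF

theorem MOB_cocycle {A B : M2} (hB : 0 < B.det) (z : ℍ) :
    (((A * B) 1 0 : ℤ) : ℂ) * (z : ℂ) + (((A * B) 1 1 : ℤ) : ℂ) =
      (((A 1 0 : ℤ) : ℂ) * ((mz B z : ℍ) : ℂ) + ((A 1 1 : ℤ) : ℂ)) *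
        (((B 1 0 : ℤ) : ℂ) * (z : ℂ) + ((B 1 1 : ℤ) : ℂ)) := by
  have h := MOB_ne hB z
  rw [(mz_coe_pr hB z).1, Matrix.mul_apply, Matrix.mul_apply, Fin.sum_univ_two, Fin.sum_univ_two]
  push_cast
  field_simp
  ring

theorem sl2_mul_pr {A B : M2} (hA : 0 < A.det) (hB : 0 < B.det) (F : ℍ → ℂ) :
    sl2 B (sl2 A F) = sl2 (A * B) F := by
  funext z
  unfold sl2
  rw [MOB_cocycle hB z, mz_mul_pr hA hB, Matrix.det_mul]
  have h1 := MOB_ne hB z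
  have h2 := MOB_ne hA (mz B z)
  push_cast
  field_simp

theorem sl2_sl_pr (γ : SL(2, ℤ)) (F : ℍ → ℂ) : sl2 (γ : M2) F = F ∣[(2 : ℤ)] γ := by
  funext z
  unfold sl2
  rw [ModularForm.SL_slash_apply, mz_sl_pr, Matrix.SpecialLinearGroup.det_coe]
  have h : denom γ z = ((γ 1 0 : ℤ) : ℂ) * (z : ℂ) + ((γ 1 1 : ℤ) : ℂ) := by
    simp [denom]
  rw [h, zpow_neg]
  push_cast
  rw [one_div, mul_comm]
  norm_cast

theorem sl2_smul_pr {k : ℤ} (hk : k ≠ 0) {A : M2} (hA : 0 < A.det) (F : ℍ → ℂ) :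
    sl2 (k • A) F = sl2 A F := by
  have hk' : (k : ℂ) ≠ 0 := by exact_mod_cast hk
  funext z
  have hne := MOB_ne hA z
  unfold sl2 mz
  have hdet : (k • A).det = k ^ 2 * A.det := by
    rw [Matrix.det_smul, Fintype.card_fin]
  rw [hdet]
  simp only [Matrix.smul_apply, smul_eq_mul]
  push_cast
  have e1 : (k : ℂ) * (A 0 0 : ℂ) * (z : ℂ) + (k : ℂ) * (A 0 1 : ℂ) =
      k * ((A 0 0 : ℂ) * (z : ℂ) + (A 0 1 : ℂ)) := by ring
  have e2 : (k : ℂ) * (A 1 0 : ℂ) * (z : ℂ) + (k : ℂ) * (A 1 1 : ℂ) =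
      k * ((A 1 0 : ℂ) * (z : ℂ) + (A 1 1 : ℂ)) := by ring
  rw [e1, e2, mul_div_mul_left _ _ hk']
  congr 1
  rw [mul_pow, mul_div_mul_left _ _ (pow_ne_zero 2 hk')]

theorem sl2_ip_pr {A : M2} (hA : 0 < A.det) (F G : ℍ → ℂ) :
    ipH (sl2 A F) (sl2 A G) = ipH F G := by
  unfold ipH
  rw [← mz_int_pr hA (fun z => F z * conj (G z) * ((z.im ^ 2 : ℝ) : ℂ))]
  congr 1
  funext z
  have hne := MOB_ne hA z
  unfold sl2
  rw [(mz_coe_pr hA z).2]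
  set j : ℂ := ((A 1 0 : ℤ) : ℂ) * (z : ℂ) + ((A 1 1 : ℤ) : ℂ) with hj
  have hjj : ((‖j‖ : ℝ) : ℂ) ^ 2 = j * conj j := by
    rw [Complex.mul_conj, Complex.normSq_eq_norm_sq]
    push_cast
    rfl
  have hcj : conj j ≠ 0 := (map_ne_zero _).mpr hne
  rw [map_mul, map_div₀, map_pow, map_intCast]
  generalize A.det = d
  push_cast
  rw [div_pow, ← pow_mul, show 2 * 2 = 2 + 2 by norm_num, pow_add, hjj]
  field_simp

theorem mz_coe : type_of% @mz_coe_pr := @mz_coe_pr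
theorem mz_mul : type_of% @mz_mul_pr := @mz_mul_pr
theorem mz_sl : type_of% @mz_sl_pr := @mz_sl_pr
theorem mz_int : type_of% @mz_int_pr := @mz_int_pr
theorem mz_integrable : type_of% @mz_integrable_pr := @mz_integrable_pr
theorem sl2_mul : type_of% @sl2_mul_pr := @sl2_mul_pr
theorem sl2_sl : type_of% @sl2_sl_pr := @sl2_sl_pr
theorem sl2_smul : type_of% @sl2_smul_pr := @sl2_smul_pr
theorem sl2_ip : type_of% @sl2_ip_pr := @sl2_ip_pr

end Pool.Agent.LSP
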