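import Pool.Agent.Lib_helper41.LSP.DefsG
import Pool.Agent.Lib_helper41.LSPG.MOB

/-! LSP, block BDF: bounded functions of bounded support. The proofs of the first two theorems are
those of helper22. -/

namespace Pool.Agent.LSP

open Pool.Agent.LEV Pool.Agent.LVB Pool.Agent.KSL
open Pool.Agent.FG61 (mu phi cc ff AA Lam)
open Complex MeasureTheory Filter Topology UpperHalfPlane ModularGroup ProbabilityTheory
open scoped MatrixGroups Modular ENNReal ModularForm ComplexConjugate ContDiff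

/-- the factor of automorphy -/
noncomputable def BDFj (γ : SL(2, ℤ)) (z : ℍ) : ℂ := ((γ 1 0 : ℤ) : ℂ) * z + ((γ 1 1 : ℤ) : ℂ)

theorem BDF_bj_ne (γ : SL(2, ℤ)) (z : ℍ) : BDFj γ z ≠ 0 := Pool.Agent.GL2.RSA_denom_ne γ z

theorem BDF_im (γ : SL(2, ℤ)) (z : ℍ) : (γ • z).im = z.im / ‖BDFj γ z‖ ^ 2 :=
  Pool.Agent.GL2.RSA_im_smul γ z

theorem BDF_fin_mat (M : ℤ) : {γ : SL(2, ℤ) | ∀ i j, |γ i j| ≤ M}.Finite := by
  have hfin : {A : Fin 2 → Fin 2 → ℤ | ∀ i j, A i j ∈ Set.Icc (-M) M}.Finite :=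
    Set.Finite.pi' fun _ => Set.Finite.pi' fun _ => Set.finite_Icc _ _
  have hinj : Function.Injective (fun γ : SL(2, ℤ) => ((γ : Matrix (Fin 2) (Fin 2) ℤ) :
      Fin 2 → Fin 2 → ℤ)) := by
    intro a b h
    apply Subtype.ext
    exact h
  refine (hfin.preimage hinj.injOn).subset ?_
  intro γ hγ i j
  exact abs_le.mp (hγ i j)

theorem BDF_abs_re (z : ℍ) {R : ℝ} (h1 : z.im ≤ R) (h2 : |z.re| ≤ R) : ‖(z : ℂ)‖ ≤ 2 * R := by
  refine (Complex.norm_le_abs_re_add_abs_im _).trans ?_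
  have h3 : |(z : ℂ).im| = z.im := abs_of_pos z.im_pos
  have h4 : |(z : ℂ).re| ≤ R := h2
  rw [h3]
  linarith

theorem BDF_row {c d : ℤ} {z : ℍ} {y R s : ℝ} (hy : 0 < y) (h0 : y ≤ z.im) (h1 : z.im ≤ R)
    (h2 : |z.re| ≤ R) (hs : ‖((c : ℤ) : ℂ) * (z : ℂ) + ((d : ℤ) : ℂ)‖ ≤ s) :
    |(c : ℝ)| ≤ s / y ∧ |(d : ℝ)| ≤ s + s / y * (2 * R) := by
  have h3 : |(c : ℝ)| * z.im ≤ s := by
    refine le_trans ?_ hs
    have e : (((c : ℤ) : ℂ) * (z : ℂ) + ((d : ℤ) : ℂ)).im = (c : ℝ) * z.im := by simp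
    have := Complex.abs_im_le_norm (((c : ℤ) : ℂ) * (z : ℂ) + ((d : ℤ) : ℂ))
    rw [e, abs_mul, abs_of_pos z.im_pos] at this
    exact this
  have h4 : |(c : ℝ)| ≤ s / y := by
    rw [le_div_iff₀ hy]
    exact (mul_le_mul_of_nonneg_left h0 (abs_nonneg _)).trans h3
  refine ⟨h4, ?_⟩
  have h5 : ‖((d : ℤ) : ℂ)‖ ≤ s + |(c : ℝ)| * ‖(z : ℂ)‖ := by
    have e : ((d : ℤ) : ℂ) = (((c : ℤ) : ℂ) * (z : ℂ) + ((d : ℤ) : ℂ)) -
        ((c : ℤ) : ℂ) * (z : ℂ) := by ring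
    rw [e]
    refine (norm_sub_le _ _).trans ?_
    rw [norm_mul]
    have e2 : ‖((c : ℤ) : ℂ)‖ = |(c : ℝ)| := by
      rw [Complex.norm_intCast]
    rw [e2]
    linarith
  have e3 : ‖((d : ℤ) : ℂ)‖ = |(d : ℝ)| := by rw [Complex.norm_intCast]
  rw [e3] at h5
  have h6 : |(c : ℝ)| * ‖(z : ℂ)‖ ≤ s / y * (2 * R) :=
    mul_le_mul h4 (BDF_abs_re z h1 h2) (norm_nonneg _) ((abs_nonneg _).trans h4)
  linarith

theorem BDF_coe_smul (g : SL(2, ℤ)) (w : ℍ) : ((g • w : ℍ) : ℂ) * BDFj g w =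
    ((g 0 0 : ℤ) : ℂ) * w + ((g 0 1 : ℤ) : ℂ) := by
  rw [Pool.Agent.GL2.RSA_coe_smul]
  exact div_mul_cancel₀ _ (BDF_bj_ne g w)

theorem bd_finite_pr {K L : ℍ → ℂ} (hK : Bd K) (hL : Bd L) :
    {γ : SL(2, ℤ) | ∃ z : ℍ, K z ≠ 0 ∧ L (γ • z) ≠ 0}.Finite := by
  obtain ⟨-, y, R, hy, -, hKs⟩ := hK
  obtain ⟨-, y', R', hy', -, hLs⟩ := hL
  set s : ℝ := 1 + R / y' with hs
  set B : ℝ := (1 + 2 * |R'|) * (s / y + (s + s / y * (2 * R))) with hB
  refine (BDF_fin_mat ⌈B⌉).subset ?_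
  rintro γ ⟨z, hz, hw⟩
  obtain ⟨a1, a2, a3⟩ := hKs z hz
  obtain ⟨b1, b2, b3⟩ := hLs _ hw
  have hR : 0 < R := lt_of_lt_of_le hy (a1.trans a2)
  have hs1 : 1 ≤ s := by
    rw [hs]
    have : 0 ≤ R / y' := by positivity
    linarith
  have hj : ‖BDFj γ z‖ ≤ s := by
    have h1 := BDF_im γ z
    have hpos : 0 < ‖BDFj γ z‖ := norm_pos_iff.mpr (BDF_bj_ne γ z)
    have h2 : ‖BDFj γ z‖ ^ 2 ≤ R / y' := by
      rw [le_div_iff₀ hy']
      have h3 : (γ • z).im * ‖BDFj γ z‖ ^ 2 = z.im := by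
        rw [h1]
        field_simp
      calc ‖BDFj γ z‖ ^ 2 * y' ≤ ‖BDFj γ z‖ ^ 2 * (γ • z).im :=
            mul_le_mul_of_nonneg_left b1 (by positivity)
        _ = z.im := by rw [mul_comm, h3]
        _ ≤ R := a2
    by_contra hcon
    rw [not_le] at hcon
    have h4 : s ≤ s ^ 2 := by nlinarith
    have h5 : s ^ 2 < ‖BDFj γ z‖ ^ 2 := by
      exact pow_lt_pow_left₀ hcon (by linarith) (by norm_num)
    linarith
  have hsy : 0 ≤ s / y := by positivity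
  have h1 := BDF_row (c := γ 1 0) (d := γ 1 1) hy a1 a2 a3 hj
  have hab : ‖((γ 0 0 : ℤ) : ℂ) * (z : ℂ) + ((γ 0 1 : ℤ) : ℂ)‖ ≤ 2 * |R'| * s := by
    rw [← BDF_coe_smul, norm_mul]
    refine mul_le_mul ?_ hj (norm_nonneg _) (by positivity)
    exact BDF_abs_re _ (b2.trans (le_abs_self _)) (b3.trans (le_abs_self _))
  have h2 := BDF_row (c := γ 0 0) (d := γ 0 1) hy a1 a2 a3 hab
  have h0 : 0 ≤ |R'| := abs_nonneg _
  have hu : 0 ≤ s / y * (2 * R) := by positivity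
  have k1 : s / y ≤ B := by
    rw [hB]
    nlinarith [mul_nonneg h0 (add_nonneg hsy (add_nonneg (by linarith : (0:ℝ) ≤ s) hu))]
  have k2 : s + s / y * (2 * R) ≤ B := by
    rw [hB]
    nlinarith [mul_nonneg h0 (add_nonneg hsy (add_nonneg (by linarith : (0:ℝ) ≤ s) hu))]
  have k3 : 2 * |R'| * s / y ≤ B := by
    have e : 2 * |R'| * s / y = 2 * |R'| * (s / y) := by ring
    rw [hB, e]
    nlinarith [mul_nonneg h0 (add_nonneg (by linarith : (0:ℝ) ≤ s) hu)]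
  have k4 : 2 * |R'| * s + 2 * |R'| * s / y * (2 * R) ≤ B := by
    have e : 2 * |R'| * s + 2 * |R'| * s / y * (2 * R) =
      2 * |R'| * (s + s / y * (2 * R)) := by ring
    rw [hB, e]
    nlinarith [mul_nonneg h0 hsy]
  have hfin : ∀ i j, |((γ i j : ℤ) : ℝ)| ≤ B := by
    intro i j
    fin_cases i <;> fin_cases j
    · exact h2.1.trans k3
    · exact h2.2.trans k4
    · exact h1.1.trans k1
    · exact h1.2.trans k2
  intro i j
  have h3 : ((|γ i j| : ℤ) : ℝ) ≤ B := by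
    have := hfin i j
    push_cast
    exact this
  have h4 : ((|γ i j| : ℤ) : ℝ) ≤ (⌈B⌉ : ℝ) := h3.trans (Int.le_ceil B)
  exact_mod_cast h4

theorem bd_add_pr {K L : ℍ → ℂ} (hK : Bd K) (hL : Bd L) (c : ℂ) : Bd (fun z => K z + c * L z) := by
  obtain ⟨hKm, y, R, hy, hKb, hKs⟩ := hK
  obtain ⟨hLm, y', R', hy', hLb, hLs⟩ := hL
  refine ⟨hKm.add (measurable_const.mul hLm), min y y', |R| + (1 + ‖c‖) * |R'|,
    lt_min hy hy', fun z => ?_, fun z hz => ?_⟩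
  · refine (norm_add_le _ _).trans ?_
    rw [norm_mul]
    have h1 := (hKb z).trans (le_abs_self R)
    have h2 := mul_le_mul_of_nonneg_left ((hLb z).trans (le_abs_self R')) (norm_nonneg c)
    have h3 := abs_nonneg R'
    nlinarith
  · have hc := norm_nonneg c
    have hR' := abs_nonneg R'
    have hR := abs_nonneg R
    by_cases hk : K z = 0
    · have hl : L z ≠ 0 := by
        intro h
        apply hz
        simp only [hk, h, mul_zero, add_zero]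
      obtain ⟨b1, b2, b3⟩ := hLs z hl
      have := le_abs_self R'
      refine ⟨(min_le_right _ _).trans b1, ?_, ?_⟩
      · nlinarith [mul_nonneg hc hR']
      · nlinarith [mul_nonneg hc hR']
    · obtain ⟨b1, b2, b3⟩ := hKs z hk
      have := le_abs_self R
      refine ⟨(min_le_left _ _).trans b1, ?_, ?_⟩
      · nlinarith [mul_nonneg hc hR']
      · nlinarith [mul_nonneg hc hR']


/-! ### the box -/

theorem BDF_compact (y R : ℝ) (hy : 0 < y) :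
    IsCompact {z : ℍ | y ≤ z.im ∧ z.im ≤ R ∧ |z.re| ≤ R} := by
  have hcomp : IsCompact (Set.Icc (-R) R ×ℂ Set.Icc y R) :=
    (isCompact_Icc).reProdIm isCompact_Icc
  have hr : (Set.Icc (-R) R ×ℂ Set.Icc y R) ⊆ Set.range ((↑) : ℍ → ℂ) := by
    intro z hz
    rw [Complex.mem_reProdIm] at hz
    have hz0 : 0 < z.im := lt_of_lt_of_le hy hz.2.1
    exact ⟨⟨z, hz0⟩, rfl⟩
  have h1 := UpperHalfPlane.isOpenEmbedding_coe.isInducing.isCompact_preimage' hcomp hr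
  have h2 : {z : ℍ | y ≤ z.im ∧ z.im ≤ R ∧ |z.re| ≤ R} =
      ((↑) : ℍ → ℂ) ⁻¹' (Set.Icc (-R) R ×ℂ Set.Icc y R) := by
    ext z
    rw [Set.mem_preimage, Complex.mem_reProdIm]
    constructor
    · rintro ⟨h1, h2, h3⟩
      exact ⟨abs_le.mp h3, h1, h2⟩
    · rintro ⟨h3, h1, h2⟩
      exact ⟨h1, h2, abs_le.mpr h3⟩
  rw [h2]
  exact h1

theorem BDF_int (F : ℍ → ℂ) (hF : Measurable F) {y R C : ℝ} (hy : 0 < y)
    (hs : ∀ z, F z ≠ 0 → z ∈ {z : ℍ | y ≤ z.im ∧ z.im ≤ R ∧ |z.re| ≤ R})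
    (hb : ∀ z ∈ {z : ℍ | y ≤ z.im ∧ z.im ≤ R ∧ |z.re| ≤ R}, ‖F z‖ ≤ C) : Integrable F := by
  have hc := BDF_compact y R hy
  rw [← integrableOn_iff_integrable_of_support_subset (s := {z : ℍ | y ≤ z.im ∧ z.im ≤ R ∧
    |z.re| ≤ R}) (fun z hz => hs z hz)]
  exact Measure.integrableOn_of_bounded hc.measure_lt_top.ne hF.aestronglyMeasurable
    ((ae_restrict_iff' hc.isClosed.measurableSet).mpr (ae_of_all _ hb))

theorem BDF_im_meas : Measurable (fun z : ℍ => ((z.im ^ 2 : ℝ) : ℂ)) :=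
  (Complex.continuous_ofReal.comp (UpperHalfPlane.continuous_im.pow 2)).measurable

theorem bd_int_pr {K L : ℍ → ℂ} (hK : Bd K) (hL : Bd L) :
    Integrable (fun z : ℍ => K z * conj (L z) * ((z.im ^ 2 : ℝ) : ℂ)) := by
  obtain ⟨hKm, y, R, hy, hKb, hKs⟩ := hK
  obtain ⟨hLm, y', R', hy', hLb, hLs⟩ := hL
  have hm : Measurable (fun z : ℍ => K z * conj (L z) * ((z.im ^ 2 : ℝ) : ℂ)) :=
    (hKm.mul (Complex.continuous_conj.measurable.comp hLm)).mul BDF_im_meas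
  refine BDF_int _ hm (y := y) (R := R) (C := R * R' * R ^ 2) hy (fun z hz => ?_) (fun z hz => ?_)
  · refine hKs z fun h => hz ?_
    rw [h, zero_mul, zero_mul]
  · rw [norm_mul, norm_mul, Complex.norm_conj, Complex.norm_real, Real.norm_eq_abs,
      abs_of_nonneg (sq_nonneg z.im)]
    have h1 : 0 ≤ R := (norm_nonneg _).trans (hKb z)
    have h2 : 0 ≤ R' := (norm_nonneg _).trans (hLb z)
    have h3 : z.im ^ 2 ≤ R ^ 2 := pow_le_pow_left₀ z.im_pos.le hz.2.1 2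
    exact mul_le_mul (mul_le_mul (hKb z) (hLb z) (norm_nonneg _) h1) h3 (sq_nonneg _)
      (mul_nonneg h1 h2)

theorem bd_int_form_pr {N : ℕ} (g : S2 N) {K : ℍ → ℂ} (hK : Bd K) :
    Integrable (fun z : ℍ => g z * conj (K z) * ((z.im ^ 2 : ℝ) : ℂ)) := by
  obtain ⟨hKm, y, R, hy, hKb, hKs⟩ := hK
  have hg : Continuous (g : ℍ → ℂ) := (ModularFormClass.holo g).continuous
  have hm : Measurable (fun z : ℍ => g z * conj (K z) * ((z.im ^ 2 : ℝ) : ℂ)) :=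
    (hg.measurable.mul (Complex.continuous_conj.measurable.comp hKm)).mul BDF_im_meas
  obtain ⟨C, hC⟩ := (BDF_compact y R hy).exists_bound_of_continuousOn hg.continuousOn
  refine BDF_int _ hm (y := y) (R := R) (C := C * R * R ^ 2) hy (fun z hz => ?_) (fun z hz => ?_)
  · refine hKs z fun h => hz ?_
    rw [h, map_zero, mul_zero, zero_mul]
  · rw [norm_mul, norm_mul, Complex.norm_conj, Complex.norm_real, Real.norm_eq_abs,
      abs_of_nonneg (sq_nonneg z.im)]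
    have h1 : 0 ≤ C := (norm_nonneg _).trans (hC z hz)
    have h2 : 0 ≤ R := (norm_nonneg _).trans (hKb z)
    have h3 : z.im ^ 2 ≤ R ^ 2 := pow_le_pow_left₀ z.im_pos.le hz.2.1 2
    exact mul_le_mul (mul_le_mul (hC z hz) (hKb z) (norm_nonneg _) h1) h3 (sq_nonneg _)
      (mul_nonneg h1 h2)

/-! ### the action of matrices -/

theorem BDF_den {A : M2} (hA : 0 < A.det) (z : ℍ) :
    ((A 1 0 : ℤ) : ℂ) * (z : ℂ) + ((A 1 1 : ℤ) : ℂ) ≠ 0 := by
  intro h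
  have h1 := congrArg Complex.im h
  have h2 := congrArg Complex.re h
  simp only [Complex.add_im, Complex.mul_im, Complex.intCast_re, Complex.intCast_im, zero_mul,
    add_zero, Complex.zero_im, Complex.add_re, Complex.mul_re, sub_zero, Complex.zero_re] at h1 h2
  have h3 : ((A 1 0 : ℤ) : ℝ) = 0 := by
    rcases mul_eq_zero.mp h1 with h4 | h4
    · exact h4
    · exact absurd h4 z.im_pos.ne'
  rw [h3, zero_mul, zero_add] at h2
  have h5 : A 1 0 = 0 := by exact_mod_cast h3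
  have h6 : A 1 1 = 0 := by exact_mod_cast h2
  rw [Matrix.det_fin_two, h5, h6] at hA
  simp at hA

theorem BDF_mz_cont {A : M2} (hA : 0 < A.det) : Continuous (mz A) := by
  rw [UpperHalfPlane.isOpenEmbedding_coe.isInducing.continuous_iff]
  have h : ((↑) : ℍ → ℂ) ∘ mz A = fun z : ℍ =>
      (((A 0 0 : ℤ) : ℂ) * (z : ℂ) + ((A 0 1 : ℤ) : ℂ)) /
        (((A 1 0 : ℤ) : ℂ) * (z : ℂ) + ((A 1 1 : ℤ) : ℂ)) := by
    funext z
    exact (mz_coe hA z).1
  rw [h]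
  exact Continuous.div (by fun_prop) (by fun_prop) (fun z => BDF_den hA z)

theorem BDF_k {A : M2} (hA : 0 < A.det) (z : ℍ) :
    (((A 0 0 : ℤ) : ℂ) - ((A 1 0 : ℤ) : ℂ) * (mz A z : ℂ)) *
      (((A 1 0 : ℤ) : ℂ) * (z : ℂ) + ((A 1 1 : ℤ) : ℂ)) = ((A.det : ℤ) : ℂ) := by
  rw [(mz_coe hA z).1, Matrix.det_fin_two]
  have := BDF_den hA z
  field_simp
  push_cast
  ring

theorem BDF_z {A : M2} (hA : 0 < A.det) (z : ℍ) :
    (((A 0 0 : ℤ) : ℂ) - ((A 1 0 : ℤ) : ℂ) * (mz A z : ℂ)) * (z : ℂ) =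
      ((A 1 1 : ℤ) : ℂ) * (mz A z : ℂ) - ((A 0 1 : ℤ) : ℂ) := by
  rw [(mz_coe hA z).1]
  have := BDF_den hA z
  field_simp
  ring

theorem bd_sl2_pr {K : ℍ → ℂ} (hK : Bd K) {A : M2} (hA : 0 < A.det) : Bd (sl2 A K) := by
  obtain ⟨hKm, y, R, hy, hKb, hKs⟩ := hK
  have hR0 : 0 ≤ R := (norm_nonneg _).trans (hKb UpperHalfPlane.I)
  have hD : (1 : ℝ) ≤ ((A.det : ℤ) : ℝ) := by exact_mod_cast hA
  set D : ℝ := ((A.det : ℤ) : ℝ) with hDdef
  set a : ℝ := ((A 0 0 : ℤ) : ℝ) with ha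
  set b : ℝ := ((A 0 1 : ℤ) : ℝ) with hb
  set c : ℝ := ((A 1 0 : ℤ) : ℝ) with hc
  set d : ℝ := ((A 1 1 : ℤ) : ℝ) with hd
  set S : ℝ := |a| + |c| * (2 * R) + 1 with hS
  set δ : ℝ := min 1 y with hδ
  have hδ0 : 0 < δ := lt_min one_pos hy
  have hS0 : 0 < S := by positivity
  have hD0 : 0 < D := lt_of_lt_of_le one_pos hD
  -- facts at a point of the support
  have key : ∀ z : ℍ, K (mz A z) ≠ 0 →
      δ ≤ ‖((A 0 0 : ℤ) : ℂ) - ((A 1 0 : ℤ) : ℂ) * (mz A z : ℂ)‖ ∧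
      ‖((A 0 0 : ℤ) : ℂ) - ((A 1 0 : ℤ) : ℂ) * (mz A z : ℂ)‖ ≤ S ∧
      ‖((A 1 1 : ℤ) : ℂ) * (mz A z : ℂ) - ((A 0 1 : ℤ) : ℂ)‖ ≤ |d| * (2 * R) + |b| := by
    intro z hz
    obtain ⟨h1, h2, h3⟩ := hKs _ hz
    have hw : ‖(mz A z : ℂ)‖ ≤ 2 * R := BDF_abs_re _ h2 h3
    have e1 : ‖((A 0 0 : ℤ) : ℂ)‖ = |a| := by rw [Complex.norm_intCast]
    have e2 : ‖((A 1 0 : ℤ) : ℂ)‖ = |c| := by rw [Complex.norm_intCast]
    have e3 : ‖((A 1 1 : ℤ) : ℂ)‖ = |d| := by rw [Complex.norm_intCast]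
    have e4 : ‖((A 0 1 : ℤ) : ℂ)‖ = |b| := by rw [Complex.norm_intCast]
    refine ⟨?_, ?_, ?_⟩
    · by_cases h0 : A 1 0 = 0
      · rw [h0]
        have h5 : A 0 0 ≠ 0 := by
          intro h6
          rw [Matrix.det_fin_two, h0, h6] at hA
          simp at hA
        have h7 : (1 : ℝ) ≤ |a| := by
          have : (1 : ℤ) ≤ |A 0 0| := Int.one_le_abs h5
          rw [ha]
          exact_mod_cast this
        simp only [Int.cast_zero, zero_mul, sub_zero]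
        rw [e1]
        exact (min_le_left _ _).trans h7
      · have h7 : (1 : ℝ) ≤ |c| := by
          have : (1 : ℤ) ≤ |A 1 0| := Int.one_le_abs h0
          rw [hc]
          exact_mod_cast this
        have h8 := Complex.abs_im_le_norm
          (((A 0 0 : ℤ) : ℂ) - ((A 1 0 : ℤ) : ℂ) * (mz A z : ℂ))
        have h9 : (((A 0 0 : ℤ) : ℂ) - ((A 1 0 : ℤ) : ℂ) * (mz A z : ℂ)).im =
            -(c * (mz A z).im) := by
          simp [hc]
        rw [h9, abs_neg, abs_mul, abs_of_pos (mz A z).im_pos] at h8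
        refine ((min_le_right _ _).trans h1).trans (le_trans ?_ h8)
        nlinarith [(mz A z).im_pos]
    · refine (norm_sub_le _ _).trans ?_
      rw [norm_mul, e1, e2, hS]
      have := mul_le_mul_of_nonneg_left hw (abs_nonneg c)
      linarith
    · refine (norm_sub_le _ _).trans ?_
      rw [norm_mul, e3, e4]
      have := mul_le_mul_of_nonneg_left hw (abs_nonneg d)
      linarith
  have hkj : ∀ z : ℍ, ‖((A 0 0 : ℤ) : ℂ) - ((A 1 0 : ℤ) : ℂ) * (mz A z : ℂ)‖ *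
      ‖((A 1 0 : ℤ) : ℂ) * (z : ℂ) + ((A 1 1 : ℤ) : ℂ)‖ = D := by
    intro z
    rw [← norm_mul, BDF_k hA z, Complex.norm_intCast, abs_of_pos hD0]
  have hsl : ∀ z : ℍ, sl2 A K z ≠ 0 → K (mz A z) ≠ 0 := by
    intro z hz h
    apply hz
    unfold sl2
    rw [h, mul_zero]
  refine ⟨?_, y * D / S ^ 2, S ^ 2 * R + R * D / δ ^ 2 + (|d| * (2 * R) + |b|) / δ,
    by positivity, fun z => ?_, fun z hz => ?_⟩
  · have h1 : Measurable (fun z : ℍ => ((A.det : ℤ) : ℂ) /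
        (((A 1 0 : ℤ) : ℂ) * (z : ℂ) + ((A 1 1 : ℤ) : ℂ)) ^ 2) := by
      have : Continuous (fun z : ℍ => ((A.det : ℤ) : ℂ) /
        (((A 1 0 : ℤ) : ℂ) * (z : ℂ) + ((A 1 1 : ℤ) : ℂ)) ^ 2) :=
        Continuous.div (by fun_prop) (by fun_prop) (fun z => pow_ne_zero 2 (BDF_den hA z))
      exact this.measurable
    exact h1.mul (hKm.comp (BDF_mz_cont hA).measurable)
  · have hp1 : 0 ≤ R * D / δ ^ 2 := by positivity
    have hp2 : 0 ≤ (|d| * (2 * R) + |b|) / δ := by positivity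
    by_cases hz : K (mz A z) = 0
    · unfold sl2
      rw [hz, mul_zero, norm_zero]
      positivity
    · obtain ⟨k1, k2, -⟩ := key z hz
      have hj := hkj z
      set k : ℝ := ‖((A 0 0 : ℤ) : ℂ) - ((A 1 0 : ℤ) : ℂ) * (mz A z : ℂ)‖ with hk
      set j : ℝ := ‖((A 1 0 : ℤ) : ℂ) * (z : ℂ) + ((A 1 1 : ℤ) : ℂ)‖ with hjd
      have hj0 : 0 < j := norm_pos_iff.mpr (BDF_den hA z)
      have hk0 : 0 < k := lt_of_lt_of_le hδ0 k1
      have h1 : ‖sl2 A K z‖ = D / j ^ 2 * ‖K (mz A z)‖ := by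
        unfold sl2
        rw [norm_mul, norm_div, norm_pow, Complex.norm_intCast, abs_of_pos hD0]
      have h2 : D / j ^ 2 ≤ S ^ 2 := by
        rw [div_le_iff₀ (by positivity), ← hj]
        have h3 : k * j ≤ (k * j) ^ 2 := by
          have : 1 ≤ k * j := by rw [hj]; exact hD
          nlinarith
        refine h3.trans ?_
        rw [mul_pow]
        exact mul_le_mul_of_nonneg_right (pow_le_pow_left₀ hk0.le k2 2) (by positivity)
      rw [h1]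
      have h4 : D / j ^ 2 * ‖K (mz A z)‖ ≤ S ^ 2 * R :=
        mul_le_mul h2 (hKb _) (norm_nonneg _) (by positivity)
      linarith
  · have hz' := hsl z hz
    obtain ⟨k1, k2, k3⟩ := key z hz'
    obtain ⟨h1, h2, h3⟩ := hKs _ hz'
    have hj := hkj z
    have him := (mz_coe hA z).2
    rw [← hDdef] at him
    have hzz := congrArg norm (BDF_z hA z)
    rw [norm_mul] at hzz
    set k : ℝ := ‖((A 0 0 : ℤ) : ℂ) - ((A 1 0 : ℤ) : ℂ) * (mz A z : ℂ)‖ with hk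
    set j : ℝ := ‖((A 1 0 : ℤ) : ℂ) * (z : ℂ) + ((A 1 1 : ℤ) : ℂ)‖ with hjd
    have hj0 : 0 < j := norm_pos_iff.mpr (BDF_den hA z)
    have hk0 : 0 < k := lt_of_lt_of_le hδ0 k1
    have hjk : j = D / k := by
      rw [eq_div_iff hk0.ne', mul_comm, hj]
    have hzim : z.im = (mz A z).im * D / k ^ 2 := by
      rw [him, hjk]
      field_simp
    have hp0 : 0 ≤ S ^ 2 * R := by positivity
    have hp1 : 0 ≤ R * D / δ ^ 2 := by positivity
    have hp2 : 0 ≤ (|d| * (2 * R) + |b|) / δ := by positivity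
    refine ⟨?_, ?_, ?_⟩
    · rw [hzim]
      exact div_le_div₀ (by positivity) (mul_le_mul_of_nonneg_right h1 hD0.le) (by positivity)
        (pow_le_pow_left₀ hk0.le k2 2)
    · rw [hzim]
      have h5 : (mz A z).im * D / k ^ 2 ≤ R * D / δ ^ 2 :=
        div_le_div₀ (by positivity) (mul_le_mul_of_nonneg_right h2 hD0.le) (by positivity)
          (pow_le_pow_left₀ hδ0.le k1 2)
      linarith
    · have h5 : |z.re| ≤ ‖(z : ℂ)‖ := Complex.abs_re_le_norm (z : ℂ)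
      have h6 : ‖(z : ℂ)‖ ≤ (|d| * (2 * R) + |b|) / δ := by
        rw [le_div_iff₀ hδ0]
        calc ‖(z : ℂ)‖ * δ ≤ ‖(z : ℂ)‖ * k := mul_le_mul_of_nonneg_left k1 (norm_nonneg _)
          _ = k * ‖(z : ℂ)‖ := mul_comm _ _
          _ ≤ _ := by rw [hzz]; exact k3
      linarith


theorem bd_finite : type_of% @bd_finite_pr := @bd_finite_pr
theorem bd_add : type_of% @bd_add_pr := @bd_add_pr
theorem bd_sl2 : type_of% @bd_sl2_pr := @bd_sl2_pr
theorem bd_int : type_of% @bd_int_pr := @bd_int_pr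
theorem bd_int_form : type_of% @bd_int_form_pr := @bd_int_form_pr

end Pool.Agent.LSP
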