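import Pool.Agent.Lib_helper41.LSP.DefsG
import Pool.Agent.Lib_helper41.LSPG.BDF

/-! LSP, part G, block SPL: the truncated kernels are bounded, splitting of the folded product. -/

namespace Pool.Agent.LSP

open Pool.Agent.LEV Pool.Agent.LVB Pool.Agent.KSL
open Pool.Agent.FG61 (mu phi cc ff AA Lam)
open Complex MeasureTheory Filter Topology UpperHalfPlane ModularGroup ProbabilityTheory
open scoped MatrixGroups Modular ENNReal ModularForm ComplexConjugate ContDiff

theorem spl_rho_bdd {T : ℝ} {ρ : ℝ → ℝ} (hρ : Ker T ρ) : ∃ M : ℝ, 0 ≤ M ∧ ∀ t, |ρ t| ≤ M := by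
  have hcs : HasCompactSupport ρ := by
    refine HasCompactSupport.intro (isCompact_Icc (a := -T) (b := T)) fun t ht => ?_
    have : T < |t| := by
      by_contra hcon
      exact ht (abs_le.mp (not_lt.mp hcon))
    rw [hρ.supp t this]
  obtain ⟨M, hM⟩ := hρ.cont.bounded_above_of_compact_support hcs
  exact ⟨M, le_trans (norm_nonneg _) (hM 0), hM⟩

theorem spl_cone_meas {ρ : ℝ → ℝ} (hc : Continuous ρ) (l : ℝ) : Measurable (cone ρ l) := by
  have h1 : Continuous (fun z : ℍ => (z.re - l) / z.im) :=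
    (UpperHalfPlane.continuous_re.sub continuous_const).div UpperHalfPlane.continuous_im
      fun z => z.im_pos.ne'
  have h2 : Continuous (cone ρ l) := by
    unfold cone
    refine Continuous.mul ?_ ?_
    · exact Complex.continuous_ofReal.comp ((hc.comp h1).div UpperHalfPlane.continuous_im
        fun z => z.im_pos.ne')
    · exact continuous_const.add ((Complex.continuous_ofReal.comp h1).mul continuous_const)
  exact h2.measurable

theorem coneY_bd_pr {T : ℝ} {ρ : ℝ → ℝ} (hρ : KerL T ρ) {N q : ℕ} (hN : 1 ≤ N) (hq : 1 ≤ q) (l Y : ℝ) :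
    Bd (coneY ρ N q l Y) := by
  classical
  obtain ⟨M, hM0, hM⟩ := spl_rho_bdd hρ.toKer
  have hT := hρ.T1
  have hNr : (1 : ℝ) ≤ N := by exact_mod_cast hN
  have hqr : (1 : ℝ) ≤ q := by exact_mod_cast hq
  refine ⟨?_, ?_⟩
  · unfold coneY
    refine Measurable.ite ?_ (spl_cone_meas hρ.cont l) measurable_const
    have h1 : IsOpen {z : ℍ | z.im < Y ∧
        z.im < Y * (N * (q : ℝ) ^ 2 * ‖(z : ℂ) - (l : ℂ)‖ ^ 2)} := by
      refine IsOpen.inter ?_ ?_
      · exact isOpen_lt UpperHalfPlane.continuous_im continuous_const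
      · refine isOpen_lt UpperHalfPlane.continuous_im ?_
        exact continuous_const.mul (continuous_const.mul
          ((UpperHalfPlane.continuous_coe.sub continuous_const).norm.pow 2))
    exact h1.measurableSet
  · rcases le_or_gt Y 0 with hY | hY
    · refine ⟨1, 1, one_pos, fun z => ?_, fun z hz => ?_⟩
      · have : coneY ρ N q l Y z = 0 := by
          unfold coneY
          rw [if_neg]
          rintro ⟨h, -⟩
          linarith [z.im_pos]
        rw [this, norm_zero]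
        exact zero_le_one
      · exfalso
        apply hz
        unfold coneY
        rw [if_neg]
        rintro ⟨h, -⟩
        linarith [z.im_pos]
    · set D : ℝ := Y * (N * (q : ℝ) ^ 2 * (1 + T ^ 2)) with hD
      have hDpos : 0 < D := by positivity
      -- the main estimate
      have key : ∀ z : ℍ, coneY ρ N q l Y z ≠ 0 →
          D⁻¹ ≤ z.im ∧ z.im ≤ Y ∧ |z.re - l| ≤ T * z.im ∧ coneY ρ N q l Y z = cone ρ l z := by
        intro z hz
        have hy := z.im_pos
        have hif : z.im < Y ∧ z.im < Y * (N * (q : ℝ) ^ 2 * ‖(z : ℂ) - (l : ℂ)‖ ^ 2) := by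
          by_contra hcon
          apply hz
          unfold coneY
          rw [if_neg hcon]
        have heq : coneY ρ N q l Y z = cone ρ l z := by
          unfold coneY
          rw [if_pos hif]
        have h1 : |(z.re - l) / z.im| ≤ T := by
          by_contra hcon
          rw [not_le] at hcon
          apply hz
          rw [heq]
          unfold cone
          rw [hρ.supp _ hcon, zero_div, Complex.ofReal_zero, zero_mul]
        have h2 : |z.re - l| ≤ T * z.im := by
          rw [abs_div, abs_of_pos hy, div_le_iff₀ hy] at h1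
          exact h1
        have h3 : ‖(z : ℂ) - (l : ℂ)‖ ^ 2 = (z.re - l) ^ 2 + z.im ^ 2 := by
          rw [← Complex.normSq_eq_norm_sq, Complex.normSq_apply]
          simp only [Complex.sub_re, Complex.sub_im, Complex.ofReal_re, Complex.ofReal_im,
            UpperHalfPlane.coe_re, UpperHalfPlane.coe_im]
          ring
        have h4 : (z.re - l) ^ 2 ≤ T ^ 2 * z.im ^ 2 := by
          rw [← sq_abs (z.re - l)]
          calc |z.re - l| ^ 2 ≤ (T * z.im) ^ 2 := pow_le_pow_left₀ (abs_nonneg _) h2 2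
            _ = T ^ 2 * z.im ^ 2 := by ring
        have h5 : z.im < D * z.im * z.im := by
          calc z.im < Y * (N * (q : ℝ) ^ 2 * ‖(z : ℂ) - (l : ℂ)‖ ^ 2) := hif.2
            _ ≤ Y * (N * (q : ℝ) ^ 2 * ((1 + T ^ 2) * z.im ^ 2)) := by
                rw [h3]
                have : (z.re - l) ^ 2 + z.im ^ 2 ≤ (1 + T ^ 2) * z.im ^ 2 := by nlinarith
                gcongr
            _ = D * z.im * z.im := by rw [hD]; ring
        have h6 : 1 < D * z.im := by
          by_contra hcon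
          rw [not_lt] at hcon
          have : D * z.im * z.im ≤ 1 * z.im := mul_le_mul_of_nonneg_right hcon hy.le
          linarith
        refine ⟨?_, hif.1.le, h2, heq⟩
        rw [inv_le_iff_one_le_mul₀ hDpos]
        linarith
      refine ⟨D⁻¹, M * D * (1 + T) + Y + |l| + T * Y, inv_pos.mpr hDpos, fun z => ?_,
        fun z hz => ?_⟩
      · by_cases hz : coneY ρ N q l Y z = 0
        · rw [hz, norm_zero]
          positivity
        · obtain ⟨k1, k2, k3, k4⟩ := key z hz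
          have hy := z.im_pos
          rw [k4]
          unfold cone
          rw [norm_mul, Complex.norm_real, Real.norm_eq_abs, abs_div, abs_of_pos hy]
          have e1 : |ρ ((z.re - l) / z.im)| / z.im ≤ M * D := by
            rw [div_le_iff₀ hy]
            have : 1 ≤ D * z.im := by
              have := mul_le_mul_of_nonneg_left k1 hDpos.le
              rwa [mul_inv_cancel₀ hDpos.ne'] at this
            calc |ρ ((z.re - l) / z.im)| ≤ M := hM _
              _ = M * 1 := (mul_one M).symm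
              _ ≤ M * (D * z.im) := mul_le_mul_of_nonneg_left this hM0
              _ = M * D * z.im := by ring
          have e2 : ‖1 + (((z.re - l) / z.im : ℝ) : ℂ) * Complex.I‖ ≤ 1 + T := by
            calc ‖1 + (((z.re - l) / z.im : ℝ) : ℂ) * Complex.I‖
                ≤ ‖(1 : ℂ)‖ + ‖(((z.re - l) / z.im : ℝ) : ℂ) * Complex.I‖ := norm_add_le _ _
              _ = 1 + |(z.re - l) / z.im| := by
                  rw [norm_one, norm_mul, Complex.norm_real, Complex.norm_I, mul_one,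
                    Real.norm_eq_abs]
              _ ≤ 1 + T := by
                  have : |(z.re - l) / z.im| ≤ T := by
                    rw [abs_div, abs_of_pos hy, div_le_iff₀ hy]
                    exact k3
                  linarith
          calc |ρ ((z.re - l) / z.im)| / z.im * ‖1 + (((z.re - l) / z.im : ℝ) : ℂ) * Complex.I‖
              ≤ M * D * (1 + T) := mul_le_mul e1 e2 (norm_nonneg _) (by positivity)
            _ ≤ M * D * (1 + T) + Y + |l| + T * Y := by
                have : 0 ≤ |l| := abs_nonneg l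
                have : 0 ≤ T * Y := by positivity
                linarith
      · obtain ⟨k1, k2, k3, k4⟩ := key z hz
        have p1 : 0 ≤ M * D * (1 + T) := by positivity
        have p2 : 0 ≤ |l| := abs_nonneg l
        have p3 : 0 ≤ T * Y := by positivity
        refine ⟨k1, by linarith, ?_⟩
        have h1 : T * z.im ≤ T * Y := mul_le_mul_of_nonneg_left k2 (by linarith)
        calc |z.re| = |(z.re - l) + l| := by ring_nf
          _ ≤ |z.re - l| + |l| := abs_add_le _ _
          _ ≤ M * D * (1 + T) + Y + |l| + T * Y := by linarith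

theorem spl_zero : Bd (fun _ : ℍ => (0 : ℂ)) :=
  ⟨measurable_const, 1, 1, one_pos, fun _ => by simp, fun _ h => (h rfl).elim⟩

theorem spl_bd_sum {ι : Type*} (s : Finset ι) (a : ι → ℂ) (K : ι → ℍ → ℂ)
    (h : ∀ i ∈ s, Bd (K i)) : Bd (fun z => ∑ i ∈ s, a i * K i z) := by
  classical
  induction s using Finset.induction_on with
  | empty => simpa using spl_zero
  | insert i s hi ih =>
    have h1 := bd_add (ih fun j hj => h j (Finset.mem_insert_of_mem hj))
      (h i (Finset.mem_insert_self i s)) (a i)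
    have h2 : (fun z => ∑ j ∈ insert i s, a j * K j z) =
        fun z => (∑ j ∈ s, a j * K j z) + a i * K i z := by
      funext z
      rw [Finset.sum_insert hi, add_comm]
    rw [h2]
    exact h1

/-- the kernel as a single sum -/
theorem spl_KY (ρ : ℝ → ℝ) (N E : ℕ) (w : ℕ → ℝ) (Y : ℝ) : KY ρ N E w Y =
    fun z => ∑ p ∈ (Finset.Icc 1 E).sigma (fun q => RR q),
      (w p.1 : ℂ) * coneY ρ N p.1 ((p.2 : ℝ) / p.1) Y z := by
  funext z
  unfold KY
  rw [Finset.sum_sigma]
  refine Finset.sum_congr rfl fun q _ => ?_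
  rw [Finset.mul_sum]

theorem ky_bd_pr {T : ℝ} {ρ : ℝ → ℝ} (hρ : KerL T ρ) {N : ℕ} (hN : 1 ≤ N) (E : ℕ) (w : ℕ → ℝ) (Y : ℝ) :
    Bd (KY ρ N E w Y) := by
  rw [spl_KY]
  refine spl_bd_sum _ _ _ fun p hp => ?_
  have := (Finset.mem_Icc.mp (Finset.mem_sigma.mp hp).1).1
  exact coneY_bd_pr hρ hN this _ Y

theorem spl_sl (γ : SL(2, ℤ)) (F : ℍ → ℂ) : sl2 (γ : M2) F = F ∣[(2 : ℤ)] γ := by
  funext z
  rw [ModularForm.SL_slash_apply]
  have h1 : mz (γ : M2) z = γ • z := by
    apply UpperHalfPlane.ext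
    rw [UpperHalfPlane.coe_specialLinearGroup_apply]
    unfold mz
    have h2 : ((γ • z : ℍ) : ℂ) = (((γ 0 0 : ℤ) : ℂ) * (z : ℂ) + ((γ 0 1 : ℤ) : ℂ)) /
        (((γ 1 0 : ℤ) : ℂ) * (z : ℂ) + ((γ 1 1 : ℤ) : ℂ)) := by
      rw [UpperHalfPlane.coe_specialLinearGroup_apply]
      simp
    rw [← h2, UpperHalfPlane.ofComplex_apply]
    rw [h2]
    simp
  unfold sl2
  rw [h1, Matrix.SpecialLinearGroup.det_coe]
  rw [mul_comm]
  congr 1
  rw [UpperHalfPlane.denom]
  simp [zpow_neg]

/-- outside a finite set the inner products vanish -/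
theorem spl_supp {K L : ℍ → ℂ} (hK : Bd K) (hL : Bd L) (N : ℕ) :
    (Function.support (fun γ : CongruenceSubgroup.Gamma0 N =>
      ipH K (L ∣[(2 : ℤ)] (γ : SL(2, ℤ))))).Finite := by
  refine ((bd_finite hK hL).preimage
    (f := fun γ : CongruenceSubgroup.Gamma0 N => (γ : SL(2, ℤ)))
    Subtype.val_injective.injOn).subset fun γ hγ => ?_
  by_contra hcon
  apply hγ
  show ipH K (L ∣[(2 : ℤ)] (γ : SL(2, ℤ))) = 0
  unfold ipH
  have h1 : ∀ z : ℍ, K z * conj ((L ∣[(2 : ℤ)] (γ : SL(2, ℤ))) z) * ((z.im ^ 2 : ℝ) : ℂ) = 0 := by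
    intro z
    by_cases hz : K z = 0
    · rw [hz, zero_mul, zero_mul]
    · have h2 : L ((γ : SL(2, ℤ)) • z) = 0 := by
        by_contra h
        exact hcon ⟨z, hz, h⟩
      rw [ModularForm.SL_slash_apply, h2, zero_mul, map_zero, mul_zero, zero_mul]
  simp only [h1, integral_zero]

theorem spl_ip_sum {ι κ : Type*} (s : Finset ι) (t : Finset κ) (a : ι → ℂ) (b : κ → ℂ)
    (K : ι → ℍ → ℂ) (L : κ → ℍ → ℂ) (hi : ∀ i ∈ s, ∀ j ∈ t,
      Integrable (fun z : ℍ => K i z * conj (L j z) * ((z.im ^ 2 : ℝ) : ℂ))) :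
    ipH (fun z => ∑ i ∈ s, a i * K i z) (fun z => ∑ j ∈ t, b j * L j z) =
      ∑ i ∈ s, ∑ j ∈ t, a i * conj (b j) * ipH (K i) (L j) := by
  unfold ipH
  have h1 : ∀ z : ℍ, (∑ i ∈ s, a i * K i z) * conj (∑ j ∈ t, b j * L j z) *
      ((z.im ^ 2 : ℝ) : ℂ) = ∑ i ∈ s, ∑ j ∈ t, a i * conj (b j) *
        (K i z * conj (L j z) * ((z.im ^ 2 : ℝ) : ℂ)) := by
    intro z
    rw [map_sum, Finset.sum_mul_sum, Finset.sum_mul]
    refine Finset.sum_congr rfl fun i _ => ?_
    rw [Finset.sum_mul]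
    refine Finset.sum_congr rfl fun j _ => ?_
    rw [map_mul]
    ring
  simp only [h1]
  rw [integral_finsetSum _ fun i hi' => integrable_finsetSum _ fun j hj' =>
    (hi i hi' j hj').const_mul _]
  refine Finset.sum_congr rfl fun i hi' => ?_
  rw [integral_finsetSum _ fun j hj' => (hi i hi' j hj').const_mul _]
  refine Finset.sum_congr rfl fun j _ => ?_
  rw [integral_const_mul]

open Classical in
theorem spl_four {ι : Type*} {A : ι → ℂ} (hA : (Function.support A).Finite)
    (S1 S2 S3 S4 : ι → Prop) (h3 : ∀ i, S3 i ↔ S1 i ∧ S2 i) (h4 : ∀ i, S4 i ↔ ¬ S1 i ∧ ¬ S2 i) :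
    ∑' i, A i = (∑' i, if S1 i then A i else 0) + (∑' i, if S2 i then A i else 0) -
      (∑' i, if S3 i then A i else 0) + (∑' i, if S4 i then A i else 0) := by
  have hs : ∀ S : ι → Prop, Summable (fun i => if S i then A i else 0) := by
    intro S
    refine summable_of_finite_support (hA.subset fun i hi => ?_)
    by_contra h
    apply hi
    have h5 : A i = 0 := by simpa using h
    simp [h5]
  rw [← (hs S1).tsum_add (hs S2), ← ((hs S1).add (hs S2)).tsum_sub (hs S3),
    ← (((hs S1).add (hs S2)).sub (hs S3)).tsum_add (hs S4)]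
  refine tsum_congr fun i => ?_
  by_cases h1 : S1 i <;> by_cases h2 : S2 i <;> simp [h1, h2, h3, h4]

theorem pp_split_pr {T : ℝ} {ρ : ℝ → ℝ} (hρ : KerL T ρ) {N : ℕ} (hN : 1 ≤ N) (E : ℕ) (w : ℕ → ℝ)
    (Y : ℝ) :
    PP N (KY ρ N E w Y) (KY ρ N E w Y) =
      PS ρ N E w Y (fun γ _ _ _ _ => γ 1 0 = 0) + PS ρ N E w Y Bsh -
      PS ρ N E w Y (fun γ q j q' j' => γ 1 0 = 0 ∧ Bsh γ q j q' j') +
      PS ρ N E w Y (fun γ q j q' j' => γ 1 0 ≠ 0 ∧ ¬ Bsh γ q j q' j') := by
  have hbd : ∀ p ∈ (Finset.Icc 1 E).sigma (fun q => RR q),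
      Bd (coneY ρ N p.1 ((p.2 : ℝ) / p.1) Y) := fun p hp =>
    coneY_bd_pr hρ hN (Finset.mem_Icc.mp (Finset.mem_sigma.mp hp).1).1 _ Y
  have hbd' : ∀ (γ : SL(2, ℤ)), ∀ p ∈ (Finset.Icc 1 E).sigma (fun q => RR q),
      Bd ((coneY ρ N p.1 ((p.2 : ℝ) / p.1) Y) ∣[(2 : ℤ)] γ) := by
    intro γ p hp
    rw [← spl_sl]
    refine bd_sl2 (hbd p hp) ?_
    rw [Matrix.SpecialLinearGroup.det_coe]
    exact one_pos
  have h1 : ∀ γ : CongruenceSubgroup.Gamma0 N,
      ipH (KY ρ N E w Y) ((KY ρ N E w Y) ∣[(2 : ℤ)] (γ : SL(2, ℤ))) =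
      ∑ p ∈ (Finset.Icc 1 E).sigma (fun q => RR q),
        ∑ p' ∈ (Finset.Icc 1 E).sigma (fun q => RR q), (w p.1 : ℂ) * (w p'.1 : ℂ) *
          ipH (coneY ρ N p.1 ((p.2 : ℝ) / p.1) Y)
            ((coneY ρ N p'.1 ((p'.2 : ℝ) / p'.1) Y) ∣[(2 : ℤ)] (γ : SL(2, ℤ))) := by
    intro γ
    have h2 : ((KY ρ N E w Y) ∣[(2 : ℤ)] (γ : SL(2, ℤ))) =
        fun z => ∑ p' ∈ (Finset.Icc 1 E).sigma (fun q => RR q), (w p'.1 : ℂ) *
          ((coneY ρ N p'.1 ((p'.2 : ℝ) / p'.1) Y) ∣[(2 : ℤ)] (γ : SL(2, ℤ))) z := by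
      funext z
      rw [ModularForm.SL_slash_apply, spl_KY, Finset.sum_mul]
      refine Finset.sum_congr rfl fun p' _ => ?_
      rw [ModularForm.SL_slash_apply, mul_assoc]
    rw [h2]
    have h3 := spl_ip_sum ((Finset.Icc 1 E).sigma (fun q => RR q))
      ((Finset.Icc 1 E).sigma (fun q => RR q)) (fun p => (w p.1 : ℂ)) (fun p => (w p.1 : ℂ))
      (fun p => coneY ρ N p.1 ((p.2 : ℝ) / p.1) Y)
      (fun p => (coneY ρ N p.1 ((p.2 : ℝ) / p.1) Y) ∣[(2 : ℤ)] (γ : SL(2, ℤ)))
      (fun p hp p' hp' => bd_int (hbd p hp) (hbd' γ p' hp'))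
    simp only [Complex.conj_ofReal] at h3
    rw [← spl_KY] at h3
    exact h3
  have hsum : ∀ p ∈ (Finset.Icc 1 E).sigma (fun q => RR q),
      ∀ p' ∈ (Finset.Icc 1 E).sigma (fun q => RR q),
      Summable (fun γ : CongruenceSubgroup.Gamma0 N => (w p.1 : ℂ) * (w p'.1 : ℂ) *
          ipH (coneY ρ N p.1 ((p.2 : ℝ) / p.1) Y)
            ((coneY ρ N p'.1 ((p'.2 : ℝ) / p'.1) Y) ∣[(2 : ℤ)] (γ : SL(2, ℤ)))) := by
    intro p hp p' hp'
    exact (summable_of_finite_support (spl_supp (hbd p hp) (hbd p' hp') N)).mul_left _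
  have h4 : PP N (KY ρ N E w Y) (KY ρ N E w Y) = (1 / 2) *
      ∑ p ∈ (Finset.Icc 1 E).sigma (fun q => RR q),
        ∑ p' ∈ (Finset.Icc 1 E).sigma (fun q => RR q), (w p.1 : ℂ) * (w p'.1 : ℂ) *
          ∑' γ : CongruenceSubgroup.Gamma0 N, ipH (coneY ρ N p.1 ((p.2 : ℝ) / p.1) Y)
            ((coneY ρ N p'.1 ((p'.2 : ℝ) / p'.1) Y) ∣[(2 : ℤ)] (γ : SL(2, ℤ))) := by
    unfold PP
    simp only [h1]
    congr 1
    rw [Summable.tsum_finsetSum fun p hp => summable_sum fun p' hp' => hsum p hp p' hp']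
    refine Finset.sum_congr rfl fun p hp => ?_
    rw [Summable.tsum_finsetSum fun p' hp' => hsum p hp p' hp']
    refine Finset.sum_congr rfl fun p' _ => ?_
    rw [tsum_mul_left]
  have h5 : ∀ S : SL(2, ℤ) → ℕ → ℕ → ℕ → ℕ → Prop, PS ρ N E w Y S = (1 / 2) *
      ∑ p ∈ (Finset.Icc 1 E).sigma (fun q => RR q),
        ∑ p' ∈ (Finset.Icc 1 E).sigma (fun q => RR q), (w p.1 : ℂ) * (w p'.1 : ℂ) *
          ∑' γ : CongruenceSubgroup.Gamma0 N,
            (open Classical in if S (γ : SL(2, ℤ)) p.1 p.2 p'.1 p'.2 then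
              ipH (coneY ρ N p.1 ((p.2 : ℝ) / p.1) Y)
              ((coneY ρ N p'.1 ((p'.2 : ℝ) / p'.1) Y) ∣[(2 : ℤ)] (γ : SL(2, ℤ))) else 0) := by
    intro S
    unfold PS
    congr 1
    rw [Finset.sum_sigma]
    refine Finset.sum_congr rfl fun q _ => Finset.sum_congr rfl fun j _ => ?_
    rw [Finset.sum_sigma]
  rw [h4, h5, h5, h5, h5, ← mul_add, ← mul_sub, ← mul_add, ← Finset.sum_add_distrib,
    ← Finset.sum_sub_distrib, ← Finset.sum_add_distrib]
  congr 1
  refine Finset.sum_congr rfl fun p hp => ?_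
  rw [← Finset.sum_add_distrib, ← Finset.sum_sub_distrib, ← Finset.sum_add_distrib]
  refine Finset.sum_congr rfl fun p' hp' => ?_
  rw [← mul_add, ← mul_sub, ← mul_add]
  congr 1
  exact spl_four (spl_supp (hbd p hp) (hbd p' hp') N) _ _ _ _ (fun _ => Iff.rfl) (fun _ => Iff.rfl)

theorem coneY_bd : type_of% @coneY_bd_pr := @coneY_bd_pr
theorem ky_bd : type_of% @ky_bd_pr := @ky_bd_pr
theorem pp_split : type_of% @pp_split_pr := @pp_split_pr

end Pool.Agent.LSP
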