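import Pool.Agent.Lib_helper41.LSP.DefsG
import Pool.Agent.Lib_helper41.LSPG.BDF
import Pool.Agent.Lib_helper41.LSPG.COO
import Pool.Agent.Lib_helper41.LSPG.MOB
import Pool.Agent.Lib_helper41.LSPG.SPL

/-! LSP, block PAS: pairs of cones with the common end point at infinity. -/

namespace Pool.Agent.LSP

open Pool.Agent.LEV Pool.Agent.LVB Pool.Agent.KSL
open Pool.Agent.FG61 (mu phi cc ff AA Lam)
open Complex MeasureTheory Filter Topology UpperHalfPlane ModularGroup ProbabilityTheory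
open scoped MatrixGroups Modular ENNReal ModularForm ComplexConjugate ContDiff

theorem PAS_vadd_pt (x : ℝ) {y : ℝ} (hy : 0 < y) (n : ℝ) : n +ᵥ pt x y = pt (x + n) y := by
  apply UpperHalfPlane.ext
  rw [UpperHalfPlane.coe_vadd, (pt_coe x hy).1, (pt_coe (x + n) hy).1]
  push_cast
  ring

/-- the matrices `± T ^ n` -/
def PAS_sl (p : ℤ × Bool) : SL(2, ℤ) :=
  ⟨!![(if p.2 then 1 else -1), (if p.2 then p.1 else -p.1); 0, (if p.2 then 1 else -1)],
      by rw [Matrix.det_fin_two_of]; cases p.2 <;> simp⟩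

theorem PAS_mem (N : ℕ) (p : ℤ × Bool) : PAS_sl p ∈ CongruenceSubgroup.Gamma0 N := by
  rw [CongruenceSubgroup.Gamma0_mem]
  have h : PAS_sl p 1 0 = 0 := rfl
  rw [h]
  simp

/-- the matrices `± T ^ n` -/
def PAS_g (N : ℕ) (p : ℤ × Bool) : CongruenceSubgroup.Gamma0 N := ⟨PAS_sl p, PAS_mem N p⟩

theorem PAS_g_coe (N : ℕ) (p : ℤ × Bool) : (((PAS_g N p : CongruenceSubgroup.Gamma0 N) :
    SL(2, ℤ)) : M2) =
      !![(if p.2 then 1 else -1), (if p.2 then p.1 else -p.1); 0, (if p.2 then 1 else -1)] := rfl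

theorem PAS_g_inj (N : ℕ) : Function.Injective (PAS_g N) := by
  intro p p' h
  have h1 : (((PAS_g N p : CongruenceSubgroup.Gamma0 N) : SL(2, ℤ)) : M2) =
    (((PAS_g N p' : CongruenceSubgroup.Gamma0 N) : SL(2, ℤ)) : M2) := by rw [h]
  rw [PAS_g_coe, PAS_g_coe] at h1
  have h2 := congrFun (congrFun h1 0) 0
  have h3 := congrFun (congrFun h1 0) 1
  obtain ⟨n, s⟩ := p
  obtain ⟨n', s'⟩ := p'
  cases s <;> cases s' <;> simp at h2 h3 ⊢
  · exact h3
  · exact h3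

theorem PAS_range {N : ℕ} (γ : CongruenceSubgroup.Gamma0 N) (h : (γ : SL(2, ℤ)) 1 0 = 0) :
    γ ∈ Set.range (PAS_g N) := by
  have hd := (γ : SL(2, ℤ)).2
  rw [Matrix.det_fin_two] at hd
  have h' : ((γ : SL(2, ℤ)) : M2) 1 0 = 0 := h
  rw [h', mul_zero, sub_zero] at hd
  rcases Int.mul_eq_one_iff_eq_one_or_neg_one.1 hd with ⟨h0, h1⟩ | ⟨h0, h1⟩
  · refine ⟨(((γ : SL(2, ℤ)) : M2) 0 1, true), ?_⟩
    apply Subtype.ext
    apply Subtype.ext
    rw [PAS_g_coe]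
    ext i j
    fin_cases i <;> fin_cases j <;> simp [h0, h1, h']
  · refine ⟨(-((γ : SL(2, ℤ)) : M2) 0 1, false), ?_⟩
    apply Subtype.ext
    apply Subtype.ext
    rw [PAS_g_coe]
    ext i j
    fin_cases i <;> fin_cases j <;> simp [h0, h1, h']

theorem PAS_slash (N : ℕ) (L : ℍ → ℂ) (p : ℤ × Bool) :
    (L ∣[(2 : ℤ)] ((PAS_g N p : CongruenceSubgroup.Gamma0 N) : SL(2, ℤ))) =
      fun z => L ((p.1 : ℝ) +ᵥ z) := by
  rw [← sl2_sl]
  funext z
  unfold sl2 mz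
  rw [PAS_g_coe]
  have h1 : ((((p.1 : ℝ) +ᵥ z : ℍ)) : ℂ) = (z : ℂ) + (p.1 : ℂ) := by
    rw [UpperHalfPlane.coe_vadd]
    push_cast
    ring
  have h2 : (p.1 : ℝ) +ᵥ z = UpperHalfPlane.ofComplex ((z : ℂ) + (p.1 : ℂ)) := by
    rw [← h1, UpperHalfPlane.ofComplex_apply]
  rw [h2]
  rw [Matrix.det_fin_two_of]
  obtain ⟨n, s⟩ := p
  cases s
  · simp only [Bool.false_eq_true, if_false, Matrix.of_apply, Matrix.cons_val', Matrix.cons_val_zero,
      Matrix.cons_val_fin_one, Matrix.cons_val_one]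
    have e : (((-1 : ℤ) : ℂ) * (z : ℂ) + ((-n : ℤ) : ℂ)) / (((0 : ℤ) : ℂ) * (z : ℂ) +
        ((-1 : ℤ) : ℂ)) = (z : ℂ) + (n : ℂ) := by
      push_cast
      ring
    rw [e]
    norm_num
  · simp only [if_true, Matrix.of_apply, Matrix.cons_val', Matrix.cons_val_zero,
      Matrix.cons_val_fin_one, Matrix.cons_val_one]
    have e : (((1 : ℤ) : ℂ) * (z : ℂ) + ((n : ℤ) : ℂ)) / (((0 : ℤ) : ℂ) * (z : ℂ) +
        ((1 : ℤ) : ℂ)) = (z : ℂ) + (n : ℂ) := by
      push_cast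
      ring
    rw [e]
    norm_num

theorem PAS_group (N : ℕ) {K L : ℍ → ℂ} {R : ℝ} {M : ℕ} (hK : ∀ z, K z ≠ 0 → |z.re| ≤ R)
    (hL : ∀ z, L z ≠ 0 → |z.re| ≤ R) (hM : 2 * R ≤ M)
    (inst : ∀ γ : CongruenceSubgroup.Gamma0 N, Decidable ((γ : SL(2, ℤ)) 1 0 = 0)) :
    ∑' γ : CongruenceSubgroup.Gamma0 N, @ite _ ((γ : SL(2, ℤ)) 1 0 = 0) (inst γ)
        (ipH K (L ∣[(2 : ℤ)] (γ : SL(2, ℤ)))) 0 =
      2 * ∑ n ∈ Finset.Icc (-(M : ℤ)) M, ipH K (fun z => L ((n : ℝ) +ᵥ z)) := by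
  have hout : ∀ n : ℤ, n ∉ Finset.Icc (-(M : ℤ)) M → ipH K (fun z => L ((n : ℝ) +ᵥ z)) = 0 := by
    intro n hn
    unfold ipH
    have h0 : ∀ z : ℍ, K z * conj (L ((n : ℝ) +ᵥ z)) * ((z.im ^ 2 : ℝ) : ℂ) = 0 := by
      intro z
      by_contra hne
      have h1 : K z ≠ 0 := by
        intro h
        apply hne
        rw [h]
        ring
      have h2 : L ((n : ℝ) +ᵥ z) ≠ 0 := by
        intro h
        apply hne
        rw [h]
        simp
      have h3 := hK z h1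
      have h4 := hL _ h2
      rw [UpperHalfPlane.vadd_re] at h4
      apply hn
      have h5 : |(n : ℝ)| ≤ M := by
        have h6 : (n : ℝ) = ((n : ℝ) + z.re) - z.re := by ring
        rw [h6]
        calc |((n : ℝ) + z.re) - z.re| ≤ |(n : ℝ) + z.re| + |z.re| := abs_sub _ _
          _ ≤ R + R := add_le_add h4 h3
          _ ≤ M := by linarith
      rw [abs_le] at h5
      rw [Finset.mem_Icc]
      constructor
      · exact_mod_cast h5.1
      · exact_mod_cast h5.2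
    simp only [h0]
    simp
  have h1 : ∑' γ : CongruenceSubgroup.Gamma0 N, @ite _ ((γ : SL(2, ℤ)) 1 0 = 0) (inst γ)
        (ipH K (L ∣[(2 : ℤ)] (γ : SL(2, ℤ)))) 0 =
      ∑' p : ℤ × Bool, @ite _ (((PAS_g N p : CongruenceSubgroup.Gamma0 N) : SL(2, ℤ)) 1 0 = 0)
        (inst _) (ipH K (L ∣[(2 : ℤ)] ((PAS_g N p : CongruenceSubgroup.Gamma0 N) :
          SL(2, ℤ)))) 0 := by
    symm
    apply (PAS_g_inj N).tsum_eq (f := fun γ : CongruenceSubgroup.Gamma0 N =>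
      @ite _ ((γ : SL(2, ℤ)) 1 0 = 0) (inst γ) (ipH K (L ∣[(2 : ℤ)] (γ : SL(2, ℤ)))) 0)
    intro γ hγ
    rw [Function.mem_support] at hγ
    apply PAS_range
    by_contra h
    rw [if_neg h] at hγ
    exact hγ rfl
  rw [h1]
  have h2 : ∀ p : ℤ × Bool, @ite _ (((PAS_g N p : CongruenceSubgroup.Gamma0 N) : SL(2, ℤ)) 1 0 = 0)
        (inst _) (ipH K (L ∣[(2 : ℤ)] ((PAS_g N p : CongruenceSubgroup.Gamma0 N) :
          SL(2, ℤ)))) 0 = ipH K (fun z => L ((p.1 : ℝ) +ᵥ z)) := by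
    intro p
    rw [if_pos (show ((PAS_g N p : CongruenceSubgroup.Gamma0 N) : SL(2, ℤ)) 1 0 = 0 from rfl),
      PAS_slash]
  simp only [h2]
  rw [tsum_eq_sum (s := Finset.Icc (-(M : ℤ)) M ×ˢ (Finset.univ : Finset Bool))]
  · rw [Finset.sum_product, Finset.mul_sum]
    refine Finset.sum_congr rfl fun n _ => ?_
    rw [Fintype.sum_bool]
    ring
  · intro p hp
    apply hout
    intro h
    apply hp
    rw [Finset.mem_product]
    exact ⟨h, Finset.mem_univ _⟩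

theorem PAS_slice {k : ℝ → ℂ} (hm : Measurable k) {B R : ℝ} (hb : ∀ x, ‖k x‖ ≤ B)
    (hs : ∀ x, k x ≠ 0 → |x| ≤ R) {M : ℕ} (hM1 : 2 * R ≤ M) (hM2 : R + 1 ≤ M) :
    ∫ x : ℝ, ∑ n ∈ Finset.Icc (-(M : ℤ)) M, k x * conj (k (x + n)) =
      ((∫ x in (0 : ℝ)..1, ‖∑' n : ℤ, k (x + n)‖ ^ 2 : ℝ) : ℂ) := by
  set F := Finset.Icc (-(M : ℤ)) M with hF
  set G : ℝ → ℂ := fun x => ∑' n : ℤ, k (x + n) with hG
  have hGper : ∀ (x : ℝ) (m : ℤ), G (x + m) = G x := by
    intro x m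
    simp only [hG]
    rw [← (Equiv.addLeft m).tsum_eq (fun n : ℤ => k (x + n))]
    refine tsum_congr fun n => ?_
    congr 1
    rw [Equiv.coe_addLeft]
    push_cast
    ring
  have hout : ∀ (x : ℝ) (n : ℤ), |x| ≤ max R 1 → n ∉ F → k (x + n) = 0 := by
    intro x n hx hn
    by_contra h
    have h1 := hs _ h
    apply hn
    rw [hF, Finset.mem_Icc]
    have h2 : |(n : ℝ)| ≤ M := by
      have h3 : (n : ℝ) = (x + n) - x := by ring
      rw [h3]
      calc |(x + n) - x| ≤ |x + n| + |x| := abs_sub _ _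
        _ ≤ R + max R 1 := add_le_add h1 hx
        _ ≤ M := by
            rcases le_total R 1 with h | h
            · rw [max_eq_right h]
              exact hM2
            · rw [max_eq_left h]
              linarith
    rw [abs_le] at h2
    constructor
    · exact_mod_cast h2.1
    · exact_mod_cast h2.2
  have hGsum : ∀ x : ℝ, |x| ≤ max R 1 → G x = ∑ n ∈ F, k (x + n) := fun x hx =>
    tsum_eq_sum (fun n hn => hout x n hx hn)
  set g : ℝ → ℂ := fun x => k x * conj (G x) with hg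
  have hgs : ∀ x, ∑ n ∈ F, k x * conj (k (x + n)) = g x := by
    intro x
    simp only [hg]
    by_cases h : k x = 0
    · simp [h]
    · rw [hGsum x ((hs x h).trans (le_max_left _ _)), map_sum, Finset.mul_sum]
  have hint1 : ∀ n : ℤ, Integrable (fun x : ℝ => k x * conj (k (x + n))) := by
    intro n
    have hmeas : Measurable (fun x : ℝ => k x * conj (k (x + n))) := by
      apply hm.mul
      exact Complex.continuous_conj.measurable.comp (hm.comp (measurable_id.add_const _))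
    have hsupp : Function.support (fun x : ℝ => k x * conj (k (x + n))) ⊆ Set.Icc (-R) R := by
      intro x hx
      rw [Function.mem_support] at hx
      have h1 : k x ≠ 0 := by
        intro h
        apply hx
        rw [h, zero_mul]
      exact abs_le.1 (hs x h1)
    rw [← integrableOn_iff_integrable_of_support_subset hsupp]
    apply Measure.integrableOn_of_bounded (M := B * B)
    · simp
    · exact hmeas.aestronglyMeasurable
    · refine ae_of_all _ fun x => ?_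
      rw [norm_mul, RCLike.norm_conj]
      exact mul_le_mul (hb _) (hb _) (norm_nonneg _) ((norm_nonneg _).trans (hb x))
  have hgint : Integrable g := by
    have h1 : Integrable (fun x => ∑ n ∈ F, k x * conj (k (x + n))) :=
      integrable_finsetSum _ fun n _ => hint1 n
    exact h1.congr (ae_of_all _ hgs)
  simp only [hgs]
  have h1 := hgint.hasSum_intervalIntegral_comp_add_int.tsum_eq
  rw [← h1]
  have h2 : ∀ (x : ℝ) (n : ℤ), g (x + n) = k (x + n) * conj (G x) := by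
    intro x n
    simp only [hg]
    rw [hGper]
  rw [tsum_eq_sum (s := F)]
  · rw [← intervalIntegral.integral_finsetSum]
    · rw [← intervalIntegral.integral_ofReal]
      apply intervalIntegral.integral_congr
      intro x hx
      rw [Set.uIcc_of_le zero_le_one] at hx
      have h3 : |x| ≤ max R 1 := by
        rw [abs_of_nonneg hx.1]
        exact hx.2.trans (le_max_right _ _)
      simp only [h2]
      rw [← Finset.sum_mul, ← hGsum x h3, Complex.mul_conj']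
      push_cast
      rfl
    · intro n _
      exact (hgint.comp_add_right (n : ℝ)).intervalIntegrable
  · intro n hn
    rw [intervalIntegral.integral_congr (g := fun _ => (0 : ℂ))]
    · simp
    · intro x hx
      rw [Set.uIcc_of_le zero_le_one] at hx
      have h3 : |x| ≤ max R 1 := by
        rw [abs_of_nonneg hx.1]
        exact hx.2.trans (le_max_right _ _)
      simp only [h2]
      rw [hout x n h3 hn, zero_mul]

theorem PAS_bd_tr {K : ℍ → ℂ} (hK : Bd K) (n : ℤ) : Bd (fun z => K ((n : ℝ) +ᵥ z)) := by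
  have h1 := bd_sl2 hK (A := (((PAS_g 1 (n, true) : CongruenceSubgroup.Gamma0 1) :
    SL(2, ℤ)) : M2)) (by rw [Matrix.SpecialLinearGroup.det_coe]; norm_num)
  rw [sl2_sl, PAS_slash] at h1
  exact h1

theorem PAS_meas_slice {K : ℍ → ℂ} (hK : Measurable K) {y : ℝ} (hy : 0 < y) :
    Measurable (fun x : ℝ => K (pt x y)) := by
  have h1 : (fun x : ℝ => pt x y) = fun x : ℝ => (⟨(x : ℂ) + (y : ℂ) * Complex.I, by
      simpa using hy⟩ : ℍ) := by
    funext x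
    apply UpperHalfPlane.ext
    exact (pt_coe x hy).1
  have h2 : Continuous (fun x : ℝ => pt x y) := by
    rw [h1]
    rw [UpperHalfPlane.isEmbedding_coe.continuous_iff]
    exact (by fun_prop : Continuous fun x : ℝ => (x : ℂ) + (y : ℂ) * Complex.I)
  exact hK.comp h2.measurable

theorem PAS_unfold {K : ℍ → ℂ} (hK : Bd K) {R : ℝ} (hR : ∀ z, K z ≠ 0 → |z.re| ≤ R) {M : ℕ}
    (hM1 : 2 * R ≤ M) (hM2 : R + 1 ≤ M) :
    IntegrableOn (fun y : ℝ => ∫ x in (0 : ℝ)..1, ‖∑' n : ℤ, K (pt (x + n) y)‖ ^ 2)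
      (Set.Ioi 0) ∧
    ∑ n ∈ Finset.Icc (-(M : ℤ)) M, ipH K (fun z => K ((n : ℝ) +ᵥ z)) =
      ((∫ y in Set.Ioi (0 : ℝ), ∫ x in (0 : ℝ)..1,
        ‖∑' n : ℤ, K (pt (x + n) y)‖ ^ 2 : ℝ) : ℂ) := by
  set Fz : ℍ → ℂ := fun z => ∑ n ∈ Finset.Icc (-(M : ℤ)) M, K z * conj (K ((n : ℝ) +ᵥ z)) with hFz
  have hi : ∀ n : ℤ, Integrable (fun z : ℍ => K z * conj (K ((n : ℝ) +ᵥ z)) *
      ((z.im ^ 2 : ℝ) : ℂ)) := fun n => bd_int hK (PAS_bd_tr hK n)
  have hint : Integrable (fun z : ℍ => Fz z * ((z.im ^ 2 : ℝ) : ℂ)) := by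
    simp only [hFz, Finset.sum_mul]
    exact integrable_finsetSum _ fun n _ => hi n
  have hsl : ∀ y : ℝ, 0 < y → ∫ x : ℝ, Fz (pt x y) =
      ((∫ x in (0 : ℝ)..1, ‖∑' n : ℤ, K (pt (x + n) y)‖ ^ 2 : ℝ) : ℂ) := by
    intro y hy
    obtain ⟨hKm, y₀, R', hy₀, hb, hsup⟩ := hK
    rw [← PAS_slice (k := fun x => K (pt x y)) (PAS_meas_slice hKm hy) (B := R')
      (fun x => hb _) (R := R) (fun x hx => by
        have := hR _ hx
        rwa [(pt_coe x hy).2.1] at this) hM1 hM2]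
    congr 1
    funext x
    simp only [hFz]
    refine Finset.sum_congr rfl fun n _ => ?_
    rw [PAS_vadd_pt x hy]
  constructor
  · have h1 := coo_iff.1 hint
    rw [Measure.volume_eq_prod, ← Measure.prod_restrict, Measure.restrict_univ] at h1
    have h2 := h1.integral_prod_right
    have h3 := h2.re
    refine h3.congr ?_
    filter_upwards [ae_restrict_mem measurableSet_Ioi] with y hy
    rw [hsl y hy]
    simp
  · have h1 : ∑ n ∈ Finset.Icc (-(M : ℤ)) M, ipH K (fun z => K ((n : ℝ) +ᵥ z)) =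
        ∫ z : ℍ, Fz z * ((z.im ^ 2 : ℝ) : ℂ) := by
      unfold ipH
      rw [← integral_finsetSum _ fun n _ => hi n]
      congr 1
      funext z
      simp only [hFz, Finset.sum_mul]
    rw [h1, coo_iter hint, ← integral_complex_ofReal]
    apply setIntegral_congr_fun measurableSet_Ioi
    intro y hy
    exact hsl y hy

theorem PAS_supp {T : ℝ} {ρ : ℝ → ℝ} (hρ : KerL T ρ) (N q : ℕ) {l : ℝ} (hl : |l| ≤ 1) (Y : ℝ)
    (z : ℍ) (h : coneY ρ N q l Y z ≠ 0) : |z.re| ≤ 1 + T * |Y| := by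
  unfold coneY at h
  split_ifs at h with h1
  · have h2 : ρ ((z.re - l) / z.im) ≠ 0 := by
      intro h3
      apply h
      unfold cone
      rw [h3]
      simp
    have h4 : |(z.re - l) / z.im| ≤ T := by
      by_contra h5
      exact h2 (hρ.supp _ (not_le.1 h5))
    rw [abs_div, abs_of_pos z.im_pos, div_le_iff₀ z.im_pos] at h4
    have h5 : z.re = (z.re - l) + l := by ring
    have h6 : 0 ≤ T := zero_le_one.trans hρ.T1
    calc |z.re| = |(z.re - l) + l| := by rw [← h5]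
      _ ≤ |z.re - l| + |l| := abs_add_le _ _
      _ ≤ T * z.im + 1 := add_le_add h4 hl
      _ ≤ T * |Y| + 1 := by
          have : z.im ≤ |Y| := h1.1.le.trans (le_abs_self _)
          nlinarith
      _ = 1 + T * |Y| := by ring
  · exact absurd rfl h

theorem PAS_bilin {ι : Type} (P : Finset ι) (a : ι → ℝ) (f g : ι → ℍ → ℂ)
    (hf : ∀ p ∈ P, Bd (f p)) (hg : ∀ p ∈ P, Bd (g p)) :
    ipH (fun z => ∑ p ∈ P, (a p : ℂ) * f p z) (fun z => ∑ p ∈ P, (a p : ℂ) * g p z) =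
      ∑ p ∈ P, ∑ p' ∈ P, ((a p : ℂ) * (a p' : ℂ)) * ipH (f p) (g p') := by
  unfold ipH
  have h1 : ∀ z : ℍ, (∑ p ∈ P, (a p : ℂ) * f p z) * conj (∑ p ∈ P, (a p : ℂ) * g p z) *
      ((z.im ^ 2 : ℝ) : ℂ) = ∑ p ∈ P, ∑ p' ∈ P, ((a p : ℂ) * (a p' : ℂ)) *
        (f p z * conj (g p' z) * ((z.im ^ 2 : ℝ) : ℂ)) := by
    intro z
    rw [map_sum, Finset.sum_mul_sum, Finset.sum_mul]
    refine Finset.sum_congr rfl fun p _ => ?_
    rw [Finset.sum_mul]
    refine Finset.sum_congr rfl fun p' _ => ?_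
    rw [map_mul, Complex.conj_ofReal]
    ring
  simp only [h1]
  rw [integral_finsetSum]
  · refine Finset.sum_congr rfl fun p hp => ?_
    rw [integral_finsetSum]
    · refine Finset.sum_congr rfl fun p' hp' => ?_
      rw [integral_const_mul]
    · intro p' hp'
      exact (bd_int (hf p hp) (hg p' hp')).const_mul _
  · intro p hp
    exact integrable_finsetSum _ fun p' hp' => (bd_int (hf p hp) (hg p' hp')).const_mul _

theorem PAS_KY (ρ : ℝ → ℝ) (N E : ℕ) (w : ℕ → ℝ) (Y : ℝ) :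
    KY ρ N E w Y = fun z => ∑ p ∈ (Finset.Icc 1 E).sigma (fun q => RR q),
      ((w p.1 : ℝ) : ℂ) * coneY ρ N p.1 ((p.2 : ℝ) / p.1) Y z := by
  funext z
  unfold KY
  rw [Finset.sum_sigma]
  refine Finset.sum_congr rfl fun q _ => ?_
  rw [Finset.mul_sum]

theorem pa_strip_pr {T : ℝ} {ρ : ℝ → ℝ} (hρ : KerL T ρ) {N : ℕ} (hN : 1 ≤ N) (E : ℕ) (w : ℕ → ℝ)
    (Y : ℝ) :
    IntegrableOn (fun y : ℝ => ∫ x in (0 : ℝ)..1, ‖∑' n : ℤ, KY ρ N E w Y (pt (x + n) y)‖ ^ 2)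
      (Set.Ioi 0) ∧
    PS ρ N E w Y (fun γ _ _ _ _ => γ 1 0 = 0) =
      ((∫ y in Set.Ioi (0 : ℝ), ∫ x in (0 : ℝ)..1,
        ‖∑' n : ℤ, KY ρ N E w Y (pt (x + n) y)‖ ^ 2 : ℝ) : ℂ) := by
  set R : ℝ := 1 + T * |Y| with hR
  have hT : 0 ≤ T := zero_le_one.trans hρ.T1
  have hR1 : 1 ≤ R := by
    have := mul_nonneg hT (abs_nonneg Y)
    linarith
  obtain ⟨M, hM⟩ := exists_nat_ge (2 * R)
  have hM2 : R + 1 ≤ M := by linarith
  set P : Finset (Σ _ : ℕ, ℕ) := (Finset.Icc 1 E).sigma (fun q => RR q) with hP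
  have hl : ∀ p ∈ P, |((p.2 : ℝ) / p.1)| ≤ 1 := by
    intro p hp
    rw [hP, Finset.mem_sigma] at hp
    obtain ⟨h1, h2⟩ := hp
    rw [Finset.mem_Icc] at h1
    unfold RR at h2
    rw [Finset.mem_filter, Finset.mem_range] at h2
    have h3 : (0 : ℝ) < p.1 := by
      have := h1.1
      positivity
    rw [abs_of_nonneg (by positivity), div_le_one h3]
    exact_mod_cast h2.1.le
  have hq : ∀ p ∈ P, 1 ≤ p.1 := by
    intro p hp
    rw [hP, Finset.mem_sigma] at hp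
    exact (Finset.mem_Icc.1 hp.1).1
  have hsupp : ∀ p ∈ P, ∀ z, coneY ρ N p.1 ((p.2 : ℝ) / p.1) Y z ≠ 0 → |z.re| ≤ R :=
    fun p hp z h => PAS_supp hρ N p.1 (hl p hp) Y z h
  have hbd : ∀ p ∈ P, Bd (coneY ρ N p.1 ((p.2 : ℝ) / p.1) Y) :=
    fun p hp => coneY_bd hρ hN (hq p hp) _ Y
  have hKsupp : ∀ z, KY ρ N E w Y z ≠ 0 → |z.re| ≤ R := by
    intro z hz
    rw [PAS_KY] at hz
    obtain ⟨p, hp, h⟩ := Finset.exists_ne_zero_of_sum_ne_zero hz
    exact hsupp p hp z (right_ne_zero_of_mul h)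
  have hmain := PAS_unfold (ky_bd hρ hN E w Y) hKsupp hM hM2
  refine ⟨hmain.1, ?_⟩
  rw [← hmain.2]
  have h1 : ∀ n : ℤ, ipH (KY ρ N E w Y) (fun z => KY ρ N E w Y ((n : ℝ) +ᵥ z)) =
      ∑ p ∈ P, ∑ p' ∈ P, (((w p.1 : ℝ) : ℂ) * ((w p'.1 : ℝ) : ℂ)) *
        ipH (coneY ρ N p.1 ((p.2 : ℝ) / p.1) Y)
          (fun z => coneY ρ N p'.1 ((p'.2 : ℝ) / p'.1) Y ((n : ℝ) +ᵥ z)) := by
    intro n
    rw [PAS_KY]
    exact PAS_bilin P (fun p => w p.1) (fun p => coneY ρ N p.1 ((p.2 : ℝ) / p.1) Y)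
      (fun p z => coneY ρ N p.1 ((p.2 : ℝ) / p.1) Y ((n : ℝ) +ᵥ z)) hbd
      (fun p hp => PAS_bd_tr (hbd p hp) n)
  rw [Finset.sum_congr rfl fun n _ => h1 n]
  rw [Finset.sum_comm]
  unfold PS
  have h2 : ∀ q j q' j' : ℕ, (⟨q, j⟩ : Σ _ : ℕ, ℕ) ∈ P → (⟨q', j'⟩ : Σ _ : ℕ, ℕ) ∈ P →
      ∑' γ : CongruenceSubgroup.Gamma0 N,
        @ite _ ((γ : SL(2, ℤ)) 1 0 = 0) (Classical.propDecidable _)
          (ipH (coneY ρ N q ((j : ℝ) / q) Y)
            ((coneY ρ N q' ((j' : ℝ) / q') Y) ∣[(2 : ℤ)] (γ : SL(2, ℤ)))) 0 =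
      2 * ∑ n ∈ Finset.Icc (-(M : ℤ)) M, ipH (coneY ρ N q ((j : ℝ) / q) Y)
        (fun z => coneY ρ N q' ((j' : ℝ) / q') Y ((n : ℝ) +ᵥ z)) := by
    intro q j q' j' hp hp'
    exact PAS_group N (hsupp _ hp) (hsupp _ hp') hM _
  rw [Finset.mul_sum, hP, Finset.sum_sigma]
  refine Finset.sum_congr rfl fun q hq => ?_
  rw [Finset.mul_sum]
  refine Finset.sum_congr rfl fun j hj => ?_
  rw [Finset.sum_comm, Finset.mul_sum, Finset.sum_sigma]
  refine Finset.sum_congr rfl fun q' hq' => ?_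
  rw [Finset.mul_sum]
  refine Finset.sum_congr rfl fun j' hj' => ?_
  rw [h2 q j q' j' (Finset.mem_sigma.2 ⟨hq, hj⟩) (Finset.mem_sigma.2 ⟨hq', hj'⟩),
    ← Finset.mul_sum]
  ring

theorem pa_strip : type_of% @pa_strip_pr := @pa_strip_pr

end Pool.Agent.LSP
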