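import Pool.Agent.Lib_helper41.LSP.DefsG
import Pool.Agent.Lib_helper68.KSLF.BUL

/-! LSP, part G, block PER: the periodic sum of the cones. -/

namespace Pool.Agent.LSP

open Pool.Agent.LEV Pool.Agent.LVB Pool.Agent.KSL
open Pool.Agent.FG61 (mu phi cc ff AA Lam)
open Complex MeasureTheory Filter Topology UpperHalfPlane ModularGroup ProbabilityTheory
open scoped MatrixGroups Modular ENNReal ModularForm ComplexConjugate ContDiff

theorem per_hf {f : C(ℝ, ℂ)} (hf : HasCompactSupport f) (K : TopologicalSpace.Compacts ℝ) :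
    Summable fun n : ℤ => ‖(f.comp (ContinuousMap.addRight (n : ℝ))).restrict (K : Set ℝ)‖ := by
  obtain ⟨R, hR⟩ := (hf.isCompact.isBounded).subset_closedBall (0 : ℝ)
  obtain ⟨S, hS⟩ := (K.isCompact.isBounded).subset_closedBall (0 : ℝ)
  obtain ⟨M, hM⟩ := exists_nat_gt (R + S)
  refine summable_of_ne_finset_zero (s := Finset.Icc (-(M : ℤ)) M) fun n hn => ?_
  rw [norm_eq_zero]
  ext x
  show f ((x : ℝ) + (n : ℝ)) = 0
  by_contra hne
  have h1 : (x : ℝ) + (n : ℝ) ∈ Metric.closedBall (0 : ℝ) R :=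
    hR (subset_tsupport _ (Function.mem_support.mpr hne))
  have h2 : (x : ℝ) ∈ Metric.closedBall (0 : ℝ) S := hS x.2
  rw [mem_closedBall_zero_iff, Real.norm_eq_abs, abs_le] at h1 h2
  apply hn
  rw [Finset.mem_Icc]
  constructor
  · have h3 : (-(M : ℤ) : ℝ) < n := by push_cast; linarith [h1.1, h2.2]
    have h4 : ((-(M : ℤ) : ℤ) : ℝ) < (n : ℝ) := by push_cast; push_cast at h3; exact h3
    exact (Int.cast_lt.mp h4).le
  · have h4 : ((n : ℤ) : ℝ) < ((M : ℤ) : ℝ) := by push_cast; linarith [h1.2, h2.1]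
    exact (Int.cast_lt.mp h4).le

theorem per_apply {f : C(ℝ, ℂ)} (hf : HasCompactSupport f) (x : ℝ) :
    (∑' n : ℤ, f.comp (ContinuousMap.addRight (n : ℝ))) x = ∑' n : ℤ, f (x + n) := by
  rw [← ContinuousMap.tsum_apply (ContinuousMap.summable_of_locally_summable_norm (per_hf hf))]
  rfl

theorem per_gcont {G : ℝ → ℂ} (hc : Continuous G) (hs : HasCompactSupport G) :
    Continuous (fun x : ℝ => ∑' n : ℤ, G (x + n)) := by
  set f : C(ℝ, ℂ) := ⟨G, hc⟩ with hfd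
  have hf : HasCompactSupport f := hs
  have h1 : (fun x : ℝ => ∑' n : ℤ, G (x + n)) =
      ((∑' n : ℤ, f.comp (ContinuousMap.addRight (n : ℝ)) : C(ℝ, ℂ)) : ℝ → ℂ) := by
    funext x
    rw [per_apply hf]
    rfl
  rw [h1]
  exact ContinuousMap.continuous _

theorem per_gint {G : ℝ → ℂ} (hc : Continuous G) (hs : HasCompactSupport G) (m : ℤ) :
    ∫ x in (0 : ℝ)..1, cexp (-(2 * Real.pi * m * x : ℝ) * Complex.I) * ∑' n : ℤ, G (x + n) =
      ∫ x : ℝ, cexp (-(2 * Real.pi * m * x : ℝ) * Complex.I) * G x := by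
  set f : C(ℝ, ℂ) := ⟨G, hc⟩ with hfd
  have hf : HasCompactSupport f := hs
  have h1 := Real.fourierCoeff_tsum_comp_add (per_hf hf) m
  rw [fourierCoeff_eq_intervalIntegral _ m 0, Real.fourier_real_eq_integral_exp_smul] at h1
  simp only [div_one, one_smul, zero_add, smul_eq_mul, Function.Periodic.lift_coe, zsmul_one] at h1
  have h2 : ∀ x : ℝ, (∑' n : ℤ, f.comp (ContinuousMap.addRight (n : ℝ))) x =
      ∑' n : ℤ, G (x + n) := fun x => per_apply hf x
  simp only [h2, fourier_coe_apply] at h1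
  calc ∫ x in (0 : ℝ)..1, cexp (-(2 * Real.pi * m * x : ℝ) * Complex.I) * ∑' n : ℤ, G (x + n)
      = ∫ x in (0 : ℝ)..1, cexp (2 * Real.pi * Complex.I * ((-m : ℤ) : ℂ) * x / (1 : ℝ)) *
          ∑' n : ℤ, G (x + n) := by
        refine intervalIntegral.integral_congr fun x _ => ?_
        show cexp (-(2 * Real.pi * m * x : ℝ) * Complex.I) * ∑' n : ℤ, G (x + n) =
          cexp (2 * Real.pi * Complex.I * ((-m : ℤ) : ℂ) * x / (1 : ℝ)) * ∑' n : ℤ, G (x + n)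
        congr 2
        push_cast
        ring
    _ = _ := h1
    _ = ∫ x : ℝ, cexp (-(2 * Real.pi * m * x : ℝ) * Complex.I) * G x := by
        refine integral_congr_ae (ae_of_all _ fun x => ?_)
        show cexp (((-2 * Real.pi * x * m : ℝ) : ℂ) * Complex.I) * G x =
          cexp (-(2 * Real.pi * m * x : ℝ) * Complex.I) * G x
        congr 2
        push_cast
        ring

theorem per_pt (x : ℝ) {y : ℝ} (hy : 0 < y) : (pt x y).re = x ∧ (pt x y).im = y := by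
  have h : 0 < ((x : ℂ) + (y : ℂ) * Complex.I).im := by simpa using hy
  have h1 : ((pt x y : ℍ) : ℂ) = (x : ℂ) + (y : ℂ) * Complex.I := by
    unfold pt
    rw [UpperHalfPlane.ofComplex_apply_of_im_pos h]
  constructor
  · have := congrArg Complex.re h1
    simpa using this
  · have := congrArg Complex.im h1
    simpa using this

theorem per_cone (ρ : ℝ → ℝ) (l x : ℝ) {y : ℝ} (hy : 0 < y) :
    cone ρ l (pt x y) = conj (bul_g ρ l y x) := by
  obtain ⟨h1, h2⟩ := per_pt x hy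
  unfold cone bul_g bul_k
  rw [h1, h2]
  simp only [map_mul, map_sub, map_one, Complex.conj_ofReal, Complex.conj_I]
  push_cast
  field_simp
  ring

theorem per_kh {ρ : ℝ → ℝ} {T : ℝ} (hρ : Ker T ρ) (v : ℝ) : conj (kh ρ v) = kh ρ v := by
  unfold kh
  rw [← integral_conj]
  rw [← integral_neg_eq_self]
  refine integral_congr_ae (ae_of_all _ fun t => ?_)
  show conj ((ρ (-t) : ℂ) * (1 - ((-t : ℝ) : ℂ) * Complex.I) *
    cexp (-(2 * Real.pi * v * (-t) : ℝ) * Complex.I)) =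
    (ρ t : ℂ) * (1 - (t : ℂ) * Complex.I) * cexp (-(2 * Real.pi * v * t : ℝ) * Complex.I)
  rw [hρ.even, map_mul, map_mul, ← Complex.exp_conj]
  simp only [map_mul, map_sub, map_neg, map_one, Complex.conj_ofReal, Complex.conj_I]
  congr 1
  · push_cast
    ring
  · congr 1
    push_cast
    ring

theorem per_cone_ft {ρ : ℝ → ℝ} {T : ℝ} (hρ : Ker T ρ) (l : ℝ) {y : ℝ} (hy : 0 < y) (u : ℝ) :
    ∫ x : ℝ, cexp (-(2 * Real.pi * u * x : ℝ) * Complex.I) * cone ρ l (pt x y) =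
      cexp (-(2 * Real.pi * u * l : ℝ) * Complex.I) * kh ρ (-(u * y)) := by
  have h1 : ∀ x : ℝ, cexp (-(2 * Real.pi * u * x : ℝ) * Complex.I) * cone ρ l (pt x y) =
      conj (cexp (-(2 * Real.pi * (-u) * x : ℝ) * Complex.I) * bul_g ρ l y x) := by
    intro x
    rw [per_cone ρ l x hy, map_mul, ← Complex.exp_conj]
    congr 2
    simp only [map_mul, map_neg, Complex.conj_ofReal, Complex.conj_I]
    push_cast
    ring
  simp only [h1]
  rw [integral_conj, bul_g_ft l hy (-u), map_mul, per_kh hρ, ← Complex.exp_conj]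
  congr 2
  · simp only [map_mul, map_neg, Complex.conj_ofReal, Complex.conj_I]
    push_cast
    ring
  · ring

theorem per_cone_int {ρ : ℝ → ℝ} {T : ℝ} (hρ : Ker T ρ) (l : ℝ) {y : ℝ} (hy : 0 < y) (u : ℝ) :
    Integrable (fun x : ℝ => cexp (-(2 * Real.pi * u * x : ℝ) * Complex.I) *
      cone ρ l (pt x y)) := by
  have h2 : (fun x : ℝ => cone ρ l (pt x y)) = fun x => conj (bul_g ρ l y x) := by
    funext x
    exact per_cone ρ l x hy
  have hc : Continuous (fun x : ℝ => cone ρ l (pt x y)) := by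
    rw [h2]
    exact Complex.continuous_conj.comp (bul_g_cont hρ l y)
  have hs : HasCompactSupport (fun x : ℝ => cone ρ l (pt x y)) := by
    rw [h2]
    exact (bul_g_cs hρ l hy).comp_left (g := fun z : ℂ => conj z) (map_zero _)
  refine Continuous.integrable_of_hasCompactSupport ?_ hs.mul_left
  exact (Continuous.cexp (by fun_prop)).mul hc

theorem per_KC_cont {ρ : ℝ → ℝ} {T : ℝ} (hρ : Ker T ρ) (E : ℕ) (w : ℕ → ℝ) {y : ℝ} (hy : 0 < y) :
    Continuous (fun x : ℝ => KC ρ E w (pt x y)) := by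
  unfold KC
  simp only [per_cone ρ _ _ hy]
  refine continuous_finsetSum _ fun q _ => continuous_const.mul ?_
  exact continuous_finsetSum _ fun j _ => Complex.continuous_conj.comp (bul_g_cont hρ _ y)

theorem per_KC_cs {ρ : ℝ → ℝ} {T : ℝ} (hρ : Ker T ρ) (E : ℕ) (w : ℕ → ℝ) {y : ℝ} (hy : 0 < y) :
    HasCompactSupport (fun x : ℝ => KC ρ E w (pt x y)) := by
  refine HasCompactSupport.intro (isCompact_Icc (a := -(T * y)) (b := 1 + T * y)) fun x hx => ?_
  unfold KC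
  refine Finset.sum_eq_zero fun q hq => ?_
  rw [Finset.sum_eq_zero, mul_zero]
  intro j hj
  have hq1 : 1 ≤ q := (Finset.mem_Icc.mp hq).1
  have hqr : (0 : ℝ) < q := by exact_mod_cast hq1
  have hjq : j < q := Finset.mem_range.mp (Finset.mem_filter.mp hj).1
  have hjr : (j : ℝ) ≤ q := by exact_mod_cast hjq.le
  have h0 : 0 ≤ (j : ℝ) / q := by positivity
  have h1 : (j : ℝ) / q ≤ 1 := by rw [div_le_one hqr]; exact hjr
  have h2 : T < |(x - (j : ℝ) / q) / y| := by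
    by_contra hcon
    rw [not_lt, abs_div, abs_of_pos hy, div_le_iff₀ hy, abs_le] at hcon
    exact hx ⟨by linarith [hcon.1], by linarith [hcon.2]⟩
  obtain ⟨e1, e2⟩ := per_pt x hy
  unfold cone
  rw [e1, e2, hρ.supp _ h2, zero_div, Complex.ofReal_zero, zero_mul]

theorem per_cont_pr {T : ℝ} {ρ : ℝ → ℝ} (hρ : KerL T ρ) (E : ℕ) (w : ℕ → ℝ) {y : ℝ} (hy : 0 < y) :
    Continuous (fun x : ℝ => ∑' n : ℤ, KC ρ E w (pt (x + n) y)) :=
  per_gcont (per_KC_cont hρ.toKer E w hy) (per_KC_cs hρ.toKer E w hy)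

theorem per_ft_pr {T : ℝ} {ρ : ℝ → ℝ} (hρ : KerL T ρ) (E : ℕ) (w : ℕ → ℝ) {y : ℝ} (hy : 0 < y)
    (m : ℤ) : ∫ x in (0 : ℝ)..1, cexp (-(2 * Real.pi * m * x : ℝ) * Complex.I) *
        ∑' n : ℤ, KC ρ E w (pt (x + n) y) =
      kh ρ (-(m * y)) * ((WW E w m.natAbs : ℝ) : ℂ) := by
  rw [per_gint (per_KC_cont hρ.toKer E w hy) (per_KC_cs hρ.toKer E w hy) m]
  have h1 : ∀ x : ℝ, cexp (-(2 * Real.pi * m * x : ℝ) * Complex.I) * KC ρ E w (pt x y) =
      ∑ q ∈ Finset.Icc 1 E, ∑ j ∈ RR q, (w q : ℂ) *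
        (cexp (-(2 * Real.pi * m * x : ℝ) * Complex.I) * cone ρ ((j : ℝ) / q) (pt x y)) := by
    intro x
    unfold KC
    rw [Finset.mul_sum]
    refine Finset.sum_congr rfl fun q _ => ?_
    rw [mul_left_comm, Finset.mul_sum, Finset.mul_sum]
  simp only [h1]
  rw [integral_finsetSum _ (fun q _ => integrable_finsetSum _ fun j _ =>
    (per_cone_int hρ.toKer _ hy m).const_mul _)]
  have h2 : ∀ q ∈ Finset.Icc 1 E,
      ∫ x : ℝ, ∑ j ∈ RR q, (w q : ℂ) * (cexp (-(2 * Real.pi * m * x : ℝ) * Complex.I) *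
          cone ρ ((j : ℝ) / q) (pt x y)) =
        kh ρ (-(m * y)) * ((w q * cc q m.natAbs : ℝ) : ℂ) := by
    intro q hq
    have hq1 := (Finset.mem_Icc.mp hq).1
    rw [integral_finsetSum _ fun j _ => (per_cone_int hρ.toKer _ hy m).const_mul _]
    simp only [integral_const_mul]
    rw [← Finset.mul_sum]
    simp only [per_cone_ft hρ.toKer _ hy]
    rw [← Finset.sum_mul, bul_char q hq1 m]
    push_cast
    ring
  rw [Finset.sum_congr rfl h2, ← Finset.mul_sum]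
  unfold WW
  push_cast
  rfl

theorem per_parseval_pr {T : ℝ} {ρ : ℝ → ℝ} (hρ : KerL T ρ) (E : ℕ) (w : ℕ → ℝ) {y : ℝ}
    (hy : 0 < y) :
    Summable (fun n : ℕ => (‖kh ρ ((n + 1) * y)‖ ^ 2 + ‖kh ρ (-((n + 1) * y))‖ ^ 2) *
      WW E w (n + 1) ^ 2) ∧
    ∫ x in (0 : ℝ)..1, ‖∑' n : ℤ, KC ρ E w (pt (x + n) y)‖ ^ 2 = WW E w 0 ^ 2 +
      ∑' n : ℕ, (‖kh ρ ((n + 1) * y)‖ ^ 2 + ‖kh ρ (-((n + 1) * y))‖ ^ 2) *
        WW E w (n + 1) ^ 2 := by
  have hcont := per_cont_pr hρ E w hy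
  set F : ℝ → ℂ := fun x : ℝ => ∑' n : ℤ, KC ρ E w (pt (x + n) y) with hF
  have h01 : (0 : ℝ) < 1 := one_pos
  have hmem : MemLp F 2 (volume.restrict (Set.Ioc (0 : ℝ) 1)) := by
    have h1 : MemLp F 2 (volume.restrict (Set.Icc (0 : ℝ) 1)) := by
      obtain ⟨C, hC⟩ := isCompact_Icc.exists_bound_of_continuousOn
        (hcont.continuousOn (s := Set.Icc (0 : ℝ) 1))
      exact MemLp.of_bound hcont.aestronglyMeasurable C
        ((ae_restrict_iff' measurableSet_Icc).mpr (ae_of_all _ hC))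
    exact h1.mono_measure (Measure.restrict_mono Set.Ioc_subset_Icc_self le_rfl)
  have hP := hasSum_sq_fourierCoeffOn h01 hmem
  have hcoef : ∀ n : ℤ, fourierCoeffOn h01 F n =
      kh ρ (-(n * y)) * ((WW E w n.natAbs : ℝ) : ℂ) := by
    intro n
    rw [fourierCoeffOn_eq_integral, ← per_ft_pr hρ E w hy n]
    have h1 : ∫ x in (0 : ℝ)..1, fourier (-n) (x : AddCircle (1 - 0 : ℝ)) • F x =
        ∫ x in (0 : ℝ)..1, cexp (-(2 * Real.pi * n * x : ℝ) * Complex.I) * F x := by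
      refine intervalIntegral.integral_congr fun x _ => ?_
      show fourier (-n) (x : AddCircle (1 - 0 : ℝ)) • F x =
        cexp (-(2 * Real.pi * n * x : ℝ) * Complex.I) * F x
      rw [fourier_coe_apply, smul_eq_mul]
      congr 2
      push_cast
      ring
    rw [h1]
    simp [hF]
  simp only [hcoef] at hP
  rw [sub_zero, inv_one, one_smul] at hP
  have h2 := hP.nat_add_neg
  have h3 := (hasSum_nat_add_iff' 1).mpr h2
  have h4 : ∀ n : ℕ, ‖kh ρ (-((((n + 1 : ℕ) : ℤ) : ℝ) * y)) *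
        ((WW E w (((n + 1 : ℕ) : ℤ)).natAbs : ℝ) : ℂ)‖ ^ 2 +
      ‖kh ρ (-(((-((n + 1 : ℕ) : ℤ) : ℤ) : ℝ) * y)) *
        ((WW E w (-((n + 1 : ℕ) : ℤ)).natAbs : ℝ) : ℂ)‖ ^ 2 =
      (‖kh ρ ((n + 1) * y)‖ ^ 2 + ‖kh ρ (-((n + 1) * y))‖ ^ 2) * WW E w (n + 1) ^ 2 := by
    intro n
    have e1 : (((n + 1 : ℕ) : ℤ)).natAbs = n + 1 := Int.natAbs_natCast _
    have e2 : (-((n + 1 : ℕ) : ℤ)).natAbs = n + 1 := by rw [Int.natAbs_neg, e1]
    have e3 : -((((n + 1 : ℕ) : ℤ) : ℝ) * y) = -((n + 1) * y) := by push_cast; ring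
    have e4 : -(((-((n + 1 : ℕ) : ℤ) : ℤ) : ℝ) * y) = (n + 1) * y := by push_cast; ring
    rw [e1, e2, e3, e4, norm_mul, norm_mul, mul_pow, mul_pow, Complex.norm_real, Real.norm_eq_abs,
      sq_abs]
    ring
  have h5 : HasSum (fun n : ℕ => (‖kh ρ ((n + 1) * y)‖ ^ 2 + ‖kh ρ (-((n + 1) * y))‖ ^ 2) *
      WW E w (n + 1) ^ 2) ((∫ x in (0 : ℝ)..1, ‖F x‖ ^ 2) - WW E w 0 ^ 2) := by
    have h6 := h3
    simp only [h4] at h6
    have e5 : ‖kh ρ (-(((0 : ℤ) : ℝ) * y)) * ((WW E w (0 : ℤ).natAbs : ℝ) : ℂ)‖ ^ 2 =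
        WW E w 0 ^ 2 := by
      rw [Int.cast_zero, zero_mul, neg_zero, (kh_zero_pr hρ.toKer).1, one_mul, Int.natAbs_zero,
        Complex.norm_real, Real.norm_eq_abs, sq_abs]
    have e6 : ∑ i ∈ Finset.range 1,
        (‖kh ρ (-((((i : ℕ) : ℤ) : ℝ) * y)) * ((WW E w ((i : ℕ) : ℤ).natAbs : ℝ) : ℂ)‖ ^ 2 +
          ‖kh ρ (-(((-((i : ℕ) : ℤ) : ℤ) : ℝ) * y)) *
            ((WW E w (-((i : ℕ) : ℤ)).natAbs : ℝ) : ℂ)‖ ^ 2) = 2 * WW E w 0 ^ 2 := by
      rw [Finset.sum_range_one, Nat.cast_zero, neg_zero, e5]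
      ring
    rw [e5, e6] at h6
    have e7 : (∫ x in (0 : ℝ)..1, ‖F x‖ ^ 2) + WW E w 0 ^ 2 - 2 * WW E w 0 ^ 2 =
        (∫ x in (0 : ℝ)..1, ‖F x‖ ^ 2) - WW E w 0 ^ 2 := by ring
    rw [e7] at h6
    exact h6
  refine ⟨h5.summable, ?_⟩
  rw [h5.tsum_eq]
  ring

theorem per_cont : type_of% @per_cont_pr := @per_cont_pr
theorem per_ft : type_of% @per_ft_pr := @per_ft_pr
theorem per_parseval : type_of% @per_parseval_pr := @per_parseval_pr

end Pool.Agent.LSP
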