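import Pool.Agent.Lib_helper41.LSP.DefsG
import Pool.Agent.Lib_helper41.LSPG.CSQ
import Pool.Agent.Lib_helper41.LSPG.PAL
import Pool.Agent.Lib_helper41.LSPG.PAS
import Pool.Agent.Lib_helper41.LSPG.PER

/-! Block PAE: the pairs of geodesics with the common end point `∞`. -/

set_option autoImplicit false

namespace Pool.Agent.LSP

open Pool.Agent.LEV Pool.Agent.LVB Pool.Agent.KSL
open Pool.Agent.FG61 (mu phi cc ff AA Lam)
open Complex MeasureTheory Filter Topology UpperHalfPlane ModularGroup ProbabilityTheory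
open scoped MatrixGroups Modular ENNReal ModularForm ComplexConjugate ContDiff

theorem PAE_card (q : ℕ) : ((RR q).card : ℝ) = phi q := by
  unfold RR phi
  rw [Nat.totient_eq_card_coprime]

theorem PAE_yo {T : ℝ} (hT : 1 ≤ T) {E : ℕ} (hE : 1 ≤ E) : 0 < yo T E := by
  unfold yo
  have : (0 : ℝ) < E := by exact_mod_cast hE
  positivity

theorem pa_eval_pr {T : ℝ} {ρ : ℝ → ℝ} (hρ : KerL T ρ) {N E : ℕ} (hN : N.Prime) (hE1 : 1 ≤ E)
    (hE : E < N) {w : ℕ → ℝ} (hw : WW E w 0 = 0) : ∃ Y₀ : ℝ, ∀ Y : ℝ, Y₀ ≤ Y →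
    PS ρ N E w Y (fun γ _ _ _ _ => γ 1 0 = 0) =
      (((∫ y in (yo T E)..Y, ∑' n : ℕ, (‖kh ρ ((n + 1) * y)‖ ^ 2 +
          ‖kh ρ (-((n + 1) * y))‖ ^ 2) * WW E w (n + 1) ^ 2) +
        ∑ q ∈ Finset.Icc 1 E, phi q * w q ^ 2 *
          (Cr ρ * (Real.log (yo T E) + Real.log ((N : ℝ) * (q : ℝ) ^ 2 * Y)) + Cl ρ) : ℝ) : ℂ) := by
  have hT : 1 ≤ T := hρ.T1
  have hyo : 0 < yo T E := PAE_yo hT hE1
  have hN1 : 1 ≤ N := hN.one_lt.le
  have hN0 : (0 : ℝ) < N := by exact_mod_cast hN1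
  have hN1' : (1 : ℝ) ≤ N := by exact_mod_cast hN1
  refine ⟨yo T E + 1 / yo T E + 1, fun Y hY => ?_⟩
  have hyi : 0 < 1 / yo T E := by positivity
  have hY0 : 0 < Y := by linarith
  have hYy : yo T E < Y := by linarith
  have hYi : 1 / yo T E < Y := by linarith
  have hNY : 1 / (N * Y) < yo T E := by
    rw [div_lt_iff₀ (by positivity)]
    rw [div_lt_iff₀ hyo] at hYi
    nlinarith [mul_pos hyo hY0]
  obtain ⟨hint, heq⟩ := pa_strip hρ hN1 E w Y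
  rw [heq]
  congr 1
  set I : ℝ → ℝ := fun y => ∫ x in (0 : ℝ)..1, ‖∑' n : ℤ, KY ρ N E w Y (pt (x + n) y)‖ ^ 2 with hI
  have hlow : ∀ y ∈ Set.Ioo 0 (yo T E), I y = ∑ q ∈ Finset.Icc 1 E, w q ^ 2 * ∑ j ∈ RR q,
      ∫ x : ℝ, ‖coneY ρ N q ((j : ℝ) / q) Y (pt x y)‖ ^ 2 := fun y hy =>
    pa_low hρ hN1 hE1 w Y hy.1 hy.2
  have hmid : ∀ y ∈ Set.Ioo (yo T E) Y, I y = ∑' n : ℕ, (‖kh ρ ((n + 1) * y)‖ ^ 2 +
          ‖kh ρ (-((n + 1) * y))‖ ^ 2) * WW E w (n + 1) ^ 2 := by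
    intro y hy
    have hy0 : 0 < y := hyo.trans hy.1
    rw [hI]
    have h1 : ∀ x : ℝ, (∑' n : ℤ, KY ρ N E w Y (pt (x + n) y)) =
        ∑' n : ℤ, KC ρ E w (pt (x + n) y) := by
      intro x
      exact tsum_congr fun n => pa_high ρ hN1 E w hy0 (hNY.trans hy.1) hy.2 _
    simp only [h1]
    rw [(per_parseval hρ E w hy0).2, hw]
    simp
  have htop : ∀ y ∈ Set.Ioi Y, I y = 0 := by
    intro y hy
    have hy0 : 0 < y := hY0.trans hy
    rw [hI]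
    have h1 : ∀ x : ℝ, (∑' n : ℤ, KY ρ N E w Y (pt (x + n) y)) = 0 := by
      intro x
      rw [tsum_congr fun n : ℤ => pa_top ρ N E w hy0 (le_of_lt hy) (x + n)]
      exact tsum_zero
    simp only [h1]
    simp
  have hs1 : Set.Ioi (0 : ℝ) = Set.Ioc 0 (yo T E) ∪ (Set.Ioc (yo T E) Y ∪ Set.Ioi Y) := by
    rw [Set.Ioc_union_Ioi_eq_Ioi hYy.le, Set.Ioc_union_Ioi_eq_Ioi hyo.le]
  have hd1 : Disjoint (Set.Ioc 0 (yo T E)) (Set.Ioc (yo T E) Y ∪ Set.Ioi Y) := by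
    rw [Set.Ioc_union_Ioi_eq_Ioi hYy.le]
    exact Set.Ioc_disjoint_Ioi le_rfl
  have hd2 : Disjoint (Set.Ioc (yo T E) Y) (Set.Ioi Y) := Set.Ioc_disjoint_Ioi le_rfl
  have hsub1 : Set.Ioc 0 (yo T E) ⊆ Set.Ioi 0 := Set.Ioc_subset_Ioi_self
  have hsub2 : Set.Ioc (yo T E) Y ⊆ Set.Ioi 0 := fun y hy => hyo.trans hy.1
  have hsub3 : Set.Ioi Y ⊆ Set.Ioi 0 := fun y hy => hY0.trans hy
  have hsub4 : Set.Ioc (yo T E) Y ∪ Set.Ioi Y ⊆ Set.Ioi 0 := Set.union_subset hsub2 hsub3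
  rw [hs1, setIntegral_union hd1 (measurableSet_Ioc.union measurableSet_Ioi)
    (hint.mono_set hsub1) (hint.mono_set hsub4),
    setIntegral_union hd2 measurableSet_Ioi (hint.mono_set hsub2) (hint.mono_set hsub3)]
  have h3 : ∫ y in Set.Ioi Y, I y = 0 := by
    rw [setIntegral_congr_fun measurableSet_Ioi htop]
    simp
  have h2 : ∫ y in Set.Ioc (yo T E) Y, I y = ∫ y in (yo T E)..Y, ∑' n : ℕ,
      (‖kh ρ ((n + 1) * y)‖ ^ 2 + ‖kh ρ (-((n + 1) * y))‖ ^ 2) * WW E w (n + 1) ^ 2 := by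
    rw [intervalIntegral.integral_of_le hYy.le, integral_Ioc_eq_integral_Ioo,
      integral_Ioc_eq_integral_Ioo]
    exact setIntegral_congr_fun measurableSet_Ioo hmid
  have h1 : ∫ y in Set.Ioc 0 (yo T E), I y = ∑ q ∈ Finset.Icc 1 E, phi q * w q ^ 2 *
      (Cr ρ * (Real.log (yo T E) + Real.log ((N : ℝ) * (q : ℝ) ^ 2 * Y)) + Cl ρ) := by
    rw [integral_Ioc_eq_integral_Ioo, setIntegral_congr_fun measurableSet_Ioo hlow,
      ← integral_Ioc_eq_integral_Ioo]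
    have hcs : ∀ q ∈ Finset.Icc 1 E, ∀ j : ℕ,
        IntegrableOn (fun y : ℝ => ∫ x : ℝ, ‖coneY ρ N q ((j : ℝ) / q) Y (pt x y)‖ ^ 2)
          (Set.Ioc 0 (yo T E)) ∧
        ∫ y in Set.Ioc 0 (yo T E), ∫ x : ℝ, ‖coneY ρ N q ((j : ℝ) / q) Y (pt x y)‖ ^ 2 =
          Cr ρ * (Real.log (yo T E) + Real.log (N * (q : ℝ) ^ 2 * Y)) + Cl ρ := by
      intro q hq j
      have hq1 : 1 ≤ q := (Finset.mem_Icc.1 hq).1
      have hq1' : (1 : ℝ) ≤ q := by exact_mod_cast hq1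
      have hq2 : (1 : ℝ) ≤ (q : ℝ) ^ 2 := one_le_pow₀ hq1'
      refine cone_sq hρ hN1 hq1 _ hyo hYy.le ?_
      refine le_trans ?_ hNY.le
      apply one_div_le_one_div_of_le (by positivity)
      have : N * Y ≤ N * Y * (q : ℝ) ^ 2 := le_mul_of_one_le_right (by positivity) hq2
      linarith
    rw [integral_finsetSum]
    · refine Finset.sum_congr rfl fun q hq => ?_
      rw [integral_const_mul, integral_finsetSum]
      · rw [Finset.sum_congr rfl fun j _ => (hcs q hq j).2, Finset.sum_const, nsmul_eq_mul,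
          PAE_card]
        ring
      · intro j _
        exact (hcs q hq j).1
    · intro q hq
      refine Integrable.const_mul ?_ _
      exact integrable_finsetSum _ fun j _ => (hcs q hq j).1
  rw [h1, h2, h3]
  ring

theorem pa_eval : type_of% @pa_eval_pr := @pa_eval_pr

end Pool.Agent.LSP
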