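import Pool.Agent.Lib_helper41.LSP.DefsG
import Pool.Agent.Lib_helper41.LSPG.BDF

/-! LSP, part G, block BDG -/

namespace Pool.Agent.LSP

open Pool.Agent.LEV Pool.Agent.LVB Pool.Agent.KSL
open Pool.Agent.FG61 (mu phi cc ff AA Lam)
open Complex MeasureTheory Filter Topology UpperHalfPlane ModularGroup ProbabilityTheory
open scoped MatrixGroups Modular ENNReal ModularForm ComplexConjugate ContDiff

theorem BDG_add {N : ℕ} {K : ℍ → ℂ} (hK : Bd K) (g h : S2 N) :
    ipH ((g + h : S2 N) : ℍ → ℂ) K = ipH g K + ipH h K := by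
  unfold ipH
  rw [← integral_add (bd_int_form g hK) (bd_int_form h hK)]
  refine integral_congr_ae (Eventually.of_forall fun z => ?_)
  have h1 : ((g + h : S2 N) : ℍ → ℂ) z = g z + h z := by
    rw [show ((g + h : S2 N) : ℍ → ℂ) = (g : ℍ → ℂ) + (h : ℍ → ℂ) from FunLike.coe_add g h]
    rfl
  change ((g + h : S2 N) : ℍ → ℂ) z * conj (K z) * ((z.im ^ 2 : ℝ) : ℂ) = _
  rw [h1]
  ring

theorem BDG_smul {N : ℕ} {K : ℍ → ℂ} (c : ℂ) (g : S2 N) :
    ipH ((c • g : S2 N) : ℍ → ℂ) K = c * ipH g K := by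
  unfold ipH
  rw [← integral_const_mul]
  refine integral_congr_ae (Eventually.of_forall fun z => ?_)
  have h1 : ((c • g : S2 N) : ℍ → ℂ) z = c * g z := rfl
  change ((c • g : S2 N) : ℍ → ℂ) z * conj (K z) * ((z.im ^ 2 : ℝ) : ℂ) = _
  rw [h1]
  ring

theorem ip_linear_pr {N : ℕ} [Fact N.Prime] {K : ℍ → ℂ} (hK : Bd K) :
    ∃ l : S2 N →ₗ[ℂ] ℂ, ∀ g : S2 N, l g = ipH g K := by
  refine ⟨{ toFun := fun g => ipH g K, map_add' := fun g h => ?_, map_smul' := fun c g => ?_ },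
    fun g => rfl⟩
  · exact BDG_add hK g h
  · rw [RingHom.id_apply, smul_eq_mul]
    exact BDG_smul c g

theorem ip_add_pr {N : ℕ} [Fact N.Prime] {K L : ℍ → ℂ} (hK : Bd K) (hL : Bd L) (τ : ℝ) (g : S2 N) :
    ipH g (fun z => K z + (τ : ℂ) * L z) = ipH g K + τ * ipH g L := by
  unfold ipH
  rw [← integral_const_mul, ← integral_add (bd_int_form g hK) ((bd_int_form g hL).const_mul _)]
  refine integral_congr_ae (Eventually.of_forall fun z => ?_)
  change g z * conj (K z + (τ : ℂ) * L z) * ((z.im ^ 2 : ℝ) : ℂ) = _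
  rw [map_add, map_mul, Complex.conj_ofReal]
  ring

theorem ip_linear : type_of% @ip_linear_pr := @ip_linear_pr
theorem ip_add : type_of% @ip_add_pr := @ip_add_pr

end Pool.Agent.LSP
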