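import Pool.Agent.Lib_helper41.LSP.DefsG
import Pool.Agent.Lib_helper68.LEV.HKB
import Pool.Agent.Lib_helper41.LSPG.BDF
import Pool.Agent.Lib_helper41.LSPG.MOB

/-! LSP, block BES: Bessel's inequality on the quotient (first lemmas by helper22). -/

namespace Pool.Agent.LSP

open Pool.Agent.LEV Pool.Agent.LVB Pool.Agent.KSL
open Pool.Agent.FG61 (mu phi cc ff AA Lam)
open Complex MeasureTheory Filter Topology UpperHalfPlane ModularGroup ProbabilityTheory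
open scoped MatrixGroups Modular ENNReal ModularForm ComplexConjugate ContDiff

/-- the factor of automorphy -/
noncomputable def bess_j (γ : SL(2, ℤ)) (z : ℍ) : ℂ :=
  ((γ 1 0 : ℤ) : ℂ) * z + ((γ 1 1 : ℤ) : ℂ)

theorem bess_j_ne (γ : SL(2, ℤ)) (z : ℍ) : bess_j γ z ≠ 0 := Pool.Agent.GL2.RSA_denom_ne γ z

theorem bess_im (γ : SL(2, ℤ)) (z : ℍ) : (γ • z).im = z.im / ‖bess_j γ z‖ ^ 2 :=
  Pool.Agent.GL2.RSA_im_smul γ z

theorem bess_slash (L : ℍ → ℂ) (γ : SL(2, ℤ)) (z : ℍ) :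
    (L ∣[(2 : ℤ)] γ) z = L (γ • z) * (bess_j γ z) ^ (-2 : ℤ) := by
  rw [ModularForm.SL_slash_apply]
  have h1 : denom (γ : SL(2, ℤ)) z = bess_j γ z := denom_apply _ _
  exact congrArg (fun w : ℂ => L (γ • z) * w ^ (-2 : ℤ)) h1

theorem bess_key (K L : ℍ → ℂ) (γ : SL(2, ℤ)) (z : ℍ) :
    (K ∣[(2 : ℤ)] γ) z * conj ((L ∣[(2 : ℤ)] γ) z) * ((z.im ^ 2 : ℝ) : ℂ) =
      K (γ • z) * conj (L (γ • z)) * (((γ • z).im ^ 2 : ℝ) : ℂ) := by
  rw [bess_slash, bess_slash, bess_im]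
  have h2 := bess_j_ne γ z
  set w := bess_j γ z with hw
  have h3 : conj w ≠ 0 := by simpa using h2
  have h4 : ((‖w‖ ^ 2 : ℝ) : ℂ) = conj w * w := by
    rw [← Complex.normSq_eq_norm_sq, Complex.normSq_eq_conj_mul_self]
  have h5 : ((z.im / ‖w‖ ^ 2) ^ 2 : ℝ) = z.im ^ 2 / (‖w‖ ^ 2) ^ 2 := by ring
  rw [h5, Complex.ofReal_div, Complex.ofReal_pow (‖w‖ ^ 2), h4, map_mul, map_zpow₀]
  field_simp

theorem bess_inv (K L : ℍ → ℂ) (γ : SL(2, ℤ)) :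
    ipH (K ∣[(2 : ℤ)] γ) (L ∣[(2 : ℤ)] γ) = ipH K L := by
  unfold ipH
  rw [← FUN_int γ (fun z : ℍ => K z * conj (L z) * ((z.im ^ 2 : ℝ) : ℂ))]
  exact integral_congr_ae (ae_of_all _ fun z => bess_key K L γ z)

theorem bess_inv' (K L : ℍ → ℂ) (γ : SL(2, ℤ)) :
    ipH K (L ∣[(2 : ℤ)] γ) = ipH (K ∣[(2 : ℤ)] γ⁻¹) L := by
  rw [← bess_inv K (L ∣[(2 : ℤ)] γ) γ⁻¹, ← SlashAction.slash_mul, mul_inv_cancel,
    SlashAction.slash_one]

theorem bess_conj (K L : ℍ → ℂ) : ipH K L = conj (ipH L K) := by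
  unfold ipH
  rw [← integral_conj]
  refine integral_congr_ae (ae_of_all _ fun z => ?_)
  show K z * conj (L z) * ((z.im ^ 2 : ℝ) : ℂ) =
    conj (L z * conj (K z) * ((z.im ^ 2 : ℝ) : ℂ))
  rw [map_mul, map_mul, Complex.conj_conj, Complex.conj_ofReal]
  ring

/-! ### finiteness -/

theorem bess_point (z : ℍ) : Bd (fun w : ℍ => Set.indicator {z} (fun _ => (1 : ℂ)) w) := by
  refine ⟨measurable_const.indicator (measurableSet_singleton z), z.im, 1 + z.im + |z.re|,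
    z.im_pos, fun w => ?_, fun w hw => ?_⟩
  · have h1 := z.im_pos
    have h2 := abs_nonneg z.re
    by_cases h : w = z
    · subst h
      simp
      linarith
    · have : Set.indicator {z} (fun _ => (1 : ℂ)) w = 0 := by
        rw [Set.indicator_of_notMem]
        exact h
      show ‖Set.indicator {z} (fun _ => (1 : ℂ)) w‖ ≤ 1 + z.im + |z.re|
      rw [this, norm_zero]
      linarith
  · have h1 := z.im_pos
    have h2 := abs_nonneg z.re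
    have h : w = z := by
      by_contra hne
      exact hw (Set.indicator_of_notMem (s := ({z} : Set ℍ)) hne _)
    subst h
    exact ⟨le_rfl, by linarith, by linarith⟩

theorem bess_fin1 {K : ℍ → ℂ} (hK : Bd K) (z : ℍ) : {γ : SL(2, ℤ) | K (γ • z) ≠ 0}.Finite := by
  refine (bd_finite (bess_point z) hK).subset ?_
  intro γ hγ
  exact ⟨z, by simp, hγ⟩

theorem bess_slash_ne {K : ℍ → ℂ} {γ : SL(2, ℤ)} {z : ℍ} (h : (K ∣[(2 : ℤ)] γ) z ≠ 0) :
    K (γ • z) ≠ 0 := by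
  intro h0
  apply h
  rw [bess_slash, h0, zero_mul]

theorem bess_fin2 (N : ℕ) {K : ℍ → ℂ} (hK : Bd K) (z : ℍ) :
    (Function.support fun γ : CongruenceSubgroup.Gamma0 N =>
      (K ∣[(2 : ℤ)] (γ : SL(2, ℤ))) z).Finite := by
  refine ((bess_fin1 hK z).preimage Subtype.val_injective.injOn).subset ?_
  intro γ hγ
  exact bess_slash_ne hγ

theorem bess_fin3 (N : ℕ) {K L : ℍ → ℂ} (hK : Bd K) (hL : Bd L) :
    {γ : CongruenceSubgroup.Gamma0 N | ∃ z : ℍ, K z ≠ 0 ∧ L ((γ : SL(2, ℤ)) • z) ≠ 0}.Finite :=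
  (bd_finite hK hL).preimage (f := fun γ : CongruenceSubgroup.Gamma0 N => (γ : SL(2, ℤ)))
    Subtype.val_injective.injOn

theorem bess_bd_slash {K : ℍ → ℂ} (hK : Bd K) (γ : SL(2, ℤ)) : Bd (K ∣[(2 : ℤ)] γ) := by
  have h := bd_sl2 hK (A := (γ : M2)) (by
    have : ((γ : M2)).det = 1 := γ.det_coe
    rw [this]
    norm_num)
  rwa [sl2_sl] at h

/-! ### unfolding -/

section unf
variable {N : ℕ} [Fact N.Prime]

theorem bess_Q_le (z : ℍ) : HKB_Q N z ≤ 1 := by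
  have h := HKB_Q_hasSum N z
  have h2 := le_hasSum h (1 : CongruenceSubgroup.Gamma0 N) (fun γ _ => HKB_Q_nonneg N _)
  simpa using h2

theorem bess_ofQ (z : ℍ) : ∑' γ : CongruenceSubgroup.Gamma0 N,
    ENNReal.ofReal (HKB_Q N ((γ : SL(2, ℤ)) • z)) = 1 := by
  have h := HKB_Q_hasSum N z
  rw [← ENNReal.ofReal_tsum_of_nonneg (fun γ => HKB_Q_nonneg N _) h.summable, h.tsum_eq,
    ENNReal.ofReal_one]

theorem bess_meas_smul (γ : SL(2, ℤ)) : Measurable (fun z : ℍ => γ • z) :=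
  (Pool.Agent.GL2.RSA_mp γ).measurable

theorem bess_lint {F : ℍ → ℂ} (hm : Measurable F) :
    ∑' γ : CongruenceSubgroup.Gamma0 N, ∫⁻ z : ℍ, ‖((HKB_Q N z : ℝ) : ℂ) *
      F ((γ : SL(2, ℤ)) • z)‖ₑ = ∫⁻ z : ℍ, ‖F z‖ₑ := by
  have hQm := HKB_Q_meas N
  have h2 : ∀ γ : SL(2, ℤ), ∫⁻ z : ℍ, ‖((HKB_Q N z : ℝ) : ℂ) * F (γ • z)‖ₑ =
      ∫⁻ z : ℍ, ‖F z‖ₑ * ENNReal.ofReal (HKB_Q N (γ⁻¹ • z)) := by
    intro γ
    have h3 := (Pool.Agent.GL2.RSA_mp γ).lintegral_comp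
      (f := fun z : ℍ => ‖F z‖ₑ * ENNReal.ofReal (HKB_Q N (γ⁻¹ • z)))
      (hm.enorm.mul (hQm.comp (bess_meas_smul γ⁻¹)).ennreal_ofReal)
    rw [← h3]
    apply lintegral_congr
    intro z
    rw [inv_smul_smul, enorm_mul, mul_comm]
    congr 1
    rw [← ofReal_norm, Complex.norm_real, Real.norm_of_nonneg (HKB_Q_nonneg N z)]
  have h4 : ∀ γ : CongruenceSubgroup.Gamma0 N, ∫⁻ z : ℍ, ‖((HKB_Q N z : ℝ) : ℂ) *
      F ((γ : SL(2, ℤ)) • z)‖ₑ = (fun γ : CongruenceSubgroup.Gamma0 N =>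
        ∫⁻ z : ℍ, ‖F z‖ₑ * ENNReal.ofReal (HKB_Q N ((γ : SL(2, ℤ)) • z))) (Equiv.inv _ γ) := by
    intro γ
    rw [h2]
    simp
  simp_rw [h4]
  have h5 := lintegral_tsum (μ := (volume : Measure ℍ))
    (f := fun (γ : CongruenceSubgroup.Gamma0 N) (z : ℍ) =>
      ‖F z‖ₑ * ENNReal.ofReal (HKB_Q N ((γ : SL(2, ℤ)) • z)))
    (fun γ => (hm.enorm.mul
      (hQm.comp (bess_meas_smul (γ : SL(2, ℤ)))).ennreal_ofReal).aemeasurable)
  rw [(Equiv.inv (CongruenceSubgroup.Gamma0 N)).tsum_eq (fun γ : CongruenceSubgroup.Gamma0 N =>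
        ∫⁻ z : ℍ, ‖F z‖ₑ * ENNReal.ofReal (HKB_Q N ((γ : SL(2, ℤ)) • z))), ← h5]
  apply lintegral_congr
  intro z
  rw [ENNReal.tsum_mul_left, bess_ofQ, mul_one]

theorem bess_unf {F : ℍ → ℂ} (hm : Measurable F) (hF : Integrable F) :
    Integrable (fun z : ℍ => ((HKB_Q N z : ℝ) : ℂ) *
      ∑' γ : CongruenceSubgroup.Gamma0 N, F ((γ : SL(2, ℤ)) • z)) ∧
    ∫ z : ℍ, ((HKB_Q N z : ℝ) : ℂ) *
      ∑' γ : CongruenceSubgroup.Gamma0 N, F ((γ : SL(2, ℤ)) • z) = ∫ z : ℍ, F z := by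
  have hQm := HKB_Q_meas N
  have hQc : Measurable (fun z : ℍ => ((HKB_Q N z : ℝ) : ℂ)) :=
    Complex.measurable_ofReal.comp hQm
  have hfin : ∑' γ : CongruenceSubgroup.Gamma0 N, ∫⁻ z : ℍ, ‖((HKB_Q N z : ℝ) : ℂ) *
      F ((γ : SL(2, ℤ)) • z)‖ₑ ≠ ⊤ := by
    rw [bess_lint hm]
    exact hF.2.ne
  have hmm : ∀ γ : CongruenceSubgroup.Gamma0 N, Measurable (fun z : ℍ =>
      ((HKB_Q N z : ℝ) : ℂ) * F ((γ : SL(2, ℤ)) • z)) := fun γ =>
    hQc.mul (hm.comp (bess_meas_smul _))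
  have heq : (fun z : ℍ => ((HKB_Q N z : ℝ) : ℂ) *
      ∑' γ : CongruenceSubgroup.Gamma0 N, F ((γ : SL(2, ℤ)) • z)) = fun z : ℍ =>
      ∑' γ : CongruenceSubgroup.Gamma0 N, ((HKB_Q N z : ℝ) : ℂ) * F ((γ : SL(2, ℤ)) • z) := by
    ext z
    rw [tsum_mul_left]
  rw [heq]
  constructor
  · refine ⟨(Measurable.tsum hmm).aestronglyMeasurable, ?_⟩
    refine lt_of_le_of_lt (lintegral_mono fun z => enorm_tsum_le_tsum_enorm) ?_
    rw [lintegral_tsum (fun γ => (hmm γ).enorm.aemeasurable)]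
    exact lt_top_iff_ne_top.mpr hfin
  · rw [integral_tsum (fun γ => (hmm γ).aestronglyMeasurable) hfin]
    have h1 : ∀ γ : CongruenceSubgroup.Gamma0 N, ∫ z : ℍ, ((HKB_Q N z : ℝ) : ℂ) *
        F ((γ : SL(2, ℤ)) • z) = (fun γ : CongruenceSubgroup.Gamma0 N =>
        ∫ z : ℍ, F z * ((HKB_Q N ((γ : SL(2, ℤ)) • z) : ℝ) : ℂ)) (Equiv.inv _ γ) := by
      intro γ
      simp only [Equiv.inv_apply]
      rw [← FUN_int (γ : SL(2, ℤ)) (fun z : ℍ =>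
        F z * ((HKB_Q N (((γ⁻¹ : CongruenceSubgroup.Gamma0 N) : SL(2, ℤ)) • z) : ℝ) : ℂ))]
      congr 1
      ext z
      rw [InvMemClass.coe_inv, inv_smul_smul, mul_comm]
    simp_rw [h1]
    rw [(Equiv.inv (CongruenceSubgroup.Gamma0 N)).tsum_eq (fun γ : CongruenceSubgroup.Gamma0 N =>
        ∫ z : ℍ, F z * ((HKB_Q N ((γ : SL(2, ℤ)) • z) : ℝ) : ℂ)), ← integral_tsum]
    · congr 1
      ext z
      rw [tsum_mul_left]
      have h2 : ∑' γ : CongruenceSubgroup.Gamma0 N,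
          ((HKB_Q N ((γ : SL(2, ℤ)) • z) : ℝ) : ℂ) = 1 := by
        rw [← Complex.ofReal_tsum, (HKB_Q_hasSum N z).tsum_eq, Complex.ofReal_one]
      rw [h2, mul_one]
    · intro γ
      exact (hm.mul (hQc.comp (bess_meas_smul _))).aestronglyMeasurable
    · have h3 : ∑' γ : CongruenceSubgroup.Gamma0 N, ∫⁻ z : ℍ,
          ‖F z * ((HKB_Q N ((γ : SL(2, ℤ)) • z) : ℝ) : ℂ)‖ₑ = ∫⁻ z : ℍ, ‖F z‖ₑ := by
        have h5 := lintegral_tsum (μ := (volume : Measure ℍ))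
          (f := fun (γ : CongruenceSubgroup.Gamma0 N) (z : ℍ) =>
            ‖F z * ((HKB_Q N ((γ : SL(2, ℤ)) • z) : ℝ) : ℂ)‖ₑ)
          (fun γ => (hm.mul (hQc.comp (bess_meas_smul _))).enorm.aemeasurable)
        rw [← h5]
        apply lintegral_congr
        intro z
        have h4 : ∀ γ : CongruenceSubgroup.Gamma0 N,
            ‖F z * ((HKB_Q N ((γ : SL(2, ℤ)) • z) : ℝ) : ℂ)‖ₑ =
            ‖F z‖ₑ * ENNReal.ofReal (HKB_Q N ((γ : SL(2, ℤ)) • z)) := by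
          intro γ
          rw [enorm_mul]
          congr 1
          rw [← ofReal_norm, Complex.norm_real, Real.norm_of_nonneg (HKB_Q_nonneg N _)]
        simp_rw [h4]
        rw [ENNReal.tsum_mul_left, bess_ofQ, mul_one]
      rw [h3]
      exact hF.2.ne

/-! ### the folded function -/

/-- the folding of `K` -/
noncomputable def bess_P (N : ℕ) (K : ℍ → ℂ) (z : ℍ) : ℂ :=
  ∑' γ : CongruenceSubgroup.Gamma0 N, (K ∣[(2 : ℤ)] (γ : SL(2, ℤ))) z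

omit [Fact N.Prime] in
theorem bess_P_meas {K : ℍ → ℂ} (hK : Bd K) : Measurable (bess_P N K) :=
  Measurable.tsum fun γ => (bess_bd_slash hK (γ : SL(2, ℤ))).1

omit [Fact N.Prime] in
theorem bess_P_inv (K : ℍ → ℂ) (γ : CongruenceSubgroup.Gamma0 N) :
    (bess_P N K) ∣[(2 : ℤ)] (γ : SL(2, ℤ)) = bess_P N K := by
  ext z
  rw [bess_slash]
  unfold bess_P
  rw [← tsum_mul_right]
  have h : ∀ γ' : CongruenceSubgroup.Gamma0 N,
      (K ∣[(2 : ℤ)] (γ' : SL(2, ℤ))) ((γ : SL(2, ℤ)) • z) * bess_j (γ : SL(2, ℤ)) z ^ (-2 : ℤ) =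
      (fun γ'' : CongruenceSubgroup.Gamma0 N => (K ∣[(2 : ℤ)] (γ'' : SL(2, ℤ))) z)
        (Equiv.mulRight γ γ') := by
    intro γ'
    rw [← bess_slash, ← SlashAction.slash_mul]
    rfl
  simp_rw [h]
  exact (Equiv.mulRight γ).tsum_eq
    (fun γ'' : CongruenceSubgroup.Gamma0 N => (K ∣[(2 : ℤ)] (γ'' : SL(2, ℤ))) z)

/-- unfolding against an invariant function -/
theorem bess_fold {G K : ℍ → ℂ} (hG : ∀ γ : CongruenceSubgroup.Gamma0 N,
    G ∣[(2 : ℤ)] (γ : SL(2, ℤ)) = G) (hGm : Measurable G) (hK : Bd K)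
    (hi : Integrable (fun z : ℍ => G z * conj (K z) * ((z.im ^ 2 : ℝ) : ℂ))) :
    Integrable (fun z : ℍ => ((HKB_Q N z : ℝ) : ℂ) *
      (G z * conj (bess_P N K z) * ((z.im ^ 2 : ℝ) : ℂ))) ∧
    ∫ z : ℍ, ((HKB_Q N z : ℝ) : ℂ) * (G z * conj (bess_P N K z) * ((z.im ^ 2 : ℝ) : ℂ)) =
      ipH G K := by
  have hm : Measurable (fun z : ℍ => G z * conj (K z) * ((z.im ^ 2 : ℝ) : ℂ)) := by
    refine (hGm.mul ?_).mul ?_
    · exact Complex.continuous_conj.measurable.comp hK.1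
    · exact Complex.measurable_ofReal.comp
        (UpperHalfPlane.continuous_im.pow 2).measurable
  have h := bess_unf (N := N) hm hi
  have heq : ∀ z : ℍ, ∑' γ : CongruenceSubgroup.Gamma0 N,
      (fun z : ℍ => G z * conj (K z) * ((z.im ^ 2 : ℝ) : ℂ)) ((γ : SL(2, ℤ)) • z) =
      G z * conj (bess_P N K z) * ((z.im ^ 2 : ℝ) : ℂ) := by
    intro z
    have h1 : ∀ γ : CongruenceSubgroup.Gamma0 N,
        (fun z : ℍ => G z * conj (K z) * ((z.im ^ 2 : ℝ) : ℂ)) ((γ : SL(2, ℤ)) • z) =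
        G z * conj ((K ∣[(2 : ℤ)] (γ : SL(2, ℤ))) z) * ((z.im ^ 2 : ℝ) : ℂ) := by
      intro γ
      show G ((γ : SL(2, ℤ)) • z) * conj (K ((γ : SL(2, ℤ)) • z)) *
        ((((γ : SL(2, ℤ)) • z).im ^ 2 : ℝ) : ℂ) = _
      rw [← bess_key, hG γ]
    simp_rw [h1]
    rw [tsum_mul_right, tsum_mul_left]
    congr 2
    unfold bess_P
    exact (Complex.conj_tsum _).symm
  simp only [heq] at h
  exact h

omit [Fact N.Prime] in
theorem bess_PK {K : ℍ → ℂ} (hK : Bd K) :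
    Integrable (fun z : ℍ => bess_P N K z * conj (K z) * ((z.im ^ 2 : ℝ) : ℂ)) ∧
    ipH (bess_P N K) K = ∑' γ : CongruenceSubgroup.Gamma0 N,
      ipH (K ∣[(2 : ℤ)] (γ : SL(2, ℤ))) K := by
  classical
  obtain ⟨S, hS⟩ : ∃ S : Finset (CongruenceSubgroup.Gamma0 N), S = (bess_fin3 N hK hK).toFinset :=
    ⟨_, rfl⟩
  have hmem : ∀ (γ : CongruenceSubgroup.Gamma0 N) (z : ℍ), γ ∉ S → K z ≠ 0 →
      (K ∣[(2 : ℤ)] (γ : SL(2, ℤ))) z = 0 := by
    intro γ z hγ hz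
    by_contra hne
    apply hγ
    rw [hS, Set.Finite.mem_toFinset]
    exact ⟨z, hz, bess_slash_ne hne⟩
  have h1 : ∀ z : ℍ, bess_P N K z * conj (K z) * ((z.im ^ 2 : ℝ) : ℂ) =
      ∑ γ ∈ S, (K ∣[(2 : ℤ)] (γ : SL(2, ℤ))) z * conj (K z) * ((z.im ^ 2 : ℝ) : ℂ) := by
    intro z
    by_cases hz : K z = 0
    · simp [hz]
    · rw [← Finset.sum_mul, ← Finset.sum_mul]
      congr 2
      exact tsum_eq_sum fun γ hγ => hmem γ z hγ hz
  have hint : ∀ γ ∈ S, Integrable (fun z : ℍ =>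
      (K ∣[(2 : ℤ)] (γ : SL(2, ℤ))) z * conj (K z) * ((z.im ^ 2 : ℝ) : ℂ)) := fun γ _ =>
    bd_int (bess_bd_slash hK _) hK
  constructor
  · simp_rw [h1]
    exact integrable_finsetSum S hint
  · have h2 : ipH (bess_P N K) K = ∑ γ ∈ S, ipH (K ∣[(2 : ℤ)] (γ : SL(2, ℤ))) K := by
      unfold ipH
      simp_rw [h1]
      exact integral_finsetSum S hint
    rw [h2]
    symm
    apply tsum_eq_sum
    intro γ hγ
    unfold ipH
    have h3 : ∀ z : ℍ, (K ∣[(2 : ℤ)] (γ : SL(2, ℤ))) z * conj (K z) * ((z.im ^ 2 : ℝ) : ℂ) =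
        0 := by
      intro z
      by_cases hz : K z = 0
      · simp [hz]
      · rw [hmem γ z hγ hz]
        simp
    simp_rw [h3]
    simp

theorem bess_PP {K : ℍ → ℂ} (hK : Bd K) :
    Integrable (fun z : ℍ => HKB_Q N z * (‖bess_P N K z‖ * z.im) ^ 2) ∧
    ∫ z : ℍ, HKB_Q N z * (‖bess_P N K z‖ * z.im) ^ 2 = 2 * (PP N K K).re := by
  obtain ⟨hi, he⟩ := bess_PK (N := N) hK
  obtain ⟨h1, h2⟩ := bess_fold (N := N) (bess_P_inv K) (bess_P_meas hK) hK hi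
  have h3 : ∀ z : ℍ, ((HKB_Q N z : ℝ) : ℂ) *
      (bess_P N K z * conj (bess_P N K z) * ((z.im ^ 2 : ℝ) : ℂ)) =
      ((HKB_Q N z * (‖bess_P N K z‖ * z.im) ^ 2 : ℝ) : ℂ) := by
    intro z
    rw [Complex.mul_conj, Complex.normSq_eq_norm_sq]
    push_cast
    ring
  simp only [h3] at h1 h2
  constructor
  · refine h1.re.congr (ae_of_all _ fun z => ?_)
    exact Complex.ofReal_re _
  · rw [integral_complex_ofReal] at h2
    have h4 : ((∫ z : ℍ, HKB_Q N z * (‖bess_P N K z‖ * z.im) ^ 2 : ℝ) : ℂ) =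
        conj (2 * PP N K K) := by
      rw [h2, he]
      unfold PP
      have h5 : (2 : ℂ) * (1 / 2 * ∑' γ : CongruenceSubgroup.Gamma0 N,
          ipH K (K ∣[(2 : ℤ)] (γ : SL(2, ℤ)))) = ∑' γ : CongruenceSubgroup.Gamma0 N,
          ipH K (K ∣[(2 : ℤ)] (γ : SL(2, ℤ))) := by ring
      rw [h5, Complex.conj_tsum]
      congr 1
      ext γ
      exact bess_conj _ _
    have h6 := congrArg Complex.re h4
    rw [Complex.ofReal_re, Complex.conj_re] at h6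
    rw [h6]
    simp

theorem bess_gg (g : S2 N) :
    Integrable (fun z : ℍ => HKB_Q N z * (‖g z‖ * z.im) ^ 2) ∧
    2 * ∫ z : ℍ, HKB_Q N z * (‖g z‖ * z.im) ^ 2 = nr g := by
  have h0 : ∀ z : ℍ, petersson 2 g g z = (((‖g z‖ * z.im) ^ 2 : ℝ) : ℂ) := by
    intro z
    unfold petersson
    rw [mul_comm ((starRingEnd ℂ) (g z)), Complex.mul_conj, Complex.normSq_eq_norm_sq]
    push_cast
    rw [mul_pow]
    norm_cast
  obtain ⟨C, hC⟩ := HKB_pairbdd g g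
  constructor
  · refine (HKB_Q_int N).mul_bdd (c := C) ?_ (Eventually.of_forall fun z => ?_)
    · exact (((HKB_cont g).norm.mul UpperHalfPlane.continuous_im).pow 2).aestronglyMeasurable
    · have := hC z
      rw [h0, Complex.norm_real] at this
      exact this
  · unfold nr
    rw [HKB_pet]
    simp_rw [h0]
    have h1 : ∀ z : ℍ, ((HKB_Q N z : ℝ) : ℂ) * (((‖g z‖ * z.im) ^ 2 : ℝ) : ℂ) =
        ((HKB_Q N z * (‖g z‖ * z.im) ^ 2 : ℝ) : ℂ) := by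
      intro z
      push_cast
      ring
    simp_rw [h1]
    rw [integral_complex_ofReal]
    have h2 : ∀ r : ℝ, ((2 : ℂ) * (r : ℂ)).re = 2 * r := by
      intro r
      simp
    rw [h2]

theorem bessel_pr {N : ℕ} [Fact N.Prime] {K : ℍ → ℂ} (hK : Bd K) (g : S2 N) :
    ‖ipH g K‖ ^ 2 ≤ nr g * (PP N K K).re := by
  obtain ⟨hPi, hPe⟩ := bess_PP (N := N) hK
  obtain ⟨hgi, hge⟩ := bess_gg g
  have hginv : ∀ γ : CongruenceSubgroup.Gamma0 N, (⇑g) ∣[(2 : ℤ)] (γ : SL(2, ℤ)) = g := by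
    intro γ
    exact SlashInvariantFormClass.slash_action_eq g _
      (Subgroup.mem_map.2 ⟨(γ : SL(2, ℤ)), γ.2, rfl⟩)
  obtain ⟨-, h2⟩ := bess_fold (N := N) hginv (HKB_cont g).measurable hK (bd_int_form g hK)
  have ha : Measurable (fun z : ℍ => Real.sqrt (HKB_Q N z) * (‖g z‖ * z.im)) :=
    (HKB_Q_meas N).sqrt.mul ((HKB_cont g).norm.measurable.mul
      UpperHalfPlane.continuous_im.measurable)
  have hb : Measurable (fun z : ℍ => Real.sqrt (HKB_Q N z) * (‖bess_P N K z‖ * z.im)) :=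
    (HKB_Q_meas N).sqrt.mul ((bess_P_meas hK).norm.mul
      UpperHalfPlane.continuous_im.measurable)
  have hsq : ∀ (z : ℍ) (t : ℝ), (Real.sqrt (HKB_Q N z) * t) ^ 2 = HKB_Q N z * t ^ 2 := by
    intro z t
    rw [mul_pow, Real.sq_sqrt (HKB_Q_nonneg N z)]
  have ha2 : MemLp (fun z : ℍ => Real.sqrt (HKB_Q N z) * (‖g z‖ * z.im)) 2 := by
    rw [memLp_two_iff_integrable_sq ha.aestronglyMeasurable]
    simp_rw [hsq]
    exact hgi
  have hb2 : MemLp (fun z : ℍ => Real.sqrt (HKB_Q N z) * (‖bess_P N K z‖ * z.im)) 2 := by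
    rw [memLp_two_iff_integrable_sq hb.aestronglyMeasurable]
    simp_rw [hsq]
    exact hPi
  have hCS := integral_mul_le_Lp_mul_Lq_of_nonneg (μ := (volume : Measure ℍ))
    Real.HolderConjugate.two_two
    (f := fun z : ℍ => Real.sqrt (HKB_Q N z) * (‖g z‖ * z.im))
    (g := fun z : ℍ => Real.sqrt (HKB_Q N z) * (‖bess_P N K z‖ * z.im))
    (Eventually.of_forall fun z => mul_nonneg (Real.sqrt_nonneg _)
      (mul_nonneg (norm_nonneg _) z.im_pos.le))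
    (Eventually.of_forall fun z => mul_nonneg (Real.sqrt_nonneg _)
      (mul_nonneg (norm_nonneg _) z.im_pos.le))
    (by simpa using ha2) (by simpa using hb2)
  simp only [Real.rpow_two, hsq] at hCS
  have hA0 : 0 ≤ ∫ z : ℍ, HKB_Q N z * (‖g z‖ * z.im) ^ 2 :=
    integral_nonneg fun z => mul_nonneg (HKB_Q_nonneg N z) (by positivity)
  have hB0 : 0 ≤ ∫ z : ℍ, HKB_Q N z * (‖bess_P N K z‖ * z.im) ^ 2 :=
    integral_nonneg fun z => mul_nonneg (HKB_Q_nonneg N z) (by positivity)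
  have hn : ‖ipH g K‖ ≤ ∫ z : ℍ, Real.sqrt (HKB_Q N z) * (‖g z‖ * z.im) *
      (Real.sqrt (HKB_Q N z) * (‖bess_P N K z‖ * z.im)) := by
    rw [← h2]
    refine (norm_integral_le_integral_norm _).trans (le_of_eq ?_)
    congr 1
    ext z
    rw [norm_mul, norm_mul, norm_mul, Complex.norm_conj, Complex.norm_real, Complex.norm_real,
      Real.norm_of_nonneg (HKB_Q_nonneg N z), Real.norm_of_nonneg (by positivity)]
    have h5 : Real.sqrt (HKB_Q N z) * (‖g z‖ * z.im) *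
        (Real.sqrt (HKB_Q N z) * (‖bess_P N K z‖ * z.im)) =
        (Real.sqrt (HKB_Q N z) * Real.sqrt (HKB_Q N z)) *
          (‖g z‖ * ‖bess_P N K z‖ * z.im ^ 2) := by ring
    rw [h5, Real.mul_self_sqrt (HKB_Q_nonneg N z)]
  have h6 : ‖ipH g K‖ ^ 2 ≤ ((∫ z : ℍ, HKB_Q N z * (‖g z‖ * z.im) ^ 2) ^ (1 / 2 : ℝ) *
      (∫ z : ℍ, HKB_Q N z * (‖bess_P N K z‖ * z.im) ^ 2) ^ (1 / 2 : ℝ)) ^ 2 :=
    pow_le_pow_left₀ (norm_nonneg _) (hn.trans hCS) 2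
  rw [mul_pow, ← Real.sqrt_eq_rpow, ← Real.sqrt_eq_rpow, Real.sq_sqrt hA0, Real.sq_sqrt hB0,
    hPe] at h6
  refine h6.trans (le_of_eq ?_)
  rw [← hge]
  ring

theorem pp_nonneg_pr {N : ℕ} [Fact N.Prime] {K : ℍ → ℂ} (hK : Bd K) : 0 ≤ (PP N K K).re := by
  obtain ⟨hPi, hPe⟩ := bess_PP (N := N) hK
  have hB0 : 0 ≤ ∫ z : ℍ, HKB_Q N z * (‖bess_P N K z‖ * z.im) ^ 2 :=
    integral_nonneg fun z => mul_nonneg (HKB_Q_nonneg N z) (by positivity)
  rw [hPe] at hB0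
  linarith

omit [Fact N.Prime] in
theorem bess_zero {K L : ℍ → ℂ} {γ : SL(2, ℤ)} (h : ¬ ∃ z : ℍ, K z ≠ 0 ∧ L (γ • z) ≠ 0) :
    ipH K (L ∣[(2 : ℤ)] γ) = 0 := by
  unfold ipH
  have h3 : ∀ z : ℍ, K z * conj ((L ∣[(2 : ℤ)] γ) z) * ((z.im ^ 2 : ℝ) : ℂ) = 0 := by
    intro z
    by_cases hz : K z = 0
    · simp [hz]
    · have : (L ∣[(2 : ℤ)] γ) z = 0 := by
        by_contra hne
        exact h ⟨z, hz, bess_slash_ne hne⟩
      rw [this]
      simp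
  simp_rw [h3]
  simp

omit [Fact N.Prime] in
theorem bess_summable {K L : ℍ → ℂ} (hK : Bd K) (hL : Bd L) :
    Summable (fun γ : CongruenceSubgroup.Gamma0 N => ipH K (L ∣[(2 : ℤ)] (γ : SL(2, ℤ)))) := by
  apply summable_of_hasFiniteSupport
  refine (bess_fin3 N hK hL).subset ?_
  intro γ hγ
  by_contra hne
  exact hγ (bess_zero hne)

omit [Fact N.Prime] in
theorem bess_PP_symm (K L : ℍ → ℂ) : PP N K L = conj (PP N L K) := by
  unfold PP
  rw [map_mul, Complex.conj_tsum]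
  have h1 : conj (1 / 2 : ℂ) = 1 / 2 := by
    have : (1 / 2 : ℂ) = ((1 / 2 : ℝ) : ℂ) := by push_cast; ring
    rw [this, Complex.conj_ofReal]
  rw [h1]
  congr 1
  have h2 : ∀ γ : CongruenceSubgroup.Gamma0 N, ipH K (L ∣[(2 : ℤ)] (γ : SL(2, ℤ))) =
      (fun γ : CongruenceSubgroup.Gamma0 N => conj (ipH L (K ∣[(2 : ℤ)] (γ : SL(2, ℤ)))))
        (Equiv.inv _ γ) := by
    intro γ
    simp only [Equiv.inv_apply]
    rw [bess_inv', bess_conj]
    rfl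
  simp_rw [h2]
  exact (Equiv.inv (CongruenceSubgroup.Gamma0 N)).tsum_eq
    (fun γ : CongruenceSubgroup.Gamma0 N => conj (ipH L (K ∣[(2 : ℤ)] (γ : SL(2, ℤ)))))

theorem pp_expand_pr {N : ℕ} [Fact N.Prime] {K L : ℍ → ℂ} (hK : Bd K) (hL : Bd L) (τ : ℝ) :
    (PP N (fun z => K z + (τ : ℂ) * L z) (fun z => K z + (τ : ℂ) * L z)).re =
      (PP N K K).re + 2 * τ * (PP N L K).re + τ ^ 2 * (PP N L L).re := by
  have hip : ∀ γ : SL(2, ℤ), ipH (fun z => K z + (τ : ℂ) * L z)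
      ((fun z => K z + (τ : ℂ) * L z) ∣[(2 : ℤ)] γ) =
      ipH K (K ∣[(2 : ℤ)] γ) + (τ : ℂ) * ipH K (L ∣[(2 : ℤ)] γ) +
        (τ : ℂ) * ipH L (K ∣[(2 : ℤ)] γ) + (τ : ℂ) ^ 2 * ipH L (L ∣[(2 : ℤ)] γ) := by
    intro γ
    have i1 := bd_int hK (bess_bd_slash hK γ)
    have i2 := bd_int hK (bess_bd_slash hL γ)
    have i3 := bd_int hL (bess_bd_slash hK γ)
    have i4 := bd_int hL (bess_bd_slash hL γ)
    have j12 : Integrable (fun z : ℍ => K z * conj ((K ∣[(2 : ℤ)] γ) z) * ((z.im ^ 2 : ℝ) : ℂ) +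
        (τ : ℂ) * (K z * conj ((L ∣[(2 : ℤ)] γ) z) * ((z.im ^ 2 : ℝ) : ℂ))) :=
      i1.add (i2.const_mul _)
    have j123 : Integrable (fun z : ℍ => K z * conj ((K ∣[(2 : ℤ)] γ) z) * ((z.im ^ 2 : ℝ) : ℂ) +
        (τ : ℂ) * (K z * conj ((L ∣[(2 : ℤ)] γ) z) * ((z.im ^ 2 : ℝ) : ℂ)) +
        (τ : ℂ) * (L z * conj ((K ∣[(2 : ℤ)] γ) z) * ((z.im ^ 2 : ℝ) : ℂ))) :=
      j12.add (i3.const_mul _)
    unfold ipH
    rw [← integral_const_mul, ← integral_const_mul, ← integral_const_mul,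
      ← integral_add i1 (i2.const_mul _), ← integral_add j12
        (i3.const_mul _), ← integral_add j123 (i4.const_mul _)]
    congr 1
    ext z
    rw [bess_slash, bess_slash K, bess_slash L]
    rw [map_mul, map_mul, map_mul, map_add, map_mul, Complex.conj_ofReal]
    ring
  have s1 := bess_summable (N := N) hK hK
  have s2 := bess_summable (N := N) hK hL
  have s3 := bess_summable (N := N) hL hK
  have s4 := bess_summable (N := N) hL hL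
  have hPP : PP N (fun z => K z + (τ : ℂ) * L z) (fun z => K z + (τ : ℂ) * L z) =
      PP N K K + (τ : ℂ) * PP N K L + (τ : ℂ) * PP N L K + (τ : ℂ) ^ 2 * PP N L L := by
    unfold PP
    simp_rw [hip]
    rw [(((s1.add (s2.mul_left _)).add (s3.mul_left _)).tsum_add (s4.mul_left _)),
      ((s1.add (s2.mul_left _)).tsum_add (s3.mul_left _)), (s1.tsum_add (s2.mul_left _)),
      tsum_mul_left, tsum_mul_left, tsum_mul_left]
    ring
  have hc : (PP N K L).re = (PP N L K).re := by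
    rw [bess_PP_symm K L, Complex.conj_re]
  rw [hPP]
  have h1 : ((τ : ℂ) ^ 2) = ((τ ^ 2 : ℝ) : ℂ) := by push_cast; ring
  rw [h1, Complex.add_re, Complex.add_re, Complex.add_re, Complex.re_ofReal_mul,
    Complex.re_ofReal_mul, Complex.re_ofReal_mul, hc]
  ring

end unf

theorem bessel : type_of% @bessel_pr := @bessel_pr
theorem pp_nonneg : type_of% @pp_nonneg_pr := @pp_nonneg_pr
theorem pp_expand : type_of% @pp_expand_pr := @pp_expand_pr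

end Pool.Agent.LSP
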