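import Pool.Agent.Lib_helper41.LSP.DefsG

namespace Pool.Agent.LSP

open Pool.Agent.LEV Pool.Agent.LVB Pool.Agent.KSL
open Pool.Agent.FG61 (mu phi cc ff AA Lam)
open Complex MeasureTheory Filter Topology UpperHalfPlane ModularGroup ProbabilityTheory
open scoped MatrixGroups Modular ENNReal ModularForm ComplexConjugate ContDiff

/-- the number of `b < g m` in one class modulo `m` -/
theorem cnt_class {g m : ℕ} (hm : 1 ≤ m) (r : ℤ) :
    ((Finset.range (g * m)).filter (fun b : ℕ => (m : ℤ) ∣ ((b : ℤ) - r))).card = g := by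
  have hm0 : (0 : ℤ) < m := by exact_mod_cast hm
  obtain ⟨s, hs⟩ := Int.eq_ofNat_of_zero_le (Int.emod_nonneg r hm0.ne')
  have hsm : s < m := by
    have := Int.emod_lt_of_pos r hm0
    rw [hs] at this
    exact_mod_cast this
  have hiff : ∀ b : ℕ, (m : ℤ) ∣ ((b : ℤ) - r) ↔ b % m = s := by
    intro b
    rw [← Int.modEq_iff_dvd]
    unfold Int.ModEq
    rw [hs]
    constructor
    · intro h
      have : ((b % m : ℕ) : ℤ) = (s : ℤ) := by push_cast; exact h.symm
      exact_mod_cast this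
    · intro h
      rw [← h]
      push_cast
      rfl
  have : ((Finset.range (g * m)).filter (fun b : ℕ => (m : ℤ) ∣ ((b : ℤ) - r))).card =
      (Finset.range g).card := by
    refine Finset.card_nbij' (fun b => b / m) (fun k => k * m + s) ?_ ?_ ?_ ?_
    · intro b hb
      simp only [Finset.coe_filter, Finset.mem_range, Set.mem_ofPred_eq] at hb
      simp only [Finset.coe_range, Set.mem_Iio]
      exact Nat.div_lt_of_lt_mul (by rw [mul_comm]; exact hb.1)
    · intro k hk
      simp only [Finset.coe_range, Set.mem_Iio] at hk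
      simp only [Finset.coe_filter, Finset.mem_range, Set.mem_ofPred_eq]
      refine ⟨?_, ?_⟩
      · calc k * m + s < k * m + m := by omega
          _ = (k + 1) * m := by ring
          _ ≤ g * m := Nat.mul_le_mul_right m hk
      · rw [hiff, mul_comm, Nat.mul_add_mod, Nat.mod_eq_of_lt hsm]
    · intro b hb
      simp only [Finset.coe_filter, Finset.mem_range, Set.mem_ofPred_eq] at hb
      rw [hiff] at hb
      show b / m * m + s = b
      rw [← hb.2]
      exact Nat.div_add_mod' b m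
    · intro k hk
      show (k * m + s) / m = k
      rw [Nat.add_div_of_dvd_right (Dvd.intro_left k rfl), Nat.mul_div_cancel _ (by omega),
        Nat.div_eq_of_lt hsm, add_zero]
  rw [this, Finset.card_range]

/-- the number of solutions of two linear congruences -/
theorem cnt_two {a e' : ℕ} (ha : 1 ≤ a) {u v β δ : ℤ} (h : u * δ - β * v = (a : ℤ) * e') :
    ((Finset.range a).filter (fun b : ℕ => (a : ℤ) ∣ (β - u * b) ∧ (a : ℤ) ∣ (δ - v * b))).card =
      if ((Nat.gcd a (Nat.gcd u.natAbs v.natAbs) : ℕ) : ℤ) ∣ β ∧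
        ((Nat.gcd a (Nat.gcd u.natAbs v.natAbs) : ℕ) : ℤ) ∣ δ ∧
        Nat.gcd a (Nat.gcd u.natAbs v.natAbs) ∣ e' then
        Nat.gcd a (Nat.gcd u.natAbs v.natAbs) else 0 := by
  have ha0 : (a : ℤ) ≠ 0 := by exact_mod_cast (by omega : a ≠ 0)
  set g : ℕ := Nat.gcd a (Nat.gcd u.natAbs v.natAbs) with hg
  have hga : (g : ℤ) ∣ (a : ℤ) := by exact_mod_cast Nat.gcd_dvd_left _ _
  have hgu : (g : ℤ) ∣ u := by
    rw [Int.natCast_dvd]
    exact (Nat.gcd_dvd_right _ _).trans (Nat.gcd_dvd_left _ _)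
  have hgv : (g : ℤ) ∣ v := by
    rw [Int.natCast_dvd]
    exact (Nat.gcd_dvd_right _ _).trans (Nat.gcd_dvd_right _ _)
  have hgpos : 0 < g := Nat.gcd_pos_of_pos_left _ (by omega)
  have hg0 : (g : ℤ) ≠ 0 := by exact_mod_cast hgpos.ne'
  split_ifs with hc
  · obtain ⟨hβ, hδ, he'⟩ := hc
    obtain ⟨m, hm⟩ : g ∣ a := by exact_mod_cast hga
    obtain ⟨u', hu'⟩ := hgu
    obtain ⟨v', hv'⟩ := hgv
    obtain ⟨β', hβ'⟩ := hβ
    obtain ⟨δ', hδ'⟩ := hδ
    obtain ⟨f, hf⟩ := he'
    have hm1 : 1 ≤ m := by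
      rcases Nat.eq_zero_or_pos m with h0 | h0
      · rw [h0] at hm; omega
      · exact h0
    -- the determinant
    have hdet : u' * δ' - β' * v' = (m : ℤ) * f := by
      have h1 : (g : ℤ) * g * (u' * δ' - β' * v') = (g : ℤ) * g * ((m : ℤ) * f) := by
        have h2 : (a : ℤ) = g * m := by rw [hm]; push_cast; ring
        have h3 : (e' : ℤ) = g * f := by rw [hf]; push_cast; ring
        rw [hu', hv', hβ', hδ', h2, h3] at h
        linear_combination h
      exact mul_left_cancel₀ (mul_ne_zero hg0 hg0) h1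
    -- Bezout
    have hbez : ∃ x y w : ℤ, x * u' + y * v' + w * m = 1 := by
      have h1 : (Nat.gcd m (Nat.gcd u'.natAbs v'.natAbs)) = 1 := by
        have h2 : g = g * Nat.gcd m (Nat.gcd u'.natAbs v'.natAbs) := by
          conv_lhs => rw [hg]
          rw [hm, hu', hv', Int.natAbs_mul, Int.natAbs_mul, Int.natAbs_natCast, Nat.gcd_mul_left,
            Nat.gcd_mul_left]
        have h3 : g * Nat.gcd m (Nat.gcd u'.natAbs v'.natAbs) = g * 1 := by rw [← h2, mul_one]
        exact Nat.eq_of_mul_eq_mul_left hgpos h3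
      have h4 : Int.gcd (m : ℤ) (Int.gcd u' v' : ℤ) = 1 := by
        rw [Int.gcd_eq_natAbs, Int.natAbs_natCast, Int.natAbs_natCast, Int.gcd_eq_natAbs]
        exact h1
      have h5 := Int.gcd_eq_gcd_ab (m : ℤ) (Int.gcd u' v' : ℤ)
      rw [h4] at h5
      have h6 := Int.gcd_eq_gcd_ab u' v'
      refine ⟨Int.gcdA u' v' * Int.gcdB (m : ℤ) (Int.gcd u' v' : ℤ),
        Int.gcdB u' v' * Int.gcdB (m : ℤ) (Int.gcd u' v' : ℤ),
        Int.gcdA (m : ℤ) (Int.gcd u' v' : ℤ), ?_⟩
      push_cast at h5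
      rw [h5]
      generalize Int.gcdB (m : ℤ) (Int.gcd u' v' : ℤ) = B
      generalize Int.gcdA (m : ℤ) (Int.gcd u' v' : ℤ) = A
      rw [h6]
      ring
    obtain ⟨x, y, w, hxyw⟩ := hbez
    have hset : (Finset.range a).filter
        (fun b : ℕ => (a : ℤ) ∣ (β - u * b) ∧ (a : ℤ) ∣ (δ - v * b)) =
        (Finset.range (g * m)).filter (fun b : ℕ => (m : ℤ) ∣ ((b : ℤ) - (x * β' + y * δ'))) := by
      rw [← hm]
      refine Finset.filter_congr (fun b _ => ?_)
      have e1 : (a : ℤ) ∣ (β - u * b) ↔ (m : ℤ) ∣ (β' - u' * b) := by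
        rw [hβ', hu', hm]
        push_cast
        rw [show (g : ℤ) * β' - g * u' * b = g * (β' - u' * b) by ring]
        exact mul_dvd_mul_iff_left hg0
      have e2 : (a : ℤ) ∣ (δ - v * b) ↔ (m : ℤ) ∣ (δ' - v' * b) := by
        rw [hδ', hv', hm]
        push_cast
        rw [show (g : ℤ) * δ' - g * v' * b = g * (δ' - v' * b) by ring]
        exact mul_dvd_mul_iff_left hg0
      rw [e1, e2]
      constructor
      · rintro ⟨h1, h2⟩
        obtain ⟨p, hp⟩ := h1
        obtain ⟨q, hq⟩ := h2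
        refine ⟨w * b - x * p - y * q, ?_⟩
        have hp' : β' = u' * b + m * p := by linear_combination hp
        have hq' : δ' = v' * b + m * q := by linear_combination hq
        rw [hp', hq']
        linear_combination (-(b : ℤ)) * hxyw
      · rintro ⟨p, hp⟩
        have hb : (b : ℤ) = x * β' + y * δ' + m * p := by linear_combination hp
        constructor
        · refine ⟨β' * w - y * f - u' * p, ?_⟩
          rw [hb]
          linear_combination (-β') * hxyw + (-y) * hdet
        · refine ⟨δ' * w + x * f - v' * p, ?_⟩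
          rw [hb]
          linear_combination (-δ') * hxyw + x * hdet
    rw [hset]
    exact cnt_class hm1 _
  · rw [Finset.card_eq_zero, Finset.filter_eq_empty_iff]
    intro b _ hb
    apply hc
    obtain ⟨⟨s, hs⟩, ⟨t, ht⟩⟩ := hb
    have hβ : β = u * b + a * s := by linear_combination hs
    have hδ : δ = v * b + a * t := by linear_combination ht
    refine ⟨?_, ?_, ?_⟩
    · rw [hβ]
      exact dvd_add (hgu.mul_right _) (hga.mul_right _)
    · rw [hδ]
      exact dvd_add (hgv.mul_right _) (hga.mul_right _)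
    · have h1 : (e' : ℤ) = u * t - s * v := by
        have h2 : (a : ℤ) * e' = a * (u * t - s * v) := by
          rw [← h, hβ, hδ]; ring
        exact mul_left_cancel₀ ha0 h2
      have h3 : (g : ℤ) ∣ (e' : ℤ) := by
        rw [h1]
        exact dvd_sub (hgu.mul_right _) (hgv.mul_left _)
      exact_mod_cast h3

theorem count_coset_pr {e e' : ℕ} (he : 1 ≤ e) (he' : 1 ≤ e') {C : M2}
    (hC : C.det = ((e * e' : ℕ) : ℤ)) :
    (((HM e).filter (fun t => ∀ i k, (e : ℤ) ∣ (C * UT t) i k)).card) =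
      ∑ d ∈ (Nat.gcd e (Nat.gcd e' (cont C))).divisors, d := by
  set α := C 0 0 with hα
  set β := C 0 1 with hβ
  set γ := C 1 0 with hγ
  set δ := C 1 1 with hδ
  have hdet : α * δ - β * γ = (e : ℤ) * e' := by
    rw [Matrix.det_fin_two] at hC
    push_cast at hC
    exact hC
  have hcond : ∀ t : ℕ × ℕ × ℕ, (∀ i k, (e : ℤ) ∣ (C * UT t) i k) ↔
      ((e : ℤ) ∣ α * t.1 ∧ (e : ℤ) ∣ -α * t.2.1 + β * t.2.2) ∧
      ((e : ℤ) ∣ γ * t.1 ∧ (e : ℤ) ∣ -γ * t.2.1 + δ * t.2.2) := by
    intro t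
    rw [Fin.forall_fin_two, Fin.forall_fin_two, Fin.forall_fin_two]
    simp only [Matrix.mul_apply, Fin.sum_univ_two, UT, Matrix.of_apply, Matrix.cons_val',
      Matrix.cons_val_zero, Matrix.cons_val_one, Matrix.cons_val_fin_one, mul_zero, add_zero]
    rw [← hα, ← hβ, ← hγ, ← hδ, mul_neg, mul_neg, neg_mul, neg_mul]
  set G : ℕ := Nat.gcd e (Nat.gcd α.natAbs γ.natAbs) with hG
  have hG1 : 0 < G := Nat.gcd_pos_of_pos_left _ (by omega)
  -- fibres
  have hfib : ((HM e).filter (fun t => ∀ i k, (e : ℤ) ∣ (C * UT t) i k)).card =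
      ∑ d ∈ e.divisors, (((HM e).filter (fun t => ∀ i k, (e : ℤ) ∣ (C * UT t) i k)).filter
        (fun t => t.2.2 = d)).card := by
    refine Finset.card_eq_sum_card_fiberwise ?_
    intro t ht
    simp only [Finset.coe_filter, HM, Finset.mem_filter, Finset.mem_product, Set.mem_ofPred_eq] at ht
    simp only [Finset.mem_coe, Nat.mem_divisors]
    exact ⟨Dvd.intro_left _ ht.1.2.1, by omega⟩
  rw [hfib]
  have hterm : ∀ d ∈ e.divisors, (((HM e).filter
      (fun t => ∀ i k, (e : ℤ) ∣ (C * UT t) i k)).filter (fun t => t.2.2 = d)).card =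
      if d ∣ G then (if ((G / d : ℕ) : ℤ) ∣ β ∧ ((G / d : ℕ) : ℤ) ∣ δ ∧ (G / d) ∣ e' then G / d
        else 0) else 0 := by
    intro d hd
    rw [Nat.mem_divisors] at hd
    obtain ⟨⟨a, ha⟩, he0⟩ := hd
    have hd1 : 1 ≤ d := by
      rcases Nat.eq_zero_or_pos d with h0 | h0
      · rw [h0] at ha; omega
      · exact h0
    have ha1 : 1 ≤ a := by
      rcases Nat.eq_zero_or_pos a with h0 | h0
      · rw [h0] at ha; omega
      · exact h0
    have hd0 : (d : ℤ) ≠ 0 := by exact_mod_cast (by omega : d ≠ 0)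
    have ha0 : (a : ℤ) ≠ 0 := by exact_mod_cast (by omega : a ≠ 0)
    have hae : (e : ℤ) = d * a := by rw [ha]; push_cast; ring
    by_cases h1 : d ∣ G
    · rw [if_pos h1]
      have hdα : (d : ℤ) ∣ α := by
        rw [Int.natCast_dvd]
        exact h1.trans ((Nat.gcd_dvd_right _ _).trans (Nat.gcd_dvd_left _ _))
      have hdγ : (d : ℤ) ∣ γ := by
        rw [Int.natCast_dvd]
        exact h1.trans ((Nat.gcd_dvd_right _ _).trans (Nat.gcd_dvd_right _ _))
      obtain ⟨u, hu⟩ := hdα
      obtain ⟨v, hv⟩ := hdγ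
      have hGd : G / d = Nat.gcd a (Nat.gcd u.natAbs v.natAbs) := by
        apply Nat.div_eq_of_eq_mul_right hd1
        rw [hG, ha, hu, hv, Int.natAbs_mul, Int.natAbs_mul, Int.natAbs_natCast, Nat.gcd_mul_left,
          Nat.gcd_mul_left]
      have huv : u * δ - β * v = (a : ℤ) * e' := by
        have : (d : ℤ) * (u * δ - β * v) = d * ((a : ℤ) * e') := by
          rw [hu, hv, hae] at hdet
          linear_combination hdet
        exact mul_left_cancel₀ hd0 this
      rw [hGd, ← cnt_two ha1 huv]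
      refine Finset.card_nbij' (fun t => t.2.1) (fun b => (a, b, d)) ?_ ?_ ?_ ?_
      · intro t ht
        simp only [Finset.coe_filter, HM, Finset.mem_filter, Finset.mem_product,
          Set.mem_ofPred_eq, hcond] at ht
        obtain ⟨⟨⟨_, h3, h4⟩, ⟨_, h5⟩, ⟨_, h6⟩⟩, h7⟩ := ht
        rw [h7] at h3 h5 h6
        have h8 : t.1 = a := by
          apply Nat.eq_of_mul_eq_mul_right hd1
          rw [h3, ha, mul_comm]
        rw [h8] at h4
        simp only [Finset.coe_filter, Finset.mem_range, Set.mem_ofPred_eq]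
        refine ⟨h4, ?_, ?_⟩
        · have h9 : (d : ℤ) * a ∣ d * (β - u * t.2.1) := by
            rw [← hae]
            convert h5 using 1
            rw [hu]; ring
          exact (mul_dvd_mul_iff_left hd0).1 h9
        · have h9 : (d : ℤ) * a ∣ d * (δ - v * t.2.1) := by
            rw [← hae]
            convert h6 using 1
            rw [hv]; ring
          exact (mul_dvd_mul_iff_left hd0).1 h9
      · intro b hb
        simp only [Finset.coe_filter, Finset.mem_range, Set.mem_ofPred_eq] at hb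
        obtain ⟨hb1, hb2, hb3⟩ := hb
        simp only [Finset.coe_filter, HM, Finset.mem_filter, Finset.mem_product, Finset.mem_range,
          Set.mem_ofPred_eq, hcond]
        have hade : a * d = e := by rw [ha, mul_comm]
        have hale : a ≤ e := by rw [← hade]; exact Nat.le_mul_of_pos_right a hd1
        have hdle : d ≤ e := by rw [← hade]; exact Nat.le_mul_of_pos_left d ha1
        refine ⟨⟨⟨⟨by omega, by omega, by omega⟩, hade, hb1⟩, ⟨?_, ?_⟩, ⟨?_, ?_⟩⟩, trivial⟩
        · rw [hae, hu]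
          exact ⟨u, by ring⟩
        · rw [hae, hu]
          refine (mul_dvd_mul_left (d : ℤ) hb2).trans (dvd_of_eq ?_)
          show (d : ℤ) * (β - u * b) = -(d * u) * b + β * d
          ring
        · rw [hae, hv]
          exact ⟨v, by ring⟩
        · rw [hae, hv]
          refine (mul_dvd_mul_left (d : ℤ) hb3).trans (dvd_of_eq ?_)
          show (d : ℤ) * (δ - v * b) = -(d * v) * b + δ * d
          ring
      · intro t ht
        simp only [Finset.coe_filter, HM, Finset.mem_filter, Finset.mem_product,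
          Set.mem_ofPred_eq, hcond] at ht
        obtain ⟨⟨⟨_, h3, h4⟩, _⟩, h7⟩ := ht
        rw [h7] at h3
        have h8 : t.1 = a := by
          apply Nat.eq_of_mul_eq_mul_right hd1
          rw [h3, ha, mul_comm]
        show (a, t.2.1, d) = t
        rw [← h8, ← h7]
      · intro b _
        rfl
    · rw [if_neg h1, Finset.card_eq_zero, Finset.filter_eq_empty_iff]
      intro t ht h7
      simp only [HM, Finset.mem_filter, Finset.mem_product, hcond] at ht
      obtain ⟨⟨_, h3, h4⟩, ⟨h5, _⟩, ⟨h6, _⟩⟩ := ht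
      rw [h7] at h3
      have h8 : t.1 = a := by
        apply Nat.eq_of_mul_eq_mul_right hd1
        rw [h3, ha, mul_comm]
      rw [h8, hae] at h5 h6
      apply h1
      rw [hG]
      refine Nat.dvd_gcd ⟨a, ha⟩ (Nat.dvd_gcd ?_ ?_)
      · rw [← Int.natCast_dvd]
        exact (mul_dvd_mul_iff_right ha0).1 h5
      · rw [← Int.natCast_dvd]
        exact (mul_dvd_mul_iff_right ha0).1 h6
  rw [Finset.sum_congr rfl hterm]
  have hsub : G.divisors ⊆ e.divisors := Nat.divisors_subset_of_dvd (by omega)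
    (Nat.gcd_dvd_left _ _)
  rw [← Finset.sum_subset hsub (by
    intro d hd1 hd2
    rw [if_neg]
    intro h
    exact hd2 (Nat.mem_divisors.2 ⟨h, by omega⟩))]
  rw [Finset.sum_congr rfl (fun d hd => if_pos (Nat.mem_divisors.1 hd).1)]
  rw [Nat.sum_div_divisors G (fun g => if ((g : ℕ) : ℤ) ∣ β ∧ ((g : ℕ) : ℤ) ∣ δ ∧ g ∣ e' then g
    else 0)]
  rw [← Finset.sum_filter]
  apply Finset.sum_congr _ (fun _ _ => rfl)
  ext g
  simp only [Finset.mem_filter, Nat.mem_divisors]
  rw [Int.natCast_dvd, Int.natCast_dvd]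
  constructor
  · rintro ⟨⟨h1, _⟩, h2, h3, h4⟩
    have h5 : g ∣ e := h1.trans (Nat.gcd_dvd_left _ _)
    have h6 : g ∣ α.natAbs := h1.trans ((Nat.gcd_dvd_right _ _).trans (Nat.gcd_dvd_left _ _))
    have h7 : g ∣ γ.natAbs := h1.trans ((Nat.gcd_dvd_right _ _).trans (Nat.gcd_dvd_right _ _))
    refine ⟨Nat.dvd_gcd h5 (Nat.dvd_gcd h4 ?_), ?_⟩
    · unfold cont
      exact Nat.dvd_gcd (Nat.dvd_gcd h6 h2) (Nat.dvd_gcd h7 h3)
    · exact (Nat.gcd_pos_of_pos_left _ (by omega)).ne'
  · rintro ⟨h1, _⟩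
    have h5 : g ∣ e := h1.trans (Nat.gcd_dvd_left _ _)
    have h4 : g ∣ e' := h1.trans ((Nat.gcd_dvd_right _ _).trans (Nat.gcd_dvd_left _ _))
    have hc : g ∣ cont C := h1.trans ((Nat.gcd_dvd_right _ _).trans (Nat.gcd_dvd_right _ _))
    unfold cont at hc
    have h6 : g ∣ α.natAbs := hc.trans ((Nat.gcd_dvd_left _ _).trans (Nat.gcd_dvd_left _ _))
    have h2 : g ∣ β.natAbs := hc.trans ((Nat.gcd_dvd_left _ _).trans (Nat.gcd_dvd_right _ _))
    have h7 : g ∣ γ.natAbs := hc.trans ((Nat.gcd_dvd_right _ _).trans (Nat.gcd_dvd_left _ _))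
    have h3 : g ∣ δ.natAbs := hc.trans ((Nat.gcd_dvd_right _ _).trans (Nat.gcd_dvd_right _ _))
    exact ⟨⟨Nat.dvd_gcd h5 (Nat.dvd_gcd h6 h7), hG1.ne'⟩, h2, h3, h4⟩

theorem count_coset : type_of% @count_coset_pr := @count_coset_pr

end Pool.Agent.LSP
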