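import Pool.Agent.Lib_helper41.LSP.DefsG

/-! LSP, part G, block CNV. -/

namespace Pool.Agent.LSP

open Pool.Agent.LEV Pool.Agent.LVB Pool.Agent.KSL
open Pool.Agent.FG61 (mu phi cc ff AA Lam)
open Complex MeasureTheory Filter Topology UpperHalfPlane ModularGroup ProbabilityTheory
open scoped MatrixGroups Modular ENNReal ModularForm ComplexConjugate ContDiff

theorem cnv_dvd_cont {d : ℕ} {C : M2} : d ∣ cont C ↔ ∃ C' : M2, C = (d : ℤ) • C' := by
  unfold cont
  rw [Nat.dvd_gcd_iff, Nat.dvd_gcd_iff, Nat.dvd_gcd_iff]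
  constructor
  · rintro ⟨⟨h00, h01⟩, h10, h11⟩
    have h00' := Int.natCast_dvd.mpr h00
    have h01' := Int.natCast_dvd.mpr h01
    have h10' := Int.natCast_dvd.mpr h10
    have h11' := Int.natCast_dvd.mpr h11
    obtain ⟨a, ha⟩ := h00'
    obtain ⟨b, hb⟩ := h01'
    obtain ⟨c, hc⟩ := h10'
    obtain ⟨e, he⟩ := h11'
    refine ⟨!![a, b; c, e], ?_⟩
    ext i k
    fin_cases i <;> fin_cases k <;> simp [ha, hb, hc, he]
  · rintro ⟨C', rfl⟩
    refine ⟨⟨?_, ?_⟩, ?_, ?_⟩ <;>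
    · rw [← Int.natCast_dvd]
      simp

theorem cnv_tsum {N d a b : ℕ} (hN : N.Prime) (hd : 1 ≤ d) (hdN : d < N) (h : M2 → ℂ)
    (hj : ∀ (j : ℕ) (C : M2), 1 ≤ j → h ((j : ℤ) • C) = h C) :
    ∑' C : DN N (d * a * (d * b)), (if d ∣ cont (C : M2) then h C else 0) =
      ∑' C : DN N (a * b), h C := by
  have hd0 : (d : ℤ) ≠ 0 := by exact_mod_cast (by omega : d ≠ 0)
  have hmem : ∀ C' : M2, C' ∈ DN N (a * b) ↔ (d : ℤ) • C' ∈ DN N (d * a * (d * b)) := by
    intro C'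
    unfold DN
    simp only [Set.mem_setOf_eq, Matrix.smul_apply, smul_eq_mul, Matrix.det_smul, Fintype.card_fin]
    have h1 : (N : ℤ) ∣ d * C' 1 0 ↔ (N : ℤ) ∣ C' 1 0 := by
      constructor
      · intro hh
        rcases (Nat.prime_iff_prime_int.mp hN).dvd_or_dvd hh with h2 | h2
        · exfalso
          have h3 : N ∣ d := by exact_mod_cast h2
          exact absurd (Nat.le_of_dvd (by omega) h3) (by omega)
        · exact h2
      · intro hh
        exact Dvd.dvd.mul_left hh _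
    have h2 : (d : ℤ) ^ 2 * C'.det = ((d * a * (d * b) : ℕ) : ℤ) ↔
        C'.det = ((a * b : ℕ) : ℤ) := by
      constructor
      · intro hh
        have h3 : (d : ℤ) ^ 2 * C'.det = (d : ℤ) ^ 2 * ((a * b : ℕ) : ℤ) := by
          rw [hh]; push_cast; ring
        exact mul_left_cancel₀ (pow_ne_zero 2 hd0) h3
      · intro hh
        rw [hh]; push_cast; ring
    rw [h1, h2]
  let φ : DN N (a * b) → DN N (d * a * (d * b)) := fun C' => ⟨(d : ℤ) • (C' : M2), (hmem _).mp C'.2⟩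
  have hφ : Function.Injective φ := by
    intro C₁ C₂ h12
    have h3 : (d : ℤ) • (C₁ : M2) = (d : ℤ) • (C₂ : M2) := congrArg Subtype.val h12
    apply Subtype.ext
    ext i k
    have h4 := congrFun (congrFun h3 i) k
    simp only [Matrix.smul_apply, smul_eq_mul] at h4
    exact mul_left_cancel₀ hd0 h4
  have hsup : Function.support (fun C : DN N (d * a * (d * b)) =>
      if d ∣ cont (C : M2) then h C else 0) ⊆ Set.range φ := by
    intro C hC
    simp only [Function.mem_support, ne_eq, ite_eq_right_iff, Classical.not_imp] at hC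
    obtain ⟨C', hC'⟩ := cnv_dvd_cont.mp hC.1
    refine ⟨⟨C', (hmem C').mpr ?_⟩, ?_⟩
    · rw [← hC']; exact C.2
    · apply Subtype.ext
      exact hC'.symm
  rw [← hφ.tsum_eq hsup]
  refine tsum_congr fun C' => ?_
  have h5 : d ∣ cont ((φ C' : DN N (d * a * (d * b))) : M2) := cnv_dvd_cont.mpr ⟨C', rfl⟩
  rw [if_pos h5]
  exact hj d C' hd

theorem cnv_divisors {e e' c : ℕ} (he : 1 ≤ e) (z : ℂ) :
    ((∑ d ∈ (Nat.gcd e (Nat.gcd e' c)).divisors, d : ℕ) : ℂ) * z =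
      ∑ d ∈ (Nat.gcd e e').divisors, (d : ℂ) * (if d ∣ c then z else 0) := by
  have h1 : (Nat.gcd e (Nat.gcd e' c)).divisors = (Nat.gcd e e').divisors.filter (· ∣ c) := by
    ext d
    have h0 : Nat.gcd e (Nat.gcd e' c) ≠ 0 := (Nat.gcd_pos_of_pos_left _ (by omega)).ne'
    have h0' : Nat.gcd e e' ≠ 0 := (Nat.gcd_pos_of_pos_left _ (by omega)).ne'
    simp only [Nat.mem_divisors, Finset.mem_filter, Nat.dvd_gcd_iff]
    tauto
  rw [h1, Nat.cast_sum, Finset.sum_mul, Finset.sum_filter]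
  refine Finset.sum_congr rfl fun d _ => ?_
  split_ifs <;> simp

theorem cnv_inner {N E : ℕ} (hN : N.Prime) (hE : E < N) (h : M2 → ℂ)
    (hj : ∀ (j : ℕ) (C : M2), 1 ≤ j → h ((j : ℤ) • C) = h C)
    (hs : ∀ n : ℕ, 1 ≤ n → n ≤ E ^ 2 → (Function.support h ∩ DN N n).Finite)
    {e e' : ℕ} (he : e ∈ Finset.Icc 1 E) (he' : e' ∈ Finset.Icc 1 E) :
    ∑' C : DN N (e * e'),
      ((∑ d ∈ (Nat.gcd e (Nat.gcd e' (cont C))).divisors, d : ℕ) : ℂ) * h C =
    ∑ d ∈ (Nat.gcd e e').divisors, (d : ℂ) * ∑' C : DN N (e / d * (e' / d)), h C := by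
  rw [Finset.mem_Icc] at he he'
  have h1 : ∀ C : DN N (e * e'),
      ((∑ d ∈ (Nat.gcd e (Nat.gcd e' (cont (C : M2)))).divisors, d : ℕ) : ℂ) * h C =
      ∑ d ∈ (Nat.gcd e e').divisors, (d : ℂ) * (if d ∣ cont (C : M2) then h C else 0) :=
    fun C => cnv_divisors he.1 _
  rw [tsum_congr h1]
  have hfin : (Function.support h ∩ DN N (e * e')).Finite := by
    apply hs
    · exact Nat.mul_pos he.1 he'.1
    · rw [pow_two]; exact Nat.mul_le_mul he.2 he'.2
  have hsum : ∀ d ∈ (Nat.gcd e e').divisors, Summable (fun C : DN N (e * e') =>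
      (d : ℂ) * (if d ∣ cont (C : M2) then h C else 0)) := by
    intro d _
    apply summable_of_finite_support
    apply Set.Finite.subset (hfin.preimage (f := (Subtype.val : DN N (e * e') → M2))
      Subtype.val_injective.injOn)
    intro C hC
    simp only [Function.mem_support, ne_eq, mul_eq_zero, Nat.cast_eq_zero, ite_eq_right_iff,
      not_or, Classical.not_imp] at hC
    exact ⟨hC.2.2, C.2⟩
  rw [Summable.tsum_finsetSum hsum]
  refine Finset.sum_congr rfl fun d hd => ?_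
  rw [tsum_mul_left]
  congr 1
  have hdg := Nat.dvd_of_mem_divisors hd
  have hde : d ∣ e := hdg.trans (Nat.gcd_dvd_left _ _)
  have hde' : d ∣ e' := hdg.trans (Nat.gcd_dvd_right _ _)
  obtain ⟨a, rfl⟩ := hde
  obtain ⟨b, rfl⟩ := hde'
  have hd1 : 1 ≤ d := Nat.pos_of_mem_divisors hd
  have ha1 : 1 ≤ a := by
    rcases Nat.eq_zero_or_pos a with h0 | h0
    · subst h0; omega
    · exact h0
  have hdN : d < N := by
    have : d ≤ d * a := Nat.le_mul_of_pos_right d ha1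
    omega
  rw [Nat.mul_div_cancel_left _ (by omega : 0 < d), Nat.mul_div_cancel_left _ (by omega : 0 < d)]
  exact cnv_tsum hN hd1 hdN h hj

/-- multiples of `d` -/
theorem cnv_mult {E d : ℕ} (hd : 1 ≤ d) (G : ℕ → ℂ) (hG : ∀ e, E < e → G e = 0) :
    ∑ e ∈ (Finset.Icc 1 E).filter (fun e => d ∣ e), G e = ∑ a ∈ Finset.Icc 1 E, G (d * a) := by
  have h1 : ∑ a ∈ Finset.Icc 1 E, G (d * a) =
      ∑ a ∈ (Finset.Icc 1 E).filter (fun a => d * a ≤ E), G (d * a) := by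
    rw [Finset.sum_filter]
    refine Finset.sum_congr rfl fun a _ => ?_
    split_ifs with h2
    · rfl
    · exact hG _ (by omega)
  rw [h1]
  symm
  refine Finset.sum_nbij (fun a => d * a) ?_ ?_ ?_ ?_
  · intro a ha
    simp only [Finset.mem_filter, Finset.mem_Icc] at ha ⊢
    exact ⟨⟨Nat.mul_pos hd ha.1.1, ha.2⟩, Dvd.intro _ rfl⟩
  · intro a _ b _ hab
    exact Nat.eq_of_mul_eq_mul_left (by omega : 0 < d) hab
  · intro e he
    simp only [Finset.coe_filter, Finset.mem_Icc, Set.mem_setOf_eq] at he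
    obtain ⟨a, rfl⟩ := he.2
    have ha1 : 1 ≤ a := by
      rcases Nat.eq_zero_or_pos a with h0 | h0
      · subst h0; omega
      · exact h0
    refine ⟨a, ?_, rfl⟩
    simp only [Finset.coe_filter, Finset.mem_Icc, Set.mem_setOf_eq]
    refine ⟨⟨ha1, ?_⟩, he.1.2⟩
    exact le_trans (Nat.le_mul_of_pos_left a (by omega)) he.1.2
  · intro a _
    rfl

theorem conv_sum_pr {N E : ℕ} (hN : N.Prime) (hE : E < N) {x : ℕ → ℝ}
    (hx : ∀ e, x e ≠ 0 → 1 ≤ e ∧ e ≤ E) (h : M2 → ℂ)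
    (hj : ∀ (j : ℕ) (C : M2), 1 ≤ j → h ((j : ℤ) • C) = h C)
    (hs : ∀ n : ℕ, 1 ≤ n → n ≤ E ^ 2 → (Function.support h ∩ DN N n).Finite) :
    ∑ e ∈ Finset.Icc 1 E, ∑ e' ∈ Finset.Icc 1 E, ((x e / e * (x e' / e') : ℝ) : ℂ) *
        ∑' C : DN N (e * e'),
          ((∑ d ∈ (Nat.gcd e (Nat.gcd e' (cont C))).divisors, d : ℕ) : ℂ) * h C =
      ∑ n ∈ Finset.Icc 1 (E ^ 2), (CC E x n : ℂ) * ∑' C : DN N n, h C := by
  have hx0 : ∀ e, E < e → x e = 0 := by
    intro e he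
    by_contra h0
    have := (hx e h0).2
    omega
  set T : ℕ → ℂ := fun n => ∑' C : DN N n, h C with hT
  -- left side
  have hL : ∑ e ∈ Finset.Icc 1 E, ∑ e' ∈ Finset.Icc 1 E, ((x e / e * (x e' / e') : ℝ) : ℂ) *
        ∑' C : DN N (e * e'),
          ((∑ d ∈ (Nat.gcd e (Nat.gcd e' (cont C))).divisors, d : ℕ) : ℂ) * h C =
      ∑ j ∈ Finset.Icc 1 E, ∑ a ∈ Finset.Icc 1 E, ∑ b ∈ Finset.Icc 1 E,
        ((x (j * a) / ((j * a : ℕ) : ℝ) * (x (j * b) / ((j * b : ℕ) : ℝ)) : ℝ) : ℂ) *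
          ((j : ℂ) * T (a * b)) := by
    have h1 : ∀ e ∈ Finset.Icc 1 E, ∀ e' ∈ Finset.Icc 1 E,
        ((x e / e * (x e' / e') : ℝ) : ℂ) * ∑' C : DN N (e * e'),
          ((∑ d ∈ (Nat.gcd e (Nat.gcd e' (cont C))).divisors, d : ℕ) : ℂ) * h C =
        ∑ j ∈ Finset.Icc 1 E, if j ∣ e then (if j ∣ e' then
          ((x e / e * (x e' / e') : ℝ) : ℂ) * ((j : ℂ) * T (e / j * (e' / j))) else 0) else 0 := by
      intro e he e' he'
      rw [cnv_inner hN hE h hj hs he he', Finset.mul_sum]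
      have h2 : (Nat.gcd e e').divisors =
          (Finset.Icc 1 E).filter (fun j => j ∣ e ∧ j ∣ e') := by
        rw [Finset.mem_Icc] at he he'
        ext d
        have h0' : Nat.gcd e e' ≠ 0 := (Nat.gcd_pos_of_pos_left _ (by omega)).ne'
        simp only [Nat.mem_divisors, Finset.mem_filter, Nat.dvd_gcd_iff, Finset.mem_Icc]
        constructor
        · rintro ⟨⟨h3, h4⟩, _⟩
          have h5 : 1 ≤ d := Nat.pos_of_dvd_of_pos h3 (by omega)
          have h6 : d ≤ e := Nat.le_of_dvd (by omega) h3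
          exact ⟨⟨h5, by omega⟩, h3, h4⟩
        · rintro ⟨_, h3, h4⟩
          exact ⟨⟨h3, h4⟩, h0'⟩
      rw [h2, Finset.sum_filter]
      refine Finset.sum_congr rfl fun j _ => ?_
      by_cases h3 : j ∣ e <;> by_cases h4 : j ∣ e' <;> simp [h3, h4, hT]
    rw [Finset.sum_congr rfl fun e he => Finset.sum_congr rfl fun e' he' => h1 e he e' he']
    have h2 : ∀ e ∈ Finset.Icc 1 E, ∑ e' ∈ Finset.Icc 1 E, ∑ j ∈ Finset.Icc 1 E,
        (if j ∣ e then (if j ∣ e' then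
          ((x e / e * (x e' / e') : ℝ) : ℂ) * ((j : ℂ) * T (e / j * (e' / j))) else 0) else 0) =
        ∑ j ∈ Finset.Icc 1 E, ∑ e' ∈ Finset.Icc 1 E, (if j ∣ e then (if j ∣ e' then
          ((x e / e * (x e' / e') : ℝ) : ℂ) * ((j : ℂ) * T (e / j * (e' / j))) else 0) else 0) :=
      fun e _ => Finset.sum_comm
    rw [Finset.sum_congr rfl h2, Finset.sum_comm]
    refine Finset.sum_congr rfl fun j hjm => ?_
    rw [Finset.mem_Icc] at hjm
    have hj0 : 0 < j := by omega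
    have h3 : ∀ e ∈ Finset.Icc 1 E, ∑ e' ∈ Finset.Icc 1 E, (if j ∣ e then (if j ∣ e' then
          ((x e / e * (x e' / e') : ℝ) : ℂ) * ((j : ℂ) * T (e / j * (e' / j))) else 0) else 0) =
        if j ∣ e then ∑ b ∈ Finset.Icc 1 E, ((x e / e * (x (j * b) / ((j * b : ℕ) : ℝ)) : ℝ) : ℂ) *
          ((j : ℂ) * T (e / j * b)) else 0 := by
      intro e _
      split_ifs with h4
      · rw [← Finset.sum_filter, cnv_mult hjm.1]
        · refine Finset.sum_congr rfl fun b _ => ?_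
          rw [Nat.mul_div_cancel_left _ hj0]
        · intro e' he'
          rw [hx0 e' he']
          simp
      · simp
    rw [Finset.sum_congr rfl h3, ← Finset.sum_filter, cnv_mult hjm.1]
    · refine Finset.sum_congr rfl fun a _ => ?_
      refine Finset.sum_congr rfl fun b _ => ?_
      rw [Nat.mul_div_cancel_left _ hj0]
    · intro e he
      rw [hx0 e he]
      simp
  rw [hL]
  -- right side
  have hR : ∑ n ∈ Finset.Icc 1 (E ^ 2), (CC E x n : ℂ) * T n =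
      ∑ j ∈ Finset.Icc 1 E, ∑ n ∈ Finset.Icc 1 (E ^ 2), ∑ p ∈ n.divisorsAntidiagonal,
        ((x (j * p.1) / ((j * p.1 : ℕ) : ℝ) * (x (j * p.2) / ((j * p.2 : ℕ) : ℝ)) : ℝ) : ℂ) *
          ((j : ℂ) * T (p.1 * p.2)) := by
    rw [Finset.sum_comm]
    refine Finset.sum_congr rfl fun n _ => ?_
    unfold CC
    rw [Complex.ofReal_sum, Finset.sum_mul]
    refine Finset.sum_congr rfl fun j hjm => ?_
    rw [Finset.mem_Icc] at hjm
    rw [Finset.mul_sum, Complex.ofReal_sum, Finset.sum_mul]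
    refine Finset.sum_congr rfl fun p hp => ?_
    rw [Nat.mem_divisorsAntidiagonal] at hp
    rw [hp.1]
    have hj0 : (j : ℂ) ≠ 0 := by exact_mod_cast (by omega : j ≠ 0)
    have hn0 : (n : ℂ) ≠ 0 := by exact_mod_cast hp.2
    have hp0 : p.1 * p.2 ≠ 0 := by rw [hp.1]; exact hp.2
    have hp1 : (p.1 : ℂ) ≠ 0 := by exact_mod_cast (left_ne_zero_of_mul hp0)
    have hp2 : (p.2 : ℂ) ≠ 0 := by exact_mod_cast (right_ne_zero_of_mul hp0)
    have hnp : (n : ℂ) = p.1 * p.2 := by rw [← hp.1]; push_cast; ring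
    push_cast
    rw [hnp]
    field_simp
  rw [hR]
  refine Finset.sum_congr rfl fun j hjm => ?_
  rw [Finset.mem_Icc] at hjm
  -- regroup
  rw [← Finset.sum_product']
  set F : ℕ × ℕ → ℂ := fun p =>
    ((x (j * p.1) / ((j * p.1 : ℕ) : ℝ) * (x (j * p.2) / ((j * p.2 : ℕ) : ℝ)) : ℝ) : ℂ) *
          ((j : ℂ) * T (p.1 * p.2)) with hF
  have hmaps : ∀ p ∈ Finset.Icc 1 E ×ˢ Finset.Icc 1 E, p.1 * p.2 ∈ Finset.Icc 1 (E ^ 2) := by
    intro p hp
    rw [Finset.mem_product, Finset.mem_Icc, Finset.mem_Icc] at hp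
    rw [Finset.mem_Icc]
    exact ⟨Nat.mul_pos hp.1.1 hp.2.1, by rw [pow_two]; exact Nat.mul_le_mul hp.1.2 hp.2.2⟩
  rw [← Finset.sum_fiberwise_of_maps_to hmaps]
  refine Finset.sum_congr rfl fun n hn => ?_
  rw [Finset.mem_Icc] at hn
  refine Finset.sum_subset ?_ ?_
  · intro p hp
    simp only [Finset.mem_filter, Finset.mem_product, Finset.mem_Icc] at hp
    rw [Nat.mem_divisorsAntidiagonal]
    exact ⟨hp.2, by omega⟩
  · intro p hp hp'
    rw [Nat.mem_divisorsAntidiagonal] at hp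
    simp only [Finset.mem_filter, Finset.mem_product, Finset.mem_Icc, not_and] at hp'
    have hp0 : p.1 * p.2 ≠ 0 := by rw [hp.1]; exact hp.2
    have hp1 : 1 ≤ p.1 := Nat.pos_of_ne_zero (left_ne_zero_of_mul hp0)
    have hp2 : 1 ≤ p.2 := Nat.pos_of_ne_zero (right_ne_zero_of_mul hp0)
    have h6 : E < p.1 ∨ E < p.2 := by
      by_contra hcon
      push Not at hcon
      exact hp' ⟨⟨hp1, hcon.1⟩, hp2, hcon.2⟩ hp.1
    rcases h6 with h6 | h6
    · have h7 : E < j * p.1 := lt_of_lt_of_le h6 (Nat.le_mul_of_pos_left _ (by omega))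
      rw [hx0 _ h7]
      simp
    · have h7 : E < j * p.2 := lt_of_lt_of_le h6 (Nat.le_mul_of_pos_left _ (by omega))
      rw [hx0 _ h7]
      simp

theorem conv_sum : type_of% @conv_sum_pr := @conv_sum_pr

end Pool.Agent.LSP
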