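import Pool.Agent.Lib_helper41.LSP.DefsG

/-! LSP, part G, block HRM (helper81): Hermite normal form. -/

set_option autoImplicit false

namespace Pool.Agent.LSP

open Pool.Agent.LEV Pool.Agent.LVB Pool.Agent.KSL
open Pool.Agent.FG61 (mu phi cc ff AA Lam)
open Complex MeasureTheory Filter Topology UpperHalfPlane ModularGroup ProbabilityTheory
open scoped MatrixGroups Modular ENNReal ModularForm ComplexConjugate ContDiff

theorem hrm_mem {e : ℕ} (he : 1 ≤ e) {t : ℕ × ℕ × ℕ} :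
    t ∈ HM e ↔ t.1 * t.2.2 = e ∧ t.2.1 < t.1 := by
  unfold HM
  simp only [Finset.mem_filter, Finset.mem_product, Finset.mem_range]
  constructor
  · rintro ⟨-, h⟩
    exact h
  · rintro ⟨h1, h2⟩
    have ha : t.1 ≤ e := Nat.le_of_dvd he ⟨t.2.2, h1.symm⟩
    have hd : t.2.2 ≤ e := Nat.le_of_dvd he ⟨t.1, by rw [mul_comm]; exact h1.symm⟩
    exact ⟨⟨by omega, by omega, by omega⟩, h1, h2⟩

theorem hrm_pos {e : ℕ} (he : 1 ≤ e) {t : ℕ × ℕ × ℕ} (ht : t ∈ HM e) : 1 ≤ t.1 ∧ 1 ≤ t.2.2 := by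
  obtain ⟨h1, h2⟩ := (hrm_mem he).1 ht
  constructor
  · omega
  · rcases Nat.eq_zero_or_pos t.2.2 with h | h
    · rw [h] at h1; omega
    · exact h

/-- sums over the representatives are sums over fractions -/
theorem hm_sum_pr {e : ℕ} (he : 1 ≤ e) (F : ℝ → ℂ) :
    ∑ t ∈ HM e, F ((t.2.1 : ℝ) / t.1) =
      ∑ q ∈ e.divisors, (tau (e / q) : ℂ) * ∑ j ∈ RR q, F ((j : ℝ) / q) := by
  have h1 : ∀ q ∈ e.divisors, (tau (e / q) : ℂ) * ∑ j ∈ RR q, F ((j : ℝ) / q) =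
      ∑ p ∈ (e / q).divisors ×ˢ RR q, F ((p.2 : ℝ) / q) := by
    intro q _
    rw [Finset.sum_product]
    show _ = ∑ _x ∈ (e / q).divisors, ∑ y ∈ RR q, F ((y : ℝ) / q)
    rw [Finset.sum_const, nsmul_eq_mul]
    unfold tau
    push_cast
    rfl
  rw [Finset.sum_congr rfl h1, Finset.sum_sigma']
  refine Finset.sum_nbij' (i := fun t => ⟨t.1 / Nat.gcd t.1 t.2.1,
      (Nat.gcd t.1 t.2.1, t.2.1 / Nat.gcd t.1 t.2.1)⟩)
    (j := fun x => (x.1 * x.2.1, x.2.2 * x.2.1, e / (x.1 * x.2.1))) ?_ ?_ ?_ ?_ ?_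
  · intro t ht
    obtain ⟨ha, hb⟩ := (hrm_mem he).1 ht
    have hap := (hrm_pos he ht).1
    have hg : 0 < Nat.gcd t.1 t.2.1 := Nat.gcd_pos_of_pos_left _ hap
    have hqg : t.1 / Nat.gcd t.1 t.2.1 * Nat.gcd t.1 t.2.1 = t.1 :=
      Nat.div_mul_cancel (Nat.gcd_dvd_left _ _)
    have hae : t.1 ∣ e := ⟨t.2.2, ha.symm⟩
    have hqe : t.1 / Nat.gcd t.1 t.2.1 ∣ e := (Nat.div_dvd_of_dvd (Nat.gcd_dvd_left _ _)).trans hae
    simp only [Finset.mem_sigma, Finset.mem_product, Nat.mem_divisors, RR, Finset.mem_filter,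
      Finset.mem_range]
    refine ⟨⟨hqe, by omega⟩, ⟨?_, ?_⟩, ?_, ?_⟩
    · refine Nat.dvd_div_of_mul_dvd ?_
      rw [hqg]
      exact hae
    · have hq0 : 0 < t.1 / Nat.gcd t.1 t.2.1 :=
        Nat.div_pos (Nat.le_of_dvd hap (Nat.gcd_dvd_left _ _)) hg
      have := Nat.div_pos (Nat.le_of_dvd he hqe) hq0
      omega
    · exact Nat.div_lt_div_of_lt_of_dvd (Nat.gcd_dvd_left _ _) hb
    · exact Nat.coprime_div_gcd_div_gcd hg
  · rintro ⟨q, g, j⟩ hx
    simp only [Finset.mem_sigma, Finset.mem_product, Nat.mem_divisors, RR, Finset.mem_filter,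
      Finset.mem_range] at hx
    obtain ⟨⟨hq, -⟩, ⟨hg, hg0⟩, hj, hc⟩ := hx
    have hg1 : 0 < g := Nat.pos_of_dvd_of_pos hg (Nat.pos_of_ne_zero hg0)
    have hqg : q * g ∣ e := by
      obtain ⟨k, hk⟩ := hg
      refine ⟨k, ?_⟩
      rw [mul_assoc, ← hk, Nat.mul_div_cancel' hq]
    rw [hrm_mem he]
    exact ⟨Nat.mul_div_cancel' hqg, Nat.mul_lt_mul_of_pos_right hj hg1⟩
  · intro t ht
    obtain ⟨ha, hb⟩ := (hrm_mem he).1 ht
    have hap := (hrm_pos he ht).1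
    have hqg : t.1 / Nat.gcd t.1 t.2.1 * Nat.gcd t.1 t.2.1 = t.1 :=
      Nat.div_mul_cancel (Nat.gcd_dvd_left _ _)
    have hbg : t.2.1 / Nat.gcd t.1 t.2.1 * Nat.gcd t.1 t.2.1 = t.2.1 :=
      Nat.div_mul_cancel (Nat.gcd_dvd_right _ _)
    simp only
    rw [hqg, hbg]
    have : e / t.1 = t.2.2 := by
      rw [← ha]
      exact Nat.mul_div_cancel_left _ hap
    rw [this]
  · rintro ⟨q, g, j⟩ hx
    simp only [Finset.mem_sigma, Finset.mem_product, Nat.mem_divisors, RR, Finset.mem_filter,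
      Finset.mem_range] at hx
    obtain ⟨⟨hq, -⟩, ⟨hg, hg0⟩, hj, hc⟩ := hx
    have hg1 : 0 < g := Nat.pos_of_dvd_of_pos hg (Nat.pos_of_ne_zero hg0)
    have h2 : Nat.gcd (q * g) (j * g) = g := by
      rw [Nat.gcd_mul_right, hc.gcd_eq_one, one_mul]
    simp only
    rw [h2, Nat.mul_div_cancel _ hg1, Nat.mul_div_cancel _ hg1]
  · intro t ht
    have hap := (hrm_pos he ht).1
    have hg : 0 < Nat.gcd t.1 t.2.1 := Nat.gcd_pos_of_pos_left _ hap
    simp only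
    congr 1
    have hg' : ((Nat.gcd t.1 t.2.1 : ℕ) : ℝ) ≠ 0 := by exact_mod_cast hg.ne'
    rw [Nat.cast_div (Nat.gcd_dvd_left _ _) hg', Nat.cast_div (Nat.gcd_dvd_right _ _) hg',
      div_div_div_cancel_right₀ hg']

theorem hrm_sl_ext {γ δ : SL(2, ℤ)} (h : (γ : M2) = δ) : γ = δ := Subtype.ext h

theorem hrm_inj {e : ℕ} (he : 1 ≤ e) {t t' : ℕ × ℕ × ℕ} (ht : t ∈ HM e) (ht' : t' ∈ HM e)
    {γ γ' : SL(2, ℤ)} (h : UT t * (γ : M2) = UT t' * (γ' : M2)) : t = t' ∧ γ = γ' := by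
  obtain ⟨-, hb⟩ := (hrm_mem he).1 ht
  obtain ⟨-, hb'⟩ := (hrm_mem he).1 ht'
  obtain ⟨hap, hdp⟩ := hrm_pos he ht
  obtain ⟨hap', hdp'⟩ := hrm_pos he ht'
  set δ : SL(2, ℤ) := γ' * γ⁻¹ with hδ
  have h1 : UT t = UT t' * (δ : M2) := by
    have h2 : (γ : M2) * ((γ⁻¹ : SL(2, ℤ)) : M2) = 1 := by
      rw [← Matrix.SpecialLinearGroup.coe_mul, mul_inv_cancel, Matrix.SpecialLinearGroup.coe_one]
    calc UT t = UT t * ((γ : M2) * ((γ⁻¹ : SL(2, ℤ)) : M2)) := by rw [h2, mul_one]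
      _ = UT t * (γ : M2) * ((γ⁻¹ : SL(2, ℤ)) : M2) := by rw [mul_assoc]
      _ = UT t' * (γ' : M2) * ((γ⁻¹ : SL(2, ℤ)) : M2) := by rw [h]
      _ = UT t' * (δ : M2) := by rw [mul_assoc, ← Matrix.SpecialLinearGroup.coe_mul]
  have e00 := congrFun (congrFun h1 0) 0
  have e01 := congrFun (congrFun h1 0) 1
  have e10 := congrFun (congrFun h1 1) 0
  have e11 := congrFun (congrFun h1 1) 1
  simp only [UT, Matrix.mul_apply, Fin.sum_univ_two, Matrix.of_apply, Matrix.cons_val_zero,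
    Matrix.cons_val_one, Matrix.cons_val', Matrix.empty_val', Matrix.cons_val_fin_one] at e00 e01 e10 e11
  have hdet := δ.det_coe
  rw [Matrix.det_fin_two] at hdet
  have hd0 : (t'.2.2 : ℤ) ≠ 0 := by exact_mod_cast (by omega : t'.2.2 ≠ 0)
  have hz : (δ : M2) 1 0 = 0 := by
    have h3 : (t'.2.2 : ℤ) * (δ : M2) 1 0 = 0 := by linarith
    rcases mul_eq_zero.1 h3 with h4 | h4
    · exact absurd h4 hd0
    · exact h4
  rw [hz, mul_zero, sub_zero] at hdet
  rcases Int.mul_eq_one_iff_eq_one_or_neg_one.1 hdet with ⟨hp, hq⟩ | ⟨hp, hq⟩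
  · rw [hz, hp] at e00
    rw [hq] at e01 e11
    have ha : t.1 = t'.1 := by
      have : (t.1 : ℤ) = t'.1 := by linarith
      exact_mod_cast this
    have hd : t.2.2 = t'.2.2 := by
      have : (t.2.2 : ℤ) = t'.2.2 := by linarith
      exact_mod_cast this
    have h5 : (t'.2.1 : ℤ) - t.2.1 = t'.1 * (δ : M2) 0 1 := by linarith
    have h6 : (t'.2.1 : ℤ) - t.2.1 = 0 := by
      refine Int.eq_zero_of_abs_lt_dvd ⟨_, h5⟩ ?_
      rw [abs_lt]
      constructor <;> omega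
    have hb2 : t.2.1 = t'.2.1 := by omega
    have h7 : (δ : M2) 0 1 = 0 := by
      rw [h6] at h5
      rcases mul_eq_zero.1 h5.symm with h8 | h8
      · exfalso
        omega
      · exact h8
    refine ⟨Prod.ext ha (Prod.ext hb2 hd), ?_⟩
    have h8 : δ = 1 := by
      apply hrm_sl_ext
      ext i k
      fin_cases i <;> fin_cases k
      · simpa using hp
      · simpa using h7
      · simpa using hz
      · simpa using hq
    rw [hδ] at h8
    exact (mul_inv_eq_one.1 h8).symm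
  · exfalso
    rw [hq] at e11
    have : (t.2.2 : ℤ) = -t'.2.2 := by linarith
    omega

theorem hrm_surj {N e : ℕ} (hN : N.Prime) (he : 1 ≤ e) (heN : e.Coprime N) {C : M2}
    (hC : C ∈ DN N e) : ∃ t ∈ HM e, ∃ γ ∈ CongruenceSubgroup.Gamma0 N,
      UT t * (γ : M2) = C := by
  obtain ⟨hNC, hdet⟩ := hC
  rw [Matrix.det_fin_two] at hdet
  have hgpos : 0 < Int.gcd (C 1 0) (C 1 1) := by
    rcases Nat.eq_zero_or_pos (Int.gcd (C 1 0) (C 1 1)) with h | h
    · exfalso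
      rw [Int.gcd_eq_zero_iff] at h
      rw [h.1, h.2] at hdet
      simp at hdet
      omega
    · exact h
  obtain ⟨c, d', hcd, h10, h11⟩ := Int.exists_gcd_one hgpos
  set d : ℕ := Int.gcd (C 1 0) (C 1 1) with hd
  obtain ⟨γ₀, hg0, hg1⟩ := (Int.isCoprime_iff_gcd_eq_one.2 hcd).exists_SL2_row (1 : Fin 2)
  have hg0' : (γ₀ : M2) 1 0 = c := hg0
  have hg1' : (γ₀ : M2) 1 1 = d' := hg1
  have hdg := γ₀.det_coe
  rw [Matrix.det_fin_two, hg0', hg1'] at hdg
  -- `X = C γ₀⁻¹`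
  set a : ℤ := C 0 0 * d' - C 0 1 * c with ha
  set x : ℤ := -(C 0 0) * (γ₀ : M2) 0 1 + C 0 1 * (γ₀ : M2) 0 0 with hx
  have had : a * d = e := by
    have : C 0 0 * (d' * d) - C 0 1 * (c * d) = (e : ℤ) := by
      rw [← h10, ← h11]; linarith
    rw [ha]
    linarith
  have hdp : (0 : ℤ) < d := by exact_mod_cast hgpos
  have hap : 0 < a := by
    have h1 : 0 < a * (d : ℤ) := by rw [had]; exact_mod_cast he
    exact (mul_pos_iff_of_pos_right hdp).1 h1
  obtain ⟨b, hb⟩ := Int.eq_ofNat_of_zero_le (Int.emod_nonneg (-x) hap.ne')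
  obtain ⟨a', ha'⟩ := Int.eq_ofNat_of_zero_le hap.le
  set k : ℤ := -((-x) / a) with hk
  have hxk : x = a * k - b := by
    have := Int.emod_add_mul_ediv (-x) a
    rw [hb] at this
    rw [hk]
    linarith
  have hba : (b : ℤ) < a := by
    rw [← hb]
    exact Int.emod_lt_of_pos _ hap
  let T' : SL(2, ℤ) := ⟨!![1, k; 0, 1], by simp [Matrix.det_fin_two]⟩
  refine ⟨(a', b, d), ?_, T' * γ₀, ?_, ?_⟩
  · rw [hrm_mem he]
    simp only
    constructor
    · have : (a' : ℤ) * d = e := by rw [← ha']; exact had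
      exact_mod_cast this
    · rw [ha'] at hba
      exact_mod_cast hba
  · rw [CongruenceSubgroup.Gamma0_mem]
    have h1 : (T' * γ₀) 1 0 = c := by
      have : ((T' * γ₀ : SL(2, ℤ)) : M2) 1 0 = c := by
        rw [Matrix.SpecialLinearGroup.coe_mul, Matrix.mul_apply, Fin.sum_univ_two, hg0']
        simp [T']
      exact this
    rw [h1, ZMod.intCast_zmod_eq_zero_iff_dvd]
    rw [h10] at hNC
    have hNp : Prime (N : ℤ) := Nat.prime_iff_prime_int.1 hN
    rcases hNp.dvd_or_dvd hNC with h2 | h2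
    · exact h2
    · exfalso
      have h3 : (N : ℤ) ∣ e := by
        rw [← had]
        exact h2.mul_left a
      have h4 : N ∣ e := by exact_mod_cast h3
      have h5 := Nat.dvd_gcd h4 (dvd_refl N)
      rw [heN.gcd_eq_one] at h5
      exact hN.one_lt.ne' (Nat.dvd_one.1 h5)
  · have hT : UT (a', b, d) * ((T' * γ₀ : SL(2, ℤ)) : M2) = !![a, x; 0, (d : ℤ)] * (γ₀ : M2) := by
      rw [Matrix.SpecialLinearGroup.coe_mul, ← mul_assoc]
      congr 1
      have hT' : (T' : M2) = !![1, k; 0, 1] := rfl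
      rw [hT']
      unfold UT
      rw [Matrix.mul_fin_two]
      simp only
      rw [← ha', hxk]
      congr 1
      simp
      ring
    rw [hT, Matrix.eta_fin_two (γ₀ : M2), Matrix.mul_fin_two, Matrix.eta_fin_two C, hg0', hg1', ha,
      hx]
    have h1 := h10
    have h2 := h11
    rw [h1, h2]
    congr 1
    ext i j
    fin_cases i <;> fin_cases j
    · simp
      linear_combination (C 0 0) * hdg
    · simp
      linear_combination (C 0 1) * hdg
    · simp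
      ring
    · simp
      ring

/-- the bijection -/
def hrm_map {N e : ℕ} (he : 1 ≤ e) (p : {t // t ∈ HM e} × CongruenceSubgroup.Gamma0 N) :
    DN N e :=
  ⟨UT p.1.1 * ((p.2 : SL(2, ℤ)) : M2), by
    obtain ⟨⟨t, ht⟩, γ, hγ⟩ := p
    obtain ⟨ha, -⟩ := (hrm_mem he).1 ht
    constructor
    · rw [CongruenceSubgroup.Gamma0_mem, ZMod.intCast_zmod_eq_zero_iff_dvd] at hγ
      simp only [UT, Matrix.mul_apply, Fin.sum_univ_two, Matrix.of_apply, Matrix.cons_val_zero,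
        Matrix.cons_val_one, Matrix.cons_val', Matrix.empty_val', Matrix.cons_val_fin_one, zero_mul,
        zero_add]
      exact hγ.mul_left _
    · simp only
      rw [Matrix.det_mul, Matrix.SpecialLinearGroup.det_coe, mul_one]
      unfold UT
      rw [Matrix.det_fin_two_of, mul_zero, sub_zero]
      exact_mod_cast ha⟩

theorem hrm_bij {N e : ℕ} (hN : N.Prime) (he : 1 ≤ e) (heN : e.Coprime N) :
    Function.Bijective (hrm_map (N := N) he) := by
  constructor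
  · rintro ⟨⟨t, ht⟩, γ, hγ⟩ ⟨⟨t', ht'⟩, γ', hγ'⟩ h
    have h1 : UT t * (γ : M2) = UT t' * (γ' : M2) := congrArg Subtype.val h
    obtain ⟨h2, h3⟩ := hrm_inj he ht ht' h1
    subst h2
    subst h3
    rfl
  · rintro ⟨C, hC⟩
    obtain ⟨t, ht, γ, hγ, h⟩ := hrm_surj hN he heN hC
    exact ⟨(⟨t, ht⟩, ⟨γ, hγ⟩), Subtype.ext h⟩

theorem hermite_tsum_pr {N e : ℕ} (hN : N.Prime) (he : 1 ≤ e) (heN : e.Coprime N) (h : M2 → ℂ)
    (hs : (Function.support h ∩ DN N e).Finite) :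
    ∑ t ∈ HM e, ∑' γ : CongruenceSubgroup.Gamma0 N, h (UT t * ((γ : SL(2, ℤ)) : M2)) =
      ∑' C : DN N e, h C := by
  have hfin : (Function.support (fun C : DN N e => h C)).Finite := by
    have h1 : (Subtype.val ⁻¹' (Function.support h ∩ DN N e) : Set (DN N e)).Finite :=
      hs.preimage Subtype.val_injective.injOn
    refine h1.subset (fun C hC => ?_)
    exact ⟨hC, C.2⟩
  have hsum : Summable (fun C : DN N e => h C) := summable_of_hasFiniteSupport hfin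
  have heq := (Equiv.ofBijective _ (hrm_bij hN he heN)).tsum_eq (fun C : DN N e => h C)
  have hsum2 : Summable (fun p : {t // t ∈ HM e} × CongruenceSubgroup.Gamma0 N =>
      h (UT p.1.1 * ((p.2 : SL(2, ℤ)) : M2))) :=
    ((Equiv.ofBijective _ (hrm_bij hN he heN)).summable_iff (f := fun C : DN N e => h C)).2 hsum
  rw [← heq]
  have h2 : ∑' p : {t // t ∈ HM e} × CongruenceSubgroup.Gamma0 N,
      h (UT p.1.1 * ((p.2 : SL(2, ℤ)) : M2)) =
      ∑' t : {t // t ∈ HM e}, ∑' γ : CongruenceSubgroup.Gamma0 N,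
        h (UT t.1 * ((γ : SL(2, ℤ)) : M2)) := hsum2.tsum_prod
  have h3 : ∑' t : {t // t ∈ HM e}, ∑' γ : CongruenceSubgroup.Gamma0 N,
        h (UT t.1 * ((γ : SL(2, ℤ)) : M2)) =
      ∑ t ∈ HM e, ∑' γ : CongruenceSubgroup.Gamma0 N, h (UT t * ((γ : SL(2, ℤ)) : M2)) :=
    Finset.tsum_subtype (HM e)
      (fun t => ∑' γ : CongruenceSubgroup.Gamma0 N, h (UT t * ((γ : SL(2, ℤ)) : M2)))
  rw [← h3, ← h2]
  rfl

theorem hermite_tsum : type_of% @hermite_tsum_pr := @hermite_tsum_pr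
theorem hm_sum : type_of% @hm_sum_pr := @hm_sum_pr

end Pool.Agent.LSP
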