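import Pool.Agent.Lib_helper41.LSP.DefsG
import Pool.Agent.Lib_helper41.LSPG.CNT
import Pool.Agent.Lib_helper41.LSPG.HRM

/-! LSP, part G, block COS (helper47). -/

namespace Pool.Agent.LSP

open Pool.Agent.LEV Pool.Agent.LVB Pool.Agent.KSL
open Pool.Agent.FG61 (mu phi cc ff AA Lam)
open Complex MeasureTheory Filter Topology UpperHalfPlane ModularGroup ProbabilityTheory
open scoped MatrixGroups Modular ENNReal ModularForm ComplexConjugate ContDiff

theorem cos_det (t : ℕ × ℕ × ℕ) : (UT t).det = (t.1 : ℤ) * t.2.2 := by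
  simp [UT, Matrix.det_fin_two]

theorem cos_adj (t : ℕ × ℕ × ℕ) : (UT t).adjugate = !![(t.2.2 : ℤ), (t.2.1 : ℤ); 0, (t.1 : ℤ)] := by
  simp [UT, Matrix.adjugate_fin_two]

theorem cos_mem {e : ℕ} {t : ℕ × ℕ × ℕ} (ht : t ∈ HM e) : ((t.1 : ℤ) * t.2.2) = (e : ℤ) := by
  simp only [HM, Finset.mem_filter] at ht
  exact_mod_cast ht.2.1

theorem cos_mul1 {e : ℕ} {t : ℕ × ℕ × ℕ} (ht : t ∈ HM e) :
    (UT t).adjugate * UT t = (e : ℤ) • (1 : M2) := by
  rw [Matrix.adjugate_mul, cos_det, cos_mem ht]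

theorem cos_mul2 {e : ℕ} {t : ℕ × ℕ × ℕ} (ht : t ∈ HM e) :
    UT t * (UT t).adjugate = (e : ℤ) • (1 : M2) := by
  rw [Matrix.mul_adjugate, cos_det, cos_mem ht]

theorem cos_in {N e e' : ℕ} {t : ℕ × ℕ × ℕ} (ht : t ∈ HM e) {D : M2} (hD : D ∈ DN N e') :
    D * (UT t).adjugate ∈ DN N (e * e') := by
  refine ⟨?_, ?_⟩
  · rw [cos_adj]
    simp only [Matrix.mul_apply, Fin.sum_univ_two]
    simp
    exact Dvd.dvd.mul_right hD.1 _
  · have h2 : ((UT t).adjugate).det = e := by
      rw [cos_adj, Matrix.det_fin_two]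
      simp
      rw [← cos_mem ht]; ring
    rw [Matrix.det_mul, hD.2, h2]; push_cast; ring

theorem cos_fix {N e e' : ℕ} (he : 1 ≤ e)
    (heN : e.Coprime N) (h : M2 → ℂ) {t : ℕ × ℕ × ℕ} (ht : t ∈ HM e) :
    ∑' D : DN N e', h ((D : M2) * (UT t).adjugate) =
      ∑' C : DN N (e * e'), if (∀ i k, (e : ℤ) ∣ ((C : M2) * UT t) i k) then h C else 0 := by
  classical
  have he0 : (e : ℤ) ≠ 0 := by positivity
  set g : DN N e' → DN N (e * e') := fun D => ⟨(D : M2) * (UT t).adjugate, cos_in ht D.2⟩ with hg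
  have hkey : ∀ D : DN N e', ((g D : M2) * UT t) = (e : ℤ) • (D : M2) := by
    intro D
    show (D : M2) * (UT t).adjugate * UT t = _
    rw [Matrix.mul_assoc, cos_mul1 ht, Matrix.mul_smul, Matrix.mul_one]
  have hinj : Function.Injective g := by
    intro D D' hDD
    apply Subtype.ext
    have h1 := hkey D
    have h2 := hkey D'
    rw [hDD, h2] at h1
    have := smul_right_injective M2 he0 h1
    exact this.symm
  have hsup : Function.support (fun C : DN N (e * e') =>
      if (∀ i k, (e : ℤ) ∣ ((C : M2) * UT t) i k) then h C else 0) ⊆ Set.range g := by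
    intro C hC
    simp only [Function.mem_support, ne_eq, ite_eq_right_iff, Classical.not_imp] at hC
    obtain ⟨hd, -⟩ := hC
    choose D hD using hd
    have hCD : (C : M2) * UT t = (e : ℤ) • (Matrix.of D : M2) := by
      ext i k
      simp [hD i k]
    have hCe : (e : ℤ) • (C : M2) = (e : ℤ) • ((Matrix.of D : M2) * (UT t).adjugate) := by
      have : (C : M2) * (UT t * (UT t).adjugate) = ((e : ℤ) • (Matrix.of D : M2)) * (UT t).adjugate := by
        rw [← hCD, Matrix.mul_assoc]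
      rw [cos_mul2 ht, Matrix.mul_smul, Matrix.mul_one, Matrix.smul_mul] at this
      exact this
    have hC' : (C : M2) = (Matrix.of D : M2) * (UT t).adjugate := smul_right_injective M2 he0 hCe
    have hdet : (Matrix.of D : M2).det = e' := by
      have h1 : ((C : M2) * UT t).det = ((e : ℤ) • (Matrix.of D : M2)).det := by rw [hCD]
      rw [Matrix.det_mul, C.2.2, cos_det, cos_mem ht, Matrix.det_smul] at h1
      simp only [Fintype.card_fin] at h1
      push_cast at h1
      have : (e : ℤ) ^ 2 * (Matrix.of D : M2).det = (e : ℤ) ^ 2 * e' := by rw [← h1]; ring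
      exact mul_left_cancel₀ (pow_ne_zero 2 he0) this
    have hN1 : (N : ℤ) ∣ (Matrix.of D : M2) 1 0 := by
      have h1 := hD 1 0
      have h2 : ((C : M2) * UT t) 1 0 = (C : M2) 1 0 * t.1 := by
        simp [Matrix.mul_apply, Fin.sum_univ_two, UT]
      have h3 : (N : ℤ) ∣ (e : ℤ) * D 1 0 := by
        rw [← h1, h2]; exact Dvd.dvd.mul_right C.2.1 _
      have h4 : IsCoprime (N : ℤ) (e : ℤ) := (Nat.isCoprime_iff_coprime.mpr heN).symm
      exact h4.dvd_of_dvd_mul_left h3
    exact ⟨⟨Matrix.of D, hN1, hdet⟩, Subtype.ext hC'.symm⟩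
  rw [← hinj.tsum_eq hsup]
  refine tsum_congr fun D => ?_
  have : ∀ i k, (e : ℤ) ∣ ((g D : M2) * UT t) i k := by
    intro i k
    rw [hkey D]
    exact ⟨(D : M2) i k, by simp⟩
  rw [if_pos this]

theorem coset_sum_pr {N e e' : ℕ} (hN : N.Prime) (he : 1 ≤ e) (he' : 1 ≤ e') (heN : e.Coprime N)
    (heN' : e'.Coprime N) (h : M2 → ℂ) (hs : (Function.support h ∩ DN N (e * e')).Finite) :
    ∑ t ∈ HM e, ∑ t' ∈ HM e', ∑' γ : CongruenceSubgroup.Gamma0 N,
        h (UT t' * ((γ : SL(2, ℤ)) : M2) * (UT t).adjugate) =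
      ∑' C : DN N (e * e'),
        ((∑ d ∈ (Nat.gcd e (Nat.gcd e' (cont C))).divisors, d : ℕ) : ℂ) * h C := by
  classical
  have he0 : (e : ℤ) ≠ 0 := by positivity
  have h1 : ∀ t ∈ HM e, ∑ t' ∈ HM e', ∑' γ : CongruenceSubgroup.Gamma0 N,
        h (UT t' * ((γ : SL(2, ℤ)) : M2) * (UT t).adjugate) =
      ∑' C : DN N (e * e'), if (∀ i k, (e : ℤ) ∣ ((C : M2) * UT t) i k) then h C else 0 := by
    intro t ht
    rw [← cos_fix he heN h ht]
    refine hermite_tsum hN he' heN' (fun D => h (D * (UT t).adjugate)) ?_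
    refine Set.Finite.of_finite_image (f := fun D : M2 => D * (UT t).adjugate)
      (hs.subset ?_) ?_
    · rintro _ ⟨D, ⟨hD1, hD2⟩, rfl⟩
      exact ⟨hD1, cos_in ht hD2⟩
    · intro D _ D' _ hDD
      have hDD' : D * (UT t).adjugate = D' * (UT t).adjugate := hDD
      have h2 : D * ((UT t).adjugate * UT t) = D' * ((UT t).adjugate * UT t) := by
        rw [← Matrix.mul_assoc, hDD', Matrix.mul_assoc]
      rw [cos_mul1 ht] at h2
      simp only [Matrix.mul_smul, Matrix.mul_one] at h2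
      exact smul_right_injective M2 he0 h2
  rw [Finset.sum_congr rfl h1]
  have hsum : ∀ t ∈ HM e, Summable (fun C : DN N (e * e') =>
      if (∀ i k, (e : ℤ) ∣ ((C : M2) * UT t) i k) then h C else 0) := by
    intro t _
    refine summable_of_hasFiniteSupport ?_
    refine Set.Finite.of_finite_image (f := fun C : DN N (e * e') => (C : M2))
      (hs.subset ?_) Subtype.val_injective.injOn
    rintro _ ⟨C, hC, rfl⟩
    simp only [Function.mem_support, ne_eq, ite_eq_right_iff, Classical.not_imp] at hC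
    exact ⟨hC.2, C.2⟩
  rw [← Summable.tsum_finsetSum hsum]
  refine tsum_congr fun C => ?_
  rw [← count_coset he he' C.2.2, Finset.sum_ite, Finset.sum_const_zero, add_zero,
    Finset.sum_const, nsmul_eq_mul]

theorem coset_sum : type_of% @coset_sum_pr := @coset_sum_pr

end Pool.Agent.LSP
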