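import Pool.Agent.Lib_helper41.LSP.DefsG
import Pool.Agent.Lib_helper41.LSPG.CSQ
import Pool.Agent.Lib_helper41.LSPG.MOB

namespace Pool.Agent.LSP

open Pool.Agent.LEV Pool.Agent.LVB Pool.Agent.KSL
open Pool.Agent.FG61 (mu phi cc ff AA Lam)
open Complex MeasureTheory Filter Topology UpperHalfPlane ModularGroup ProbabilityTheory
open scoped MatrixGroups Modular ENNReal ModularForm ComplexConjugate ContDiff

theorem DIG_one {γ : SL(2, ℤ)} (h10 : γ 1 0 = 0) {q j q' j' : ℕ} (hq : 1 ≤ q) (hq' : 1 ≤ q')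
    (hj : j ∈ RR q) (hj' : j' ∈ RR q') (hB : Bsh γ q j q' j') :
    q' = q ∧ j' = j ∧ (γ = 1 ∨ γ = -1) := by
  unfold RR at hj hj'
  rw [Finset.mem_filter, Finset.mem_range] at hj hj'
  obtain ⟨hjq, hjc⟩ := hj
  obtain ⟨hjq', hjc'⟩ := hj'
  have hdet := Matrix.SpecialLinearGroup.det_coe γ
  rw [Matrix.det_fin_two, h10, mul_zero, sub_zero] at hdet
  unfold Bsh at hB
  rw [h10, zero_mul, zero_add] at hB
  obtain ⟨ε, hε, h00, h11⟩ : ∃ ε : ℤ, (ε = 1 ∨ ε = -1) ∧ γ 0 0 = ε ∧ γ 1 1 = ε := by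
    rcases Int.mul_eq_one_iff_eq_one_or_neg_one.mp hdet with h | h
    · exact ⟨1, Or.inl rfl, h.1, h.2⟩
    · exact ⟨-1, Or.inr rfl, h.1, h.2⟩
  have hεε : ε * ε = 1 := by rcases hε with h | h <;> rw [h] <;> norm_num
  rw [h00, h11] at hB
  set b : ℤ := ε * γ 0 1 with hb
  have hB' : ((j : ℤ) + b * q) * q' = q * j' := by
    have h1 : ε * ((ε * j + γ 0 1 * q) * q') = ε * (ε * q * j') := by rw [hB]
    have h2 : ε * ((ε * j + γ 0 1 * q) * q') = (ε * ε * j + ε * γ 0 1 * q) * q' := by ring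
    have h3 : ε * (ε * q * j') = ε * ε * (q * j') := by ring
    rw [h2, h3, hεε, one_mul, one_mul] at h1
    rw [hb]
    exact h1
  have hd1 : q ∣ q' := by
    have h1 : (q : ℤ) ∣ (j : ℤ) * q' := by
      refine ⟨j' - b * q', ?_⟩
      linarith
    have h2 : q ∣ j * q' := by exact_mod_cast h1
    exact hjc.dvd_of_dvd_mul_left h2
  have hd2 : q' ∣ q := by
    have h1 : (q' : ℤ) ∣ (q : ℤ) * j' := ⟨(j : ℤ) + b * q, by linarith⟩
    have h2 : q' ∣ q * j' := by exact_mod_cast h1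
    exact hjc'.dvd_of_dvd_mul_right h2
  have hqq : q' = q := Nat.dvd_antisymm hd2 hd1
  subst hqq
  have hq0 : (q' : ℤ) ≠ 0 := by exact_mod_cast (by omega : q' ≠ 0)
  have h4 : (j : ℤ) + b * q' = j' := by
    have : ((j : ℤ) + b * q') * q' = j' * q' := by linarith
    exact mul_right_cancel₀ hq0 this
  have hb0 : b = 0 := by
    by_contra hne
    have hj1 : (j : ℤ) < q' := by exact_mod_cast hjq
    have hj2 : (j' : ℤ) < q' := by exact_mod_cast hjq'
    have hq1 : (1 : ℤ) ≤ q' := by exact_mod_cast hq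
    rcases lt_or_gt_of_ne hne with h | h
    · have : b * q' ≤ -1 * q' := mul_le_mul_of_nonneg_right (by omega) (by omega)
      omega
    · have : 1 * (q' : ℤ) ≤ b * q' := mul_le_mul_of_nonneg_right (by omega) (by omega)
      omega
  have hjj : j' = j := by
    rw [hb0, zero_mul, add_zero] at h4
    exact_mod_cast h4.symm
  refine ⟨rfl, hjj, ?_⟩
  have h01 : γ 0 1 = 0 := by
    rw [hb] at hb0
    rcases hε with h | h <;> rw [h] at hb0 <;> omega
  rcases hε with h | h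
  · left
    ext i k
    fin_cases i <;> fin_cases k <;> simp [h00, h11, h01, h10, h]
  · right
    ext i k
    fin_cases i <;> fin_cases k <;> simp [h00, h11, h01, h10, h]

theorem DIG_neg (F : ℍ → ℂ) : F ∣[(2 : ℤ)] (-1 : SL(2, ℤ)) = F := by
  funext z
  rw [ModularForm.SL_slash_apply]
  have h1 : (-1 : SL(2, ℤ)) • z = z := by
    rw [← mz_sl]
    apply UpperHalfPlane.ext
    rw [(mz_coe (by rw [Matrix.SpecialLinearGroup.det_coe]; exact one_pos) z).1]
    simp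
  rw [h1]
  have h2 : denom ((-1 : SL(2, ℤ)) : GL (Fin 2) ℝ) z = -1 := by
    simp [denom]
  rw [h2]
  norm_num

theorem DIG_card (q : ℕ) : (((RR q).card : ℕ) : ℝ) = phi q := by
  unfold RR phi
  rw [Nat.totient]

open Classical in
theorem DIG_ts (ρ : ℝ → ℝ) (N : ℕ) (Y : ℝ) {S : SL(2, ℤ) → ℕ → ℕ → ℕ → ℕ → Prop}
    (hS : ∀ γ q j q' j', S γ q j q' j' ↔ (γ 1 0 = 0 ∧ Bsh γ q j q' j')) {q j q' j' : ℕ}
    (hq : 1 ≤ q) (hq' : 1 ≤ q')
    (hj : j ∈ RR q) (hj' : j' ∈ RR q') :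
    (∑' γ : CongruenceSubgroup.Gamma0 N,
      if S (γ : SL(2, ℤ)) q j q' j' then
        ipH (coneY ρ N q ((j : ℝ) / q) Y)
          ((coneY ρ N q' ((j' : ℝ) / q') Y) ∣[(2 : ℤ)] (γ : SL(2, ℤ))) else 0) =
      if q' = q ∧ j' = j then
        2 * ipH (coneY ρ N q ((j : ℝ) / q) Y) (coneY ρ N q ((j : ℝ) / q) Y) else 0 := by
  split_ifs with h
  · obtain ⟨h5, h6⟩ := h
    subst h5
    subst h6
    have hne : (1 : CongruenceSubgroup.Gamma0 N) ≠ ⟨-1, by simp [CongruenceSubgroup.Gamma0_mem]⟩ := by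
      intro h1
      have h2 := congrArg (fun g : CongruenceSubgroup.Gamma0 N => (g : SL(2, ℤ)) 0 0) h1
      simp at h2
    rw [tsum_eq_sum (s := {(1 : CongruenceSubgroup.Gamma0 N),
      ⟨-1, by simp [CongruenceSubgroup.Gamma0_mem]⟩})]
    · rw [Finset.sum_pair hne]
      rw [if_pos, if_pos]
      · simp only [OneMemClass.coe_one]
        rw [DIG_neg, SlashAction.slash_one]
        ring
      · rw [hS]
        refine ⟨by simp, ?_⟩
        unfold Bsh
        simp [mul_comm]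
      · rw [hS]
        refine ⟨by simp, ?_⟩
        unfold Bsh
        simp [mul_comm]
    · intro γ hγ
      rw [if_neg]
      intro h0
      obtain ⟨h1, h2⟩ := (hS _ _ _ _ _).mp h0
      apply hγ
      rcases (DIG_one h1 hq hq' hj hj' h2).2.2 with h3 | h3
      · rw [Finset.mem_insert]; left; exact Subtype.ext h3
      · rw [Finset.mem_insert, Finset.mem_singleton]; right; exact Subtype.ext h3
  · have h0 : ∀ γ : CongruenceSubgroup.Gamma0 N, (if S (γ : SL(2, ℤ)) q j q' j' then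
        ipH (coneY ρ N q ((j : ℝ) / q) Y)
          ((coneY ρ N q' ((j' : ℝ) / q') Y) ∣[(2 : ℤ)] (γ : SL(2, ℤ))) else 0) = 0 := by
      intro γ
      rw [if_neg]
      intro h0
      obtain ⟨h1, h2⟩ := (hS _ _ _ _ _).mp h0
      have h3 := DIG_one h1 hq hq' hj hj' h2
      exact h ⟨h3.1, h3.2.1⟩
    simp only [h0, tsum_zero]

theorem dig_pr {T : ℝ} {ρ : ℝ → ℝ} (hρ : KerL T ρ) {N E : ℕ} (hN : N.Prime) (hE : E < N)
    (w : ℕ → ℝ) : ∃ Y₀ : ℝ, ∀ Y : ℝ, Y₀ ≤ Y →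
    PS ρ N E w Y (fun γ q j q' j' => γ 1 0 = 0 ∧ Bsh γ q j q' j') =
      ((∑ q ∈ Finset.Icc 1 E, phi q * w q ^ 2 *
        (Cr ρ * Real.log (Y ^ 2 * ((N : ℝ) * (q : ℝ) ^ 2)) + Cl ρ) : ℝ) : ℂ) := by
  refine ⟨1, fun Y hY => ?_⟩
  unfold PS
  rw [Finset.mul_sum, Complex.ofReal_sum]
  refine Finset.sum_congr rfl fun q hq => ?_
  have hq1 := (Finset.mem_Icc.mp hq).1
  refine (congrArg (fun t : ℂ => 1 / 2 * t) (Finset.sum_congr rfl fun j hj => ?_ :
    _ = ∑ j ∈ RR q, (w q : ℂ) * (w q : ℂ) *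
      (2 * ((Cr ρ * Real.log (Y ^ 2 * (N * (q : ℝ) ^ 2)) + Cl ρ : ℝ) : ℂ)))).trans ?_
  · rw [Finset.sum_eq_single q]
    · rw [Finset.sum_eq_single j]
      · rw [DIG_ts ρ N Y (fun _ _ _ _ _ => Iff.rfl) hq1 hq1 hj hj, if_pos ⟨rfl, rfl⟩,
          cone_norm hρ hN.one_lt.le hq1 _ hY]
      · intro j' hj' hne
        rw [DIG_ts ρ N Y (fun _ _ _ _ _ => Iff.rfl) hq1 hq1 hj hj', if_neg (fun h => hne h.2),
          mul_zero]
      · intro h; exact absurd hj h
    · intro q' hq' hne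
      refine Finset.sum_eq_zero fun j' hj' => ?_
      rw [DIG_ts ρ N Y (fun _ _ _ _ _ => Iff.rfl) hq1 (Finset.mem_Icc.mp hq').1 hj hj',
        if_neg (fun h => hne h.1), mul_zero]
    · intro h; exact absurd hq h
  · rw [Finset.sum_const, nsmul_eq_mul]
    have h2 : (((RR q).card : ℕ) : ℂ) = ((phi q : ℝ) : ℂ) := by
      rw [← DIG_card]
      push_cast
      rfl
    rw [h2]
    generalize phi q = p
    push_cast
    ring

theorem dig : type_of% @dig_pr := @dig_pr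

end Pool.Agent.LSP
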