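import Pool.Agent.Lib_helper41.LSP.DefsG

/-! LSP, block ENU -/

namespace Pool.Agent.LSP

open Pool.Agent.LEV Pool.Agent.LVB Pool.Agent.KSL
open Pool.Agent.FG61 (mu phi cc ff AA Lam)
open Complex MeasureTheory Filter Topology UpperHalfPlane ModularGroup ProbabilityTheory
open scoped MatrixGroups Modular ENNReal ModularForm ComplexConjugate ContDiff

theorem enu_card_nat (n : ℕ) : n.divisorsAntidiagonal.card = n.divisors.card := by
  have h := Nat.sum_divisorsAntidiagonal (M := ℕ) (n := n) (fun _ _ => 1)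
  simpa using h

theorem enu_card (z : ℤ) : z.divisorsAntidiag.card = 2 * z.natAbs.divisors.card := by
  rcases z with n | n
  · simp only [Int.divisorsAntidiag, Finset.card_disjUnion, Finset.card_map, enu_card_nat]
    simp
    ring
  · simp only [Int.divisorsAntidiag, Finset.card_disjUnion, Finset.card_map, enu_card_nat]
    simp
    ring

/-- the matrix -/
def enu_mat (N : ℕ) (p : (ℤ × ℤ) × (ℤ × ℤ)) : M2 := !![p.2.1, p.1.1; (N : ℤ) * p.1.2, p.2.2]

/-- the index set -/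
noncomputable def enu_D (N n : ℕ) (g : ℤ) : Finset ((ℤ × ℤ) × (ℤ × ℤ)) :=
  (-g).divisorsAntidiag ×ˢ ((n : ℤ) - g * N).divisorsAntidiag

theorem enu_mem {N n : ℕ} {g : ℤ} {p : (ℤ × ℤ) × (ℤ × ℤ)} : p ∈ enu_D N n g ↔
    (p.1.1 * p.1.2 = -g ∧ -g ≠ 0) ∧ (p.2.1 * p.2.2 = (n : ℤ) - g * N ∧ (n : ℤ) - g * N ≠ 0) := by
  unfold enu_D
  rw [Finset.mem_product, Int.mem_divisorsAntidiag, Int.mem_divisorsAntidiag]

theorem enu_inj {N : ℕ} (hN : N ≠ 0) {p q : (ℤ × ℤ) × (ℤ × ℤ)} (h : enu_mat N p = enu_mat N q) :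
    p = q := by
  have h00 := congrFun (congrFun h 0) 0
  have h01 := congrFun (congrFun h 0) 1
  have h10 := congrFun (congrFun h 1) 0
  have h11 := congrFun (congrFun h 1) 1
  have hN' : (N : ℤ) ≠ 0 := by exact_mod_cast hN
  simp only [enu_mat, Matrix.of_apply, Matrix.cons_val', Matrix.cons_val_zero,
    Matrix.cons_val_one, Matrix.cons_val_fin_one] at h00 h01 h10 h11
  have h10' := mul_left_cancel₀ hN' h10
  obtain ⟨⟨a, b⟩, ⟨c, d⟩⟩ := p
  obtain ⟨⟨a', b'⟩, ⟨c', d'⟩⟩ := q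
  simp only at h00 h01 h10' h11
  rw [h00, h01, h10', h11]

theorem enu_DN {N n : ℕ} {g : ℤ} {p : (ℤ × ℤ) × (ℤ × ℤ)} (hp : p ∈ enu_D N n g) :
    enu_mat N p ∈ DN N n := by
  rw [enu_mem] at hp
  refine ⟨⟨p.1.2, rfl⟩, ?_⟩
  unfold enu_mat
  rw [Matrix.det_fin_two_of]
  linear_combination hp.2.1 - (N : ℤ) * hp.1.1

theorem enum_sum_pr {N E n B₀ : ℕ} (hN : N.Prime) (hn : 1 ≤ n) (hnE : n ≤ E ^ 2) (hNn : ¬ N ∣ n)
    (h : M2 → ℂ) (G : ℝ → ℝ) (hf : ∀ C ∈ DN N n, Nsh C →
      h C + h !![C 0 0, -C 0 1; -C 1 0, C 1 1] = 2 * ((G (cr C) : ℝ) : ℂ))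
    (h0 : ∀ C ∈ DN N n, ¬ Nsh C → h C = 0)
    (hs : ∀ C ∈ DN N n, (B₀ : ℤ) * C.det < |C 0 1 * C 1 0| → h C = 0) :
    (Function.support h ∩ DN N n).Finite ∧
    ∑' C : DN N n, h C = ∑ g ∈ Gs B₀ E,
      ((4 * (tau g.natAbs * tau ((n : ℤ) - g * N).natAbs * G ((g : ℝ) * N / n)) : ℝ) : ℂ) := by
  classical
  have hN0 : N ≠ 0 := hN.ne_zero
  have hNz : (0 : ℤ) < N := by exact_mod_cast hN.pos
  have hnz : (0 : ℤ) < n := by exact_mod_cast hn
  -- the finite set of all relevant matrices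
  set I : Finset ((g : ℤ) × ((ℤ × ℤ) × (ℤ × ℤ))) := (Gs B₀ E).sigma (fun g => enu_D N n g) with hI
  set φ : ((g : ℤ) × ((ℤ × ℤ) × (ℤ × ℤ))) → M2 := fun i => enu_mat N i.2 with hφ
  set F : Finset M2 := I.image φ with hF
  have hFD : ∀ C ∈ F, C ∈ DN N n := by
    intro C hC
    rw [hF, Finset.mem_image] at hC
    obtain ⟨i, hi, rfl⟩ := hC
    rw [hI, Finset.mem_sigma] at hi
    exact enu_DN hi.2
  have hsupp : ∀ C ∈ DN N n, h C ≠ 0 → C ∈ F := by
    intro C hC hne
    have hNs : Nsh C := by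
      by_contra hcon
      exact hne (h0 C hC hcon)
    have hle : |C 0 1 * C 1 0| ≤ (B₀ : ℤ) * C.det := by
      by_contra hcon
      exact hne (hs C hC (not_le.mp hcon))
    obtain ⟨⟨c, hc⟩, hdet⟩ := hC
    have hdet' := hdet
    rw [Matrix.det_fin_two] at hdet'
    have hb0 : C 0 1 ≠ 0 := hNs.1
    have hc0 : c ≠ 0 := by
      rintro rfl
      apply hNs.2
      rw [hc, mul_zero]
    set g : ℤ := -(C 0 1 * c) with hg
    have hg0 : g ≠ 0 := by
      rw [hg]
      exact neg_ne_zero.mpr (mul_ne_zero hb0 hc0)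
    have had : C 0 0 * C 1 1 = (n : ℤ) - g * N := by
      rw [hg]
      rw [hc] at hdet'
      linear_combination hdet'
    have hne' : (n : ℤ) - g * N ≠ 0 := by
      intro h1
      apply hNn
      have h2 : (N : ℤ) ∣ n := ⟨g, by linear_combination h1⟩
      exact_mod_cast h2
    have hgB : |g| ≤ (B₀ : ℤ) * E ^ 2 := by
      have e1 : |C 0 1 * C 1 0| = |g| * N := by
        rw [hg, hc, abs_neg, ← abs_of_pos hNz, ← abs_mul, abs_of_pos hNz]
        congr 1
        ring
      rw [e1, hdet] at hle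
      have e2 : |g| * 1 ≤ |g| * N := mul_le_mul_of_nonneg_left (by omega) (abs_nonneg g)
      have e3 : (n : ℤ) ≤ (E : ℤ) ^ 2 := by exact_mod_cast hnE
      have e4 : (B₀ : ℤ) * n ≤ (B₀ : ℤ) * (E : ℤ) ^ 2 :=
        mul_le_mul_of_nonneg_left e3 (by positivity)
      linarith
    rw [hF, Finset.mem_image]
    refine ⟨⟨g, ((C 0 1, c), (C 0 0, C 1 1))⟩, ?_, ?_⟩
    · rw [hI, Finset.mem_sigma]
      refine ⟨?_, ?_⟩
      · show g ∈ Gs B₀ E
        unfold Gs
        rw [Finset.mem_erase, Finset.mem_Icc]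
        have := abs_le.mp hgB
        push_cast
        exact ⟨hg0, this.1, this.2⟩
      · show ((C 0 1, c), (C 0 0, C 1 1)) ∈ enu_D N n g
        rw [enu_mem]
        exact ⟨⟨by rw [hg]; ring, neg_ne_zero.mpr hg0⟩, had, hne'⟩
    · show enu_mat N ((C 0 1, c), (C 0 0, C 1 1)) = C
      unfold enu_mat
      ext i j
      fin_cases i <;> fin_cases j <;> simp [hc]
  refine ⟨?_, ?_⟩
  · refine F.finite_toSet.subset ?_
    rintro C ⟨h1, h2⟩
    exact hsupp C h2 h1
  · have e1 : ∑' C : DN N n, h C = ∑ C ∈ F, h C := by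
      rw [tsum_subtype (DN N n) h, tsum_eq_sum (s := F)]
      · refine Finset.sum_congr rfl fun C hC => ?_
        rw [Set.indicator_of_mem (hFD C hC)]
      · intro C hC
        by_cases hCD : C ∈ DN N n
        · rw [Set.indicator_of_mem hCD]
          by_contra hne
          exact hC (hsupp C hCD hne)
        · rw [Set.indicator_of_notMem hCD]
    have hφinj : Set.InjOn φ (I : Set ((g : ℤ) × ((ℤ × ℤ) × (ℤ × ℤ)))) := by
      rintro ⟨g, p⟩ hp ⟨g', p'⟩ hp' heq
      have hpp : p = p' := enu_inj hN0 heq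
      subst hpp
      rw [Finset.mem_coe, hI, Finset.mem_sigma] at hp hp'
      have h1 := (enu_mem.mp hp.2).1.1
      have h2 := (enu_mem.mp hp'.2).1.1
      have : g = g' := by
        have h3 : -g = -g' := by rw [← h1, ← h2]
        exact neg_injective h3
      subst this
      rfl
    rw [e1, hF, Finset.sum_image hφinj, hI, Finset.sum_sigma]
    refine Finset.sum_congr rfl fun g hg => ?_
    have hg0 : g ≠ 0 := by
      unfold Gs at hg
      exact (Finset.mem_erase.mp hg).1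
    -- the involution
    have hpair : ∀ p ∈ enu_D N n g, h (enu_mat N p) + h (enu_mat N ((-p.1.1, -p.1.2), p.2)) =
        2 * ((G ((g : ℝ) * N / n) : ℝ) : ℂ) := by
      intro p hp
      have hD := enu_DN hp
      rw [enu_mem] at hp
      have hb0 : p.1.1 ≠ 0 := by
        intro h1
        apply hp.1.2
        rw [← hp.1.1, h1, zero_mul]
      have hc0 : p.1.2 ≠ 0 := by
        intro h1
        apply hp.1.2
        rw [← hp.1.1, h1, mul_zero]
      have hNs : Nsh (enu_mat N p) := ⟨hb0, mul_ne_zero hNz.ne' hc0⟩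
      have key := hf _ hD hNs
      have e2 : (!![(enu_mat N p) 0 0, -(enu_mat N p) 0 1; -(enu_mat N p) 1 0, (enu_mat N p) 1 1] : M2) =
          enu_mat N ((-p.1.1, -p.1.2), p.2) := by
        unfold enu_mat
        ext i j
        fin_cases i <;> fin_cases j <;> simp
      have e3 : cr (enu_mat N p) = (g : ℝ) * N / n := by
        unfold cr
        have e4 : (enu_mat N p).det = n := hD.2
        have e5 : (enu_mat N p) 0 1 * (enu_mat N p) 1 0 = -g * N := by
          show p.1.1 * ((N : ℤ) * p.1.2) = -g * N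
          linear_combination (N : ℤ) * hp.1.1
        rw [e4, e5]
        push_cast
        ring
      rw [e2, e3] at key
      exact key
    have hinv : ∑ p ∈ enu_D N n g, h (enu_mat N ((-p.1.1, -p.1.2), p.2)) =
        ∑ p ∈ enu_D N n g, h (enu_mat N p) := by
      refine Finset.sum_nbij' (fun p => ((-p.1.1, -p.1.2), p.2)) (fun p => ((-p.1.1, -p.1.2), p.2))
        ?_ ?_ ?_ ?_ ?_
      · intro p hp
        rw [enu_mem] at hp ⊢
        exact ⟨⟨by rw [← hp.1.1]; ring, hp.1.2⟩, hp.2⟩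
      · intro p hp
        rw [enu_mem] at hp ⊢
        exact ⟨⟨by rw [← hp.1.1]; ring, hp.1.2⟩, hp.2⟩
      · intro p _
        simp
      · intro p _
        simp
      · intro p _
        rfl
    have hcard : ((enu_D N n g).card : ℂ) = ((4 * (tau g.natAbs * tau ((n : ℤ) - g * N).natAbs) : ℝ) : ℂ) := by
      unfold enu_D tau
      rw [Finset.card_product, enu_card, enu_card, Int.natAbs_neg]
      push_cast
      ring
    have hsum := Finset.sum_congr rfl hpair
    rw [Finset.sum_add_distrib, hinv, Finset.sum_const, nsmul_eq_mul, hcard] at hsum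
    have h2 : (2 : ℂ) * ∑ p ∈ enu_D N n g, h (enu_mat N p) = 2 *
        ((4 * (tau g.natAbs * tau ((n : ℤ) - g * N).natAbs * G ((g : ℝ) * N / n)) : ℝ) : ℂ) := by
      rw [two_mul, hsum]
      push_cast
      ring
    exact mul_left_cancel₀ two_ne_zero h2

theorem enum_sum : type_of% @enum_sum_pr := @enum_sum_pr

end Pool.Agent.LSP
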