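import Pool.Agent.Lib_helper41.LSP.DefsG
import Pool.Agent.Lib_helper68.LEV.KGB
import Pool.Agent.Lib_helper41.LSPG.BDG
import Pool.Agent.Lib_helper41.LSPG.BES

/-! LSP, part G, block FBE -/

namespace Pool.Agent.LSP

open Pool.Agent.LEV Pool.Agent.LVB Pool.Agent.KSL
open Pool.Agent.FG61 (mu phi cc ff AA Lam)
open Complex MeasureTheory Filter Topology UpperHalfPlane ModularGroup ProbabilityTheory
open scoped MatrixGroups Modular ENNReal ModularForm ComplexConjugate ContDiff

theorem fam_bessel_pr {N : ℕ} [Fact N.Prime] {K : ℍ → ℂ} (hK : Bd K) {ι : Type} [Fintype ι]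
    (f : ι → S2 N) (hi : Function.Injective f) (hn : ∀ i, IsNew (f i)) :
    ∑ i, om (f i) * ‖2 * Real.pi * ipH (f i) K‖ ^ 2 ≤ Real.pi * (PP N K K).re := by
  obtain ⟨l, hl⟩ := ip_linear (N := N) hK
  have key := kern_gen f (fun i => new_ne_zero (hn i))
    (fun i j hij => new_orth (hn i) (hn j) (fun h => hij (hi h))) l (pp_nonneg (N := N) hK)
    (fun g _ => by
      rw [hl g, mul_comm]
      exact bessel hK g)
  have h2 := mul_le_mul_of_nonneg_left key Real.pi_pos.le
  refine le_trans (le_of_eq ?_) h2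
  rw [Finset.mul_sum]
  refine Finset.sum_congr rfl fun i _ => ?_
  have hpos : 0 < nr (f i) := nr_pos (new_ne_zero (hn i))
  have hp : Real.pi ≠ 0 := Real.pi_ne_zero
  rw [hl, norm_mul, norm_mul, Complex.norm_real, Real.norm_of_nonneg Real.pi_pos.le,
    show ‖(2 : ℂ)‖ = 2 from by norm_num]
  unfold om
  field_simp
  ring

theorem fam_bessel : type_of% @fam_bessel_pr := @fam_bessel_pr

end Pool.Agent.LSP
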