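import Pool.Agent.Lib_helper41.LSP.DefsG
import Pool.Agent.Lib_helper68.KSLF.REP
import Pool.Agent.Lib_helper68.LEV.GID
import Pool.Agent.Lib_helper68.LEV.QEX
import Pool.Agent.Lib_helper68.LEV.FRK
import Pool.Agent.Lib_helper41.LSPG.BDF
import Pool.Agent.Lib_helper41.LSPG.COO
import Pool.Agent.Lib_helper41.LSPG.SPL

/-! LSP block FUN: the functional of a cone. -/

set_option autoImplicit false

namespace Pool.Agent.LSP

open Pool.Agent.LEV Pool.Agent.LVB Pool.Agent.KSL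
open Pool.Agent.FG61 (mu phi cc ff AA Lam)
open Complex MeasureTheory Filter Topology UpperHalfPlane ModularGroup ProbabilityTheory
open scoped MatrixGroups Modular ENNReal ModularForm ComplexConjugate ContDiff

section
variable {N : ℕ} [Fact N.Prime]

/-- decay at infinity -/
theorem fun_b1 (f : S2 N) : ∃ C : ℝ, 0 < C ∧ ∀ z : ℍ, ‖f z‖ ≤ C / z.im ^ 3 := by
  obtain ⟨C₀, hC₀⟩ := f_bound f
  have hC₁ : ∀ z : ℍ, ‖f z‖ * z.im ≤ C₀ := fun z => by
    have := hC₀ OnePoint.infty z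
    rwa [fam_inf] at this
  have hC₀0 : 0 ≤ C₀ := (mul_nonneg (norm_nonneg _) (UpperHalfPlane.I.im_pos.le)).trans
    (hC₁ UpperHalfPlane.I)
  have h1 : (1 : ℝ) ∈ (G0 N).strictPeriods := by
    simp [CongruenceSubgroup.strictPeriods_Gamma0]
  have ho := CuspFormClass.exp_decay_atImInfty (h := 1) f one_pos h1
  obtain ⟨c, hc, hb⟩ := ho.exists_pos
  rw [Asymptotics.isBigOWith_iff] at hb
  obtain ⟨A, hA⟩ := (UpperHalfPlane.atImInfty_mem _).1 hb
  set A' : ℝ := max A 1 with hA'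
  have hA1 : 1 ≤ A' := le_max_right _ _
  refine ⟨6 * c + C₀ * A' ^ 2, by positivity, fun z => ?_⟩
  have hy := z.im_pos
  rw [le_div_iff₀ (by positivity)]
  rcases le_or_gt A' z.im with h | h
  · have h2 : ‖f z‖ ≤ c * ‖Real.exp (-2 * Real.pi * z.im / 1)‖ := hA z ((le_max_left _ _).trans h)
    rw [Real.norm_of_nonneg (Real.exp_pos _).le] at h2
    have hpi := Real.pi_gt_three
    have h3 : Real.exp (-2 * Real.pi * z.im / 1) * z.im ^ 3 ≤ 6 := by
      have h4 := Real.pow_div_factorial_le_exp (x := 2 * Real.pi * z.im) (by positivity) 3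
      have h5 : ((Nat.factorial 3 : ℕ) : ℝ) = 6 := by norm_num [Nat.factorial]
      rw [h5, div_le_iff₀ (by norm_num)] at h4
      have h6 : Real.exp (-2 * Real.pi * z.im / 1) = (Real.exp (2 * Real.pi * z.im))⁻¹ := by
        rw [← Real.exp_neg]
        congr 1
        ring
      rw [h6, inv_mul_le_iff₀ (Real.exp_pos _)]
      have h7 : z.im ^ 3 ≤ (2 * Real.pi * z.im) ^ 3 := by
        apply pow_le_pow_left₀ hy.le
        nlinarith
      linarith
    have h8 : 0 ≤ C₀ * A' ^ 2 := by positivity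
    have h9 : ‖f z‖ * z.im ^ 3 ≤ c * Real.exp (-2 * Real.pi * z.im / 1) * z.im ^ 3 := by gcongr
    nlinarith
  · have h2 := hC₁ z
    have h3 : ‖f z‖ * z.im ^ 3 = (‖f z‖ * z.im) * z.im ^ 2 := by ring
    have h4 : z.im ^ 2 ≤ A' ^ 2 := by gcongr
    rw [h3]
    have h5 : (‖f z‖ * z.im) * z.im ^ 2 ≤ C₀ * A' ^ 2 := by gcongr
    linarith

/-- decay at a fraction -/
theorem fun_b2 (f : S2 N) {q j : ℕ} (hq : 0 < q) (hcop : (N * j).Coprime q) :
    ∃ C : ℝ, 0 < C ∧ ∀ z : ℍ, ‖f z‖ ≤ C * (‖(q : ℂ) * (z : ℂ) - j‖ ^ 2) ^ 2 / z.im ^ 3 := by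
  have hN : (0 : ℝ) < N := by exact_mod_cast (Fact.out : N.Prime).pos
  obtain ⟨W, hW⟩ := fricke_exists (N := N)
  obtain ⟨C, hC, hb⟩ := fun_b1 (W f)
  obtain ⟨b, hb2⟩ := GID_al_ex (N := N) hq hcop
  set α : ℕ := GID_al N q j with hα
  have hdet : (q : ℤ) * b - (-(j : ℤ)) * (-((N : ℤ) * α)) = 1 := by
    rw [← hb2]
    ring
  set g : SL(2, ℤ) := ⟨!![(q : ℤ), -(j : ℤ); -((N : ℤ) * α), b], by
    rw [Matrix.det_fin_two_of]
    exact hdet⟩ with hg_def
  have g00 : g 0 0 = (q : ℤ) := rfl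
  have g01 : g 0 1 = -(j : ℤ) := rfl
  have g10 : g 1 0 = -((N : ℤ) * α) := rfl
  have hg0 : g ∈ CongruenceSubgroup.Gamma0 N := by
    rw [CongruenceSubgroup.Gamma0_mem, g10]
    push_cast
    simp
  refine ⟨C * (N : ℝ) ^ 2, by positivity, fun z => ?_⟩
  have hy := z.im_pos
  -- equivariance
  have heq := fam_equi f g OnePoint.infty z
  rw [(pa_inf_iff g).mpr hg0, fam_inf] at heq
  have hfr := hW (W f) (g • z)
  rw [fricke_sq hW f, heq] at hfr
  have hgz : ((g • z : ℍ) : ℂ) = ((q : ℂ) * z - j) / jd g z := by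
    rw [Pool.Agent.GL2.RSA_coe_smul, g00, g01]
    unfold jd
    push_cast
    ring
  have hjd0 : jd g z ≠ 0 := Pool.Agent.GL2.RSA_denom_ne g z
  have hgz0 : ((g • z : ℍ) : ℂ) ≠ 0 := (g • z : ℍ).ne_zero
  set B : ℝ := ‖(q : ℂ) * (z : ℂ) - j‖ with hB
  have hBe : B = ‖((g • z : ℍ) : ℂ)‖ * ‖jd g z‖ := by
    rw [hB, ← norm_mul, hgz, div_mul_cancel₀ _ hjd0]
  have hB0 : 0 < B := by
    rw [hBe]
    have h1 := norm_pos_iff.mpr hgz0
    have h2 := norm_pos_iff.mpr hjd0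
    positivity
  have hn := congrArg norm hfr
  rw [norm_mul, norm_mul, norm_inv, norm_mul, norm_pow, norm_pow, Complex.norm_natCast] at hn
  -- imaginary parts
  have him1 : (g • z : ℍ).im = z.im / ‖jd g z‖ ^ 2 := Pool.Agent.GL2.RSA_im_smul g z
  have him2 : (wz N (g • z)).im = z.im / (N * B ^ 2) := by
    have h1 : (wz N (g • z)).im = (g • z : ℍ).im / (N * Complex.normSq ((g • z : ℍ) : ℂ)) := by
      show (-1 / ((N : ℂ) * ((g • z : ℍ) : ℂ))).im = _
      rw [neg_div, Complex.neg_im, one_div, Complex.inv_im, Complex.normSq_mul,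
        Complex.normSq_natCast, Complex.mul_im, Complex.natCast_re, Complex.natCast_im, zero_mul,
        add_zero, neg_div, neg_neg]
      have h2 : Complex.normSq ((g • z : ℍ) : ℂ) ≠ 0 := (Complex.normSq_pos.mpr hgz0).ne'
      have h3 : (N : ℝ) ≠ 0 := hN.ne'
      have h4 : ((g • z : ℍ) : ℂ).im = (g • z : ℍ).im := rfl
      rw [h4]
      field_simp
    rw [h1, him1, hBe, Complex.normSq_eq_norm_sq]
    have h2 := (norm_pos_iff.mpr hgz0).ne'
    have h3 := (norm_pos_iff.mpr hjd0).ne'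
    field_simp
  have h5 := hb (wz N (g • z))
  rw [him2] at h5
  have h6 : ‖f z‖ * B ^ 2 * N = ‖(W f) (wz N (g • z))‖ := by
    have h2 := (norm_pos_iff.mpr hgz0)
    have h3 := (norm_pos_iff.mpr hjd0)
    rw [hBe]
    field_simp at hn
    nlinarith [hn]
  have h7 : ‖f z‖ = ‖(W f) (wz N (g • z))‖ / (N * B ^ 2) := by
    rw [← h6]
    field_simp
  rw [h7]
  calc ‖(W f) (wz N (g • z))‖ / (N * B ^ 2) ≤ (C / (z.im / (N * B ^ 2)) ^ 3) / (N * B ^ 2) := by gcongr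
    _ = C * (N : ℝ) ^ 2 * (B ^ 2) ^ 2 / z.im ^ 3 := by
      field_simp

/-- the point on the ray -/
theorem fun_ray {q j : ℕ} (hq : 0 < q) (t : ℝ) {y : ℝ} (hy : 0 < y) :
    ‖(q : ℂ) * ((pt ((j : ℝ) / q + t * y) y : ℍ) : ℂ) - j‖ ^ 2 =
      (q : ℝ) ^ 2 * (1 + t ^ 2) * y ^ 2 ∧
    ‖((pt ((j : ℝ) / q + t * y) y : ℍ) : ℂ) - (((j : ℝ) / q : ℝ) : ℂ)‖ ^ 2 = (1 + t ^ 2) * y ^ 2 := by
  have hq' : (q : ℂ) ≠ 0 := by exact_mod_cast hq.ne'
  rw [(pt_coe _ hy).1]
  have h1 : (q : ℂ) * ((((j : ℝ) / q + t * y : ℝ) : ℂ) + (y : ℂ) * Complex.I) - j =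
      (((q * (t * y) : ℝ)) : ℂ) + ((q * y : ℝ) : ℂ) * Complex.I := by
    push_cast
    field_simp
    ring
  have h2 : ((((j : ℝ) / q + t * y : ℝ) : ℂ) + (y : ℂ) * Complex.I) - (((j : ℝ) / q : ℝ) : ℂ) =
      (((t * y : ℝ)) : ℂ) + ((y : ℝ) : ℂ) * Complex.I := by
    push_cast
    ring
  rw [h1, h2, ← Complex.normSq_eq_norm_sq, ← Complex.normSq_eq_norm_sq, Complex.normSq_add_mul_I,
    Complex.normSq_add_mul_I]
  constructor <;> ring

/-- the bounds on the rays -/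
theorem fun_bd (f : S2 N) {q j : ℕ} (hq : 0 < q) (hcop : (N * j).Coprime q) (T : ℝ) :
    ∃ C : ℝ, 0 < C ∧ (∀ x y : ℝ, 0 < y → ‖ev f x y‖ ≤ C / y ^ 3) ∧
      ∀ t y : ℝ, |t| ≤ T → 0 < y → ‖ev f ((j : ℝ) / q + t * y) y‖ ≤ C * y := by
  obtain ⟨C₁, h1, hb1⟩ := fun_b1 f
  obtain ⟨C₂, h2, hb2⟩ := fun_b2 f hq hcop
  refine ⟨C₁ + C₂ * ((q : ℝ) ^ 2 * (1 + T ^ 2)) ^ 2, by positivity, fun x y hy => ?_,
    fun t y ht hy => ?_⟩
  · have h3 := hb1 (pt x y)
    rw [(pt_coe x hy).2.2] at h3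
    refine h3.trans ?_
    gcongr
    have : 0 ≤ C₂ * ((q : ℝ) ^ 2 * (1 + T ^ 2)) ^ 2 := by positivity
    linarith
  · have h3 := hb2 (pt ((j : ℝ) / q + t * y) y)
    rw [(pt_coe _ hy).2.2, (fun_ray hq t hy).1] at h3
    have h4 : t ^ 2 ≤ T ^ 2 := by
      have := abs_nonneg t
      rw [← sq_abs t]
      gcongr
    refine h3.trans ?_
    have h5 : C₂ * ((q : ℝ) ^ 2 * (1 + t ^ 2) * y ^ 2) ^ 2 / y ^ 3 =
        C₂ * ((q : ℝ) ^ 2 * (1 + t ^ 2)) ^ 2 * y := by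
      field_simp
    rw [h5]
    have h6 : C₂ * ((q : ℝ) ^ 2 * (1 + t ^ 2)) ^ 2 ≤ C₂ * ((q : ℝ) ^ 2 * (1 + T ^ 2)) ^ 2 := by
      gcongr
    have h7 : C₂ * ((q : ℝ) ^ 2 * (1 + t ^ 2)) ^ 2 ≤
        C₁ + C₂ * ((q : ℝ) ^ 2 * (1 + T ^ 2)) ^ 2 := by linarith
    exact mul_le_mul_of_nonneg_right h7 hy.le

/-- integrability on the vertical half line -/
theorem fun_int (f : S2 N) {q j : ℕ} (hq : 0 < q) (hcop : (N * j).Coprime q) :
    IntegrableOn (fun v : ℝ => ev f ((j : ℝ) / q) v) (Set.Ioi 0) := by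
  obtain ⟨C, hC, hb1, hb2⟩ := fun_bd f hq hcop 0
  have h1 : Set.Ioc (0 : ℝ) 1 ∪ Set.Ioi 1 = Set.Ioi 0 := Set.Ioc_union_Ioi_eq_Ioi zero_le_one
  rw [← h1]
  refine IntegrableOn.union ?_ (GID_int f _ one_pos)
  refine Integrable.mono' (g := fun _ => C) (integrableOn_const (by simp)) ?_ ?_
  · exact ((GID_cont f _).mono (fun v hv => hv.1)).aestronglyMeasurable measurableSet_Ioc
  · refine (ae_restrict_iff' measurableSet_Ioc).2 (Eventually.of_forall fun v hv => ?_)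
    have h2 := hb2 0 v (by simp) hv.1
    rw [zero_mul, add_zero] at h2
    have h3 : C * v ≤ C * 1 := by
      gcongr
      exact hv.2
    linarith

/-- the primitive at a high point -/
theorem fun_P1 (f : S2 N) {C : ℝ} (hb : ∀ x y : ℝ, 0 < y → ‖ev f x y‖ ≤ C / y ^ 3) (x : ℝ) {y : ℝ}
    (hy : 0 < y) : ‖rep_P f ((x : ℂ) + (y : ℂ) * Complex.I)‖ ≤ C / (2 * y ^ 2) := by
  rw [← rep_psi f x hy]
  unfold Psi
  have h1 : IntegrableOn (fun v : ℝ => C * v ^ (-3 : ℝ)) (Set.Ioi y) :=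
    (integrableOn_Ioi_rpow_of_lt (by norm_num) hy).const_mul C
  have h2 : ‖∫ v in Set.Ioi y, ev f x v‖ ≤ ∫ v in Set.Ioi y, C * v ^ (-3 : ℝ) := by
    refine norm_integral_le_of_norm_le h1 ?_
    refine (ae_restrict_iff' measurableSet_Ioi).2 (Eventually.of_forall fun v hv => ?_)
    have hv0 : 0 < v := hy.trans hv
    refine (hb x v hv0).trans (le_of_eq ?_)
    rw [Real.rpow_neg hv0.le, div_eq_mul_inv]
    norm_cast
  refine h2.trans (le_of_eq ?_)
  rw [integral_const_mul, integral_Ioi_rpow_of_lt (by norm_num) hy]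
  have h3 : (-3 : ℝ) + 1 = -2 := by norm_num
  have h4 : y ^ (-2 : ℝ) = (y ^ 2)⁻¹ := by rw [Real.rpow_neg hy.le, Real.rpow_two]
  rw [h3, h4]
  field_simp

/-- the primitive near the fraction -/
theorem fun_P2 (f : S2 N) {l C T : ℝ} (hb : ∀ t y : ℝ, |t| ≤ T → 0 < y → ‖ev f (l + t * y) y‖ ≤ C * y)
    (hC : 0 ≤ C) {t y : ℝ} (ht : |t| ≤ T) (hy : 0 < y) :
    ‖rep_P f (((l + t * y : ℝ) : ℂ) + (y : ℂ) * Complex.I) -
      rep_P f ((l : ℂ) + (y : ℂ) * Complex.I)‖ ≤ C * T * y ^ 2 := by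
  rw [← rep_hor f l hy (t * y), norm_mul, Complex.norm_I, one_mul]
  have h1 : ∀ s ∈ Set.uIoc (0 : ℝ) (t * y), ‖ev f (l + s) y‖ ≤ C * y := by
    intro s hs
    have h2 : |s| ≤ |t * y| := by
      rcases Set.mem_uIoc.mp hs with h | h
      · rw [abs_of_pos h.1, abs_of_pos (h.1.trans_le h.2)]
        exact h.2
      · rw [abs_of_nonpos h.2, abs_of_neg (h.1.trans_le h.2)]
        linarith [h.1]
    have h3 : |s / y| ≤ T := by
      rw [abs_div, abs_of_pos hy, div_le_iff₀ hy]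
      rw [abs_mul, abs_of_pos hy] at h2
      exact h2.trans (mul_le_mul_of_nonneg_right ht hy.le)
    have h4 := hb (s / y) y h3 hy
    rwa [div_mul_cancel₀ _ hy.ne'] at h4
  refine (intervalIntegral.norm_integral_le_of_norm_le_const h1).trans ?_
  rw [sub_zero, abs_mul, abs_of_pos hy]
  calc C * y * (|t| * y) = C * |t| * y ^ 2 := by ring
    _ ≤ C * T * y ^ 2 := by gcongr

/-- the truncated cone on a ray -/
theorem fun_trunc {T : ℝ} {ρ : ℝ → ℝ} (hρ : KerL T ρ) (f : S2 N) {q j : ℕ} (hq : 0 < q) {Y : ℝ}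
    (hY : 1 ≤ Y) (t : ℝ) :
    (∫ y in Set.Ioi (0 : ℝ), (f (pt ((j : ℝ) / q + t * y) y) *
      conj (coneY ρ N q ((j : ℝ) / q) Y (pt ((j : ℝ) / q + t * y) y))) * (y : ℂ)) =
    (ρ t : ℂ) * (rep_P f ((((j : ℝ) / q + t * (1 / (Y * (N * (q : ℝ) ^ 2 * (1 + t ^ 2)))) : ℝ) : ℂ) +
        ((1 / (Y * (N * (q : ℝ) ^ 2 * (1 + t ^ 2))) : ℝ) : ℂ) * Complex.I) -
      rep_P f ((((j : ℝ) / q + t * Y : ℝ) : ℂ) + (Y : ℂ) * Complex.I)) := by
  have hN1 : (1 : ℝ) ≤ N := by exact_mod_cast (Fact.out : N.Prime).one_lt.le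
  have hq1 : (1 : ℝ) ≤ q := by exact_mod_cast hq
  set κ : ℝ := N * (q : ℝ) ^ 2 * (1 + t ^ 2) with hκ
  have hκ1 : 1 ≤ κ := by
    have h1 : (1 : ℝ) ≤ (q : ℝ) ^ 2 := by nlinarith
    have h2 : (1 : ℝ) ≤ 1 + t ^ 2 := by nlinarith [sq_nonneg t]
    calc (1 : ℝ) = 1 * 1 * 1 := by ring
      _ ≤ N * (q : ℝ) ^ 2 * (1 + t ^ 2) := by gcongr
  set a : ℝ := 1 / (Y * κ) with ha
  have hY0 : 0 < Y := by linarith
  have hκ0 : 0 < κ := by linarith
  have ha0 : 0 < a := by positivity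
  have ha1 : a ≤ 1 := by
    rw [ha, div_le_one (by positivity)]
    nlinarith
  have haY : a ≤ Y := ha1.trans hY
  have h1 := rep_ray f ((j : ℝ) / q) t ha0 haY
  rw [← h1, intervalIntegral.integral_of_le haY, ← integral_const_mul,
    integral_Ioc_eq_integral_Ioo, ← integral_indicator measurableSet_Ioi,
    ← integral_indicator measurableSet_Ioo]
  refine integral_congr_ae (Eventually.of_forall fun y => ?_)
  by_cases hy : 0 < y
  · rw [Set.indicator_of_mem (show y ∈ Set.Ioi (0 : ℝ) from hy)]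
    have hp := pt_coe ((j : ℝ) / q + t * y) hy
    have hr := (fun_ray (j := j) hq t hy).2
    have hiff : ((pt ((j : ℝ) / q + t * y) y).im < Y ∧ (pt ((j : ℝ) / q + t * y) y).im <
        Y * (N * (q : ℝ) ^ 2 * ‖((pt ((j : ℝ) / q + t * y) y : ℍ) : ℂ) -
          (((j : ℝ) / q : ℝ) : ℂ)‖ ^ 2)) ↔ y ∈ Set.Ioo a Y := by
      rw [hp.2.2, hr, Set.mem_Ioo, and_comm]
      refine and_congr_left fun _ => ?_
      rw [ha, div_lt_iff₀ (by positivity)]
      have h2 : Y * (N * (q : ℝ) ^ 2 * ((1 + t ^ 2) * y ^ 2)) = y * (y * (Y * κ)) := by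
        rw [hκ]
        ring
      rw [h2]
      constructor
      · intro h
        by_contra h3
        push Not at h3
        nlinarith
      · intro h
        nlinarith
    unfold coneY
    by_cases hc : y ∈ Set.Ioo a Y
    · rw [if_pos (hiff.mpr hc), Set.indicator_of_mem hc]
      unfold cone
      rw [hp.2.1, hp.2.2]
      have h3 : ((j : ℝ) / q + t * y - (j : ℝ) / q) / y = t := by
        field_simp
        ring
      rw [h3]
      unfold ev pt
      rw [map_mul, Complex.conj_ofReal, map_add, map_one, map_mul, Complex.conj_ofReal,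
        Complex.conj_I]
      have hy' : (y : ℂ) ≠ 0 := by exact_mod_cast hy.ne'
      push_cast
      field_simp
      ring
    · rw [if_neg (fun h => hc (hiff.mp h)), Set.indicator_of_notMem hc, map_zero, mul_zero, zero_mul]
  · rw [Set.indicator_of_notMem (show y ∉ Set.Ioi (0 : ℝ) from hy), Set.indicator_of_notMem]
    intro h
    exact hy (ha0.trans h.1)

end

/-- the functional of a cone -/
theorem fun_lim_pr {T : ℝ} {ρ : ℝ → ℝ} (hρ : KerL T ρ) {N : ℕ} [Fact N.Prime] (f : S2 N) {q j : ℕ}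
    (hq : 1 ≤ q) (hqN : q < N) (hj : j ∈ RR q) :
    Tendsto (fun Y : ℝ => ipH f (coneY ρ N q ((j : ℝ) / q) Y)) atTop
      (𝓝 (∫ v in Set.Ioi (0 : ℝ), ev f ((j : ℝ) / q) v)) := by
  have hNp : N.Prime := Fact.out
  have hN1 : (1 : ℝ) ≤ N := by exact_mod_cast hNp.one_lt.le
  have hq1 : (1 : ℝ) ≤ q := by exact_mod_cast hq
  have hT := hρ.T1
  have hcop : (N * j).Coprime q := by
    unfold RR at hj
    rw [Finset.mem_filter] at hj
    refine Nat.Coprime.mul_left ((Nat.Prime.coprime_iff_not_dvd hNp).mpr fun h => ?_) hj.2.symm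
    have := Nat.le_of_dvd hq h
    omega
  obtain ⟨C, hC, hb1, hb2⟩ := fun_bd f hq hcop T
  set l : ℝ := (j : ℝ) / q with hl
  have hint := fun_int f hq hcop
  set V : ℂ := ∫ v in Set.Ioi (0 : ℝ), ev f l v with hV
  set a : ℝ → ℝ → ℝ := fun Y t => 1 / (Y * (N * (q : ℝ) ^ 2 * (1 + t ^ 2))) with ha
  set J : ℝ → ℝ → ℂ := fun Y t =>
    (ρ t : ℂ) * (rep_P f (((l + t * a Y t : ℝ) : ℂ) + ((a Y t : ℝ) : ℂ) * Complex.I) -
      rep_P f (((l + t * Y : ℝ) : ℂ) + (Y : ℂ) * Complex.I)) with hJ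
  have hκ1 : ∀ t : ℝ, 1 ≤ N * (q : ℝ) ^ 2 * (1 + t ^ 2) := by
    intro t
    have h1 : (1 : ℝ) ≤ (q : ℝ) ^ 2 := by nlinarith
    have h2 : (1 : ℝ) ≤ 1 + t ^ 2 := by nlinarith [sq_nonneg t]
    calc (1 : ℝ) = 1 * 1 * 1 := by ring
      _ ≤ N * (q : ℝ) ^ 2 * (1 + t ^ 2) := by gcongr
  have ha0 : ∀ Y t : ℝ, 1 ≤ Y → 0 < a Y t := fun Y t hY => by
    have := hκ1 t
    rw [ha]
    simp only
    have h2 : 0 < Y := by linarith
    have h3 : 0 < N * (q : ℝ) ^ 2 * (1 + t ^ 2) := by linarith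
    positivity
  have ha1 : ∀ Y t : ℝ, 1 ≤ Y → a Y t ≤ 1 / Y := fun Y t hY => by
    have := hκ1 t
    rw [ha]
    simp only
    have h2 : 0 < Y := by linarith
    apply one_div_le_one_div_of_le h2
    nlinarith
  have heq : ∀ Y : ℝ, 1 ≤ Y → ipH f (coneY ρ N q l Y) = ∫ t : ℝ, J Y t := by
    intro Y hY
    unfold ipH
    have h1 := coo_cone (F := fun z => f z * conj (coneY ρ N q l Y z))
      (bd_int_form f (coneY_bd hρ hNp.one_lt.le hq l Y)) l
    rw [h1]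
    refine integral_congr_ae (Eventually.of_forall fun t => ?_)
    exact fun_trunc hρ f hq hY t
  have hρi : Integrable ρ := by
    by_contra h
    have := hρ.int
    rw [integral_undef h] at this
    exact one_ne_zero this.symm
  -- values near the fraction
  have hPl : ∀ y : ℝ, 0 < y → rep_P f ((l : ℂ) + (y : ℂ) * Complex.I) =
      ∫ v in Set.Ioi y, ev f l v := fun y hy => (rep_psi f l hy).symm
  have hVy : ∀ y : ℝ, 0 < y → ‖(∫ v in Set.Ioi y, ev f l v) - V‖ ≤ C * y ^ 2 := by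
    intro y hy
    have h1 : Set.Ioc (0 : ℝ) y ∪ Set.Ioi y = Set.Ioi 0 := Set.Ioc_union_Ioi_eq_Ioi hy.le
    have h2 : V = (∫ v in Set.Ioc 0 y, ev f l v) + ∫ v in Set.Ioi y, ev f l v := by
      rw [hV, ← h1, setIntegral_union (Set.Ioc_disjoint_Ioi le_rfl) measurableSet_Ioi
        (hint.mono_set Set.Ioc_subset_Ioi_self) (hint.mono_set (Set.Ioi_subset_Ioi hy.le))]
    have h3 : (∫ v in Set.Ioi y, ev f l v) - V = -∫ v in Set.Ioc 0 y, ev f l v := by
      rw [h2]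
      ring
    rw [h3, norm_neg]
    have h4 : ‖∫ v in Set.Ioc 0 y, ev f l v‖ ≤ C * y * (volume (Set.Ioc 0 y)).toReal := by
      refine norm_setIntegral_le_of_norm_le_const (by simp) (fun v hv => ?_)
      have h5 := hb2 0 v (by rw [abs_zero]; linarith) hv.1
      rw [zero_mul, add_zero] at h5
      exact h5.trans (mul_le_mul_of_nonneg_left hv.2 hC.le)
    rw [Real.volume_Ioc, sub_zero, ENNReal.toReal_ofReal hy.le] at h4
    linarith
  have key : ∀ Y : ℝ, 1 ≤ Y → ∀ t : ℝ, ‖J Y t - (ρ t : ℂ) * V‖ ≤ ρ t * (C * (T + 2) / Y ^ 2) := by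
    intro Y hY t
    have hY0 : 0 < Y := by linarith
    by_cases ht : |t| ≤ T
    · have hρt := hρ.nonneg t
      have ha0' := ha0 Y t hY
      have ha2 : a Y t ^ 2 ≤ 1 / Y ^ 2 := by
        have := ha1 Y t hY
        calc a Y t ^ 2 ≤ (1 / Y) ^ 2 := by gcongr
          _ = 1 / Y ^ 2 := by rw [div_pow, one_pow]
      have h1 := fun_P2 f (l := l) hb2 hC.le ht ha0'
      rw [hPl _ ha0'] at h1
      have h2 := hVy _ ha0'
      have h3 := fun_P1 f hb1 (l + t * Y) hY0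
      have h4 : J Y t - (ρ t : ℂ) * V = (ρ t : ℂ) *
          ((rep_P f (((l + t * a Y t : ℝ) : ℂ) + ((a Y t : ℝ) : ℂ) * Complex.I) -
            ∫ v in Set.Ioi (a Y t), ev f l v) + ((∫ v in Set.Ioi (a Y t), ev f l v) - V) -
            rep_P f (((l + t * Y : ℝ) : ℂ) + (Y : ℂ) * Complex.I)) := by
        rw [hJ]
        ring
      rw [h4, norm_mul, Complex.norm_real, Real.norm_of_nonneg hρt]
      refine mul_le_mul_of_nonneg_left ?_ hρt
      refine (norm_sub_le _ _).trans ((add_le_add (norm_add_le _ _) le_rfl).trans ?_)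
      have h5 : C / (2 * Y ^ 2) ≤ C * (1 / Y ^ 2) := by
        rw [div_le_iff₀ (by positivity)]
        field_simp
        linarith
      have h6 : C * T * a Y t ^ 2 ≤ C * T * (1 / Y ^ 2) := by
        have : 0 ≤ C * T := by positivity
        gcongr
      have h7 : C * a Y t ^ 2 ≤ C * (1 / Y ^ 2) := by gcongr
      have h8 : C * (T + 2) / Y ^ 2 = C * T * (1 / Y ^ 2) + C * (1 / Y ^ 2) + C * (1 / Y ^ 2) := by
        ring
      rw [h8]
      linarith
    · have h1 : ρ t = 0 := hρ.supp t (not_le.mp ht)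
      rw [hJ]
      simp [h1]
  have hJc : ∀ Y : ℝ, 1 ≤ Y → Continuous (J Y) := by
    intro Y hY
    have hY0 : 0 < Y := by linarith
    have hac : Continuous (a Y) := by
      rw [ha]
      refine continuous_const.div (by fun_prop) (fun t => ?_)
      have h1 := hκ1 t
      have h3 : 0 < N * (q : ℝ) ^ 2 * (1 + t ^ 2) := by linarith
      positivity
    have h1 : Continuous (fun t : ℝ => rep_P f (((l + t * a Y t : ℝ) : ℂ) +
        ((a Y t : ℝ) : ℂ) * Complex.I)) := by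
      refine (rep_contOn f).comp_continuous ?_ (fun t => ?_)
      · have := Complex.continuous_ofReal.comp hac
        have h2 : Continuous (fun t : ℝ => ((l + t * a Y t : ℝ) : ℂ)) :=
          Complex.continuous_ofReal.comp (continuous_const.add (continuous_id.mul hac))
        exact h2.add (this.mul continuous_const)
      · show 0 < ((((l + t * a Y t : ℝ) : ℂ) + ((a Y t : ℝ) : ℂ) * Complex.I)).im
        have := ha0 Y t hY
        simpa using this
    have h2 : Continuous (fun t : ℝ => rep_P f (((l + t * Y : ℝ) : ℂ) + (Y : ℂ) * Complex.I)) := by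
      refine (rep_contOn f).comp_continuous (by fun_prop) (fun t => ?_)
      show 0 < ((((l + t * Y : ℝ) : ℂ) + (Y : ℂ) * Complex.I)).im
      simpa using hY0
    exact (Complex.continuous_ofReal.comp hρ.cont).mul (h1.sub h2)
  have hV1 : ∫ t : ℝ, (ρ t : ℂ) * V = V := by
    rw [integral_mul_const, integral_complex_ofReal, hρ.int, Complex.ofReal_one, one_mul]
  have hρV : Integrable (fun t : ℝ => (ρ t : ℂ) * V) := hρi.ofReal.mul_const V
  have hfin : ∀ Y : ℝ, 1 ≤ Y → ‖ipH f (coneY ρ N q l Y) - V‖ ≤ C * (T + 2) / Y ^ 2 := by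
    intro Y hY
    have hbd : Integrable (fun t : ℝ => ρ t * (C * (T + 2) / Y ^ 2)) := hρi.mul_const _
    have hd : Integrable (fun t : ℝ => J Y t - (ρ t : ℂ) * V) := by
      refine Integrable.mono' hbd ?_ (Eventually.of_forall (key Y hY))
      exact ((hJc Y hY).aestronglyMeasurable).sub hρV.aestronglyMeasurable
    have hJi : Integrable (J Y) := by
      refine (hd.add hρV).congr (Eventually.of_forall fun t => ?_)
      simp
    have h1 : ipH f (coneY ρ N q l Y) - V = ∫ t : ℝ, (J Y t - (ρ t : ℂ) * V) := by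
      rw [heq Y hY, integral_sub hJi hρV, hV1]
    rw [h1]
    refine (norm_integral_le_of_norm_le hbd (Eventually.of_forall (key Y hY))).trans (le_of_eq ?_)
    rw [integral_mul_const, hρ.int, one_mul]
  rw [tendsto_iff_norm_sub_tendsto_zero]
  have hz : Tendsto (fun Y : ℝ => C * (T + 2) / Y ^ 2) atTop (𝓝 0) :=
    tendsto_const_nhds.div_atTop (tendsto_pow_atTop (by norm_num))
  refine squeeze_zero' (Eventually.of_forall fun Y => norm_nonneg _) ?_ hz
  filter_upwards [eventually_ge_atTop 1] with Y hY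
  exact hfin Y hY

theorem fun_lim : type_of% @fun_lim_pr := @fun_lim_pr

end Pool.Agent.LSP
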