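import Pool.Agent.Lib_helper41.LSP.DefsG
import Pool.Agent.Lib_helper41.LSPG.BDF
import Pool.Agent.Lib_helper41.LSPG.COO

/-! LSP, block KSN: the norm of the kernel of a Hecke polynomial. -/

namespace Pool.Agent.LSP

open Pool.Agent.LEV Pool.Agent.LVB Pool.Agent.KSL
open Pool.Agent.FG61 (mu phi cc ff AA Lam)
open Complex MeasureTheory Filter Topology UpperHalfPlane ModularGroup ProbabilityTheory
open scoped MatrixGroups Modular ENNReal ModularForm ComplexConjugate ContDiff

theorem ksn_norm_e (m : ℕ) (z : ℍ) :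
    ‖cexp (2 * Real.pi * Complex.I * m * (z : ℂ))‖ ≤ 1 := by
  rw [Complex.norm_exp]
  apply Real.exp_le_one_iff.mpr
  have : (2 * (Real.pi : ℂ) * Complex.I * m * (z : ℂ)).re = -(2 * Real.pi * m * z.im) := by
    simp [Complex.mul_re, Complex.mul_im]
  rw [this]
  have := z.im_pos
  have := Real.pi_pos
  have : 0 ≤ 2 * Real.pi * m * z.im := by positivity
  linarith

theorem ks_bd_pr (m₀ : ℕ) (s : ℕ → ℝ) {yS : ℝ} (h : 0 < yS) (Y : ℝ) : Bd (KS m₀ s yS Y) := by
  have hre : Measurable (fun z : ℍ => z.re) := UpperHalfPlane.continuous_re.measurable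
  have him : Measurable (fun z : ℍ => z.im) := UpperHalfPlane.continuous_im.measurable
  have hco : Measurable (fun z : ℍ => (z : ℂ)) := UpperHalfPlane.measurable_coe
  refine ⟨?_, yS, |Y| + 1 + ∑ m ∈ Finset.Icc 1 m₀,
    |s m * (2 * Real.sqrt m) * Real.exp (4 * Real.pi * m * yS)|, h, ?_, ?_⟩
  · unfold KS
    refine Measurable.ite ?_ ?_ measurable_const
    · exact ((measurableSet_le measurable_const hre).inter
        ((measurableSet_lt hre measurable_const).inter
        ((measurableSet_lt measurable_const him).inter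
        (measurableSet_lt him measurable_const))))
    · refine Finset.measurable_sum _ fun m _ => ?_
      exact (Complex.measurable_exp.comp (hco.const_mul _)).const_mul _
  · intro z
    have hS : 0 ≤ ∑ m ∈ Finset.Icc 1 m₀,
      |s m * (2 * Real.sqrt m) * Real.exp (4 * Real.pi * m * yS)| :=
      Finset.sum_nonneg fun _ _ => abs_nonneg _
    unfold KS
    split_ifs with hc
    · refine (norm_sum_le _ _).trans ?_
      have : ∑ m ∈ Finset.Icc 1 m₀, ‖((s m * (2 * Real.sqrt m) *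
          Real.exp (4 * Real.pi * m * yS) : ℝ) : ℂ) * cexp (2 * Real.pi * Complex.I * m * (z : ℂ))‖ ≤
          ∑ m ∈ Finset.Icc 1 m₀, |s m * (2 * Real.sqrt m) * Real.exp (4 * Real.pi * m * yS)| := by
        refine Finset.sum_le_sum fun m _ => ?_
        rw [norm_mul, Complex.norm_real, Real.norm_eq_abs]
        exact mul_le_of_le_one_right (abs_nonneg _) (ksn_norm_e m z)
      have := abs_nonneg Y
      linarith
    · have := abs_nonneg Y
      simp only [norm_zero]
      linarith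
  · intro z hz
    have hS : 0 ≤ ∑ m ∈ Finset.Icc 1 m₀,
      |s m * (2 * Real.sqrt m) * Real.exp (4 * Real.pi * m * yS)| :=
      Finset.sum_nonneg fun _ _ => abs_nonneg _
    have hc : 0 ≤ z.re ∧ z.re < 1 ∧ yS < z.im ∧ z.im < Y := by
      by_contra hc
      exact hz (by unfold KS; rw [if_neg hc])
    have h1 := le_abs_self Y
    have h2 := abs_nonneg Y
    refine ⟨hc.2.2.1.le, by linarith [hc.2.2.2], ?_⟩
    rw [abs_of_nonneg hc.1]
    linarith [hc.2.1]

/-- only the identity and its negative matter -/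
theorem ksn_pair {N : ℕ} (hN : 1 ≤ N) (m₀ : ℕ) (s : ℕ → ℝ) {yS : ℝ} (h : 1 / (N : ℝ) ≤ yS)
    (Y : ℝ) (g : SL(2, ℤ)) (hg : (N : ℤ) ∣ g 1 0) (h1 : g ≠ 1) (h2 : g ≠ -1) (z : ℍ) :
    KS m₀ s yS Y z * conj ((KS m₀ s yS Y ∣[(2 : ℤ)] g) z) = 0 := by
  by_contra hne
  have hz1 : KS m₀ s yS Y z ≠ 0 := left_ne_zero_of_mul hne
  have hz2 : KS m₀ s yS Y (g • z) ≠ 0 := by
    intro h0
    apply hne
    rw [ModularForm.SL_slash_apply, h0]
    simp
  have hc1 : 0 ≤ z.re ∧ z.re < 1 ∧ yS < z.im ∧ z.im < Y := by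
    by_contra hc
    exact hz1 (by unfold KS; rw [if_neg hc])
  have hc2 : 0 ≤ (g • z).re ∧ (g • z).re < 1 ∧ yS < (g • z).im ∧ (g • z).im < Y := by
    by_contra hc
    exact hz2 (by unfold KS; rw [if_neg hc])
  have hN0 : (0 : ℝ) < N := by
    have : 0 < N := hN
    exact_mod_cast this
  have hd : g 0 0 * g 1 1 - g 0 1 * g 1 0 = 1 := by
    have := g.det_coe
    rwa [Matrix.det_fin_two] at this
  by_cases hc : g 1 0 = 0
  · rw [hc] at hd
    have had : g 0 0 * g 1 1 = 1 := by linarith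
    rcases Int.mul_eq_one_iff_eq_one_or_neg_one.mp had with ⟨ha, hd'⟩ | ⟨ha, hd'⟩
    · have hre : (g • z).re = z.re + g 0 1 := by
        have : ((g • z : ℍ) : ℂ) = (z : ℂ) + (g 0 1 : ℤ) := by
          rw [UpperHalfPlane.specialLinearGroup_apply]
          simp [ha, hd', hc]
        have := congrArg Complex.re this
        simpa using this
      have hb : g 0 1 = 0 := by
        rw [hre] at hc2
        have e1 : (-1 : ℝ) < g 0 1 := by linarith [hc2.1, hc1.2.1]
        have e2 : (g 0 1 : ℝ) < 1 := by linarith [hc2.2.1, hc1.1]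
        have e3 : (-1 : ℤ) < g 0 1 := by exact_mod_cast e1
        have e4 : g 0 1 < (1 : ℤ) := by exact_mod_cast e2
        omega
      apply h1
      ext i l
      fin_cases i <;> fin_cases l <;> simp [ha, hb, hc, hd']
    · have hre : (g • z).re = z.re - g 0 1 := by
        have : ((g • z : ℍ) : ℂ) = (z : ℂ) - (g 0 1 : ℤ) := by
          rw [UpperHalfPlane.specialLinearGroup_apply]
          simp [ha, hd', hc]
          rw [div_neg, div_one]
          ring
        have := congrArg Complex.re this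
        simpa using this
      have hb : g 0 1 = 0 := by
        rw [hre] at hc2
        have e1 : (-1 : ℝ) < g 0 1 := by linarith [hc2.2.1, hc1.1]
        have e2 : (g 0 1 : ℝ) < 1 := by linarith [hc2.1, hc1.2.1]
        have e3 : (-1 : ℤ) < g 0 1 := by exact_mod_cast e1
        have e4 : g 0 1 < (1 : ℤ) := by exact_mod_cast e2
        omega
      apply h2
      ext i l
      fin_cases i <;> fin_cases l <;> simp [ha, hb, hc, hd']
  · have hcN : (N : ℝ) ≤ |((g 1 0 : ℤ) : ℝ)| := by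
      have : (N : ℤ) ≤ |g 1 0| := Int.le_of_dvd (abs_pos.mpr hc) ((dvd_abs _ _).mpr hg)
      exact_mod_cast this
    have him : (g • z).im = z.im / Complex.normSq (denom g z) := ModularGroup.im_smul_eq_div_normSq g z
    have hden : (((g 1 0 : ℤ) : ℝ) * z.im) ^ 2 ≤ Complex.normSq (denom g z) := by
      rw [ModularGroup.denom_apply, Complex.normSq_apply]
      simp
      nlinarith [sq_nonneg (((g 1 0 : ℤ) : ℝ) * z.re + ((g 1 1 : ℤ) : ℝ))]
    have hy := z.im_pos
    have hcy : (N : ℝ) ^ 2 * z.im ^ 2 ≤ Complex.normSq (denom g z) := by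
      refine le_trans ?_ hden
      rw [mul_pow, ← sq_abs ((g 1 0 : ℤ) : ℝ)]
      gcongr
    have hpos : 0 < Complex.normSq (denom g z) := lt_of_lt_of_le (by positivity) hcy
    have h3 : (g • z).im * ((N : ℝ) ^ 2 * z.im ^ 2) ≤ z.im := by
      rw [him]
      calc z.im / Complex.normSq (denom g z) * ((N : ℝ) ^ 2 * z.im ^ 2)
          ≤ z.im / Complex.normSq (denom g z) * Complex.normSq (denom g z) := by gcongr
        _ = z.im := by field_simp
    have h4 : 1 / (N : ℝ) < z.im := lt_of_le_of_lt h hc1.2.2.1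
    have h5 : 1 / (N : ℝ) < (g • z).im := lt_of_le_of_lt h hc2.2.2.1
    have h6 : 1 < N * z.im := by rwa [div_lt_iff₀' hN0] at h4
    have h7 : 1 < N * (g • z).im := by rwa [div_lt_iff₀' hN0] at h5
    have h8 : (N * (g • z).im) * (N * z.im) ≤ 1 := by
      have : (N * (g • z).im) * (N * z.im) * z.im ≤ 1 * z.im := by nlinarith
      exact le_of_mul_le_mul_right this hy
    nlinarith

theorem ksn_neg (K : ℍ → ℂ) : K ∣[(2 : ℤ)] (-1 : SL(2, ℤ)) = K := by
  ext z
  rw [ModularForm.SL_slash_apply, ModularGroup.SL_neg_smul, one_smul, ModularGroup.denom_apply]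
  simp

theorem ksn_pp {N : ℕ} [hN : Fact N.Prime] (m₀ : ℕ) (s : ℕ → ℝ) {yS : ℝ} (h : 1 / (N : ℝ) ≤ yS)
    (Y : ℝ) : PP N (KS m₀ s yS Y) (KS m₀ s yS Y) = ipH (KS m₀ s yS Y) (KS m₀ s yS Y) := by
  classical
  unfold PP
  set K := KS m₀ s yS Y with hK
  have hng : (-1 : SL(2, ℤ)) ∈ CongruenceSubgroup.Gamma0 N := by
    rw [CongruenceSubgroup.Gamma0_mem]
    simp
  have h1ng : (1 : CongruenceSubgroup.Gamma0 N) ≠ ⟨-1, hng⟩ := by
    intro h0
    have := congrArg (fun g : CongruenceSubgroup.Gamma0 N => (g : SL(2, ℤ)) 0 0) h0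
    simp at this
  rw [tsum_eq_sum (s := {(1 : CongruenceSubgroup.Gamma0 N), ⟨-1, hng⟩}), Finset.sum_pair h1ng]
  · simp only [OneMemClass.coe_one, SlashAction.slash_one, ksn_neg]
    ring
  · intro g hg
    simp only [Finset.mem_insert, Finset.mem_singleton, not_or] at hg
    unfold ipH
    have : ∀ z : ℍ, K z * conj ((K ∣[(2 : ℤ)] (g : SL(2, ℤ))) z) * ((z.im ^ 2 : ℝ) : ℂ) = 0 := by
      intro z
      rw [hK, ksn_pair hN.out.one_le m₀ s h Y (g : SL(2, ℤ)) ?_ ?_ ?_ z, zero_mul]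
      · exact (ZMod.intCast_zmod_eq_zero_iff_dvd _ _).mp (CongruenceSubgroup.Gamma0_mem.mp g.2)
      · intro h0
        exact hg.1 (Subtype.ext h0)
      · intro h0
        exact hg.2 (Subtype.ext h0)
    simp only [this, integral_zero]

theorem ksn_orth (m n : ℕ) : ∫ x in (0 : ℝ)..1,
    cexp (2 * Real.pi * Complex.I * ((m : ℂ) - n) * x) = if m = n then 1 else 0 := by
  split_ifs with hmn
  · rw [hmn]
    simp
  · have hc : 2 * (Real.pi : ℂ) * Complex.I * ((m : ℂ) - n) ≠ 0 := by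
      have h1 : ((m : ℂ) - n) ≠ 0 := by
        rw [sub_ne_zero]
        exact_mod_cast hmn
      have h2 := Complex.two_pi_I_ne_zero
      exact mul_ne_zero h2 h1
    rw [integral_exp_mul_complex hc]
    have : cexp (2 * (Real.pi : ℂ) * Complex.I * ((m : ℂ) - n) * ((1 : ℝ) : ℂ)) = 1 := by
      have := Complex.exp_int_mul_two_pi_mul_I ((m : ℤ) - n)
      rw [← this]
      congr 1
      push_cast
      ring
    rw [this]
    simp

/-- the norm at a fixed height -/
theorem ksn_inner (m₀ : ℕ) (c : ℕ → ℝ) (y : ℝ) :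
    ∫ x in (0 : ℝ)..1, (∑ m ∈ Finset.Icc 1 m₀, (c m : ℂ) *
        cexp (2 * Real.pi * Complex.I * m * ((x : ℂ) + (y : ℂ) * Complex.I))) *
      conj (∑ m ∈ Finset.Icc 1 m₀, (c m : ℂ) *
        cexp (2 * Real.pi * Complex.I * m * ((x : ℂ) + (y : ℂ) * Complex.I))) =
      ((∑ m ∈ Finset.Icc 1 m₀, c m ^ 2 * Real.exp (-(4 * Real.pi * m * y)) : ℝ) : ℂ) := by
  have e1 : ∀ x : ℝ, (∑ m ∈ Finset.Icc 1 m₀, (c m : ℂ) *
        cexp (2 * Real.pi * Complex.I * m * ((x : ℂ) + (y : ℂ) * Complex.I))) *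
      conj (∑ m ∈ Finset.Icc 1 m₀, (c m : ℂ) *
        cexp (2 * Real.pi * Complex.I * m * ((x : ℂ) + (y : ℂ) * Complex.I))) =
      ∑ m ∈ Finset.Icc 1 m₀, ∑ n ∈ Finset.Icc 1 m₀,
        ((c m * c n * Real.exp (-(2 * Real.pi * (m + n) * y)) : ℝ) : ℂ) *
          cexp (2 * Real.pi * Complex.I * ((m : ℂ) - n) * x) := by
    intro x
    rw [map_sum, Finset.sum_mul_sum]
    refine Finset.sum_congr rfl fun m _ => Finset.sum_congr rfl fun n _ => ?_
    rw [map_mul, Complex.conj_ofReal, ← Complex.exp_conj]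
    push_cast
    rw [show (c m : ℂ) * cexp (2 * Real.pi * Complex.I * m * ((x : ℂ) + (y : ℂ) * Complex.I)) *
      ((c n : ℂ) * cexp (conj (2 * Real.pi * Complex.I * n * ((x : ℂ) + (y : ℂ) * Complex.I)))) =
      (c m : ℂ) * c n * (cexp (2 * Real.pi * Complex.I * m * ((x : ℂ) + (y : ℂ) * Complex.I)) *
       cexp (conj (2 * Real.pi * Complex.I * n * ((x : ℂ) + (y : ℂ) * Complex.I)))) by ring,
      ← Complex.exp_add]
    rw [mul_assoc ((c m : ℂ) * c n), ← Complex.exp_add]
    congr 2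
    simp only [map_mul, map_add, Complex.conj_ofReal, Complex.conj_I, map_ofNat, map_natCast]
    linear_combination (2 * (Real.pi : ℂ) * m * y + 2 * (Real.pi : ℂ) * n * y) * Complex.I_sq
  simp only [e1]
  rw [intervalIntegral.integral_finsetSum]
  · push_cast
    refine Finset.sum_congr rfl fun m hm => ?_
    rw [intervalIntegral.integral_finsetSum]
    · simp only [intervalIntegral.integral_const_mul, ksn_orth, mul_ite, mul_one, mul_zero]
      rw [Finset.sum_ite_eq, if_pos hm]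
      push_cast
      rw [sq]
      congr 2
      ring
    · intro n _
      exact Continuous.intervalIntegrable (by fun_prop) _ _
  · intro m _
    exact Continuous.intervalIntegrable (by fun_prop) _ _

theorem ksn_ip (m₀ : ℕ) (s : ℕ → ℝ) {yS : ℝ} (h : 0 < yS) {Y : ℝ} (hY : yS ≤ Y) :
    ipH (KS m₀ s yS Y) (KS m₀ s yS Y) =
      ((∑ m ∈ Finset.Icc 1 m₀, (s m * (2 * Real.sqrt m) * Real.exp (4 * Real.pi * m * yS)) ^ 2 *
        ((Real.exp (-(4 * Real.pi * m * yS)) - Real.exp (-(4 * Real.pi * m * Y))) /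
          (4 * Real.pi * m)) : ℝ) : ℂ) := by
  have hb := ks_bd_pr m₀ s h Y
  unfold ipH
  rw [coo_iter (F := fun z => KS m₀ s yS Y z * conj (KS m₀ s yS Y z)) (bd_int hb hb)]
  set c : ℕ → ℝ := fun m => s m * (2 * Real.sqrt m) * Real.exp (4 * Real.pi * m * yS) with hc
  have e1 : ∀ y ∈ Set.Ioi (0 : ℝ), (∫ x : ℝ, KS m₀ s yS Y (pt x y) * conj (KS m₀ s yS Y (pt x y))) =
      (Set.Ioo yS Y).indicator (fun y : ℝ =>
        ((∑ m ∈ Finset.Icc 1 m₀, c m ^ 2 * Real.exp (-(4 * Real.pi * m * y)) : ℝ) : ℂ)) y := by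
    intro y hy
    by_cases hyy : y ∈ Set.Ioo yS Y
    · rw [Set.indicator_of_mem hyy, ← ksn_inner, intervalIntegral.integral_of_le zero_le_one,
        ← integral_Ico_eq_integral_Ioc, ← integral_indicator measurableSet_Ico]
      congr 1
      ext x
      obtain ⟨p1, p2, p3⟩ := pt_coe x hy
      by_cases hx : x ∈ Set.Ico (0 : ℝ) 1
      · rw [Set.indicator_of_mem hx]
        unfold KS
        rw [if_pos ⟨by rw [p2]; exact hx.1, by rw [p2]; exact hx.2, by rw [p3]; exact hyy.1,
          by rw [p3]; exact hyy.2⟩, p1]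
      · rw [Set.indicator_of_notMem hx]
        unfold KS
        rw [if_neg, zero_mul]
        rw [p2]
        exact fun h0 => hx ⟨h0.1, h0.2.1⟩
    · rw [Set.indicator_of_notMem hyy]
      have : ∀ x : ℝ, KS m₀ s yS Y (pt x y) * conj (KS m₀ s yS Y (pt x y)) = 0 := by
        intro x
        obtain ⟨p1, p2, p3⟩ := pt_coe x hy
        unfold KS
        rw [if_neg, zero_mul]
        rw [p3]
        exact fun h0 => hyy ⟨h0.2.2.1, h0.2.2.2⟩
      simp only [this, integral_zero]
  rw [setIntegral_congr_fun measurableSet_Ioi e1, setIntegral_indicator measurableSet_Ioo]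
  have e2 : Set.Ioi (0 : ℝ) ∩ Set.Ioo yS Y = Set.Ioo yS Y :=
    Set.inter_eq_right.mpr fun y hy => lt_trans h hy.1
  rw [e2, ← integral_Ioc_eq_integral_Ioo, ← intervalIntegral.integral_of_le hY,
    intervalIntegral.integral_ofReal]
  norm_cast
  rw [intervalIntegral.integral_finsetSum]
  · refine Finset.sum_congr rfl fun m hm => ?_
    have hm1 : 1 ≤ m := (Finset.mem_Icc.mp hm).1
    have hm0 : (0 : ℝ) < m := by
      have : 0 < m := hm1
      exact_mod_cast this
    rw [intervalIntegral.integral_const_mul]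
    congr 1
    have hpi := Real.pi_pos
    have e3 : ∀ y : ℝ, Real.exp (-(4 * Real.pi * m * y)) = Real.exp ((-(4 * Real.pi * m)) * y) := by
      intro y; congr 1; ring
    simp only [e3]
    rw [intervalIntegral.integral_comp_mul_left (fun y => Real.exp y) (by
      have : 0 < 4 * Real.pi * m := by positivity
      linarith), integral_exp]
    simp only [smul_eq_mul]
    field_simp
    ring
  · intro m _
    exact Continuous.intervalIntegrable (by fun_prop) _ _

theorem ks_norm_pr {N : ℕ} [Fact N.Prime] {m₀ : ℕ} {s : ℕ → ℝ} (hs : ∀ m, s m ≠ 0 → 1 ≤ m ∧ m ≤ m₀)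
    {yS : ℝ} (h : 1 / (N : ℝ) ≤ yS) :
    Tendsto (fun Y : ℝ => (PP N (KS m₀ s yS Y) (KS m₀ s yS Y)).re) atTop
      (𝓝 (1 / Real.pi * ∑ m ∈ Finset.Icc 1 m₀, s m ^ 2 * Real.exp (4 * Real.pi * m * yS))) := by
  have hN0 : (0 : ℝ) < N := by
    have : 0 < N := (Fact.out : N.Prime).pos
    exact_mod_cast this
  have hyS : 0 < yS := lt_of_lt_of_le (by positivity) h
  have hpi := Real.pi_pos
  have hlim : Tendsto (fun Y : ℝ => ∑ m ∈ Finset.Icc 1 m₀,
      (s m * (2 * Real.sqrt m) * Real.exp (4 * Real.pi * m * yS)) ^ 2 *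
        ((Real.exp (-(4 * Real.pi * m * yS)) - Real.exp (-(4 * Real.pi * m * Y))) /
          (4 * Real.pi * m))) atTop
      (𝓝 (∑ m ∈ Finset.Icc 1 m₀,
        (s m * (2 * Real.sqrt m) * Real.exp (4 * Real.pi * m * yS)) ^ 2 *
        ((Real.exp (-(4 * Real.pi * m * yS)) - 0) / (4 * Real.pi * m)))) := by
    refine tendsto_finsetSum _ fun m hm => ?_
    have hm1 : 1 ≤ m := (Finset.mem_Icc.mp hm).1
    have hm0 : (0 : ℝ) < m := by
      have : 0 < m := hm1
      exact_mod_cast this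
    refine Tendsto.const_mul _ (Tendsto.div_const (Tendsto.const_sub _ ?_) _)
    refine Real.tendsto_exp_neg_atTop_nhds_zero.comp ?_
    exact Tendsto.const_mul_atTop (by positivity) tendsto_id
  have hval : ∑ m ∈ Finset.Icc 1 m₀,
        (s m * (2 * Real.sqrt m) * Real.exp (4 * Real.pi * m * yS)) ^ 2 *
        ((Real.exp (-(4 * Real.pi * m * yS)) - 0) / (4 * Real.pi * m)) =
      1 / Real.pi * ∑ m ∈ Finset.Icc 1 m₀, s m ^ 2 * Real.exp (4 * Real.pi * m * yS) := by
    rw [Finset.mul_sum]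
    refine Finset.sum_congr rfl fun m hm => ?_
    have hm1 : 1 ≤ m := (Finset.mem_Icc.mp hm).1
    have hm0 : (0 : ℝ) < m := by
      have : 0 < m := hm1
      exact_mod_cast this
    have h1 : Real.sqrt m ^ 2 = m := Real.sq_sqrt hm0.le
    have h2 : Real.exp (4 * Real.pi * m * yS) * Real.exp (-(4 * Real.pi * m * yS)) = 1 := by
      rw [← Real.exp_add]; simp
    rw [sub_zero, mul_pow, mul_pow, mul_pow, h1]
    generalize Real.exp (4 * Real.pi * m * yS) = X at h2 ⊢
    generalize Real.exp (-(4 * Real.pi * m * yS)) = Z at h2 ⊢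
    field_simp
    linear_combination (s m ^ 2 * 4 * X) * h2
  rw [hval] at hlim
  refine hlim.congr' ?_
  filter_upwards [eventually_ge_atTop yS] with Y hY
  rw [ksn_pp m₀ s h Y, ksn_ip m₀ s hyS hY, Complex.ofReal_re]


theorem ks_bd : type_of% @ks_bd_pr := @ks_bd_pr
theorem ks_norm : type_of% @ks_norm_pr := @ks_norm_pr

end Pool.Agent.LSP
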