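import Pool.Agent.Lib_helper41.LSP.DefsG
import Pool.Agent.Lib_helper68.LEV.EIA
import Pool.Agent.Lib_helper68.LEV.QEX
import Pool.Agent.Lib_helper68.LEV.LSC
import Pool.Agent.Lib_helper41.LSPG.BDF
import Pool.Agent.Lib_helper41.LSPG.COO
import Pool.Agent.Lib_helper41.LSPG.KSN

/-! Block KSC: the functional of the kernel of a Hecke polynomial. -/

namespace Pool.Agent.LSP

open Pool.Agent.LEV Pool.Agent.LVB Pool.Agent.KSL
open Pool.Agent.FG61 (mu phi cc ff AA Lam)
open Complex MeasureTheory Filter Topology UpperHalfPlane ModularGroup ProbabilityTheory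
open scoped MatrixGroups Modular ENNReal ModularForm ComplexConjugate ContDiff

theorem ksc_orth (k : ℤ) :
    ∫ x in (0 : ℝ)..1, cexp (2 * Real.pi * Complex.I * k * x) = if k = 0 then 1 else 0 := by
  by_cases hk : k = 0
  · subst hk
    simp
  · rw [if_neg hk]
    have hc : (2 * Real.pi * Complex.I * k : ℂ) ≠ 0 := by
      have h1 : (k : ℂ) ≠ 0 := by exact_mod_cast hk
      exact mul_ne_zero Complex.two_pi_I_ne_zero h1
    rw [integral_exp_mul_complex hc]
    have h2 : cexp (2 * Real.pi * Complex.I * k * ((1 : ℝ) : ℂ)) = 1 := by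
      rw [Complex.ofReal_one, mul_one, mul_comm]
      exact Complex.exp_int_mul_two_pi_mul_I k
    rw [h2, Complex.ofReal_zero, mul_zero, Complex.exp_zero, sub_self, zero_div]

/-- the exponential at `x + i y` -/
theorem ksc_e (n : ℕ) (x y : ℝ) :
    cexp (2 * Real.pi * Complex.I * n * ((x : ℂ) + (y : ℂ) * Complex.I)) =
      ((Real.exp (-(2 * Real.pi * y) * n) : ℝ) : ℂ) * cexp (2 * Real.pi * Complex.I * n * x) := by
  rw [Complex.ofReal_exp, ← Complex.exp_add]
  congr 1
  push_cast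
  linear_combination (2 * Real.pi * n * y : ℂ) * Complex.I_sq

theorem ksc_line {N : ℕ} [Fact N.Prime] (f : S2 N) (m : ℕ) {y : ℝ} (hy : 0 < y) :
    ∫ x in (0 : ℝ)..1, f (pt x y) *
      conj (cexp (2 * Real.pi * Complex.I * m * ((x : ℂ) + (y : ℂ) * Complex.I))) =
      co f m * ((Real.exp (-(4 * Real.pi * m) * y) : ℝ) : ℂ) := by
  have hexp : ∀ x : ℝ, HasSum (fun n : ℕ => co f n *
      (((Real.exp (-(2 * Real.pi * y) * n) : ℝ) : ℂ) * cexp (2 * Real.pi * Complex.I * n * x)) *
      conj (cexp (2 * Real.pi * Complex.I * m * ((x : ℂ) + (y : ℂ) * Complex.I))))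
      (f (pt x y) * conj (cexp (2 * Real.pi * Complex.I * m * ((x : ℂ) + (y : ℂ) * Complex.I)))) := by
    intro x
    have h := qex f (pt x y)
    rw [(pt_coe x hy).1] at h
    simp_rw [ksc_e] at h
    exact h.mul_right _
  have hterm : ∀ (n : ℕ) (x : ℝ), co f n *
      (((Real.exp (-(2 * Real.pi * y) * n) : ℝ) : ℂ) * cexp (2 * Real.pi * Complex.I * n * x)) *
      conj (cexp (2 * Real.pi * Complex.I * m * ((x : ℂ) + (y : ℂ) * Complex.I))) =
      (co f n * ((Real.exp (-(2 * Real.pi * y) * n) : ℝ) : ℂ) *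
        ((Real.exp (-(2 * Real.pi * y) * m) : ℝ) : ℂ)) *
        cexp (2 * Real.pi * Complex.I * ((n : ℤ) - (m : ℤ) : ℤ) * x) := by
    intro n x
    have hc : conj (cexp (2 * Real.pi * Complex.I * m * x)) =
        cexp (-(2 * Real.pi * Complex.I * m * x)) := by
      rw [← Complex.exp_conj]
      congr 1
      simp only [map_mul, Complex.conj_ofReal, Complex.conj_I, map_natCast, map_ofNat]
      ring
    rw [ksc_e m x y, map_mul, Complex.conj_ofReal, hc]
    have h2 : cexp (2 * Real.pi * Complex.I * n * x) * cexp (-(2 * Real.pi * Complex.I * m * x)) =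
        cexp (2 * Real.pi * Complex.I * ((n : ℤ) - (m : ℤ) : ℤ) * x) := by
      rw [← Complex.exp_add]
      congr 1
      push_cast
      ring
    rw [← h2]
    ring
  have hnorm : ∀ (n : ℕ) (x : ℝ), ‖(co f n * ((Real.exp (-(2 * Real.pi * y) * n) : ℝ) : ℂ) *
        ((Real.exp (-(2 * Real.pi * y) * m) : ℝ) : ℂ)) *
        cexp (2 * Real.pi * Complex.I * ((n : ℤ) - (m : ℤ) : ℤ) * x)‖ =
      ‖co f n‖ * Real.exp (-(2 * Real.pi * y) * n) * Real.exp (-(2 * Real.pi * y) * m) := by
    intro n x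
    have h1 : ‖cexp (2 * Real.pi * Complex.I * ((n : ℤ) - (m : ℤ) : ℤ) * x)‖ = 1 := by
      have : (2 * Real.pi * Complex.I * ((n : ℤ) - (m : ℤ) : ℤ) * x : ℂ) =
          ((2 * Real.pi * ((n : ℤ) - (m : ℤ) : ℤ) * x : ℝ) : ℂ) * Complex.I := by
        push_cast
        ring
      rw [this, Complex.norm_exp_ofReal_mul_I]
    rw [norm_mul, h1, mul_one, norm_mul, norm_mul, Complex.norm_real, Complex.norm_real,
      Real.norm_eq_abs, Real.norm_eq_abs, abs_of_pos (Real.exp_pos _), abs_of_pos (Real.exp_pos _)]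
  have hsum := LSC_summable1 f hy
  rw [intervalIntegral.integral_of_le zero_le_one]
  have h3 : HasSum (fun n : ℕ => ∫ x in Set.Ioc (0 : ℝ) 1,
      (co f n * ((Real.exp (-(2 * Real.pi * y) * n) : ℝ) : ℂ) *
        ((Real.exp (-(2 * Real.pi * y) * m) : ℝ) : ℂ)) *
        cexp (2 * Real.pi * Complex.I * ((n : ℤ) - (m : ℤ) : ℤ) * x))
      (∫ x in Set.Ioc (0 : ℝ) 1, ∑' n : ℕ, (co f n *
        ((Real.exp (-(2 * Real.pi * y) * n) : ℝ) : ℂ) *
        ((Real.exp (-(2 * Real.pi * y) * m) : ℝ) : ℂ)) *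
        cexp (2 * Real.pi * Complex.I * ((n : ℤ) - (m : ℤ) : ℤ) * x)) := by
    refine hasSum_integral_of_summable_integral_norm (fun n => ?_) ?_
    · refine Continuous.integrableOn_Ioc ?_
      fun_prop
    · refine (hsum.mul_right (Real.exp (-(2 * Real.pi * y) * m))).congr fun n => ?_
      simp_rw [hnorm]
      simp
  have h4 : ∀ n : ℕ, ∫ x in Set.Ioc (0 : ℝ) 1,
      (co f n * ((Real.exp (-(2 * Real.pi * y) * n) : ℝ) : ℂ) *
        ((Real.exp (-(2 * Real.pi * y) * m) : ℝ) : ℂ)) *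
        cexp (2 * Real.pi * Complex.I * ((n : ℤ) - (m : ℤ) : ℤ) * x) =
      if n = m then co f m * ((Real.exp (-(4 * Real.pi * m) * y) : ℝ) : ℂ) else 0 := by
    intro n
    rw [← intervalIntegral.integral_of_le zero_le_one, intervalIntegral.integral_const_mul, ksc_orth]
    by_cases hnm : n = m
    · subst hnm
      rw [if_pos (sub_self _), if_pos rfl, mul_one, mul_assoc, ← Complex.ofReal_mul, ← Real.exp_add]
      congr 3
      ring
    · rw [if_neg, if_neg hnm, mul_zero]
      intro h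
      apply hnm
      omega
  have h5 : (∫ x in Set.Ioc (0 : ℝ) 1, ∑' n : ℕ, (co f n *
        ((Real.exp (-(2 * Real.pi * y) * n) : ℝ) : ℂ) *
        ((Real.exp (-(2 * Real.pi * y) * m) : ℝ) : ℂ)) *
        cexp (2 * Real.pi * Complex.I * ((n : ℤ) - (m : ℤ) : ℤ) * x)) =
      ∫ x in Set.Ioc (0 : ℝ) 1, f (pt x y) *
        conj (cexp (2 * Real.pi * Complex.I * m * ((x : ℂ) + (y : ℂ) * Complex.I))) := by
    refine integral_congr_ae (ae_of_all _ fun x => ?_)
    have := (hexp x).tsum_eq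
    simp_rw [hterm] at this
    exact this
  rw [← h5, ← h3.tsum_eq]
  simp_rw [h4]
  rw [tsum_ite_eq]

theorem ksc_exp {k a b : ℝ} (hk : k ≠ 0) :
    ∫ y in a..b, Real.exp (-k * y) = (Real.exp (-k * a) - Real.exp (-k * b)) / k := by
  have h : ∀ y ∈ Set.uIcc a b, HasDerivAt (fun y => -Real.exp (-k * y) / k) (Real.exp (-k * y)) y := by
    intro y _
    have h1 : HasDerivAt (fun y : ℝ => -k * y) (-k) y := by
      simpa using (hasDerivAt_id y).const_mul (-k)
    have h2 := (h1.exp.neg).div_const k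
    have h3 : -(Real.exp (-k * y) * -k) / k = Real.exp (-k * y) := by
      rw [mul_neg, neg_neg, mul_div_assoc, div_self hk, mul_one]
    rwa [h3] at h2
  rw [intervalIntegral.integral_eq_sub_of_hasDerivAt h]
  · ring
  · apply Continuous.intervalIntegrable
    fun_prop

theorem ksc_val {N : ℕ} [Fact N.Prime] {f : S2 N} (hf : IsNew f) (m₀ : ℕ) (s : ℕ → ℝ)
    {yS : ℝ} (h : 0 < yS) {Y : ℝ} (hY : yS < Y) :
    2 * Real.pi * ipH f (KS m₀ s yS Y) = ((∑ m ∈ Finset.Icc 1 m₀, s m * la f m *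
      (1 - Real.exp (-(4 * Real.pi * m) * (Y - yS))) : ℝ) : ℂ) := by
  have hint := bd_int_form f (ks_bd m₀ s h Y)
  unfold ipH
  rw [coo_iter (F := fun z => f z * conj (KS m₀ s yS Y z)) hint]
  -- the inner integral
  have hin : ∀ y ∈ Set.Ioi (0 : ℝ), ∫ x : ℝ, f (pt x y) * conj (KS m₀ s yS Y (pt x y)) =
      (Set.Ioo yS Y).indicator (fun y => ∑ m ∈ Finset.Icc 1 m₀,
        ((s m * (2 * Real.sqrt m) * Real.exp (4 * Real.pi * m * yS) : ℝ) : ℂ) *
        (co f m * ((Real.exp (-(4 * Real.pi * m) * y) : ℝ) : ℂ))) y := by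
    intro y hy
    have hy0 : 0 < y := hy
    by_cases hm : y ∈ Set.Ioo yS Y
    · rw [Set.indicator_of_mem hm]
      have e1 : ∀ x : ℝ, f (pt x y) * conj (KS m₀ s yS Y (pt x y)) =
          (Set.Ico (0 : ℝ) 1).indicator (fun x => ∑ m ∈ Finset.Icc 1 m₀,
            ((s m * (2 * Real.sqrt m) * Real.exp (4 * Real.pi * m * yS) : ℝ) : ℂ) *
            (f (pt x y) * conj (cexp (2 * Real.pi * Complex.I * m *
              ((x : ℂ) + (y : ℂ) * Complex.I))))) x := by
        intro x
        obtain ⟨p1, p2, p3⟩ := pt_coe x hy0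
        unfold KS
        rw [p2, p3]
        by_cases hx : x ∈ Set.Ico (0 : ℝ) 1
        · rw [Set.indicator_of_mem hx, if_pos ⟨hx.1, hx.2, hm.1, hm.2⟩, map_sum, Finset.mul_sum]
          refine Finset.sum_congr rfl fun m _ => ?_
          rw [map_mul, Complex.conj_ofReal, p1]
          ring
        · rw [Set.indicator_of_notMem hx, if_neg (fun hh => hx ⟨hh.1, hh.2.1⟩), map_zero, mul_zero]
      simp_rw [e1]
      rw [integral_indicator measurableSet_Ico, integral_Ico_eq_integral_Ioc]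
      have hfc : Continuous fun x : ℝ => f (pt x y) := by
        have h1 : (fun x : ℝ => f (pt x y)) = fun x : ℝ => LSC_g f ((x : ℂ) + (y : ℂ) * Complex.I) := rfl
        rw [h1]
        refine (LSC_g_cont f).comp_continuous (by fun_prop) fun x => ?_
        simpa using hy0
      rw [integral_finsetSum]
      · refine Finset.sum_congr rfl fun m _ => ?_
        rw [integral_const_mul, ← intervalIntegral.integral_of_le zero_le_one, ksc_line f m hy0]
      · intro m _
        refine Continuous.integrableOn_Ioc ?_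
        have h2 : Continuous fun x : ℝ => conj (cexp (2 * Real.pi * Complex.I * m *
            ((x : ℂ) + (y : ℂ) * Complex.I))) := by
          refine Complex.continuous_conj.comp ?_
          fun_prop
        exact continuous_const.mul (hfc.mul h2)
    · rw [Set.indicator_of_notMem hm]
      have e1 : ∀ x : ℝ, f (pt x y) * conj (KS m₀ s yS Y (pt x y)) = 0 := by
        intro x
        obtain ⟨p1, p2, p3⟩ := pt_coe x hy0
        unfold KS
        rw [p3, if_neg (fun hh => hm ⟨hh.2.2.1, hh.2.2.2⟩), map_zero, mul_zero]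
      simp_rw [e1]
      simp
  rw [setIntegral_congr_fun measurableSet_Ioi hin]
  rw [← integral_indicator measurableSet_Ioi]
  have e2 : (Set.Ioi (0 : ℝ)).indicator ((Set.Ioo yS Y).indicator (fun y => ∑ m ∈ Finset.Icc 1 m₀,
        ((s m * (2 * Real.sqrt m) * Real.exp (4 * Real.pi * m * yS) : ℝ) : ℂ) *
        (co f m * ((Real.exp (-(4 * Real.pi * m) * y) : ℝ) : ℂ)))) =
      (Set.Ioo yS Y).indicator (fun y => ∑ m ∈ Finset.Icc 1 m₀,
        ((s m * (2 * Real.sqrt m) * Real.exp (4 * Real.pi * m * yS) : ℝ) : ℂ) *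
        (co f m * ((Real.exp (-(4 * Real.pi * m) * y) : ℝ) : ℂ))) := by
    rw [Set.indicator_indicator]
    congr 1
    ext y
    constructor
    · exact fun hh => hh.2
    · exact fun hh => ⟨h.trans hh.1, hh⟩
  rw [e2, integral_indicator measurableSet_Ioo, ← integral_Ioc_eq_integral_Ioo,
    ← intervalIntegral.integral_of_le hY.le, intervalIntegral.integral_finsetSum]
  · rw [Finset.mul_sum, Complex.ofReal_sum]
    refine Finset.sum_congr rfl fun m hm => ?_
    have hm1 : 1 ≤ m := (Finset.mem_Icc.mp hm).1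
    have hm0 : (0 : ℝ) < m := by exact_mod_cast hm1
    have hpi := Real.pi_pos
    have hk : (4 * Real.pi * m : ℝ) ≠ 0 := by positivity
    have e3 : ∫ y in yS..Y, ((s m * (2 * Real.sqrt m) * Real.exp (4 * Real.pi * m * yS) : ℝ) : ℂ) *
        (co f m * ((Real.exp (-(4 * Real.pi * m) * y) : ℝ) : ℂ)) =
        ((s m * (2 * Real.sqrt m) * Real.exp (4 * Real.pi * m * yS) : ℝ) : ℂ) *
        (co f m * (((Real.exp (-(4 * Real.pi * m) * yS) - Real.exp (-(4 * Real.pi * m) * Y)) /
          (4 * Real.pi * m) : ℝ) : ℂ)) := by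
      rw [intervalIntegral.integral_const_mul, intervalIntegral.integral_const_mul,
        intervalIntegral.integral_ofReal, ksc_exp hk]
    rw [e3]
    have hre : co f m = (((co f m).re : ℝ) : ℂ) := by
      apply Complex.ext
      · simp
      · simp [new_real hf m]
    rw [hre]
    have e4 : Real.exp (4 * Real.pi * m * yS) * (Real.exp (-(4 * Real.pi * m) * yS) -
        Real.exp (-(4 * Real.pi * m) * Y)) = 1 - Real.exp (-(4 * Real.pi * m) * (Y - yS)) := by
      rw [mul_sub, ← Real.exp_add, ← Real.exp_add]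
      congr 1
      · rw [show 4 * Real.pi * m * yS + -(4 * Real.pi * m) * yS = 0 by ring, Real.exp_zero]
      · congr 1
        ring
    have hs0 : Real.sqrt m ≠ 0 := by positivity
    have hsq : Real.sqrt m * Real.sqrt m = m := Real.mul_self_sqrt hm0.le
    have e5 : 2 * Real.pi * (s m * (2 * Real.sqrt m) * Real.exp (4 * Real.pi * m * yS) *
        ((co f m).re * ((Real.exp (-(4 * Real.pi * m) * yS) - Real.exp (-(4 * Real.pi * m) * Y)) /
          (4 * Real.pi * m)))) =
        s m * la f m * (1 - Real.exp (-(4 * Real.pi * m) * (Y - yS))) := by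
      unfold la
      rw [← e4]
      have h6 : (2 * Real.pi) * (2 * Real.sqrt m) / (4 * Real.pi * m) = 1 / Real.sqrt m := by
        rw [div_eq_div_iff hk hs0]
        linear_combination (4 * Real.pi) * hsq
      have h7 : s m * ((co f m).re / Real.sqrt m) * (Real.exp (4 * Real.pi * m * yS) *
          (Real.exp (-(4 * Real.pi * m) * yS) - Real.exp (-(4 * Real.pi * m) * Y))) =
          s m * (co f m).re * (1 / Real.sqrt m) * (Real.exp (4 * Real.pi * m * yS) *
          (Real.exp (-(4 * Real.pi * m) * yS) - Real.exp (-(4 * Real.pi * m) * Y))) := by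
        ring
      rw [h7, ← h6]
      ring
    rw [← e5]
    push_cast
    ring
  · intro m _
    apply Continuous.intervalIntegrable
    fun_prop

theorem ks_coef_pr {N : ℕ} [Fact N.Prime] {f : S2 N} (hf : IsNew f) {m₀ : ℕ} {s : ℕ → ℝ}
    (hs : ∀ m, s m ≠ 0 → 1 ≤ m ∧ m ≤ m₀) {yS : ℝ} (h : 0 < yS) :
    Tendsto (fun Y : ℝ => 2 * Real.pi * ipH f (KS m₀ s yS Y)) atTop
      (𝓝 ((∑ m ∈ Finset.Icc 1 m₀, s m * la f m : ℝ) : ℂ)) := by
  have h1 : Tendsto (fun Y : ℝ => ((∑ m ∈ Finset.Icc 1 m₀, s m * la f m *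
      (1 - Real.exp (-(4 * Real.pi * m) * (Y - yS))) : ℝ) : ℂ)) atTop
      (𝓝 ((∑ m ∈ Finset.Icc 1 m₀, s m * la f m * (1 - 0) : ℝ) : ℂ)) := by
    refine (Complex.continuous_ofReal.tendsto _).comp ?_
    refine tendsto_finsetSum _ fun m hm => ?_
    have hm1 : 1 ≤ m := (Finset.mem_Icc.mp hm).1
    have hm0 : (0 : ℝ) < m := by exact_mod_cast hm1
    refine Tendsto.const_mul _ (Tendsto.const_sub _ ?_)
    refine Real.tendsto_exp_atBot.comp ?_
    have h2 : Tendsto (fun Y : ℝ => Y - yS) atTop atTop := tendsto_atTop_add_const_right _ _ tendsto_id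
    refine Tendsto.const_mul_atTop_of_neg ?_ h2
    have := Real.pi_pos
    have : 0 < 4 * Real.pi * m := by positivity
    linarith
  have h3 : (∑ m ∈ Finset.Icc 1 m₀, s m * la f m * (1 - 0) : ℝ) =
      ∑ m ∈ Finset.Icc 1 m₀, s m * la f m := by
    refine Finset.sum_congr rfl fun m _ => ?_
    ring
  rw [h3] at h1
  refine h1.congr' ?_
  filter_upwards [eventually_gt_atTop yS] with Y hY
  exact (ksc_val hf m₀ s h hY).symm


theorem ks_coef : type_of% @ks_coef_pr := @ks_coef_pr

end Pool.Agent.LSP
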