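import Pool.Agent.Lib_helper41.LSP.DefsG
import Pool.Agent.Lib_helper41.LSPG.BDF
import Pool.Agent.Lib_helper41.LSPG.COO
import Pool.Agent.Lib_helper41.LSPG.KSN
import Pool.Agent.Lib_helper41.LSPG.MOB
import Pool.Agent.Lib_helper41.LSPG.PER
import Pool.Agent.Lib_helper41.LSPG.SPL

/-! Block KSX: the inner product of the kernel of a Hecke polynomial and the truncated cones. -/

namespace Pool.Agent.LSP

open Pool.Agent.LEV Pool.Agent.LVB Pool.Agent.KSL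
open Pool.Agent.FG61 (mu phi cc ff AA Lam)
open Complex MeasureTheory Filter Topology UpperHalfPlane ModularGroup ProbabilityTheory
open scoped MatrixGroups Modular ENNReal ModularForm ComplexConjugate ContDiff

/-! ### the Fourier transform of the kernel -/

theorem ksx_hcs {T : ℝ} {ρ : ℝ → ℝ} (hρ : KerL T ρ) : HasCompactSupport ρ := by
  refine HasCompactSupport.intro (isCompact_Icc (a := -T) (b := T)) fun t ht => ?_
  have : T < |t| := by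
    by_contra hcon
    exact ht (abs_le.mp (not_lt.mp hcon))
  rw [hρ.supp t this]

theorem ksx_kh_real {T : ℝ} {ρ : ℝ → ℝ} (hρ : KerL T ρ) (u : ℝ) : conj (kh ρ u) = kh ρ u := by
  unfold kh
  rw [← integral_conj, ← integral_neg_eq_self (fun t : ℝ => (ρ t : ℂ) *
    (1 - (t : ℂ) * Complex.I) * cexp (-(2 * Real.pi * u * t : ℝ) * Complex.I)) volume]
  refine integral_congr_ae (ae_of_all _ fun t => ?_)
  show conj ((ρ t : ℂ) * (1 - (t : ℂ) * Complex.I) *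
      cexp (-(2 * Real.pi * u * t : ℝ) * Complex.I)) =
    (ρ (-t) : ℂ) * (1 - ((-t : ℝ) : ℂ) * Complex.I) *
      cexp (-(2 * Real.pi * u * (-t) : ℝ) * Complex.I)
  rw [map_mul, map_mul, Complex.conj_ofReal, hρ.even, ← Complex.exp_conj]
  simp only [map_sub, map_mul, map_one, map_neg, Complex.conj_ofReal, Complex.conj_I]
  congr 2
  · push_cast
    ring
  · push_cast
    ring

theorem ksx_kh_cont {T : ℝ} {ρ : ℝ → ℝ} (hρ : KerL T ρ) :
    Continuous (kh ρ) ∧ ∃ C : ℝ, ∀ u, ‖kh ρ u‖ ≤ C := by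
  have hc : Continuous (fun t : ℝ => (ρ t : ℂ) * (1 - (t : ℂ) * Complex.I)) :=
    (Complex.continuous_ofReal.comp hρ.cont).mul (by fun_prop)
  have hcs : HasCompactSupport (fun t : ℝ => (ρ t : ℂ) * (1 - (t : ℂ) * Complex.I)) := by
    refine HasCompactSupport.mul_right ?_
    refine HasCompactSupport.intro (ksx_hcs hρ) fun t ht => ?_
    rw [image_eq_zero_of_notMem_tsupport ht, Complex.ofReal_zero]
  have hgi : Integrable (fun t : ℝ => ‖(ρ t : ℂ) * (1 - (t : ℂ) * Complex.I)‖) :=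
    (hc.integrable_of_hasCompactSupport hcs).norm
  have hn : ∀ u t : ℝ, ‖(ρ t : ℂ) * (1 - (t : ℂ) * Complex.I) *
      cexp (-(2 * Real.pi * u * t : ℝ) * Complex.I)‖ = ‖(ρ t : ℂ) * (1 - (t : ℂ) * Complex.I)‖ := by
    intro u t
    rw [norm_mul, ← Complex.ofReal_neg, Complex.norm_exp_ofReal_mul_I, mul_one]
  constructor
  · unfold kh
    refine continuous_of_dominated (bound := fun t : ℝ =>
      ‖(ρ t : ℂ) * (1 - (t : ℂ) * Complex.I)‖) ?_ ?_ hgi ?_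
    · intro u
      exact (hc.mul (Continuous.cexp (by fun_prop))).aestronglyMeasurable
    · intro u
      exact ae_of_all _ fun t => (hn u t).le
    · refine ae_of_all _ fun t => ?_
      fun_prop
  · refine ⟨∫ t : ℝ, ‖(ρ t : ℂ) * (1 - (t : ℂ) * Complex.I)‖, fun u => ?_⟩
    unfold kh
    refine (norm_integral_le_integral_norm _).trans (le_of_eq ?_)
    exact integral_congr_ae (ae_of_all _ fun t => hn u t)

theorem ksx_lap_cont {T : ℝ} {ρ : ℝ → ℝ} (hρ : KerL T ρ) (m : ℕ) : Continuous (fun y : ℝ =>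
    ((Real.exp (-2 * Real.pi * m * y) : ℝ) : ℂ) * kh ρ (-(m * y))) := by
  have hc := (ksx_kh_cont hρ).1
  exact (Complex.continuous_ofReal.comp (by fun_prop)).mul (hc.comp (by fun_prop))

theorem ksx_lap_int {T : ℝ} {ρ : ℝ → ℝ} (hρ : KerL T ρ) {m : ℕ} (hm : 1 ≤ m) (yS : ℝ) :
    IntegrableOn (fun y : ℝ => ((Real.exp (-2 * Real.pi * m * y) : ℝ) : ℂ) * kh ρ (-(m * y)))
      (Set.Ioi yS) := by
  obtain ⟨hc, C, hC⟩ := ksx_kh_cont hρ
  have hm1 : (1 : ℝ) ≤ m := by exact_mod_cast hm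
  have hneg : -2 * Real.pi * m < 0 := by
    have := Real.pi_pos
    nlinarith
  have h1 : IntegrableOn (fun y : ℝ => C * Real.exp (-2 * Real.pi * m * y)) (Set.Ioi yS) :=
    (integrableOn_exp_mul_Ioi hneg yS).const_mul C
  refine Integrable.mono' h1 (ksx_lap_cont hρ m).aestronglyMeasurable (ae_of_all _ fun y => ?_)
  rw [norm_mul, Complex.norm_real, Real.norm_eq_abs, abs_of_pos (Real.exp_pos _), mul_comm]
  exact mul_le_mul_of_nonneg_right (hC _) (Real.exp_pos _).le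

/-! ### the images of high points -/

theorem ksx_low {T : ℝ} {ρ : ℝ → ℝ} (hρ : KerL T ρ) {N E : ℕ} (hN : N.Prime)
    (hE1 : 1 ≤ E) (hE : E < N) (w : ℕ → ℝ) (Y : ℝ) {γ : SL(2, ℤ)}
    (hγ : γ ∈ CongruenceSubgroup.Gamma0 N) (hc : γ 1 0 ≠ 0) {z : ℍ}
    (hz : (T + 2) * E / N < z.im) : KY ρ N E w Y (γ • z) = 0 := by
  unfold KY
  refine Finset.sum_eq_zero fun q hq => ?_
  rw [Finset.sum_eq_zero, mul_zero]
  intro j hj
  by_contra hne
  have h1 : cone ρ ((j : ℝ) / q) (γ • z) ≠ 0 := by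
    intro h
    apply hne
    unfold coneY
    split_ifs
    · exact h
    · rfl
  have h2 : |((γ • z).re - (j : ℝ) / q) / (γ • z).im| ≤ T := by
    by_contra hcon
    rw [not_le] at hcon
    apply h1
    unfold cone
    rw [hρ.supp _ hcon]
    simp
  have hT := hρ.T1
  obtain ⟨hq1, hqE⟩ := Finset.mem_Icc.mp hq
  have hh : 0 < (γ • z).im := (γ • z).im_pos
  rw [abs_div, abs_of_pos hh, div_le_iff₀ hh] at h2
  have hq0 : (0 : ℝ) < q := by exact_mod_cast hq1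
  have hE0 : (0 : ℝ) < E := by exact_mod_cast hE1
  have hN0 : (0 : ℝ) < N := by exact_mod_cast hN.pos
  -- arithmetic
  have hdvd : (N : ℤ) ∣ γ 1 0 := by
    have := (CongruenceSubgroup.Gamma0_mem).mp hγ
    exact (ZMod.intCast_zmod_eq_zero_iff_dvd _ _).mp this
  have hdet : γ 0 0 * γ 1 1 - γ 0 1 * γ 1 0 = 1 := by
    have := γ.det_coe
    rw [Matrix.det_fin_two] at this
    exact this
  have hint : γ 0 0 * (q : ℤ) - γ 1 0 * (j : ℤ) ≠ 0 := by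
    intro h0
    have h3 : (N : ℤ) ∣ γ 0 0 * (q : ℤ) := by
      have : γ 0 0 * (q : ℤ) = γ 1 0 * (j : ℤ) := by linarith
      rw [this]
      exact Dvd.dvd.mul_right hdvd _
    have hNp : Prime (N : ℤ) := Nat.prime_iff_prime_int.mp hN
    rcases hNp.dvd_or_dvd h3 with h4 | h4
    · have h5 : (N : ℤ) ∣ 1 := by
        rw [← hdet]
        exact dvd_sub (Dvd.dvd.mul_right h4 _) (Dvd.dvd.mul_left hdvd _)
      exact hNp.not_dvd_one h5
    · have h5 : N ∣ q := by exact_mod_cast h4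
      have := Nat.le_of_dvd (by omega) h5
      omega
  have hint1 : (1 : ℝ) ≤ |(γ 0 0 : ℝ) * q - (γ 1 0 : ℝ) * j| := by
    have h3 : (1 : ℤ) ≤ |γ 0 0 * (q : ℤ) - γ 1 0 * (j : ℤ)| := Int.one_le_abs hint
    exact_mod_cast h3
  have hcN : (N : ℝ) ≤ |(γ 1 0 : ℝ)| := by
    have h3 : (N : ℤ) ≤ |γ 1 0| := Int.le_of_dvd (abs_pos.mpr hc) ((dvd_abs _ _).mpr hdvd)
    exact_mod_cast h3
  -- geometry
  have hden : (γ 1 0 : ℂ) * (z : ℂ) + (γ 1 1 : ℂ) ≠ 0 := by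
    intro h0
    have h3 := congrArg Complex.im h0
    simp at h3
    rcases h3 with h3 | h3
    · exact hc h3
    · exact z.im_pos.ne' h3
  set δ : ℝ := ‖(γ 1 0 : ℂ) * (z : ℂ) + (γ 1 1 : ℂ)‖ with hδ
  have hδ0 : 0 < δ := norm_pos_iff.mpr hden
  have hcoe : ((γ • z : ℍ) : ℂ) = ((γ 0 0 : ℂ) * (z : ℂ) + (γ 0 1 : ℂ)) /
      ((γ 1 0 : ℂ) * (z : ℂ) + (γ 1 1 : ℂ)) := by
    rw [coe_specialLinearGroup_apply]
    simp
  have hmul : ((γ 0 0 : ℂ) - (γ 1 0 : ℂ) * ((γ • z : ℍ) : ℂ)) *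
      ((γ 1 0 : ℂ) * (z : ℂ) + (γ 1 1 : ℂ)) = 1 := by
    rw [hcoe]
    have hdetC : (γ 0 0 : ℂ) * (γ 1 1 : ℂ) - (γ 0 1 : ℂ) * (γ 1 0 : ℂ) = 1 := by
      exact_mod_cast congrArg (Int.cast : ℤ → ℂ) hdet
    field_simp
    linear_combination hdetC
  have hD : ‖(γ 0 0 : ℂ) - (γ 1 0 : ℂ) * ((γ • z : ℍ) : ℂ)‖ * δ = 1 := by
    rw [hδ, ← norm_mul, hmul, norm_one]
  set D : ℝ := ‖(γ 0 0 : ℂ) - (γ 1 0 : ℂ) * ((γ • z : ℍ) : ℂ)‖ with hDdef
  have hD1 : |(γ 1 0 : ℝ)| * (γ • z).im ≤ D := by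
    have h3 := Complex.abs_im_le_norm ((γ 0 0 : ℂ) - (γ 1 0 : ℂ) * ((γ • z : ℍ) : ℂ))
    have h4 : ((γ 0 0 : ℂ) - (γ 1 0 : ℂ) * ((γ • z : ℍ) : ℂ)).im =
        -((γ 1 0 : ℝ) * (γ • z).im) := by
      simp
    rw [h4, abs_neg, abs_mul, abs_of_pos hh] at h3
    exact h3
  have hD2 : |(γ 0 0 : ℝ) - (γ 1 0 : ℝ) * (γ • z).re| ≤ D := by
    have h3 := Complex.abs_re_le_norm ((γ 0 0 : ℂ) - (γ 1 0 : ℂ) * ((γ • z : ℍ) : ℂ))
    have h4 : ((γ 0 0 : ℂ) - (γ 1 0 : ℂ) * ((γ • z : ℍ) : ℂ)).re =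
        (γ 0 0 : ℝ) - (γ 1 0 : ℝ) * (γ • z).re := by
      simp
    rw [h4] at h3
    exact h3
  have him : (γ • z).im * δ ^ 2 = z.im := by
    rw [ModularGroup.im_smul_eq_div_normSq, denom_apply, Complex.normSq_eq_norm_sq]
    exact div_mul_cancel₀ _ (pow_ne_zero 2 hδ0.ne')
  have h5 : 1 / (E : ℝ) ≤ |(γ 0 0 : ℝ) - (γ 1 0 : ℝ) * ((j : ℝ) / q)| := by
    have h6 : (γ 0 0 : ℝ) - (γ 1 0 : ℝ) * ((j : ℝ) / q) =
        ((γ 0 0 : ℝ) * q - (γ 1 0 : ℝ) * j) / q := by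
      field_simp
    rw [h6, abs_div, abs_of_pos hq0]
    have hqE' : (q : ℝ) ≤ E := by exact_mod_cast hqE
    exact div_le_div₀ (abs_nonneg _) hint1 hq0 hqE'
  have h6 : |(γ 0 0 : ℝ) - (γ 1 0 : ℝ) * ((j : ℝ) / q)| ≤ D + T * D := by
    have h7 : (γ 0 0 : ℝ) - (γ 1 0 : ℝ) * ((j : ℝ) / q) =
        ((γ 0 0 : ℝ) - (γ 1 0 : ℝ) * (γ • z).re) +
          (γ 1 0 : ℝ) * ((γ • z).re - (j : ℝ) / q) := by ring
    rw [h7]
    refine (abs_add_le _ _).trans (add_le_add hD2 ?_)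
    rw [abs_mul]
    calc |(γ 1 0 : ℝ)| * |(γ • z).re - (j : ℝ) / q| ≤ |(γ 1 0 : ℝ)| * (T * (γ • z).im) :=
          mul_le_mul_of_nonneg_left h2 (abs_nonneg _)
      _ = T * (|(γ 1 0 : ℝ)| * (γ • z).im) := by ring
      _ ≤ T * D := mul_le_mul_of_nonneg_left hD1 (by linarith)
  have h7 : δ ≤ (1 + T) * E := by
    have h8 : 1 / (E : ℝ) ≤ (1 + T) * D := by linarith
    rw [div_le_iff₀ hE0] at h8
    calc δ = δ * 1 := (mul_one _).symm
      _ ≤ δ * ((1 + T) * D * E) := mul_le_mul_of_nonneg_left h8 hδ0.le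
      _ = (1 + T) * E * (D * δ) := by ring
      _ = (1 + T) * E := by rw [hD, mul_one]
  have h8 : |(γ 1 0 : ℝ)| * z.im ≤ δ := by
    calc |(γ 1 0 : ℝ)| * z.im = |(γ 1 0 : ℝ)| * (γ • z).im * δ ^ 2 := by rw [← him]; ring
      _ ≤ D * δ ^ 2 := mul_le_mul_of_nonneg_right hD1 (by positivity)
      _ = D * δ * δ := by ring
      _ = δ := by rw [hD, one_mul]
  have h9 : (N : ℝ) * z.im ≤ |(γ 1 0 : ℝ)| * z.im :=
    mul_le_mul_of_nonneg_right hcN z.im_pos.le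
  rw [div_lt_iff₀ hN0] at hz
  nlinarith

/-! ### the elements fixing the cusp -/

/-- the elements `± Tⁿ` -/
def ksx_g (N : ℕ) (p : ℤ × Bool) : CongruenceSubgroup.Gamma0 N :=
  ⟨⟨!![(if p.2 then 1 else -1 : ℤ), (if p.2 then 1 else -1 : ℤ) * p.1;
      0, (if p.2 then 1 else -1 : ℤ)], by
      rw [Matrix.det_fin_two_of]
      split_ifs <;> ring⟩, by
      rw [CongruenceSubgroup.Gamma0_mem]
      simp⟩

theorem ksx_g_inj (N : ℕ) : Function.Injective (ksx_g N) := by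
  rintro ⟨n, b⟩ ⟨n', b'⟩ h
  have h1 : ((ksx_g N (n, b) : CongruenceSubgroup.Gamma0 N) : SL(2, ℤ)) =
      ((ksx_g N (n', b') : CongruenceSubgroup.Gamma0 N) : SL(2, ℤ)) := congrArg Subtype.val h
  have h2 := congrArg (fun γ : SL(2, ℤ) => γ 0 0) h1
  have h3 := congrArg (fun γ : SL(2, ℤ) => γ 0 1) h1
  simp only [ksx_g] at h2 h3
  cases b <;> cases b' <;> simp_all

theorem ksx_g_surj {N : ℕ} {γ : CongruenceSubgroup.Gamma0 N} (h : (γ : SL(2, ℤ)) 1 0 = 0) :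
    γ ∈ Set.range (ksx_g N) := by
  have hdet : (γ : SL(2, ℤ)) 0 0 * (γ : SL(2, ℤ)) 1 1 -
      (γ : SL(2, ℤ)) 0 1 * (γ : SL(2, ℤ)) 1 0 = 1 := by
    have := (γ : SL(2, ℤ)).det_coe
    rw [Matrix.det_fin_two] at this
    exact this
  rw [h, mul_zero, sub_zero] at hdet
  rcases Int.eq_one_or_neg_one_of_mul_eq_one' hdet with ⟨h0, h1⟩ | ⟨h0, h1⟩
  · refine ⟨((γ : SL(2, ℤ)) 0 1, true), ?_⟩
    refine Subtype.ext (Subtype.ext ?_)
    ext i k
    fin_cases i <;> fin_cases k <;> simp [ksx_g, h0, h1, h]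
  · refine ⟨(-(γ : SL(2, ℤ)) 0 1, false), ?_⟩
    refine Subtype.ext (Subtype.ext ?_)
    ext i k
    fin_cases i <;> fin_cases k <;> simp [ksx_g, h0, h1, h]

theorem ksx_g_slash (N : ℕ) (p : ℤ × Bool) (F : ℍ → ℂ) :
    F ∣[(2 : ℤ)] ((ksx_g N p : CongruenceSubgroup.Gamma0 N) : SL(2, ℤ)) =
      fun z => F ((p.1 : ℝ) +ᵥ z) := by
  funext z
  rw [ModularForm.SL_slash_apply]
  have h0 : ((ksx_g N p : CongruenceSubgroup.Gamma0 N) : SL(2, ℤ)) • z = (p.1 : ℝ) +ᵥ z := by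
    apply UpperHalfPlane.ext
    rw [coe_specialLinearGroup_apply]
    obtain ⟨n, b⟩ := p
    cases b
    · simp only [ksx_g]
      simp
      ring
    · simp only [ksx_g]
      simp
      ring
  have h1 : denom ((ksx_g N p : CongruenceSubgroup.Gamma0 N) : SL(2, ℤ)) z ^ (-2 : ℤ) = 1 := by
    rw [denom_apply]
    obtain ⟨n, b⟩ := p
    cases b <;> simp [ksx_g]
  rw [h0, h1, mul_one]

/-! ### the cones in coordinates -/

theorem ksx_vadd {y : ℝ} (hy : 0 < y) (x n : ℝ) : (n +ᵥ pt x y : ℍ) = pt (x + n) y := by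
  apply UpperHalfPlane.ext
  rw [coe_vadd, (pt_coe x hy).1, (pt_coe (x + n) hy).1]
  push_cast
  ring

theorem ksx_high (ρ : ℝ → ℝ) {N : ℕ} (hN : 1 ≤ N) (E : ℕ) (w : ℕ → ℝ) {y Y : ℝ} (hy : 0 < y)
    (h1 : 1 < N * Y * y) (h2 : y < Y) (x : ℝ) : KY ρ N E w Y (pt x y) = KC ρ E w (pt x y) := by
  unfold KY KC
  refine Finset.sum_congr rfl fun q hq => ?_
  congr 1
  refine Finset.sum_congr rfl fun j hj => ?_
  unfold coneY
  rw [if_pos]
  have hq1 : (1 : ℝ) ≤ q := by exact_mod_cast (Finset.mem_Icc.mp hq).1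
  have hN1 : (1 : ℝ) ≤ N := by exact_mod_cast hN
  obtain ⟨e1, e2, e3⟩ := pt_coe x hy
  rw [e3]
  refine ⟨h2, ?_⟩
  have h3 : y ≤ ‖((pt x y : ℍ) : ℂ) - ((((j : ℝ) / q : ℝ)) : ℂ)‖ := by
    have h4 := Complex.abs_im_le_norm (((pt x y : ℍ) : ℂ) - ((((j : ℝ) / q : ℝ)) : ℂ))
    rw [Complex.sub_im, Complex.ofReal_im, sub_zero, coe_im, e3, abs_of_pos hy] at h4
    exact h4
  have hY : 0 < Y := hy.trans h2
  calc y = 1 * y := (one_mul y).symm
    _ < N * Y * y * y := mul_lt_mul_of_pos_right h1 hy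
    _ = Y * (N * 1 ^ 2 * y ^ 2) := by ring
    _ ≤ Y * (N * (q : ℝ) ^ 2 * ‖((pt x y : ℍ) : ℂ) - ((((j : ℝ) / q : ℝ)) : ℂ)‖ ^ 2) := by
        gcongr

theorem ksx_supp0 {T : ℝ} {ρ : ℝ → ℝ} (hρ : KerL T ρ) {Y : ℝ} {z : ℍ} (h2 : z.im < Y)
    (hx : z.re < -(T * Y) - 1 ∨ T * Y + 1 < z.re) {q j : ℕ} (hq : 1 ≤ q) (hj : j ∈ RR q) :
    cone ρ ((j : ℝ) / q) z = 0 := by
  have hq1 : (1 : ℝ) ≤ q := by exact_mod_cast hq
  have hT := hρ.T1
  have hjq : (j : ℝ) ≤ q := by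
    have := Finset.mem_range.mp (Finset.mem_filter.mp hj).1
    exact_mod_cast this.le
  have hj0 : 0 ≤ (j : ℝ) / q := by positivity
  have hj1 : (j : ℝ) / q ≤ 1 := by
    rw [div_le_one (by linarith)]
    exact hjq
  have hTy : T * z.im < T * Y := mul_lt_mul_of_pos_left h2 (by linarith)
  have h3 : T < |(z.re - (j : ℝ) / q) / z.im| := by
    rw [abs_div, abs_of_pos z.im_pos, lt_div_iff₀ z.im_pos, lt_abs]
    rcases hx with hx | hx
    · right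
      linarith
    · left
      linarith
  unfold cone
  rw [hρ.supp _ h3]
  simp

theorem ksx_supp {T : ℝ} {ρ : ℝ → ℝ} (hρ : KerL T ρ) (E : ℕ) (w : ℕ → ℝ) {Y : ℝ} {z : ℍ}
    (h2 : z.im < Y) (hx : z.re < -(T * Y) - 1 ∨ T * Y + 1 < z.re) : KC ρ E w z = 0 := by
  unfold KC
  refine Finset.sum_eq_zero fun q hq => ?_
  rw [Finset.sum_eq_zero, mul_zero]
  intro j hj
  exact ksx_supp0 hρ h2 hx (Finset.mem_Icc.mp hq).1 hj

theorem ksx_suppY {T : ℝ} {ρ : ℝ → ℝ} (hρ : KerL T ρ) (N E : ℕ) (w : ℕ → ℝ) {Y : ℝ} {z : ℍ}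
    (h2 : z.im < Y) (hx : z.re < -(T * Y) - 1 ∨ T * Y + 1 < z.re) : KY ρ N E w Y z = 0 := by
  unfold KY
  refine Finset.sum_eq_zero fun q hq => ?_
  rw [Finset.sum_eq_zero, mul_zero]
  intro j hj
  unfold coneY
  split_ifs
  · exact ksx_supp0 hρ h2 hx (Finset.mem_Icc.mp hq).1 hj
  · rfl

theorem ksx_out {T Y : ℝ} {M : ℤ} (hM : T * Y + 2 ≤ M) {n : ℤ} (hn : n ∉ Finset.Icc (-M) M)
    {x : ℝ} (h0 : 0 ≤ x) (h1 : x < 1) : x + n < -(T * Y) - 1 ∨ T * Y + 1 < x + n := by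
  rw [Finset.mem_Icc, not_and_or, not_le, not_le] at hn
  rcases hn with hn | hn
  · left
    have : (n : ℝ) < -M := by exact_mod_cast hn
    linarith
  · right
    have : (M : ℝ) < n := by exact_mod_cast hn
    linarith

/-- the inner integral -/
theorem ksx_inner {T : ℝ} {ρ : ℝ → ℝ} (hρ : KerL T ρ) (E : ℕ) (w : ℕ → ℝ) {y : ℝ} (hy : 0 < y)
    (m₀ : ℕ) (c : ℕ → ℝ) :
    ∫ x in (0 : ℝ)..1, (∑ m ∈ Finset.Icc 1 m₀, (c m : ℂ) *
        cexp (2 * Real.pi * Complex.I * m * ((x : ℂ) + (y : ℂ) * Complex.I))) *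
        conj (∑' n : ℤ, KC ρ E w (pt (x + n) y)) =
      ∑ m ∈ Finset.Icc 1 m₀, ((c m * WW E w m : ℝ) : ℂ) *
        (((Real.exp (-2 * Real.pi * m * y) : ℝ) : ℂ) * kh ρ (-(m * y))) := by
  have hP : Continuous (fun x : ℝ => ∑' n : ℤ, KC ρ E w (pt (x + n) y)) := per_cont hρ E w hy
  have h1 : ∀ x : ℝ, (∑ m ∈ Finset.Icc 1 m₀, (c m : ℂ) *
      cexp (2 * Real.pi * Complex.I * m * ((x : ℂ) + (y : ℂ) * Complex.I))) *
      conj (∑' n : ℤ, KC ρ E w (pt (x + n) y)) =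
      ∑ m ∈ Finset.Icc 1 m₀, ((c m : ℂ) * ((Real.exp (-2 * Real.pi * m * y) : ℝ) : ℂ)) *
        conj (cexp (-(2 * Real.pi * ((m : ℤ) : ℝ) * x : ℝ) * Complex.I) *
          ∑' n : ℤ, KC ρ E w (pt (x + n) y)) := by
    intro x
    rw [Finset.sum_mul]
    refine Finset.sum_congr rfl fun m _ => ?_
    have e1 : cexp (2 * Real.pi * Complex.I * m * ((x : ℂ) + (y : ℂ) * Complex.I)) =
        ((Real.exp (-2 * Real.pi * m * y) : ℝ) : ℂ) *
          conj (cexp (-(2 * Real.pi * ((m : ℤ) : ℝ) * x : ℝ) * Complex.I)) := by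
      rw [← Complex.exp_conj, Complex.ofReal_exp, ← Complex.exp_add]
      congr 1
      simp only [map_mul, map_neg, Complex.conj_ofReal, Complex.conj_I]
      push_cast
      linear_combination (2 * (Real.pi : ℂ) * m * y) * Complex.I_mul_I
    rw [e1, map_mul]
    ring
  simp only [h1]
  have hcont : ∀ m : ℕ, Continuous (fun x : ℝ =>
      conj (cexp (-(2 * Real.pi * ((m : ℤ) : ℝ) * x : ℝ) * Complex.I) *
        ∑' n : ℤ, KC ρ E w (pt (x + n) y))) := by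
    intro m
    exact Complex.continuous_conj.comp ((Continuous.cexp (by fun_prop)).mul hP)
  rw [intervalIntegral.integral_finsetSum fun m _ =>
    ((hcont m).const_mul _).intervalIntegrable _ _]
  refine Finset.sum_congr rfl fun m _ => ?_
  rw [intervalIntegral.integral_const_mul, intervalIntegral.intervalIntegral_conj, per_ft hρ E w hy (m : ℤ),
    map_mul, ksx_kh_real hρ, Complex.conj_ofReal, Int.natAbs_natCast, Int.cast_natCast]
  push_cast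
  ring

theorem ksx_unfold {T : ℝ} {ρ : ℝ → ℝ} (hρ : KerL T ρ) {N E : ℕ} (hN : N.Prime) (hE1 : 1 ≤ E)
    (hE : E < N) (w : ℕ → ℝ) (m₀ : ℕ) (s : ℕ → ℝ) {yS : ℝ} (h : (T + 2) * E / N ≤ yS)
    (hyS : 0 < yS) (Y : ℝ) {M : ℤ} (hM : T * Y + 2 ≤ M) :
    PP N (KS m₀ s yS Y) (KY ρ N E w Y) =
      ∫ z : ℍ, (KS m₀ s yS Y z *
        conj (∑ n ∈ Finset.Icc (-M) M, KY ρ N E w Y ((n : ℝ) +ᵥ z))) * ((z.im ^ 2 : ℝ) : ℂ) ∧
    Integrable (fun z : ℍ => (KS m₀ s yS Y z *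
        conj (∑ n ∈ Finset.Icc (-M) M, KY ρ N E w Y ((n : ℝ) +ᵥ z))) *
          ((z.im ^ 2 : ℝ) : ℂ)) := by
  have hN1 : 1 ≤ N := hN.one_le
  have hKS := ks_bd m₀ s hyS Y
  have hKY := ky_bd hρ hN1 E w Y
  have hKn : ∀ n : ℤ, Bd (fun z => KY ρ N E w Y ((n : ℝ) +ᵥ z)) := by
    intro n
    have h1 := bd_sl2 hKY
      (A := (((ksx_g N (n, true) : CongruenceSubgroup.Gamma0 N) : SL(2, ℤ)) : M2))
      (by rw [Matrix.SpecialLinearGroup.det_coe]; norm_num)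
    rwa [sl2_sl, ksx_g_slash] at h1
  have hint : ∀ n : ℤ, Integrable (fun z : ℍ => KS m₀ s yS Y z *
      conj (KY ρ N E w Y ((n : ℝ) +ᵥ z)) * ((z.im ^ 2 : ℝ) : ℂ)) := fun n => bd_int hKS (hKn n)
  set F : CongruenceSubgroup.Gamma0 N → ℂ := fun γ =>
    ipH (KS m₀ s yS Y) ((KY ρ N E w Y) ∣[(2 : ℤ)] (γ : SL(2, ℤ))) with hF
  set G : ℤ → ℂ := fun n => ∫ z : ℍ, KS m₀ s yS Y z *
      conj (KY ρ N E w Y ((n : ℝ) +ᵥ z)) * ((z.im ^ 2 : ℝ) : ℂ) with hG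
  have hFG : ∀ p : ℤ × Bool, F (ksx_g N p) = G p.1 := by
    intro p
    simp only [hF, hG]
    unfold ipH
    rw [ksx_g_slash]
  have hF0 : ∀ γ, γ ∉ Set.range (ksx_g N) → F γ = 0 := by
    intro γ hγ
    have hc : (γ : SL(2, ℤ)) 1 0 ≠ 0 := fun h0 => hγ (ksx_g_surj h0)
    simp only [hF]
    unfold ipH
    refine integral_eq_zero_of_ae (ae_of_all _ fun z => ?_)
    show KS m₀ s yS Y z * conj (((KY ρ N E w Y) ∣[(2 : ℤ)] (γ : SL(2, ℤ))) z) *
      ((z.im ^ 2 : ℝ) : ℂ) = 0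
    by_cases hz : yS < z.im
    · rw [ModularForm.SL_slash_apply, ksx_low hρ hN hE1 hE w Y γ.2 hc (lt_of_le_of_lt h hz)]
      simp
    · have h0 : KS m₀ s yS Y z = 0 := by
        unfold KS
        rw [if_neg]
        exact fun h' => hz h'.2.2.1
      rw [h0]
      simp
  have hG0 : ∀ n ∉ Finset.Icc (-M) M, G n = 0 := by
    intro n hn
    simp only [hG]
    refine integral_eq_zero_of_ae (ae_of_all _ fun z => ?_)
    show KS m₀ s yS Y z * conj (KY ρ N E w Y ((n : ℝ) +ᵥ z)) * ((z.im ^ 2 : ℝ) : ℂ) = 0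
    by_cases hz : 0 ≤ z.re ∧ z.re < 1 ∧ yS < z.im ∧ z.im < Y
    · have h0 : KY ρ N E w Y ((n : ℝ) +ᵥ z) = 0 := by
        refine ksx_suppY hρ N E w (z := (n : ℝ) +ᵥ z) ?_ ?_
        · rw [vadd_im]
          exact hz.2.2.2
        · rw [vadd_re, add_comm]
          exact ksx_out hM hn hz.1 hz.2.1
      rw [h0]
      simp
    · have h0 : KS m₀ s yS Y z = 0 := by
        unfold KS
        rw [if_neg hz]
      rw [h0]
      simp
  have h1 : ∑' γ, F γ = ∑' p : ℤ × Bool, F (ksx_g N p) := by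
    refine ((ksx_g_inj N).tsum_eq ?_).symm
    intro γ hγ
    by_contra hcon
    exact hγ (hF0 γ hcon)
  have h2 : ∑' p : ℤ × Bool, F (ksx_g N p) =
      ∑ p ∈ Finset.Icc (-M) M ×ˢ (Finset.univ : Finset Bool), G p.1 := by
    simp only [hFG]
    exact tsum_eq_sum fun p hp => hG0 p.1 fun hcon =>
      hp (Finset.mem_product.mpr ⟨hcon, Finset.mem_univ _⟩)
  have h3 : ∑ p ∈ Finset.Icc (-M) M ×ˢ (Finset.univ : Finset Bool), G p.1 =
      2 * ∑ n ∈ Finset.Icc (-M) M, G n := by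
    rw [Finset.sum_product, Finset.mul_sum]
    refine Finset.sum_congr rfl fun n _ => ?_
    rw [Fintype.sum_bool]
    show G n + G n = 2 * G n
    ring
  have h4 : ∀ z : ℍ, (KS m₀ s yS Y z *
      conj (∑ n ∈ Finset.Icc (-M) M, KY ρ N E w Y ((n : ℝ) +ᵥ z))) * ((z.im ^ 2 : ℝ) : ℂ) =
      ∑ n ∈ Finset.Icc (-M) M, KS m₀ s yS Y z * conj (KY ρ N E w Y ((n : ℝ) +ᵥ z)) *
        ((z.im ^ 2 : ℝ) : ℂ) := by
    intro z
    rw [map_sum, Finset.mul_sum, Finset.sum_mul]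
  constructor
  · simp only [h4]
    rw [integral_finsetSum _ fun n _ => hint n]
    have h5 : PP N (KS m₀ s yS Y) (KY ρ N E w Y) = (1 / 2) * ∑' γ, F γ := rfl
    rw [h5, h1, h2, h3]
    ring
  · simp only [h4]
    exact integrable_finsetSum _ fun n _ => hint n

theorem ksx_formula {T : ℝ} {ρ : ℝ → ℝ} (hρ : KerL T ρ) {N E : ℕ} (hN : N.Prime) (hE1 : 1 ≤ E)
    (hE : E < N) (w : ℕ → ℝ) (m₀ : ℕ) (s : ℕ → ℝ) {yS : ℝ} (h : (T + 2) * E / N ≤ yS)
    (hyS : 0 < yS) {Y : ℝ} (hY : yS < Y) (hNY : 1 < N * Y * yS) :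
    PP N (KS m₀ s yS Y) (KY ρ N E w Y) = ∑ m ∈ Finset.Icc 1 m₀,
      ((s m * (2 * Real.sqrt m) * Real.exp (4 * Real.pi * m * yS) * WW E w m : ℝ) : ℂ) *
        ∫ y in yS..Y, ((Real.exp (-2 * Real.pi * m * y) : ℝ) : ℂ) * kh ρ (-(m * y)) := by
  have hN1 : 1 ≤ N := hN.one_le
  have hN0 : (0 : ℝ) < N := by exact_mod_cast hN.pos
  obtain ⟨M, hM⟩ := exists_int_gt (T * Y + 2)
  obtain ⟨h1, h2⟩ := ksx_unfold hρ hN hE1 hE w m₀ s h hyS Y hM.le
  rw [h1, coo_iter h2]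
  set c : ℕ → ℝ := fun m => s m * (2 * Real.sqrt m) * Real.exp (4 * Real.pi * m * yS) with hc
  set H : ℝ → ℂ := fun y => ∑ m ∈ Finset.Icc 1 m₀, ((c m * WW E w m : ℝ) : ℂ) *
    (((Real.exp (-2 * Real.pi * m * y) : ℝ) : ℂ) * kh ρ (-(m * y))) with hH
  have h3 : ∀ y ∈ Set.Ioi (0 : ℝ), ∫ x : ℝ, KS m₀ s yS Y (pt x y) *
      conj (∑ n ∈ Finset.Icc (-M) M, KY ρ N E w Y ((n : ℝ) +ᵥ pt x y)) =
      (Set.Ioo yS Y).indicator H y := by
    intro y hy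
    rw [Set.mem_Ioi] at hy
    by_cases hyY : y ∈ Set.Ioo yS Y
    · rw [Set.indicator_of_mem hyY]
      have h4 : ∀ x : ℝ, KS m₀ s yS Y (pt x y) *
          conj (∑ n ∈ Finset.Icc (-M) M, KY ρ N E w Y ((n : ℝ) +ᵥ pt x y)) =
          (Set.Ico (0 : ℝ) 1).indicator (fun x : ℝ => (∑ m ∈ Finset.Icc 1 m₀, (c m : ℂ) *
            cexp (2 * Real.pi * Complex.I * m * ((x : ℂ) + (y : ℂ) * Complex.I))) *
            conj (∑' n : ℤ, KC ρ E w (pt (x + n) y))) x := by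
        intro x
        obtain ⟨e1, e2, e3⟩ := pt_coe x hy
        by_cases hx : x ∈ Set.Ico (0 : ℝ) 1
        · rw [Set.indicator_of_mem hx]
          have h5 : KS m₀ s yS Y (pt x y) = ∑ m ∈ Finset.Icc 1 m₀, (c m : ℂ) *
              cexp (2 * Real.pi * Complex.I * m * ((x : ℂ) + (y : ℂ) * Complex.I)) := by
            unfold KS
            rw [if_pos (by rw [e2, e3]; exact ⟨hx.1, hx.2, hyY.1, hyY.2⟩), e1]
          have h6 : ∑' n : ℤ, KC ρ E w (pt (x + n) y) =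
              ∑ n ∈ Finset.Icc (-M) M, KC ρ E w (pt (x + n) y) := by
            refine tsum_eq_sum fun n hn => ?_
            obtain ⟨f1, f2, f3⟩ := pt_coe (x + n) hy
            refine ksx_supp hρ E w (Y := Y) ?_ ?_
            · rw [f3]
              exact hyY.2
            · rw [f2]
              exact ksx_out hM.le hn hx.1 hx.2
          rw [h5, h6]
          congr 2
          refine Finset.sum_congr rfl fun n _ => ?_
          rw [ksx_vadd hy]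
          refine ksx_high ρ hN1 E w hy ?_ hyY.2 _
          refine hNY.trans_le ?_
          have hYpos : 0 < Y := hyS.trans hY
          exact mul_le_mul_of_nonneg_left hyY.1.le (by positivity)
        · rw [Set.indicator_of_notMem hx]
          have h5 : KS m₀ s yS Y (pt x y) = 0 := by
            unfold KS
            rw [if_neg]
            rw [e2]
            exact fun h' => hx ⟨h'.1, h'.2.1⟩
          rw [h5, zero_mul]
      simp only [h4]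
      rw [integral_indicator measurableSet_Ico, integral_Ico_eq_integral_Ioc,
        ← intervalIntegral.integral_of_le zero_le_one, ksx_inner hρ E w hy m₀ c]
    · rw [Set.indicator_of_notMem hyY]
      refine integral_eq_zero_of_ae (ae_of_all _ fun x => ?_)
      show KS m₀ s yS Y (pt x y) *
          conj (∑ n ∈ Finset.Icc (-M) M, KY ρ N E w Y ((n : ℝ) +ᵥ pt x y)) = 0
      obtain ⟨e1, e2, e3⟩ := pt_coe x hy
      have h5 : KS m₀ s yS Y (pt x y) = 0 := by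
        unfold KS
        rw [if_neg]
        rw [e3]
        exact fun h' => hyY ⟨h'.2.2.1, h'.2.2.2⟩
      rw [h5, zero_mul]
  rw [setIntegral_congr_fun measurableSet_Ioi h3, setIntegral_indicator measurableSet_Ioo]
  have h6 : Set.Ioi (0 : ℝ) ∩ Set.Ioo yS Y = Set.Ioo yS Y := by
    refine Set.inter_eq_right.mpr fun y hy => ?_
    exact hyS.trans hy.1
  rw [h6, ← integral_Ioc_eq_integral_Ioo, ← intervalIntegral.integral_of_le hY.le]
  simp only [hH]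
  rw [intervalIntegral.integral_finsetSum fun m _ =>
    ((ksx_lap_cont hρ m).const_mul _).intervalIntegrable _ _]
  refine Finset.sum_congr rfl fun m _ => ?_
  rw [intervalIntegral.integral_const_mul]

theorem ks_cross_pr {T : ℝ} {ρ : ℝ → ℝ} (hρ : KerL T ρ) {N E : ℕ} [Fact N.Prime] (hE1 : 1 ≤ E)
    (hE : E < N) (w : ℕ → ℝ) {m₀ : ℕ} {s : ℕ → ℝ} (hs : ∀ m, s m ≠ 0 → 1 ≤ m ∧ m ≤ m₀) {yS : ℝ}
    (h : (T + 2) * E / N ≤ yS) :
    Tendsto (fun Y : ℝ => PP N (KS m₀ s yS Y) (KY ρ N E w Y)) atTop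
      (𝓝 (∑ m ∈ Finset.Icc 1 m₀,
        ((s m * (2 * Real.sqrt m) * Real.exp (4 * Real.pi * m * yS) * WW E w m : ℝ) : ℂ) *
          ∫ y in Set.Ioi yS, ((Real.exp (-2 * Real.pi * m * y) : ℝ) : ℂ) * kh ρ (-(m * y)))) := by
  have hN : N.Prime := Fact.out
  have hN0 : (0 : ℝ) < N := by exact_mod_cast hN.pos
  have hE0 : (0 : ℝ) < E := by exact_mod_cast hE1
  have hT := hρ.T1
  have hyS : 0 < yS := lt_of_lt_of_le (by positivity) h
  have hev : ∀ᶠ Y : ℝ in atTop, ∑ m ∈ Finset.Icc 1 m₀,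
      ((s m * (2 * Real.sqrt m) * Real.exp (4 * Real.pi * m * yS) * WW E w m : ℝ) : ℂ) *
        ∫ y in yS..Y, ((Real.exp (-2 * Real.pi * m * y) : ℝ) : ℂ) * kh ρ (-(m * y)) =
      PP N (KS m₀ s yS Y) (KY ρ N E w Y) := by
    filter_upwards [eventually_gt_atTop yS, eventually_gt_atTop (1 / (N * yS))] with Y h1 h2
    refine (ksx_formula hρ hN hE1 hE w m₀ s h hyS h1 ?_).symm
    rw [div_lt_iff₀ (by positivity)] at h2
    calc (1 : ℝ) < Y * (N * yS) := h2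
      _ = N * Y * yS := by ring
  refine Tendsto.congr' hev ?_
  refine tendsto_finsetSum _ fun m hm => Tendsto.const_mul _ ?_
  exact intervalIntegral_tendsto_integral_Ioi _ (ksx_lap_int hρ (Finset.mem_Icc.mp hm).1 yS)
    tendsto_id

theorem ks_cross : type_of% @ks_cross_pr := @ks_cross_pr

end Pool.Agent.LSP
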