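import Pool.Agent.Lib_helper41.LSP.DefsG

namespace Pool.Agent.LSP

open Pool.Agent.LEV Pool.Agent.LVB Pool.Agent.KSL
open Pool.Agent.FG61 (mu phi cc ff AA Lam)
open Complex MeasureTheory Filter Topology UpperHalfPlane ModularGroup ProbabilityTheory
open scoped MatrixGroups Modular ENNReal ModularForm ComplexConjugate ContDiff

theorem grm_det (C : M2) : ((C.det : ℤ) : ℝ) = C 0 0 * C 1 1 - C 0 1 * C 1 0 := by
  rw [Matrix.det_fin_two]; push_cast; ring

theorem cone_mul_re_pr (ρ : ℝ → ℝ) {C : M2} (hC : 0 < C.det) (z : ℍ) :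
    (cone ρ 0 z * conj (coneC ρ C z)).re * z.im ^ 2 =
      (1 - 2 * cr C + z.re / z.im * slp C z) * ρ (z.re / z.im) * ρ (slp C z) := by
  have hy : (0 : ℝ) < z.im := z.im_pos
  have hn : (0 : ℝ) < ((C.det : ℤ) : ℝ) := by exact_mod_cast hC
  have hdet := grm_det C
  have key : cone ρ 0 z * conj (coneC ρ C z) =
      ((ρ (z.re / z.im) / z.im * (ρ (slp C z) / z.im ^ 2) / ((C.det : ℤ) : ℝ) : ℝ) : ℂ) *
        ((1 + ((z.re / z.im : ℝ) : ℂ) * Complex.I) * (-Complex.I) *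
        (((C 0 0 : ℤ) * (z : ℂ) + (C 0 1 : ℤ)) * ((C 1 0 : ℤ) * (z : ℂ) + (C 1 1 : ℤ)))) := by
    unfold cone coneC
    rw [sub_zero, map_mul, map_mul, map_div₀, Complex.conj_I, Complex.conj_conj,
      Complex.conj_ofReal, map_intCast]
    generalize slp C z = s'
    generalize C.det = n
    push_cast
    ring
  rw [key, Complex.re_ofReal_mul]
  have hW : ((1 + ((z.re / z.im : ℝ) : ℂ) * Complex.I) * (-Complex.I) *
        (((C 0 0 : ℤ) * (z : ℂ) + (C 0 1 : ℤ)) * ((C 1 0 : ℤ) * (z : ℂ) + (C 1 1 : ℤ)))).re =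
      z.re / z.im * ((C 0 0 * z.re + C 0 1) * (C 1 0 * z.re + C 1 1) - C 0 0 * C 1 0 * z.im ^ 2) +
        z.im * (2 * C 0 0 * C 1 0 * z.re + C 0 0 * C 1 1 + C 0 1 * C 1 0) := by
    simp only [Complex.mul_re, Complex.mul_im, Complex.add_re, Complex.add_im, Complex.one_re,
      Complex.one_im, Complex.ofReal_re, Complex.ofReal_im, Complex.I_re, Complex.I_im,
      Complex.neg_re, Complex.neg_im, Complex.intCast_re, Complex.intCast_im,
      UpperHalfPlane.coe_re, UpperHalfPlane.coe_im]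
    ring
  rw [hW]
  unfold slp cr
  rw [hdet] at hn ⊢
  push_cast
  generalize ρ _ = r1
  generalize ρ _ = r2
  set a : ℝ := (C 0 0 : ℝ)
  set b : ℝ := (C 0 1 : ℝ)
  set c : ℝ := (C 1 0 : ℝ)
  set d : ℝ := (C 1 1 : ℝ)
  have hn' : a * d - b * c ≠ 0 := hn.ne'
  have hy' : z.im ≠ 0 := hy.ne'
  field_simp
  ring

theorem slp_gram_pr {C : M2} (hC : 0 < C.det) (z : ℍ) :
    (1 - 2 * cr C + z.re / z.im * slp C z) ^ 2 ≤
      (1 + (z.re / z.im) ^ 2) * (1 + slp C z ^ 2) := by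
  have hy : (0 : ℝ) < z.im := z.im_pos
  have hn : (0 : ℝ) < ((C.det : ℤ) : ℝ) := by exact_mod_cast hC
  have hdet := grm_det C
  have key : (1 + (z.re / z.im) ^ 2) * (1 + slp C z ^ 2) -
      (1 - 2 * cr C + z.re / z.im * slp C z) ^ 2 =
      ((C 0 0 * C 1 0 * (z.re ^ 2 + z.im ^ 2) - C 0 1 * C 1 1) / ((C.det : ℤ) * z.im)) ^ 2 := by
    unfold slp cr
    rw [hdet] at hn ⊢
    push_cast
    set a : ℝ := (C 0 0 : ℝ)
    set b : ℝ := (C 0 1 : ℝ)
    set c : ℝ := (C 1 0 : ℝ)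
    set d : ℝ := (C 1 1 : ℝ)
    have hn' : a * d - b * c ≠ 0 := hn.ne'
    have hy' : z.im ≠ 0 := hy.ne'
    field_simp
    ring
  nlinarith [sq_nonneg ((C 0 0 * C 1 0 * (z.re ^ 2 + z.im ^ 2) - C 0 1 * C 1 1) / ((C.det : ℤ) * z.im))]

theorem jj_zero_pr {T : ℝ} {ρ : ℝ → ℝ} (hρ : KerL T ρ) {B₀ : ℕ} (hB : 1 + T ^ 2 ≤ B₀) {C : M2}
    (hC : 0 < C.det) (h : (B₀ : ℤ) * C.det < |C 0 1 * C 1 0|) :
    (∀ z, cone ρ 0 z * conj (coneC ρ C z) = 0) ∧ JJ ρ C = 0 := by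
  have hn : (0 : ℝ) < ((C.det : ℤ) : ℝ) := by exact_mod_cast hC
  have h1 : ∀ z, cone ρ 0 z * conj (coneC ρ C z) = 0 := by
    intro z
    by_contra hne
    have h2 : ρ ((z.re - 0) / z.im) ≠ 0 := by
      intro h3
      apply hne
      unfold cone
      rw [h3]
      simp
    have h4 : ρ (slp C z) ≠ 0 := by
      intro h3
      apply hne
      unfold coneC
      rw [h3]
      simp
    rw [sub_zero] at h2
    have ht : |z.re / z.im| ≤ T := by
      by_contra hlt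
      exact h2 (hρ.supp _ (not_le.1 hlt))
    have hs : |slp C z| ≤ T := by
      by_contra hlt
      exact h4 (hρ.supp _ (not_le.1 hlt))
    have hg := slp_gram_pr hC z
    set t := z.re / z.im with htdef
    set s := slp C z with hsdef
    have hT0 : 0 ≤ T := le_trans (abs_nonneg _) ht
    have ht2 : t ^ 2 ≤ T ^ 2 := by rw [← sq_abs t]; exact pow_le_pow_left₀ (abs_nonneg _) ht 2
    have hs2 : s ^ 2 ≤ T ^ 2 := by rw [← sq_abs s]; exact pow_le_pow_left₀ (abs_nonneg _) hs 2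
    have h5 : (1 - 2 * cr C + t * s) ^ 2 ≤ (1 + T ^ 2) ^ 2 := by
      calc (1 - 2 * cr C + t * s) ^ 2 ≤ (1 + t ^ 2) * (1 + s ^ 2) := hg
        _ ≤ (1 + T ^ 2) * (1 + T ^ 2) := by
          apply mul_le_mul (by linarith) (by linarith) (by positivity) (by positivity)
        _ = _ := by ring
    have h6 : |1 - 2 * cr C + t * s| ≤ 1 + T ^ 2 := abs_le_of_sq_le_sq h5 (by positivity)
    have h7 : |t * s| ≤ T ^ 2 := by
      rw [abs_mul, sq]
      exact mul_le_mul ht hs (abs_nonneg _) hT0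
    have h8 : |cr C| ≤ B₀ := by
      rw [abs_le] at h6 h7 ⊢
      constructor <;> linarith [h6.1, h6.2, h7.1, h7.2]
    have h9 : (B₀ : ℝ) * (C.det : ℤ) < |((C 0 1 * C 1 0 : ℤ) : ℝ)| := by
      rw [← Int.cast_abs]
      exact_mod_cast h
    have h10 : |cr C| = |((C 0 1 * C 1 0 : ℤ) : ℝ)| / (C.det : ℤ) := by
      unfold cr
      rw [abs_div, abs_neg, abs_of_pos hn]
    rw [h10, div_le_iff₀ hn] at h8
    linarith
  refine ⟨h1, ?_⟩
  unfold JJ ipH
  simp only [h1, zero_mul]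
  simp

theorem cone_mul_re : type_of% @cone_mul_re_pr := @cone_mul_re_pr
theorem slp_gram : type_of% @slp_gram_pr := @slp_gram_pr
theorem jj_zero : type_of% @jj_zero_pr := @jj_zero_pr

end Pool.Agent.LSP
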