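import Pool.Agent.Lib_helper41.LSP.DefsG
import Pool.Agent.Lib_helper58.JOS.Base
import Pool.Agent.Lib_helper41.LSPG.GRM

namespace Pool.Agent.LSP

open Pool.Agent.LEV Pool.Agent.LVB Pool.Agent.KSL
open Complex MeasureTheory Filter Topology UpperHalfPlane ModularGroup ProbabilityTheory
open scoped MatrixGroups Modular ENNReal ModularForm ComplexConjugate ContDiff

/-- the coordinates slope and height -/
noncomputable def h16_Phi (z : ℍ) : ℝ × ℝ := (z.re / z.im, z.im)

theorem h16_Phi_meas : Measurable h16_Phi := by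
  have h1 : Continuous h16_Phi := by
    unfold h16_Phi
    exact (UpperHalfPlane.continuous_re.div UpperHalfPlane.continuous_im
      (fun z => z.im_pos.ne')).prodMk UpperHalfPlane.continuous_im
  exact h1.measurable

theorem h16_lint (G : ℝ × ℝ → ℝ≥0∞) (hG : Measurable G) :
    ∫⁻ z : ℍ, G (h16_Phi z) = ∫⁻ p in (Set.univ : Set ℝ) ×ˢ Set.Ioi (0 : ℝ),
      G p * ENNReal.ofReal (1 / p.2) := by
  have h1 := Pool.Agent.JOS.lint_H (fun z : ℂ => G (z.re / z.im, z.im))
  have h2 : ∀ z : ℍ, G (h16_Phi z) = (fun z : ℂ => G (z.re / z.im, z.im)) (z : ℂ) := fun z => rfl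
  simp_rw [h2]
  rw [h1]
  have hms : MeasurableSet {z : ℂ | 0 < z.im} :=
    (isOpen_lt continuous_const Complex.continuous_im).measurableSet
  rw [← lintegral_indicator hms]
  have h3 := Complex.volume_preserving_equiv_real_prod.lintegral_comp_emb
    Complex.measurableEquivRealProd.measurableEmbedding
    (fun p : ℝ × ℝ => (Set.univ ×ˢ Set.Ioi (0 : ℝ)).indicator
      (fun p : ℝ × ℝ => G (p.1 / p.2, p.2) * ENNReal.ofReal (1 / p.2 ^ 2)) p)
  have h4 : ∀ z : ℂ, {z : ℂ | 0 < z.im}.indicator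
      (fun z : ℂ => G (z.re / z.im, z.im) * ENNReal.ofReal (1 / z.im ^ 2)) z =
      (Set.univ ×ˢ Set.Ioi (0 : ℝ)).indicator
      (fun p : ℝ × ℝ => G (p.1 / p.2, p.2) * ENNReal.ofReal (1 / p.2 ^ 2))
        (Complex.measurableEquivRealProd z) := by
    intro z
    by_cases hz : 0 < z.im
    · rw [Set.indicator_of_mem (show z ∈ {z : ℂ | 0 < z.im} from hz),
        Set.indicator_of_mem (show Complex.measurableEquivRealProd z ∈
          (Set.univ ×ˢ Set.Ioi (0 : ℝ)) from ⟨Set.mem_univ _, hz⟩)]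
      rfl
    · rw [Set.indicator_of_notMem (show z ∉ {z : ℂ | 0 < z.im} from hz),
        Set.indicator_of_notMem (show Complex.measurableEquivRealProd z ∉
          (Set.univ ×ˢ Set.Ioi (0 : ℝ)) from fun h => hz h.2)]
  have hms2 : MeasurableSet ((Set.univ : Set ℝ) ×ˢ Set.Ioi (0 : ℝ)) :=
    MeasurableSet.univ.prod measurableSet_Ioi
  have hm1 : Measurable (fun p : ℝ × ℝ => G (p.1 / p.2, p.2) * ENNReal.ofReal (1 / p.2 ^ 2)) := by
    fun_prop
  have hm2 : Measurable (fun p : ℝ × ℝ => G p * ENNReal.ofReal (1 / p.2)) := by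
    fun_prop
  simp_rw [h4]
  rw [h3, ← lintegral_indicator hms2]
  rw [Measure.volume_eq_prod, lintegral_prod_symm' _ (hm1.indicator hms2),
    lintegral_prod_symm' _ (hm2.indicator hms2)]
  apply lintegral_congr
  intro y
  by_cases hy : 0 < y
  · have e1 : ∀ x : ℝ, ((Set.univ : Set ℝ) ×ˢ Set.Ioi (0 : ℝ)).indicator
        (fun p : ℝ × ℝ => G (p.1 / p.2, p.2) * ENNReal.ofReal (1 / p.2 ^ 2)) (x, y) =
        G (x / y, y) * ENNReal.ofReal (1 / y ^ 2) := fun x =>
      Set.indicator_of_mem (show (x, y) ∈ ((Set.univ : Set ℝ) ×ˢ Set.Ioi (0 : ℝ)) from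
        ⟨Set.mem_univ _, hy⟩) _
    have e2 : ∀ x : ℝ, ((Set.univ : Set ℝ) ×ˢ Set.Ioi (0 : ℝ)).indicator
        (fun p : ℝ × ℝ => G p * ENNReal.ofReal (1 / p.2)) (x, y) =
        G (x, y) * ENNReal.ofReal (1 / y) := fun x =>
      Set.indicator_of_mem (show (x, y) ∈ ((Set.univ : Set ℝ) ×ˢ Set.Ioi (0 : ℝ)) from
        ⟨Set.mem_univ _, hy⟩) _
    simp_rw [e1, e2]
    have hGy : Measurable (fun t : ℝ => G (t, y)) := hG.comp (by fun_prop)
    have hGy2 : Measurable (fun t : ℝ => G (t / y, y)) := hG.comp (by fun_prop)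
    rw [lintegral_mul_const _ hGy2, lintegral_mul_const _ hGy]
    have h5 : ∫⁻ t : ℝ, G (t, y) = ENNReal.ofReal (1 / y) * ∫⁻ x : ℝ, G (x / y, y) := by
      have h6 := Real.map_volume_mul_right (a := y) hy.ne'
      have h7 : ∫⁻ x : ℝ, G (x / y, y) ∂(Measure.map (· * y) (volume : Measure ℝ)) =
          ∫⁻ t : ℝ, G (t * y / y, y) := by
        rw [lintegral_map hGy2 (by fun_prop)]
      rw [h6, lintegral_smul_measure] at h7
      have h8 : ∀ t : ℝ, t * y / y = t := fun t => by field_simp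
      simp_rw [h8] at h7
      rw [← h7, abs_of_pos (inv_pos.2 hy), one_div, smul_eq_mul]
    rw [h5, mul_comm, mul_comm (ENNReal.ofReal (1 / y)) _, mul_assoc,
      ← ENNReal.ofReal_mul (by positivity), mul_comm]
    congr 2
    field_simp
  · have e1 : ∀ x : ℝ, ((Set.univ : Set ℝ) ×ˢ Set.Ioi (0 : ℝ)).indicator
        (fun p : ℝ × ℝ => G (p.1 / p.2, p.2) * ENNReal.ofReal (1 / p.2 ^ 2)) (x, y) = 0 := fun x =>
      Set.indicator_of_notMem (show (x, y) ∉ ((Set.univ : Set ℝ) ×ˢ Set.Ioi (0 : ℝ)) from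
        fun h => hy h.2) _
    have e2 : ∀ x : ℝ, ((Set.univ : Set ℝ) ×ˢ Set.Ioi (0 : ℝ)).indicator
        (fun p : ℝ × ℝ => G p * ENNReal.ofReal (1 / p.2)) (x, y) = 0 := fun x =>
      Set.indicator_of_notMem (show (x, y) ∉ ((Set.univ : Set ℝ) ×ˢ Set.Ioi (0 : ℝ)) from
        fun h => hy h.2) _
    simp_rw [e1, e2]

theorem h16_map : Measure.map h16_Phi (volume : Measure ℍ) =
    ((volume : Measure (ℝ × ℝ)).restrict ((Set.univ : Set ℝ) ×ˢ Set.Ioi (0 : ℝ))).withDensity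
      (fun p => ENNReal.ofReal (1 / p.2)) := by
  apply Measure.ext
  intro s hs
  rw [Measure.map_apply h16_Phi_meas hs, withDensity_apply _ hs, ← lintegral_indicator hs]
  have h := h16_lint (s.indicator (fun _ => 1)) (measurable_const.indicator hs)
  have h1 : ∀ z : ℍ, s.indicator (fun _ => (1 : ℝ≥0∞)) (h16_Phi z) =
      (h16_Phi ⁻¹' s).indicator (fun _ => 1) z := by
    intro z
    rfl
  simp_rw [h1] at h
  rw [lintegral_indicator (h16_Phi_meas hs), lintegral_one, Measure.restrict_apply_univ] at h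
  rw [h]
  apply lintegral_congr
  intro p
  by_cases hp : p ∈ s
  · rw [Set.indicator_of_mem hp, Set.indicator_of_mem hp, one_mul]
  · rw [Set.indicator_of_notMem hp, Set.indicator_of_notMem hp, zero_mul]

theorem h16_int {f : ℝ × ℝ → ℝ} (hf : Measurable f) (hi : Integrable (fun z : ℍ => f (h16_Phi z))) :
    ∫ z : ℍ, f (h16_Phi z) = ∫ t : ℝ, ∫ y in Set.Ioi (0 : ℝ), f (t, y) / y := by
  have hm : Measurable (fun p : ℝ × ℝ => ENNReal.ofReal (1 / p.2)) := by fun_prop
  have hms2 : MeasurableSet ((Set.univ : Set ℝ) ×ˢ Set.Ioi (0 : ℝ)) :=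
    MeasurableSet.univ.prod measurableSet_Ioi
  have h1 : Integrable f (Measure.map h16_Phi (volume : Measure ℍ)) :=
    (integrable_map_measure hf.aestronglyMeasurable h16_Phi_meas.aemeasurable).2 hi
  have h2 := integral_map (μ := (volume : Measure ℍ)) h16_Phi_meas.aemeasurable
    hf.aestronglyMeasurable
  have hlt : ∀ᵐ p : ℝ × ℝ ∂((volume : Measure (ℝ × ℝ)).restrict
      ((Set.univ : Set ℝ) ×ˢ Set.Ioi (0 : ℝ))), ENNReal.ofReal (1 / p.2) < ⊤ :=
    Eventually.of_forall (fun p => ENNReal.ofReal_lt_top)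
  rw [← h2, h16_map, integral_withDensity_eq_integral_toReal_smul hm hlt]
  rw [h16_map, integrable_withDensity_iff_integrable_smul' hm hlt] at h1
  have h3 : IntegrableOn (fun p : ℝ × ℝ => f p / p.2) ((Set.univ : Set ℝ) ×ˢ Set.Ioi (0 : ℝ))
      ((volume : Measure ℝ).prod (volume : Measure ℝ)) := by
    rw [← Measure.volume_eq_prod]
    refine h1.congr ?_
    refine (ae_restrict_iff' hms2).2 (Eventually.of_forall ?_)
    intro p hp
    have hp2 : 0 < p.2 := hp.2
    simp only [smul_eq_mul]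
    rw [ENNReal.toReal_ofReal (by positivity)]
    ring
  have h4 := setIntegral_prod (fun p : ℝ × ℝ => f p / p.2) h3
  rw [Measure.restrict_univ] at h4
  rw [← h4, Measure.volume_eq_prod]
  refine setIntegral_congr_fun hms2 ?_
  intro p hp
  have hp2 : 0 < p.2 := hp.2
  simp only [smul_eq_mul]
  rw [ENNReal.toReal_ofReal (by positivity)]
  ring

/-- the slope in the coordinates -/
noncomputable def h16_sl (a b c t y : ℝ) : ℝ := a * (1 + t ^ 2) * y + c * t + b / y

theorem h16_slp {C : M2} (hC : 0 < C.det) (z : ℍ) : slp C z =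
    h16_sl (((C 0 0 : ℤ) : ℝ) * ((C 1 0 : ℤ) : ℝ) / ((C.det : ℤ) : ℝ))
      (((C 0 1 : ℤ) : ℝ) * ((C 1 1 : ℤ) : ℝ) / ((C.det : ℤ) : ℝ)) (1 - 2 * cr C)
      (z.re / z.im) z.im := by
  have hD : (0 : ℝ) < ((C.det : ℤ) : ℝ) := Int.cast_pos.2 hC
  have hdet : ((C.det : ℤ) : ℝ) = ((C 0 0 : ℤ) : ℝ) * ((C 1 1 : ℤ) : ℝ) -
      ((C 0 1 : ℤ) : ℝ) * ((C 1 0 : ℤ) : ℝ) := by
    rw [Matrix.det_fin_two, Int.cast_sub, Int.cast_mul, Int.cast_mul]
  have hy := z.im_pos
  unfold slp cr h16_sl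
  rw [Int.cast_mul]
  generalize ((C.det : ℤ) : ℝ) = D at hD hdet
  have hD' := hD.ne'
  have hy' := hy.ne'
  field_simp
  rw [hdet]
  ring

theorem h16_box {a b c T t y : ℝ} (ha : a ≠ 0) (hb : b ≠ 0) (hT : 0 ≤ T) (hy : 0 < y)
    (ht : |t| ≤ T) (hs : |h16_sl a b c t y| ≤ T) :
    |b| / (T + |c| * T + |b| + |a| * (1 + T ^ 2)) ≤ y ∧ y ≤ 1 + (T + |c| * T + |b|) / |a| := by
  have ha' : 0 < |a| := abs_pos.2 ha
  have hb' : 0 < |b| := abs_pos.2 hb
  have hc' : 0 ≤ |c| := abs_nonneg c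
  have h1 : |a * (1 + t ^ 2) * y + b / y| ≤ T + |c| * T := by
    have e : a * (1 + t ^ 2) * y + b / y = h16_sl a b c t y - c * t := by
      unfold h16_sl
      ring
    rw [e]
    refine (abs_sub _ _).trans ?_
    rw [abs_mul]
    have := mul_le_mul_of_nonneg_left ht hc'
    linarith
  have h2 : |a * (1 + t ^ 2) * y| = |a| * (1 + t ^ 2) * y := by
    rw [abs_mul, abs_mul, abs_of_pos hy, abs_of_pos (show (0 : ℝ) < 1 + t ^ 2 by positivity)]
  have h3 : |b / y| = |b| / y := by rw [abs_div, abs_of_pos hy]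
  have ht2 : t ^ 2 ≤ T ^ 2 := by
    rw [← sq_abs t]
    exact pow_le_pow_left₀ (abs_nonneg _) ht 2
  constructor
  · have hden : 0 < T + |c| * T + |b| + |a| * (1 + T ^ 2) := by positivity
    rw [div_le_iff₀ hden]
    rcases le_total 1 y with h | h
    · have : T + |c| * T + |b| + |a| * (1 + T ^ 2) ≤
          y * (T + |c| * T + |b| + |a| * (1 + T ^ 2)) := by nlinarith
      have h5 : 0 ≤ T + |c| * T + |a| * (1 + T ^ 2) := by positivity
      linarith
    · have h4 : |b| / y ≤ T + |c| * T + |a| * (1 + t ^ 2) * y := by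
        rw [← h2, ← h3]
        have : b / y = (a * (1 + t ^ 2) * y + b / y) - a * (1 + t ^ 2) * y := by ring
        calc |b / y| = |(a * (1 + t ^ 2) * y + b / y) - a * (1 + t ^ 2) * y| := by rw [← this]
          _ ≤ _ := abs_sub _ _
          _ ≤ _ := by linarith
      rw [div_le_iff₀ hy] at h4
      have h5 : |a| * (1 + t ^ 2) * y ≤ |a| * (1 + T ^ 2) := by
        calc |a| * (1 + t ^ 2) * y ≤ |a| * (1 + t ^ 2) * 1 := by gcongr
          _ ≤ |a| * (1 + T ^ 2) := by rw [mul_one]; gcongr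
      have h6 : (T + |c| * T + |a| * (1 + t ^ 2) * y) * y ≤
          (T + |c| * T + |a| * (1 + T ^ 2)) * y := by gcongr
      have h7 : 0 ≤ |b| * y := by positivity
      nlinarith
  · rcases le_total y 1 with h | h
    · have : 0 ≤ (T + |c| * T + |b|) / |a| := by positivity
      linarith
    · have h4 : |a| * y ≤ T + |c| * T + |b| := by
        have h5 : |a| * y ≤ |a| * (1 + t ^ 2) * y := by
          have : 0 ≤ |a| * t ^ 2 * y := by positivity
          nlinarith
        have h6 : |b| / y ≤ |b| := div_le_self hb'.le h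
        have h7 : a * (1 + t ^ 2) * y = (a * (1 + t ^ 2) * y + b / y) - b / y := by ring
        have h8 : |a * (1 + t ^ 2) * y| ≤ (T + |c| * T) + |b| / y := by
          rw [h7, ← h3]
          exact (abs_sub _ _).trans (by linarith)
        rw [h2] at h8
        linarith
      have h5 : y ≤ (T + |c| * T + |b|) / |a| := by
        rw [le_div_iff₀ ha']
        linarith
      linarith

theorem h16_ab {C : M2} (hC : 0 < C.det) (h : Nsh C) (h' : C 0 0 ≠ 0 ∧ C 1 1 ≠ 0) :
    (((C 0 0 : ℤ) : ℝ) * ((C 1 0 : ℤ) : ℝ) / ((C.det : ℤ) : ℝ)) ≠ 0 ∧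
      (((C 0 1 : ℤ) : ℝ) * ((C 1 1 : ℤ) : ℝ) / ((C.det : ℤ) : ℝ)) ≠ 0 := by
  have hD : ((C.det : ℤ) : ℝ) ≠ 0 := (Int.cast_pos.2 hC).ne'
  have h1 : ((C 0 0 : ℤ) : ℝ) ≠ 0 := Int.cast_ne_zero.2 h'.1
  have h2 : ((C 1 1 : ℤ) : ℝ) ≠ 0 := Int.cast_ne_zero.2 h'.2
  have h3 : ((C 0 1 : ℤ) : ℝ) ≠ 0 := Int.cast_ne_zero.2 h.1
  have h4 : ((C 1 0 : ℤ) : ℝ) ≠ 0 := Int.cast_ne_zero.2 h.2
  exact ⟨div_ne_zero (mul_ne_zero h1 h4) hD, div_ne_zero (mul_ne_zero h3 h2) hD⟩

theorem jj_int_pr {T : ℝ} {ρ : ℝ → ℝ} (hρ : KerL T ρ) {C : M2} (hC : 0 < C.det) (h : Nsh C)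
    (h' : C 0 0 ≠ 0 ∧ C 1 1 ≠ 0) : Integrable (fun z : ℍ =>
      cone ρ 0 z * conj (coneC ρ C z) * ((z.im ^ 2 : ℝ) : ℂ)) := by
  obtain ⟨ha, hb⟩ := h16_ab hC h h'
  have hT0 : 0 ≤ T := by linarith [hρ.T1]
  set a := (((C 0 0 : ℤ) : ℝ) * ((C 1 0 : ℤ) : ℝ) / ((C.det : ℤ) : ℝ)) with had
  set b := (((C 0 1 : ℤ) : ℝ) * ((C 1 1 : ℤ) : ℝ) / ((C.det : ℤ) : ℝ)) with hbd
  set c := 1 - 2 * cr C with hcd
  set y0 : ℝ := |b| / (T + |c| * T + |b| + |a| * (1 + T ^ 2)) with hy0
  set R : ℝ := 1 + (T + |c| * T + |b|) / |a| with hR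
  have hre : Continuous (fun z : ℍ => z.re) := UpperHalfPlane.continuous_re
  have him : Continuous (fun z : ℍ => z.im) := UpperHalfPlane.continuous_im
  have hcoe : Continuous (fun z : ℍ => (z : ℂ)) := UpperHalfPlane.continuous_coe
  have hne : ∀ z : ℍ, z.im ≠ 0 := fun z => z.im_pos.ne'
  have hD : ((C.det : ℤ) : ℝ) ≠ 0 := (Int.cast_pos.2 hC).ne'
  have hsl : Continuous (fun z : ℍ => slp C z) := by
    unfold slp
    refine Continuous.div ?_ (continuous_const.mul him) (fun z => mul_ne_zero hD (hne z))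
    fun_prop
  have hρc : Continuous ρ := hρ.cont
  have hc1 : Continuous (cone ρ 0) := by
    unfold cone
    have h1 : Continuous (fun z : ℍ => (z.re - 0) / z.im) := (hre.sub continuous_const).div him hne
    have h2 : Continuous (fun z : ℍ => ρ ((z.re - 0) / z.im) / z.im) := (hρc.comp h1).div him hne
    exact (Complex.continuous_ofReal.comp h2).mul (continuous_const.add
      ((Complex.continuous_ofReal.comp h1).mul continuous_const))
  have hc2 : Continuous (coneC ρ C) := by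
    unfold coneC
    have h2 : Continuous (fun z : ℍ => ρ (slp C z) / z.im ^ 2) := (hρc.comp hsl).div (him.pow 2)
      (fun z => pow_ne_zero 2 (hne z))
    refine (continuous_const.mul (Complex.continuous_conj.comp ?_)).mul
      (Complex.continuous_ofReal.comp h2)
    exact ((continuous_const.mul hcoe).add continuous_const).mul
      ((continuous_const.mul hcoe).add continuous_const)
  have hcont : Continuous (fun z : ℍ =>
      cone ρ 0 z * conj (coneC ρ C z) * ((z.im ^ 2 : ℝ) : ℂ)) :=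
    (hc1.mul (Complex.continuous_conj.comp hc2)).mul
      (Complex.continuous_ofReal.comp (him.pow 2))
  refine hcont.integrable_of_hasCompactSupport ?_
  have hy0p : 0 < y0 := by
    have hb' : 0 < |b| := abs_pos.2 hb
    positivity
  have hK : IsCompact ((UpperHalfPlane.coe) ⁻¹'
      (Set.Icc (-(T * R)) (T * R) ×ℂ Set.Icc y0 R)) := by
    rw [UpperHalfPlane.isEmbedding_coe.isInducing.isCompact_preimage_iff]
    · exact isCompact_Icc.reProdIm isCompact_Icc
    · intro z hz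
      exact ⟨⟨z, lt_of_lt_of_le hy0p (Complex.mem_reProdIm.1 hz).2.1⟩, rfl⟩
  refine HasCompactSupport.intro hK ?_
  intro z hz
  by_contra hne0
  apply hz
  have h1 : cone ρ 0 z ≠ 0 := fun h0 => hne0 (by rw [h0]; simp)
  have h2 : coneC ρ C z ≠ 0 := fun h0 => hne0 (by rw [h0]; simp)
  have h3 : ρ (z.re / z.im) ≠ 0 := by
    intro h0
    apply h1
    unfold cone
    rw [sub_zero, h0]
    simp
  have h4 : ρ (slp C z) ≠ 0 := by
    intro h0
    apply h2
    unfold coneC
    rw [h0]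
    simp
  have h5 : |z.re / z.im| ≤ T := by
    by_contra h6
    exact h3 (hρ.supp _ (not_le.1 h6))
  have h6 : |slp C z| ≤ T := by
    by_contra h6
    exact h4 (hρ.supp _ (not_le.1 h6))
  rw [h16_slp hC] at h6
  obtain ⟨h7, h8⟩ := h16_box ha hb hT0 z.im_pos h5 h6
  rw [Set.mem_preimage, Complex.mem_reProdIm]
  refine ⟨?_, h7, h8⟩
  rw [abs_div, abs_of_pos z.im_pos, div_le_iff₀ z.im_pos] at h5
  have h9 : |z.re| ≤ T * R := h5.trans (mul_le_mul_of_nonneg_left h8 hT0)
  exact abs_le.1 h9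

/-- the reflected matrix -/
theorem h16_flip_det (C : M2) : (!![C 0 0, -C 0 1; -C 1 0, C 1 1] : M2).det = C.det := by
  rw [Matrix.det_fin_two, Matrix.det_fin_two]
  simp

theorem h16_conj {T : ℝ} {ρ : ℝ → ℝ} (hρ : KerL T ρ) {C : M2} (hC : 0 < C.det) :
    JJ ρ !![C 0 0, -C 0 1; -C 1 0, C 1 1] = conj (JJ ρ C) := by
  unfold JJ ipH
  rw [← integral_conj]
  rw [← MeasureTheory.integral_smul_eq_self (μ := (volume : Measure ℍ)) _ (g := UpperHalfPlane.J)]
  congr 1
  funext z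
  have hz := UpperHalfPlane.coe_J_smul z
  have hre : (UpperHalfPlane.J • z).re = -z.re := by
    have := congrArg Complex.re hz
    simpa using this
  have him : (UpperHalfPlane.J • z).im = z.im := by
    have := congrArg Complex.im hz
    simpa using this
  have h1 : cone ρ 0 (UpperHalfPlane.J • z) = conj (cone ρ 0 z) := by
    unfold cone
    rw [hre, him]
    have e1 : (-z.re - 0) / z.im = -((z.re - 0) / z.im) := by ring
    rw [e1, hρ.even, map_mul, map_add, map_mul, Complex.conj_ofReal, Complex.conj_ofReal,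
      Complex.conj_I, map_one]
    push_cast
    ring
  have h2 : slp !![C 0 0, -C 0 1; -C 1 0, C 1 1] (UpperHalfPlane.J • z) = -slp C z := by
    unfold slp
    rw [hre, him, h16_flip_det]
    simp only [Matrix.of_apply, Matrix.cons_val', Matrix.cons_val_zero, Matrix.cons_val_one,
      Matrix.cons_val_fin_one, Int.cast_neg]
    rw [← neg_div]
    congr 1
    ring
  have h3 : coneC ρ !![C 0 0, -C 0 1; -C 1 0, C 1 1] (UpperHalfPlane.J • z) =
      conj (coneC ρ C z) := by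
    unfold coneC
    rw [h2, hρ.even, h16_flip_det, hz, him]
    simp only [Matrix.of_apply, Matrix.cons_val', Matrix.cons_val_zero, Matrix.cons_val_one,
      Matrix.cons_val_fin_one, Int.cast_neg]
    simp only [map_mul, map_add, map_neg, map_div₀, Complex.conj_conj, Complex.conj_ofReal,
      Complex.conj_I, map_intCast]
    ring
  rw [h1, h3, him]
  simp only [map_mul, Complex.conj_conj, Complex.conj_ofReal]

theorem h16_re {T : ℝ} {ρ : ℝ → ℝ} (hρ : KerL T ρ) {C : M2} (hC : 0 < C.det) (h : Nsh C)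
    (h' : C 0 0 ≠ 0 ∧ C 1 1 ≠ 0) : (JJ ρ C).re = GG ρ (cr C) := by
  obtain ⟨ha, hb⟩ := h16_ab hC h h'
  have hi := jj_int_pr hρ hC h h'
  have hdet : ((C.det : ℤ) : ℝ) = ((C 0 0 : ℤ) : ℝ) * ((C 1 1 : ℤ) : ℝ) -
      ((C 0 1 : ℤ) : ℝ) * ((C 1 0 : ℤ) : ℝ) := by
    rw [Matrix.det_fin_two, Int.cast_sub, Int.cast_mul, Int.cast_mul]
  have hDp : (0 : ℝ) < ((C.det : ℤ) : ℝ) := Int.cast_pos.2 hC
  have h1 : ((C 0 0 : ℤ) : ℝ) ≠ 0 := Int.cast_ne_zero.2 h'.1
  have h3 : ((C 0 1 : ℤ) : ℝ) ≠ 0 := Int.cast_ne_zero.2 h.1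
  have hu : cr C = -(((C 0 1 : ℤ) : ℝ) * ((C 1 0 : ℤ) : ℝ)) / ((C.det : ℤ) : ℝ) := by
    unfold cr
    rw [Int.cast_mul]
  have hu1 : 1 - cr C = ((C 0 0 : ℤ) : ℝ) * ((C 1 1 : ℤ) : ℝ) / ((C.det : ℤ) : ℝ) := by
    rw [hu, eq_div_iff hDp.ne', sub_mul, div_mul_cancel₀ _ hDp.ne', hdet]
    ring
  set al := ((C 0 0 : ℤ) : ℝ) with hal
  set be := ((C 0 1 : ℤ) : ℝ) with hbe
  set ga := ((C 1 0 : ℤ) : ℝ) with hga
  set de := ((C 1 1 : ℤ) : ℝ) with hde
  set D := ((C.det : ℤ) : ℝ) with hDd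
  set u := cr C with hud
  -- the real part
  set f : ℝ × ℝ → ℝ := fun p => (1 - 2 * u + p.1 * h16_sl (al * ga / D) (be * de / D) (1 - 2 * u)
    p.1 p.2) * ρ p.1 * ρ (h16_sl (al * ga / D) (be * de / D) (1 - 2 * u) p.1 p.2) with hf
  have hre : ∀ z : ℍ, (cone ρ 0 z * conj (coneC ρ C z) * ((z.im ^ 2 : ℝ) : ℂ)).re =
      f (h16_Phi z) := by
    intro z
    rw [Complex.re_mul_ofReal, cone_mul_re ρ hC z, h16_slp hC z]
    rfl
  have e1 : (JJ ρ C).re = ∫ z : ℍ, f (h16_Phi z) := by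
    unfold JJ ipH
    have := integral_re hi
    simp only [RCLike.re_eq_complex_re] at this
    rw [← this]
    exact integral_congr_ae (Eventually.of_forall hre)
  have hfi : Integrable (fun z : ℍ => f (h16_Phi z)) := by
    have := hi.re
    simp only [RCLike.re_eq_complex_re] at this
    exact this.congr (Eventually.of_forall hre)
  have hρm : Measurable ρ := hρ.cont.measurable
  have hfm : Measurable f := by
    simp only [hf, h16_sl]
    fun_prop
  rw [e1, h16_int hfm hfi]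
  unfold GG
  -- scaling
  set lam : ℝ := |be / al| with hlam
  have hlp : 0 < lam := abs_pos.2 (div_ne_zero h3 h1)
  have hscale : ∀ t : ℝ, ∫ y in Set.Ioi (0 : ℝ), f (t, y) / y =
      ∫ y in Set.Ioi (0 : ℝ), f (t, lam * y) / y := by
    intro t
    have h5 := integral_comp_mul_left_Ioi (fun y => f (t, y) / y) 0 hlp
    rw [mul_zero] at h5
    have h6 : ∫ y in Set.Ioi (0 : ℝ), f (t, lam * y) / y =
        lam * ∫ y in Set.Ioi (0 : ℝ), f (t, lam * y) / (lam * y) := by
      rw [← integral_const_mul]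
      refine setIntegral_congr_fun measurableSet_Ioi ?_
      intro y hy
      have hy' : (0 : ℝ) < y := hy
      simp only
      field_simp
    rw [h6, h5, smul_eq_mul, ← mul_assoc, mul_inv_cancel₀ hlp.ne', one_mul]
  simp_rw [hscale]
  rcases lt_or_gt_of_ne (div_ne_zero h3 h1) with hneg | hpos
  · -- opposite signs
    have hl : lam = -(be / al) := abs_of_neg hneg
    have e2 : ∀ t : ℝ, (∫ y in Set.Ioi (0 : ℝ), f (t, lam * y) / y) =
        (fun t : ℝ => ∫ y in Set.Ioi (0 : ℝ), (1 - 2 * u + t * tp u t y) * ρ t *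
          ρ (tp u t y) / y) (-t) := by
      intro t
      refine setIntegral_congr_fun measurableSet_Ioi ?_
      intro y hy
      have hy' : (0 : ℝ) < y := hy
      have h7 : h16_sl (al * ga / D) (be * de / D) (1 - 2 * u) t (lam * y) = -tp u (-t) y := by
        unfold h16_sl tp
        rw [hl]
        have h8 : al * ga / D * (1 + t ^ 2) * (-(be / al) * y) = u * (1 + t ^ 2) * y := by
          rw [hu]
          field_simp
        have h9 : be * de / D / (-(be / al) * y) = -((1 - u) / y) := by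
          rw [hu1]
          field_simp
        rw [h8, h9]
        ring
      simp only [hf]
      rw [h7, hρ.even, hρ.even]
      ring
    simp_rw [e2]
    exact integral_neg_eq_self (fun t : ℝ => ∫ y in Set.Ioi (0 : ℝ), (1 - 2 * u + t * tp u t y) *
      ρ t * ρ (tp u t y) / y) volume
  · have hl : lam = be / al := abs_of_pos hpos
    refine integral_congr_ae (Eventually.of_forall ?_)
    intro t
    refine setIntegral_congr_fun measurableSet_Ioi ?_
    intro y hy
    have hy' : (0 : ℝ) < y := hy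
    have h7 : h16_sl (al * ga / D) (be * de / D) (1 - 2 * u) t (lam * y) = tp u t y := by
      unfold h16_sl tp
      rw [hl]
      have h8 : al * ga / D * (1 + t ^ 2) * (be / al * y) = -(u * (1 + t ^ 2) * y) := by
        rw [hu]
        field_simp
      have h9 : be * de / D / (be / al * y) = (1 - u) / y := by
        rw [hu1]
        field_simp
      rw [h8, h9]
      ring
    simp only [hf]
    rw [h7]

theorem jj_flip_pr {T : ℝ} {ρ : ℝ → ℝ} (hρ : KerL T ρ) {C : M2} (hC : 0 < C.det) (h : Nsh C)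
    (h' : C 0 0 ≠ 0 ∧ C 1 1 ≠ 0) :
    JJ ρ C + JJ ρ !![C 0 0, -C 0 1; -C 1 0, C 1 1] = 2 * ((GG ρ (cr C) : ℝ) : ℂ) := by
  rw [h16_conj hρ hC, Complex.add_conj, h16_re hρ hC h h']
  push_cast
  ring

theorem jj_int : type_of% @jj_int_pr := @jj_int_pr
theorem jj_flip : type_of% @jj_flip_pr := @jj_flip_pr

end Pool.Agent.LSP
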