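import Pool.Agent.Lib_helper41.LSP.DefsG
import Pool.Agent.Lib_helper41.LSPG.MOB

namespace Pool.Agent.LSP

open Pool.Agent.LEV Pool.Agent.LVB Pool.Agent.KSL
open Complex MeasureTheory Filter Topology UpperHalfPlane ModularGroup ProbabilityTheory
open scoped MatrixGroups Modular ENNReal ModularForm ComplexConjugate ContDiff

theorem h16_slp_eq (C : M2) (z : ℍ) : slp C z =
    ((((C 0 0 : ℤ) : ℂ) * (z : ℂ) + ((C 0 1 : ℤ) : ℂ)) *
      conj (((C 1 0 : ℤ) : ℂ) * (z : ℂ) + ((C 1 1 : ℤ) : ℂ))).re / (C.det * z.im) := by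
  unfold slp
  congr 1
  simp only [Complex.mul_re, Complex.add_re, Complex.add_im, Complex.mul_im, Complex.conj_re,
    Complex.conj_im, Complex.intCast_re, Complex.intCast_im, UpperHalfPlane.coe_re,
    UpperHalfPlane.coe_im]
  ring

theorem h16_den_ne {A : M2} (hA : 0 < A.det) (z : ℍ) :
    ((A 1 0 : ℤ) : ℂ) * (z : ℂ) + ((A 1 1 : ℤ) : ℂ) ≠ 0 := by
  intro h
  have h1 := congrArg Complex.im h
  simp only [Complex.add_im, Complex.mul_im, Complex.intCast_re, Complex.intCast_im,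
    UpperHalfPlane.coe_im, UpperHalfPlane.coe_re, Complex.zero_im] at h1
  have h2 := congrArg Complex.re h
  simp only [Complex.add_re, Complex.mul_re, Complex.intCast_re, Complex.intCast_im,
    UpperHalfPlane.coe_im, UpperHalfPlane.coe_re, Complex.zero_re] at h2
  have hy := z.im_pos
  have h3 : ((A 1 0 : ℤ) : ℝ) = 0 := by
    have : ((A 1 0 : ℤ) : ℝ) * z.im = 0 := by linarith
    rcases mul_eq_zero.1 this with h | h
    · exact h
    · exact absurd h hy.ne'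
  have h4 : ((A 1 1 : ℤ) : ℝ) = 0 := by
    rw [h3] at h2
    linarith
  have h5 : A 1 0 = 0 := by exact_mod_cast h3
  have h6 : A 1 1 = 0 := by exact_mod_cast h4
  rw [Matrix.det_fin_two, h5, h6] at hA
  simp at hA

/-- transformation under a matrix of positive determinant -/
theorem h16_coneC_trans (ρ : ℝ → ℝ) {A C : M2} (hA : 0 < A.det) (hC : 0 < C.det) (z w : ℍ)
    (hw : (w : ℂ) * (((A 1 0 : ℤ) : ℂ) * (z : ℂ) + ((A 1 1 : ℤ) : ℂ)) =
      ((A 0 0 : ℤ) : ℂ) * (z : ℂ) + ((A 0 1 : ℤ) : ℂ)) :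
    w.im = (A.det : ℝ) * z.im /
      Complex.normSq (((A 1 0 : ℤ) : ℂ) * (z : ℂ) + ((A 1 1 : ℤ) : ℂ)) ∧
    coneC ρ C w = coneC ρ (C * A) z *
      (((A 1 0 : ℤ) : ℂ) * (z : ℂ) + ((A 1 1 : ℤ) : ℂ)) ^ 2 / ((A.det : ℤ) : ℂ) := by
  have hj := h16_den_ne hA z
  set j : ℂ := ((A 1 0 : ℤ) : ℂ) * (z : ℂ) + ((A 1 1 : ℤ) : ℂ) with hjd
  set a : ℂ := ((A 0 0 : ℤ) : ℂ) * (z : ℂ) + ((A 0 1 : ℤ) : ℂ) with had
  have hwe : (w : ℂ) = a / j := by
    rw [eq_div_iff hj]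
    exact hw
  have hn : 0 < Complex.normSq j := Complex.normSq_pos.2 hj
  have hD : (0 : ℝ) < ((A.det : ℤ) : ℝ) := by exact_mod_cast hA
  have hDC : (0 : ℝ) < ((C.det : ℤ) : ℝ) := by exact_mod_cast hC
  have hy := z.im_pos
  have hjr : j.re = ((A 1 0 : ℤ) : ℝ) * z.re + ((A 1 1 : ℤ) : ℝ) := by
    simp [hjd]
  have hji : j.im = ((A 1 0 : ℤ) : ℝ) * z.im := by
    simp [hjd]
  have har : a.re = ((A 0 0 : ℤ) : ℝ) * z.re + ((A 0 1 : ℤ) : ℝ) := by
    simp [had]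
  have hai : a.im = ((A 0 0 : ℤ) : ℝ) * z.im := by
    simp [had]
  have hdet : ((A.det : ℤ) : ℝ) = ((A 0 0 : ℤ) : ℝ) * ((A 1 1 : ℤ) : ℝ) -
      ((A 0 1 : ℤ) : ℝ) * ((A 1 0 : ℤ) : ℝ) := by
    rw [Matrix.det_fin_two, Int.cast_sub, Int.cast_mul, Int.cast_mul]
  have him : w.im = (A.det : ℝ) * z.im / Complex.normSq j := by
    have h1 : w.im = ((w : ℂ)).im := rfl
    have h2 : a / j = a * conj j / ((Complex.normSq j : ℝ) : ℂ) := by
      rw [div_eq_mul_inv, Complex.inv_def]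
      push_cast
      ring
    rw [h1, hwe, h2, Complex.div_ofReal_im, Complex.mul_im, Complex.conj_re, Complex.conj_im,
      hjr, hji, har, hai, hdet]
    congr 1
    ring
  refine ⟨him, ?_⟩
  -- the factors
  have e1 : (((C 0 0 : ℤ) : ℂ) * (w : ℂ) + ((C 0 1 : ℤ) : ℂ)) =
      ((((C * A) 0 0 : ℤ) : ℂ) * (z : ℂ) + (((C * A) 0 1 : ℤ) : ℂ)) / j := by
    rw [eq_div_iff hj, add_mul, mul_assoc, hw, Matrix.mul_apply, Matrix.mul_apply,
      Fin.sum_univ_two, Fin.sum_univ_two, had, hjd]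
    push_cast
    ring
  have e2 : (((C 1 0 : ℤ) : ℂ) * (w : ℂ) + ((C 1 1 : ℤ) : ℂ)) =
      ((((C * A) 1 0 : ℤ) : ℂ) * (z : ℂ) + (((C * A) 1 1 : ℤ) : ℂ)) / j := by
    rw [eq_div_iff hj, add_mul, mul_assoc, hw, Matrix.mul_apply, Matrix.mul_apply,
      Fin.sum_univ_two, Fin.sum_univ_two, had, hjd]
    push_cast
    ring
  set P : ℂ := ((((C * A) 0 0 : ℤ) : ℂ) * (z : ℂ) + (((C * A) 0 1 : ℤ) : ℂ)) with hP
  set Q : ℂ := ((((C * A) 1 0 : ℤ) : ℂ) * (z : ℂ) + (((C * A) 1 1 : ℤ) : ℂ)) with hQ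
  have hnj : (j : ℂ) * conj j = ((Complex.normSq j : ℝ) : ℂ) := Complex.mul_conj j
  have hcj : conj j ≠ 0 := (map_ne_zero _).2 hj
  have es : slp C w = slp (C * A) z := by
    rw [h16_slp_eq, h16_slp_eq, e1, e2, ← hP, ← hQ, him]
    have : P / j * conj (Q / j) = P * conj Q / ((Complex.normSq j : ℝ) : ℂ) := by
      rw [map_div₀, ← hnj]
      field_simp
    rw [this, Complex.div_ofReal_re, Matrix.det_mul, Int.cast_mul]
    field_simp
  unfold coneC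
  rw [es, e1, e2, ← hP, ← hQ, him, Matrix.det_mul]
  have hcD : ((A.det : ℤ) : ℂ) ≠ 0 := by exact_mod_cast hA.ne'
  have hcC : ((C.det : ℤ) : ℂ) ≠ 0 := by exact_mod_cast hC.ne'
  have hcy : ((z.im : ℝ) : ℂ) ≠ 0 := by exact_mod_cast hy.ne'
  have hq : ((((A.det : ℤ) : ℝ) * z.im / Complex.normSq j : ℝ) : ℂ) =
      ((A.det : ℤ) : ℂ) * (z.im : ℂ) / (j * conj j) := by
    rw [hnj, Complex.ofReal_div, Complex.ofReal_mul, Complex.ofReal_intCast]
  rw [Complex.ofReal_div, Complex.ofReal_pow, hq, Complex.ofReal_div, Complex.ofReal_pow,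
    map_mul, map_div₀, map_div₀, map_mul, Int.cast_mul]
  field_simp

/-- the matrix as a real one -/
noncomputable def h16_gl (A : M2) (hA : 0 < A.det) : GL (Fin 2) ℝ :=
  Matrix.GeneralLinearGroup.mkOfDetNeZero (A.map ((↑) : ℤ → ℝ)) (by
    have h1 : Matrix.det (A.map ((↑) : ℤ → ℝ)) = ((A.det : ℤ) : ℝ) := (Int.cast_det A).symm
    rw [h1]
    have : (0 : ℝ) < ((A.det : ℤ) : ℝ) := Int.cast_pos.2 hA
    exact this.ne')

theorem h16_gl_det {A : M2} (hA : 0 < A.det) : (h16_gl A hA).det.val = ((A.det : ℤ) : ℝ) := by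
  unfold h16_gl
  exact (Int.cast_det A).symm

theorem h16_gl_smul {A : M2} (hA : 0 < A.det) (z : ℍ) :
    (((h16_gl A hA) • z : ℍ) : ℂ) * (((A 1 0 : ℤ) : ℂ) * (z : ℂ) + ((A 1 1 : ℤ) : ℂ)) =
      ((A 0 0 : ℤ) : ℂ) * (z : ℂ) + ((A 0 1 : ℤ) : ℂ) := by
  have h : 0 < (h16_gl A hA).det.val := by
    rw [h16_gl_det]
    exact_mod_cast hA
  rw [UpperHalfPlane.coe_smul_of_det_pos h]
  have h1 : num (h16_gl A hA) z = ((A 0 0 : ℤ) : ℂ) * (z : ℂ) + ((A 0 1 : ℤ) : ℂ) := by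
    simp [UpperHalfPlane.num, h16_gl]
  have h2 : denom (h16_gl A hA) z = ((A 1 0 : ℤ) : ℂ) * (z : ℂ) + ((A 1 1 : ℤ) : ℂ) := by
    simp [UpperHalfPlane.denom, h16_gl]
  rw [h1, h2, div_mul_cancel₀ _ (h16_den_ne hA z)]

theorem coneC_slash_pr (ρ : ℝ → ℝ) {C : M2} (hC : 0 < C.det) (γ : SL(2, ℤ)) :
    (coneC ρ C) ∣[(2 : ℤ)] γ = coneC ρ (C * (γ : M2)) := by
  funext z
  rw [ModularForm.SL_slash_apply]
  have hA : 0 < (γ : M2).det := by
    rw [γ.det_coe]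
    exact one_pos
  have hd : denom γ z = (((γ : M2) 1 0 : ℤ) : ℂ) * (z : ℂ) + (((γ : M2) 1 1 : ℤ) : ℂ) := by
    simp [UpperHalfPlane.denom]
  have hn : num γ z = (((γ : M2) 0 0 : ℤ) : ℂ) * (z : ℂ) + (((γ : M2) 0 1 : ℤ) : ℂ) := by
    simp [UpperHalfPlane.num]
  have h := (h16_coneC_trans ρ hA hC z (γ • z) (by
    rw [UpperHalfPlane.coe_specialLinearGroup_apply]
    have := h16_den_ne hA z
    simp only [algebraMap_int_eq, eq_intCast, Complex.ofReal_intCast]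
    rw [div_mul_cancel₀ _ this])).2
  rw [h, hd, γ.det_coe]
  have := h16_den_ne hA z
  rw [zpow_neg]
  simp only [Int.cast_one, div_one]
  rw [mul_assoc]
  norm_cast
  rw [mul_inv_cancel₀ (pow_ne_zero 2 this), mul_one]

theorem h16_slp_smul {j : ℕ} (hj : 1 ≤ j) (C : M2) (z : ℍ) : slp ((j : ℤ) • C) z = slp C z := by
  have hj0 : (j : ℝ) ≠ 0 := by positivity
  unfold slp
  rw [Matrix.det_smul]
  generalize C.det = D
  simp only [Matrix.smul_apply, smul_eq_mul, Fintype.card_fin]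
  push_cast
  by_cases hC : (D : ℝ) = 0
  · rw [hC]
    simp
  have hy := z.im_pos.ne'
  field_simp

theorem coneC_smul_pr (ρ : ℝ → ℝ) {j : ℕ} (hj : 1 ≤ j) (C : M2) :
    coneC ρ ((j : ℤ) • C) = coneC ρ C := by
  funext z
  have hj0 : (j : ℂ) ≠ 0 := by
    have : (j : ℕ) ≠ 0 := by omega
    exact_mod_cast this
  unfold coneC
  rw [h16_slp_smul hj, Matrix.det_smul]
  generalize C.det = D
  simp only [Matrix.smul_apply, smul_eq_mul, Fintype.card_fin]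
  push_cast
  by_cases hC : (D : ℂ) = 0
  · rw [hC]
    simp
  simp only [map_mul, map_add, map_natCast, map_intCast]
  field_simp

theorem h16_ut_det (t : ℕ × ℕ × ℕ) : (UT t).det = (t.1 : ℤ) * t.2.2 := by
  simp [UT, Matrix.det_fin_two]

theorem coneC_ut_pr (ρ : ℝ → ℝ) {t : ℕ × ℕ × ℕ} (h1 : 1 ≤ t.1) (h2 : 1 ≤ t.2.2) :
    coneC ρ (UT t) = cone ρ ((t.2.1 : ℝ) / t.1) := by
  funext z
  have ha : (t.1 : ℝ) ≠ 0 := by positivity
  have hd : (t.2.2 : ℝ) ≠ 0 := by positivity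
  have hy := z.im_pos.ne'
  have hs : slp (UT t) z = (z.re - (t.2.1 : ℝ) / t.1) / z.im := by
    unfold slp
    rw [h16_ut_det]
    simp only [UT, Matrix.of_apply, Matrix.cons_val', Matrix.cons_val_zero, Matrix.cons_val_one,
      Matrix.cons_val_fin_one]
    push_cast
    field_simp
    ring
  unfold coneC cone
  rw [hs, h16_ut_det]
  simp only [UT, Matrix.of_apply, Matrix.cons_val', Matrix.cons_val_zero, Matrix.cons_val_one,
      Matrix.cons_val_fin_one]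
  have hz : (z : ℂ) = (z.re : ℂ) + (z.im : ℂ) * Complex.I := by
    apply Complex.ext <;> simp
  have hcy : (z.im : ℂ) ≠ 0 := by exact_mod_cast hy
  have hca : (t.1 : ℂ) ≠ 0 := by exact_mod_cast ha
  have hcd : (t.2.2 : ℂ) ≠ 0 := by exact_mod_cast hd
  rw [hz]
  push_cast
  simp only [map_mul, map_add, map_neg, map_natCast, Complex.conj_ofReal, Complex.conj_I,
    zero_mul, zero_add]
  field_simp
  ring_nf
  simp only [Complex.I_sq]
  ring

theorem coneC_one_pr (ρ : ℝ → ℝ) : coneC ρ 1 = cone ρ 0 := by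
  have h := coneC_ut_pr ρ (t := (1, 0, 1)) le_rfl le_rfl
  have h1 : UT (1, 0, 1) = 1 := by
    ext i j
    fin_cases i <;> fin_cases j <;> simp [UT]
  rw [h1] at h
  rw [h]
  simp

/-- change of variables -/
theorem ip_coneC_pr (ρ : ℝ → ℝ) {A C : M2} (hA : 0 < A.det) (hC : 0 < C.det) :
    ipH (coneC ρ A) (coneC ρ C) = JJ ρ (C * A.adjugate) := by
  unfold JJ ipH
  symm
  rw [← MeasureTheory.integral_smul_eq_self (μ := (volume : Measure ℍ)) _ (g := h16_gl A hA)]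
  congr 1
  funext z
  have hw := h16_gl_smul hA z
  obtain ⟨h1, h2⟩ := h16_coneC_trans ρ hA (C := 1) (by rw [Matrix.det_one]; exact one_pos) z _ hw
  have hdA : (A.adjugate).det = A.det := by
    rw [Matrix.det_adjugate]
    simp
  have hCA : 0 < (C * A.adjugate).det := by
    rw [Matrix.det_mul, hdA]
    exact mul_pos hC hA
  obtain ⟨-, h3⟩ := h16_coneC_trans ρ hA hCA z _ hw
  have h4 : C * A.adjugate * A = ((A.det.toNat : ℕ) : ℤ) • C := by
    rw [Matrix.mul_assoc, Matrix.adjugate_mul, Matrix.mul_smul, Matrix.mul_one,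
      Int.toNat_of_nonneg hA.le]
  have hn : 1 ≤ A.det.toNat := by omega
  rw [h4, coneC_smul_pr ρ hn] at h3
  rw [one_mul] at h2
  rw [← coneC_one_pr, h2, h3, h1]
  have hj := h16_den_ne hA z
  set j : ℂ := ((A 1 0 : ℤ) : ℂ) * (z : ℂ) + ((A 1 1 : ℤ) : ℂ) with hjd
  have hnj : (j : ℂ) * conj j = ((Complex.normSq j : ℝ) : ℂ) := Complex.mul_conj j
  have hcj : conj j ≠ 0 := (map_ne_zero _).2 hj
  have hcD : ((A.det : ℤ) : ℂ) ≠ 0 := by exact_mod_cast hA.ne'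
  rw [Complex.ofReal_pow, Complex.ofReal_div, ← hnj, map_div₀, map_mul, map_pow, map_intCast,
    Complex.ofReal_mul, Complex.ofReal_intCast, Complex.ofReal_pow]
  field_simp

theorem jj_smul_pr (ρ : ℝ → ℝ) {j : ℕ} (hj : 1 ≤ j) (C : M2) : JJ ρ ((j : ℤ) • C) = JJ ρ C := by
  unfold JJ
  rw [coneC_smul_pr ρ hj]

/-- the pair of cones over `(∞, b/a)` and `γ⁻¹(∞, b'/a')` -/
theorem ip_pair_pr (ρ : ℝ → ℝ) {t t' : ℕ × ℕ × ℕ} (h1 : 1 ≤ t.1) (h2 : 1 ≤ t.2.2) (h1' : 1 ≤ t'.1)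
    (h2' : 1 ≤ t'.2.2) (γ : SL(2, ℤ)) :
    ipH (cone ρ ((t.2.1 : ℝ) / t.1)) ((cone ρ ((t'.2.1 : ℝ) / t'.1)) ∣[(2 : ℤ)] γ) =
      JJ ρ (UT t' * (γ : M2) * (UT t).adjugate) := by
  have hd : 0 < (UT t).det := by
    rw [h16_ut_det]
    positivity
  have hd' : 0 < (UT t').det := by
    rw [h16_ut_det]
    positivity
  rw [← coneC_ut_pr ρ h1 h2, ← coneC_ut_pr ρ h1' h2', coneC_slash_pr ρ hd', ip_coneC_pr ρ hd]
  rw [Matrix.det_mul, γ.det_coe, mul_one]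
  exact hd'

theorem coneC_sl2_pr (ρ : ℝ → ℝ) {C : M2} (hC : 0 < C.det) : sl2 C (cone ρ 0) = coneC ρ C := by
  funext z
  have hj := h16_den_ne hC z
  obtain ⟨h1, -⟩ := mz_coe hC z
  have h2 := (h16_coneC_trans ρ hC (C := 1) (by rw [Matrix.det_one]; exact one_pos) z (mz C z) (by
    rw [h1, div_mul_cancel₀ _ hj])).2
  have hcD : ((C.det : ℤ) : ℂ) ≠ 0 := by exact_mod_cast hC.ne'
  unfold sl2
  rw [← coneC_one_pr, h2, one_mul]
  generalize ((C.det : ℤ) : ℂ) = D at hcD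
  field_simp

theorem coneC_sl2 : type_of% @coneC_sl2_pr := @coneC_sl2_pr
theorem coneC_slash : type_of% @coneC_slash_pr := @coneC_slash_pr
theorem coneC_smul : type_of% @coneC_smul_pr := @coneC_smul_pr
theorem coneC_ut : type_of% @coneC_ut_pr := @coneC_ut_pr
theorem coneC_one : type_of% @coneC_one_pr := @coneC_one_pr
theorem ip_coneC : type_of% @ip_coneC_pr := @ip_coneC_pr
theorem jj_smul : type_of% @jj_smul_pr := @jj_smul_pr
theorem ip_pair : type_of% @ip_pair_pr := @ip_pair_pr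

end Pool.Agent.LSP
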