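import Pool.Agent.Lib_helper41.LSP.DefsG
import Pool.Agent.Lib_helper41.LSPG.BDF
import Pool.Agent.Lib_helper41.LSPG.GRM
import Pool.Agent.Lib_helper41.LSPG.JIN
import Pool.Agent.Lib_helper41.LSPG.MOB
import Pool.Agent.Lib_helper41.LSPG.SLS
import Pool.Agent.Lib_helper41.LSPG.SPL

/-! LSP part G, block NSL: the pairs of geodesics without common end point, limit. -/

namespace Pool.Agent.LSP

open Pool.Agent.LEV Pool.Agent.LVB Pool.Agent.KSL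
open Pool.Agent.FG61 (mu phi cc ff AA Lam)
open Complex MeasureTheory Filter Topology UpperHalfPlane ModularGroup ProbabilityTheory
open scoped MatrixGroups Modular ENNReal ModularForm ComplexConjugate ContDiff

theorem NSL_sl2 {A : M2} (hA : 0 < A.det) (F G : ℍ → ℂ) (z : ℍ) :
    sl2 A F z * conj (sl2 A G z) * ((z.im ^ 2 : ℝ) : ℂ) =
      F (mz A z) * conj (G (mz A z)) * (((mz A z).im ^ 2 : ℝ) : ℂ) := by
  have him := (mz_coe hA z).2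
  set w : ℂ := ((A 1 0 : ℤ) : ℂ) * (z : ℂ) + ((A 1 1 : ℤ) : ℂ) with hw
  have hw0 : w ≠ 0 := by
    intro h
    have h1 : 0 < (mz A z).im := (mz A z).im_pos
    rw [him, h] at h1
    simp at h1
  have hn : (((‖w‖ ^ 2 : ℝ)) : ℂ) = w * conj w := by
    rw [Complex.mul_conj, Complex.normSq_eq_norm_sq]
  unfold sl2
  rw [← hw, him, map_mul, map_div₀, map_pow, map_intCast]
  have hcw : conj w ≠ 0 := (map_ne_zero _).mpr hw0
  generalize A.det = D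
  have h2 : ((((D : ℤ) * z.im / ‖w‖ ^ 2) ^ 2 : ℝ) : ℂ) =
      ((D : ℤ) : ℂ) ^ 2 * ((z.im : ℝ) : ℂ) ^ 2 / (w * conj w) ^ 2 := by
    rw [← hn]
    push_cast
    ring
  rw [h2]
  push_cast
  field_simp

theorem NSL_det {q j : ℕ} : (UT (q, j, 1)).det = (q : ℤ) := by
  simp [UT, Matrix.det_fin_two]

/-- the matrix of the pair -/
def NSL_C (γ : SL(2, ℤ)) (q j q' j' : ℕ) : M2 :=
  UT (q', j', 1) * (γ : M2) * (UT (q, j, 1)).adjugate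

theorem NSL_entries (γ : SL(2, ℤ)) (q j q' j' : ℕ) :
    NSL_C γ q j q' j' 0 0 = q' * γ 0 0 - j' * γ 1 0 ∧
    NSL_C γ q j q' j' 0 1 = (γ 0 0 * j + γ 0 1 * q) * q' - (γ 1 0 * j + γ 1 1 * q) * j' ∧
    NSL_C γ q j q' j' 1 0 = γ 1 0 ∧
    NSL_C γ q j q' j' 1 1 = γ 1 0 * j + γ 1 1 * q := by
  have hγ : (γ : M2) = !![γ 0 0, γ 0 1; γ 1 0, γ 1 1] := Matrix.eta_fin_two _
  have h : NSL_C γ q j q' j' = !![((q' : ℤ) * γ 0 0 + -(j' : ℤ) * γ 1 0) * 1 +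
      ((q' : ℤ) * γ 0 1 + -(j' : ℤ) * γ 1 1) * 0,
      ((q' : ℤ) * γ 0 0 + -(j' : ℤ) * γ 1 0) * j +
      ((q' : ℤ) * γ 0 1 + -(j' : ℤ) * γ 1 1) * q;
      (0 * γ 1 0 + 1 * γ 1 0) * 1 + (0 * γ 0 1 + 1 * γ 1 1) * 0,
      γ 1 0 * j + γ 1 1 * q] := by
    unfold NSL_C UT
    rw [Matrix.adjugate_fin_two_of, hγ, Matrix.mul_fin_two, Matrix.mul_fin_two]
    ext i k
    fin_cases i <;> fin_cases k <;> simp
  rw [h]
  refine ⟨?_, ?_, ?_, ?_⟩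
  · simp
    ring
  · simp
    ring
  · simp
  · simp

theorem NSL_detC (γ : SL(2, ℤ)) (q j q' j' : ℕ) :
    (NSL_C γ q j q' j').det = ((q * q' : ℕ) : ℤ) := by
  unfold NSL_C
  rw [Matrix.det_mul, Matrix.det_mul, Matrix.det_adjugate, NSL_det, NSL_det, γ.det_coe]
  simp
  ring

theorem NSL_key (ρ : ℝ → ℝ) (γ : SL(2, ℤ)) {q j q' j' : ℕ} (hq : 1 ≤ q) (hq' : 1 ≤ q') (z : ℍ) :
    cone ρ ((j : ℝ) / q) z * conj (((cone ρ ((j' : ℝ) / q')) ∣[(2 : ℤ)] γ) z) *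
        ((z.im ^ 2 : ℝ) : ℂ) =
      cone ρ 0 (mz (UT (q, j, 1)) z) * conj (coneC ρ (NSL_C γ q j q' j') (mz (UT (q, j, 1)) z)) *
        (((mz (UT (q, j, 1)) z).im ^ 2 : ℝ) : ℂ) := by
  have hA : 0 < (UT (q, j, 1)).det := by
    rw [NSL_det]
    exact_mod_cast hq
  have hA' : 0 < (UT (q', j', 1)).det := by
    rw [NSL_det]
    exact_mod_cast hq'
  have hC : 0 < (NSL_C γ q j q' j').det := by
    rw [NSL_detC]
    exact_mod_cast Nat.mul_pos hq hq'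
  rw [← NSL_sl2 hA]
  have h1 : cone ρ ((j : ℝ) / q) = sl2 (UT (q, j, 1)) (cone ρ 0) := by
    rw [coneC_sl2 ρ hA, coneC_ut ρ (t := (q, j, 1)) hq le_rfl]
  have h2 : (cone ρ ((j' : ℝ) / q')) ∣[(2 : ℤ)] γ =
      sl2 (UT (q, j, 1)) (coneC ρ (NSL_C γ q j q' j')) := by
    have h3 : cone ρ ((j' : ℝ) / q') = coneC ρ (UT (q', j', 1)) :=
      (coneC_ut ρ (t := (q', j', 1)) hq' le_rfl).symm
    rw [h3, coneC_slash ρ hA', ← coneC_smul ρ hq, ← coneC_sl2 ρ hC, sl2_mul hC hA,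
      coneC_sl2 ρ (by rw [Matrix.det_mul]; exact mul_pos hC hA)]
    congr 1
    unfold NSL_C
    rw [Matrix.mul_assoc, Matrix.adjugate_mul, NSL_det, Matrix.mul_smul, Matrix.mul_one]
  rw [← h1, ← h2]

/-- integrability -/
theorem NSL_int {T : ℝ} {ρ : ℝ → ℝ} (hρ : KerL T ρ) (γ : SL(2, ℤ)) {q j q' j' : ℕ} (hq : 1 ≤ q)
    (hq' : 1 ≤ q') (hN : Nsh (NSL_C γ q j q' j'))
    (h' : NSL_C γ q j q' j' 0 0 ≠ 0 ∧ NSL_C γ q j q' j' 1 1 ≠ 0) :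
    Integrable (fun z : ℍ => cone ρ ((j : ℝ) / q) z *
      conj (((cone ρ ((j' : ℝ) / q')) ∣[(2 : ℤ)] γ) z) * ((z.im ^ 2 : ℝ) : ℂ)) := by
  have hA : 0 < (UT (q, j, 1)).det := by
    rw [NSL_det]
    exact_mod_cast hq
  have hC : 0 < (NSL_C γ q j q' j').det := by
    rw [NSL_detC]
    exact_mod_cast Nat.mul_pos hq hq'
  have h := mz_integrable hA (jj_int hρ hC hN h')
  refine h.congr (ae_of_all _ fun z => ?_)
  exact (NSL_key ρ γ hq hq' z).symm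

/-- the truncated cone -/
theorem NSL_coneY (ρ : ℝ → ℝ) (N q : ℕ) (l Y : ℝ) (z : ℍ) :
    coneY ρ N q l Y z = 0 ∨ coneY ρ N q l Y z = cone ρ l z := by
  unfold coneY
  by_cases h : z.im < Y ∧ z.im < Y * (N * (q : ℝ) ^ 2 * ‖(z : ℂ) - (l : ℂ)‖ ^ 2)
  · right
    rw [if_pos h]
  · left
    rw [if_neg h]

theorem NSL_ev (ρ : ℝ → ℝ) {N q : ℕ} (hN : 1 ≤ N) (hq : 1 ≤ q) (l : ℝ) (z : ℍ) :
    ∀ᶠ Y in atTop, coneY ρ N q l Y z = cone ρ l z := by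
  have h1 : (z : ℂ) - (l : ℂ) ≠ 0 := by
    intro h
    have h2 := congrArg Complex.im h
    simp at h2
    exact z.im_pos.ne' h2
  have h3 : 0 < (N * (q : ℝ) ^ 2 * ‖(z : ℂ) - (l : ℂ)‖ ^ 2) := by
    have : (0 : ℝ) < N := by exact_mod_cast hN
    have : (0 : ℝ) < q := by exact_mod_cast hq
    have : 0 < ‖(z : ℂ) - (l : ℂ)‖ := norm_pos_iff.mpr h1
    positivity
  filter_upwards [eventually_gt_atTop z.im,
    eventually_gt_atTop (z.im / (N * (q : ℝ) ^ 2 * ‖(z : ℂ) - (l : ℂ)‖ ^ 2))] with Y h4 h5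
  unfold coneY
  rw [if_pos ⟨h4, (div_lt_iff₀ h3).mp h5⟩]

theorem NSL_slash (F : ℍ → ℂ) (γ : SL(2, ℤ)) (z : ℍ) :
    (F ∣[(2 : ℤ)] γ) z = ((((γ : M2)).det : ℤ) : ℂ) /
      ((((γ : M2) 1 0 : ℤ) : ℂ) * (z : ℂ) + (((γ : M2) 1 1 : ℤ) : ℂ)) ^ 2 * F (γ • z) := by
  rw [← sl2_sl, ← mz_sl]
  rfl

theorem NSL_bound (ρ : ℝ → ℝ) (N q q' : ℕ) (l l' Y : ℝ) (γ : SL(2, ℤ)) (z : ℍ) :
    coneY ρ N q l Y z * conj (((coneY ρ N q' l' Y) ∣[(2 : ℤ)] γ) z) = 0 ∨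
    coneY ρ N q l Y z * conj (((coneY ρ N q' l' Y) ∣[(2 : ℤ)] γ) z) =
      cone ρ l z * conj (((cone ρ l') ∣[(2 : ℤ)] γ) z) := by
  rcases NSL_coneY ρ N q l Y z with h | h
  · left
    rw [h, zero_mul]
  · rcases NSL_coneY ρ N q' l' Y (γ • z) with h' | h'
    · left
      rw [NSL_slash, h']
      simp
    · right
      rw [h, NSL_slash, h', NSL_slash]

/-- dominated convergence -/
theorem NSL_tendsto {T : ℝ} {ρ : ℝ → ℝ} (hρ : KerL T ρ) {N : ℕ} (hN1 : 1 ≤ N) (γ : SL(2, ℤ))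
    {q j q' j' : ℕ} (hq : 1 ≤ q) (hq' : 1 ≤ q') (hN : Nsh (NSL_C γ q j q' j'))
    (h' : NSL_C γ q j q' j' 0 0 ≠ 0 ∧ NSL_C γ q j q' j' 1 1 ≠ 0) :
    Tendsto (fun Y : ℝ => ipH (coneY ρ N q ((j : ℝ) / q) Y)
        ((coneY ρ N q' ((j' : ℝ) / q') Y) ∣[(2 : ℤ)] γ)) atTop
      (𝓝 (ipH (cone ρ ((j : ℝ) / q)) ((cone ρ ((j' : ℝ) / q')) ∣[(2 : ℤ)] γ))) := by
  unfold ipH
  refine tendsto_integral_filter_of_dominated_convergence
    (fun z => ‖cone ρ ((j : ℝ) / q) z * conj (((cone ρ ((j' : ℝ) / q')) ∣[(2 : ℤ)] γ) z) *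
      ((z.im ^ 2 : ℝ) : ℂ)‖) ?_ ?_ (NSL_int hρ γ hq hq' hN h').norm ?_
  · refine Eventually.of_forall fun Y => ?_
    have m1 : Measurable (coneY ρ N q ((j : ℝ) / q) Y) := (coneY_bd hρ hN1 hq _ Y).1
    have m2 : Measurable ((coneY ρ N q' ((j' : ℝ) / q') Y) ∣[(2 : ℤ)] γ) := by
      rw [← sl2_sl]
      exact (bd_sl2 (coneY_bd hρ hN1 hq' _ Y) (by rw [γ.det_coe]; norm_num)).1
    have m3 : Measurable (fun z : ℍ => ((z.im ^ 2 : ℝ) : ℂ)) := by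
      have : Continuous (fun z : ℍ => ((z.im ^ 2 : ℝ) : ℂ)) := by
        exact Complex.continuous_ofReal.comp ((UpperHalfPlane.continuous_im).pow 2)
      exact this.measurable
    exact ((m1.mul (Complex.continuous_conj.measurable.comp m2)).mul m3).aestronglyMeasurable
  · refine Eventually.of_forall fun Y => ae_of_all _ fun z => ?_
    rw [norm_mul, norm_mul (_ * _) (((z.im ^ 2 : ℝ) : ℂ))]
    refine mul_le_mul_of_nonneg_right ?_ (norm_nonneg _)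
    rcases NSL_bound ρ N q q' ((j : ℝ) / q) ((j' : ℝ) / q') Y γ z with h | h
    · rw [h, norm_zero]
      exact norm_nonneg _
    · rw [h]
  · refine ae_of_all _ fun z => ?_
    refine Tendsto.congr' (f₁ := fun _ => cone ρ ((j : ℝ) / q) z *
      conj (((cone ρ ((j' : ℝ) / q')) ∣[(2 : ℤ)] γ) z) * ((z.im ^ 2 : ℝ) : ℂ)) ?_ tendsto_const_nhds
    filter_upwards [NSL_ev ρ hN1 hq ((j : ℝ) / q) z, NSL_ev ρ hN1 hq' ((j' : ℝ) / q') (γ • z)]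
      with Y h1 h2
    rw [h1, NSL_slash _ γ z, NSL_slash _ γ z, h2]

theorem NSL_abs {a : ℤ} {b : ℤ} (hb : b ≠ 0) : |a| ≤ |a * b| := by
  rw [abs_mul]
  exact le_mul_of_one_le_right (abs_nonneg a) (Int.one_le_abs hb)

/-- the pair conditions in terms of the matrix -/
theorem NSL_cond {N : ℕ} (hN : N.Prime) {q j q' j' : ℕ} (hq : 1 ≤ q) (hq' : 1 ≤ q') (hqN : q < N)
    (hqN' : q' < N) {γ : SL(2, ℤ)} (hγ : γ ∈ CongruenceSubgroup.Gamma0 N)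
    (h : γ 1 0 ≠ 0 ∧ ¬ Bsh γ q j q' j') :
    Nsh (NSL_C γ q j q' j') ∧ NSL_C γ q j q' j' 0 0 ≠ 0 ∧ NSL_C γ q j q' j' 1 1 ≠ 0 := by
  obtain ⟨e00, e01, e10, e11⟩ := NSL_entries γ q j q' j'
  have hp : Prime (N : ℤ) := Nat.prime_iff_prime_int.mp hN
  have hd := γ.det_coe
  rw [Matrix.det_fin_two] at hd
  have hc : (N : ℤ) ∣ γ 1 0 := by
    rw [CongruenceSubgroup.Gamma0_mem] at hγ
    exact (ZMod.intCast_zmod_eq_zero_iff_dvd _ _).mp hγ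
  have hnq : ∀ r : ℕ, 1 ≤ r → r < N → ¬ (N : ℤ) ∣ (r : ℤ) := by
    intro r h1 h2 h3
    have := Nat.le_of_dvd h1 (Int.natCast_dvd_natCast.mp h3)
    omega
  have hna : ¬ (N : ℤ) ∣ γ 0 0 := by
    intro h1
    have : (N : ℤ) ∣ 1 := by
      rw [← hd]
      exact dvd_sub (h1.mul_right _) (hc.mul_left _)
    exact hp.not_isUnit (isUnit_of_dvd_one this)
  have hnd : ¬ (N : ℤ) ∣ γ 1 1 := by
    intro h1
    have : (N : ℤ) ∣ 1 := by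
      rw [← hd]
      exact dvd_sub (h1.mul_left _) (hc.mul_left _)
    exact hp.not_isUnit (isUnit_of_dvd_one this)
  refine ⟨⟨?_, ?_⟩, ?_, ?_⟩
  · rw [e01]
    intro h0
    exact h.2 (sub_eq_zero.mp h0)
  · rw [e10]
    exact h.1
  · rw [e00]
    intro h0
    have h1 : (N : ℤ) ∣ (q' : ℤ) * γ 0 0 := by
      rw [sub_eq_zero.mp h0]
      exact hc.mul_left _
    rcases hp.dvd_or_dvd h1 with h2 | h2
    · exact hnq q' hq' hqN' h2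
    · exact hna h2
  · rw [e11]
    intro h0
    have h1 : (N : ℤ) ∣ γ 1 1 * (q : ℤ) := by
      have h2 : γ 1 1 * (q : ℤ) = -(γ 1 0 * j) := by linarith
      rw [h2]
      exact (dvd_neg).mpr (hc.mul_right _)
    rcases hp.dvd_or_dvd h1 with h2 | h2
    · exact hnd h2
    · exact hnq q hq hqN h2

theorem NSL_inj {q j q' j' : ℕ} (hq : 1 ≤ q) (hq' : 1 ≤ q') :
    Function.Injective (fun γ : SL(2, ℤ) => NSL_C γ q j q' j') := by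
  intro γ γ' h
  obtain ⟨e00, e01, e10, e11⟩ := NSL_entries γ q j q' j'
  obtain ⟨f00, f01, f10, f11⟩ := NSL_entries γ' q j q' j'
  have h' : NSL_C γ q j q' j' = NSL_C γ' q j q' j' := h
  have g10 : γ 1 0 = γ' 1 0 := by rw [← e10, ← f10, h']
  have hqz : (q : ℤ) ≠ 0 := by exact_mod_cast (by omega : q ≠ 0)
  have hqz' : (q' : ℤ) ≠ 0 := by exact_mod_cast (by omega : q' ≠ 0)
  have g11 : γ 1 1 = γ' 1 1 := by
    have h1 : γ 1 0 * j + γ 1 1 * q = γ' 1 0 * j + γ' 1 1 * (q : ℤ) := by rw [← e11, ← f11, h']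
    rw [g10] at h1
    exact mul_right_cancel₀ hqz (by linarith)
  have g00 : γ 0 0 = γ' 0 0 := by
    have h1 : (q' : ℤ) * γ 0 0 - j' * γ 1 0 = q' * γ' 0 0 - j' * γ' 1 0 := by
      rw [← e00, ← f00, h']
    rw [g10] at h1
    exact mul_left_cancel₀ hqz' (by linarith)
  have g01 : γ 0 1 = γ' 0 1 := by
    have h1 : (γ 0 0 * j + γ 0 1 * q) * (q' : ℤ) - (γ 1 0 * j + γ 1 1 * q) * j' =
        (γ' 0 0 * j + γ' 0 1 * q) * q' - (γ' 1 0 * j + γ' 1 1 * q) * j' := by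
      rw [← e01, ← f01, h']
    rw [g10, g11, g00] at h1
    have h2 : (γ 0 1 * (q : ℤ)) * q' = (γ' 0 1 * q) * q' := by linarith
    exact mul_right_cancel₀ hqz (mul_right_cancel₀ hqz' h2)
  ext i k
  fin_cases i <;> fin_cases k
  · exact g00
  · exact g01
  · exact g10
  · exact g11

/-- only finitely many pairs of cones meet -/
theorem NSL_fin {N : ℕ} {T : ℝ} {ρ : ℝ → ℝ} (hρ : KerL T ρ) (hN : N.Prime) {q j q' j' : ℕ}
    (hq : 1 ≤ q) (hq' : 1 ≤ q') (hqN : q < N) (hqN' : q' < N) :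
    {γ : CongruenceSubgroup.Gamma0 N | ((γ : SL(2, ℤ)) 1 0 ≠ 0 ∧ ¬ Bsh (γ : SL(2, ℤ)) q j q' j') ∧
      ∃ z : ℍ, cone ρ ((j : ℝ) / q) z *
        conj (((cone ρ ((j' : ℝ) / q')) ∣[(2 : ℤ)] (γ : SL(2, ℤ))) z) ≠ 0}.Finite := by
  obtain ⟨B₀, hB⟩ := exists_nat_ge (1 + T ^ 2)
  set R : ℤ := (B₀ + 1) * ((q * q' : ℕ) : ℤ) with hR
  have hbox : {C : M2 | ∀ i k, C i k ∈ Set.Icc (-R) R}.Finite := by
    refine (Set.finite_Icc (α := Fin 2 → Fin 2 → ℤ) (fun _ _ => -R) (fun _ _ => R)).subset ?_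
    intro C hC
    exact ⟨fun i k => (hC i k).1, fun i k => (hC i k).2⟩
  have hinj : Function.Injective (fun γ : CongruenceSubgroup.Gamma0 N =>
      NSL_C (γ : SL(2, ℤ)) q j q' j') := fun a b h => Subtype.ext (NSL_inj hq hq' h)
  refine (hbox.preimage (f := fun γ : CongruenceSubgroup.Gamma0 N =>
      NSL_C (γ : SL(2, ℤ)) q j q' j') hinj.injOn).subset ?_
  rintro γ ⟨hS, z, hz⟩
  set C := NSL_C (γ : SL(2, ℤ)) q j q' j' with hCdef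
  have hdet : C.det = ((q * q' : ℕ) : ℤ) := NSL_detC _ _ _ _ _
  have hqq : (0 : ℤ) < ((q * q' : ℕ) : ℤ) := by exact_mod_cast Nat.mul_pos hq hq'
  have hC : 0 < C.det := by rw [hdet]; exact hqq
  obtain ⟨⟨hb, hc⟩, ha, hd⟩ := NSL_cond hN hq hq' hqN hqN' γ.2 hS
  rw [← hCdef] at hb hc ha hd
  have hle : |C 0 1 * C 1 0| ≤ (B₀ : ℤ) * C.det := by
    by_contra hlt
    push Not at hlt
    have h0 := (jj_zero hρ hB hC hlt).1 (mz (UT (q, j, 1)) z)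
    have h1 := NSL_key ρ (γ : SL(2, ℤ)) (j := j) (j' := j') hq hq' z
    rw [← hCdef, h0, zero_mul] at h1
    rcases mul_eq_zero.mp h1 with h2 | h2
    · exact hz h2
    · have h3 : (z.im ^ 2 : ℝ) ≠ 0 := pow_ne_zero 2 z.im_pos.ne'
      exact h3 (by exact_mod_cast h2)
  rw [hdet] at hle
  have hdet2 : C 0 0 * C 1 1 - C 0 1 * C 1 0 = ((q * q' : ℕ) : ℤ) := by
    rw [← hdet, Matrix.det_fin_two]
  have hB0 : (0 : ℤ) ≤ B₀ := Int.natCast_nonneg _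
  have hR1 : (B₀ : ℤ) * ((q * q' : ℕ) : ℤ) ≤ R := by
    rw [hR]
    nlinarith
  have had : |C 0 0 * C 1 1| ≤ R := by
    have : C 0 0 * C 1 1 = C 0 1 * C 1 0 + ((q * q' : ℕ) : ℤ) := by linarith
    rw [this]
    refine (abs_add_le _ _).trans ?_
    rw [abs_of_pos hqq, hR]
    linarith
  have b01 : |C 0 1| ≤ R := (NSL_abs hc).trans (hle.trans hR1)
  have b10 : |C 1 0| ≤ R := (NSL_abs hb).trans (by rw [mul_comm]; exact hle.trans hR1)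
  have b00 : |C 0 0| ≤ R := (NSL_abs hd).trans had
  have b11 : |C 1 1| ≤ R := (NSL_abs ha).trans (by rw [mul_comm]; exact had)
  show ∀ i k, C i k ∈ Set.Icc (-R) R
  intro i k
  rw [Set.mem_Icc, ← abs_le]
  fin_cases i <;> fin_cases k
  · exact b00
  · exact b01
  · exact b10
  · exact b11

theorem ns_lim_pr {T : ℝ} {ρ : ℝ → ℝ} (hρ : KerL T ρ) {N E : ℕ} (hN : N.Prime) (hE : E < N)
    (w : ℕ → ℝ) :
    Tendsto (fun Y : ℝ => PS ρ N E w Y (fun γ q j q' j' => γ 1 0 ≠ 0 ∧ ¬ Bsh γ q j q' j')) atTop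
      (𝓝 (NS ρ N E w)) := by
  classical
  unfold PS NS
  refine Tendsto.const_mul _ ?_
  refine tendsto_finsetSum _ fun q hq => tendsto_finsetSum _ fun j _ =>
    tendsto_finsetSum _ fun q' hq' => tendsto_finsetSum _ fun j' _ => Tendsto.const_mul _ ?_
  obtain ⟨hq1, hq2⟩ := Finset.mem_Icc.mp hq
  obtain ⟨hq1', hq2'⟩ := Finset.mem_Icc.mp hq'
  have hfin := NSL_fin (j := j) (j' := j') hρ hN hq1 hq1' (hq2.trans_lt hE) (hq2'.trans_lt hE)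
  set S := hfin.toFinset with hSdef
  have hzero : ∀ γ : CongruenceSubgroup.Gamma0 N, γ ∉ S →
      ((γ : SL(2, ℤ)) 1 0 ≠ 0 ∧ ¬ Bsh (γ : SL(2, ℤ)) q j q' j') →
      ∀ z : ℍ, cone ρ ((j : ℝ) / q) z *
        conj (((cone ρ ((j' : ℝ) / q')) ∣[(2 : ℤ)] (γ : SL(2, ℤ))) z) = 0 := by
    intro γ hγ hc z
    by_contra hne
    exact hγ (hfin.mem_toFinset.mpr ⟨hc, z, hne⟩)
  have e1 : ∀ Y : ℝ, (∑' γ : CongruenceSubgroup.Gamma0 N,
      if ((γ : SL(2, ℤ)) 1 0 ≠ 0 ∧ ¬ Bsh (γ : SL(2, ℤ)) q j q' j') then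
        ipH (coneY ρ N q ((j : ℝ) / q) Y)
        ((coneY ρ N q' ((j' : ℝ) / q') Y) ∣[(2 : ℤ)] (γ : SL(2, ℤ))) else 0) =
      ∑ γ ∈ S, if ((γ : SL(2, ℤ)) 1 0 ≠ 0 ∧ ¬ Bsh (γ : SL(2, ℤ)) q j q' j') then
        ipH (coneY ρ N q ((j : ℝ) / q) Y)
        ((coneY ρ N q' ((j' : ℝ) / q') Y) ∣[(2 : ℤ)] (γ : SL(2, ℤ))) else 0 := by
    intro Y
    refine tsum_eq_sum fun γ hγ => ?_
    split_ifs with hc
    · unfold ipH
      have : (fun z : ℍ => coneY ρ N q ((j : ℝ) / q) Y z *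
          conj (((coneY ρ N q' ((j' : ℝ) / q') Y) ∣[(2 : ℤ)] (γ : SL(2, ℤ))) z) *
            ((z.im ^ 2 : ℝ) : ℂ)) = fun _ => 0 := by
        funext z
        rcases NSL_bound ρ N q q' ((j : ℝ) / q) ((j' : ℝ) / q') Y (γ : SL(2, ℤ)) z with h | h
        · rw [h, zero_mul]
        · rw [h, hzero γ hγ hc z, zero_mul]
      rw [this, integral_zero]
    · rfl
  have e2 : (∑' γ : CongruenceSubgroup.Gamma0 N,
      if ((γ : SL(2, ℤ)) 1 0 ≠ 0 ∧ ¬ Bsh (γ : SL(2, ℤ)) q j q' j') then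
        ipH (cone ρ ((j : ℝ) / q)) ((cone ρ ((j' : ℝ) / q')) ∣[(2 : ℤ)] (γ : SL(2, ℤ))) else 0) =
      ∑ γ ∈ S, if ((γ : SL(2, ℤ)) 1 0 ≠ 0 ∧ ¬ Bsh (γ : SL(2, ℤ)) q j q' j') then
        ipH (cone ρ ((j : ℝ) / q)) ((cone ρ ((j' : ℝ) / q')) ∣[(2 : ℤ)] (γ : SL(2, ℤ))) else 0 := by
    refine tsum_eq_sum fun γ hγ => ?_
    split_ifs with hc
    · unfold ipH
      have : (fun z : ℍ => cone ρ ((j : ℝ) / q) z *
          conj (((cone ρ ((j' : ℝ) / q')) ∣[(2 : ℤ)] (γ : SL(2, ℤ))) z) *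
            ((z.im ^ 2 : ℝ) : ℂ)) = fun _ => 0 := by
        funext z
        rw [hzero γ hγ hc z, zero_mul]
      rw [this, integral_zero]
    · rfl
  have key : Tendsto (fun Y : ℝ => ∑ γ ∈ S,
      if ((γ : SL(2, ℤ)) 1 0 ≠ 0 ∧ ¬ Bsh (γ : SL(2, ℤ)) q j q' j') then
        ipH (coneY ρ N q ((j : ℝ) / q) Y)
        ((coneY ρ N q' ((j' : ℝ) / q') Y) ∣[(2 : ℤ)] (γ : SL(2, ℤ))) else 0) atTop
      (𝓝 (∑ γ ∈ S, if ((γ : SL(2, ℤ)) 1 0 ≠ 0 ∧ ¬ Bsh (γ : SL(2, ℤ)) q j q' j') then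
        ipH (cone ρ ((j : ℝ) / q)) ((cone ρ ((j' : ℝ) / q')) ∣[(2 : ℤ)] (γ : SL(2, ℤ))) else 0)) := by
    refine tendsto_finsetSum _ fun γ _ => ?_
    by_cases hc : ((γ : SL(2, ℤ)) 1 0 ≠ 0 ∧ ¬ Bsh (γ : SL(2, ℤ)) q j q' j')
    · simp only [if_pos hc]
      obtain ⟨h1, h2⟩ := NSL_cond hN hq1 hq1' (hq2.trans_lt hE) (hq2'.trans_lt hE) γ.2 hc
      exact NSL_tendsto hρ hN.one_le _ hq1 hq1' h1 h2
    · simp only [if_neg hc]
      exact tendsto_const_nhds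
  rw [← e2] at key
  refine key.congr fun Y => ?_
  rw [← e1 Y]
  refine tsum_congr fun γ => ?_
  by_cases hc : ((γ : SL(2, ℤ)) 1 0 ≠ 0 ∧ ¬ Bsh (γ : SL(2, ℤ)) q j q' j')
  · rw [if_pos hc, if_pos hc]
  · rw [if_neg hc, if_neg hc]

theorem ns_lim : type_of% @ns_lim_pr := @ns_lim_pr

end Pool.Agent.LSP
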