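import Pool.Agent.Lib_helper41.LSP.DefsG
import Pool.Agent.Lib_helper41.LSPG.CNV
import Pool.Agent.Lib_helper41.LSPG.COS
import Pool.Agent.Lib_helper41.LSPG.ENU
import Pool.Agent.Lib_helper41.LSPG.GRM
import Pool.Agent.Lib_helper41.LSPG.HRM
import Pool.Agent.Lib_helper41.LSPG.JIN
import Pool.Agent.Lib_helper41.LSPG.SLS

/-! LSP, part G, block NSO: the pairs of geodesics without common end point. -/

namespace Pool.Agent.LSP

open Pool.Agent.LEV Pool.Agent.LVB Pool.Agent.KSL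
open Pool.Agent.FG61 (mu phi cc ff AA Lam)
open Complex MeasureTheory Filter Topology UpperHalfPlane ModularGroup ProbabilityTheory
open scoped MatrixGroups Modular ENNReal ModularForm ComplexConjugate ContDiff

/-- the weights of the fractions, summed against a function of the fraction -/
theorem nso_frac (E : ℕ) (x : ℕ → ℝ) (F : ℝ → ℂ) :
    ∑ q ∈ Finset.Icc 1 E, (wX E x q : ℂ) * ∑ j ∈ RR q, F ((j : ℝ) / q) =
      ∑ e ∈ Finset.Icc 1 E, ((x e / e : ℝ) : ℂ) * ∑ t ∈ HM e, F ((t.2.1 : ℝ) / t.1) := by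
  have hR : ∀ e ∈ Finset.Icc 1 E, ((x e / e : ℝ) : ℂ) * ∑ t ∈ HM e, F ((t.2.1 : ℝ) / t.1) =
      ∑ q ∈ Finset.Icc 1 E, if q ∣ e then
        ((x e / e * tau (e / q) : ℝ) : ℂ) * ∑ j ∈ RR q, F ((j : ℝ) / q) else 0 := by
    intro e he
    rw [Finset.mem_Icc] at he
    rw [hm_sum he.1, ← Finset.sum_filter, Finset.mul_sum]
    have hd : e.divisors = (Finset.Icc 1 E).filter (fun q => q ∣ e) := by
      ext q
      rw [Nat.mem_divisors, Finset.mem_filter, Finset.mem_Icc]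
      constructor
      · rintro ⟨h1, h2⟩
        exact ⟨⟨Nat.pos_of_dvd_of_pos h1 he.1, le_trans (Nat.le_of_dvd he.1 h1) he.2⟩, h1⟩
      · rintro ⟨_, h1⟩
        exact ⟨h1, by omega⟩
    rw [hd]
    apply Finset.sum_congr rfl
    intro q _
    push_cast
    ring
  have hL : ∀ q ∈ Finset.Icc 1 E, (wX E x q : ℂ) * ∑ j ∈ RR q, F ((j : ℝ) / q) =
      ∑ e ∈ Finset.Icc 1 E, if q ∣ e then
        ((x e / e * tau (e / q) : ℝ) : ℂ) * ∑ j ∈ RR q, F ((j : ℝ) / q) else 0 := by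
    intro q _
    rw [← Finset.sum_filter, ← Finset.sum_mul]
    unfold wX
    push_cast
    rfl
  rw [Finset.sum_congr rfl hR, Finset.sum_congr rfl hL, Finset.sum_comm]

open Classical in
/-- the sum over the group for two real end points -/
noncomputable def nso_psi (ρ : ℝ → ℝ) (N : ℕ) (l l' : ℝ) : ℂ :=
  ∑' γ : CongruenceSubgroup.Gamma0 N,
    if (γ : SL(2, ℤ)) 1 0 ≠ 0 ∧
      ¬ (((((γ : SL(2, ℤ)) 0 0 : ℤ) : ℝ) * l + (((γ : SL(2, ℤ)) 0 1 : ℤ) : ℝ)) =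
        ((((γ : SL(2, ℤ)) 1 0 : ℤ) : ℝ) * l + (((γ : SL(2, ℤ)) 1 1 : ℤ) : ℝ)) * l') then
      ipH (cone ρ l) ((cone ρ l') ∣[(2 : ℤ)] (γ : SL(2, ℤ))) else 0

theorem nso_bsh (g : SL(2, ℤ)) {q j q' j' : ℕ} (hq : 1 ≤ q) (hq' : 1 ≤ q') :
    Bsh g q j q' j' ↔ (((g 0 0 : ℤ) : ℝ) * ((j : ℝ) / q) + ((g 0 1 : ℤ) : ℝ)) =
      (((g 1 0 : ℤ) : ℝ) * ((j : ℝ) / q) + ((g 1 1 : ℤ) : ℝ)) * ((j' : ℝ) / q') := by
  have h1 : (q : ℝ) ≠ 0 := by
    have : q ≠ 0 := by omega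
    exact_mod_cast this
  have h2 : (q' : ℝ) ≠ 0 := by
    have : q' ≠ 0 := by omega
    exact_mod_cast this
  unfold Bsh
  rw [← Int.cast_inj (α := ℝ)]
  push_cast
  constructor
  · intro h
    field_simp
    linarith
  · intro h
    field_simp at h
    linarith

open Classical in
/-- the function of the matrix -/
noncomputable def nso_h (ρ : ℝ → ℝ) (C : M2) : ℂ :=
  if Nsh C ∧ C 0 0 ≠ 0 ∧ C 1 1 ≠ 0 then JJ ρ C else 0

theorem nso_h_smul (ρ : ℝ → ℝ) (j : ℕ) (C : M2) (hj : 1 ≤ j) :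
    nso_h ρ ((j : ℤ) • C) = nso_h ρ C := by
  have hj0 : (j : ℤ) ≠ 0 := by
    have : j ≠ 0 := by omega
    exact_mod_cast this
  have hiff : (Nsh ((j : ℤ) • C) ∧ ((j : ℤ) • C) 0 0 ≠ 0 ∧ ((j : ℤ) • C) 1 1 ≠ 0) ↔
      (Nsh C ∧ C 0 0 ≠ 0 ∧ C 1 1 ≠ 0) := by
    unfold Nsh
    simp only [Matrix.smul_apply, smul_eq_mul, ne_eq, mul_eq_zero, hj0, false_or]
  unfold nso_h
  rw [jj_smul ρ hj]
  by_cases h : Nsh C ∧ C 0 0 ≠ 0 ∧ C 1 1 ≠ 0
  · rw [if_pos h, if_pos (hiff.mpr h)]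
  · rw [if_neg h, if_neg (fun h' => h (hiff.mp h'))]

theorem nso_h_big {T : ℝ} {ρ : ℝ → ℝ} (hρ : KerL T ρ) {B₀ : ℕ} (hB : 1 + T ^ 2 ≤ B₀) {C : M2}
    (hC : 0 < C.det) (h : (B₀ : ℤ) * C.det < |C 0 1 * C 1 0|) : nso_h ρ C = 0 := by
  unfold nso_h
  split_ifs with h1
  · exact (jj_zero hρ hB hC h).2
  · rfl

theorem nso_fin {T : ℝ} {ρ : ℝ → ℝ} (hρ : KerL T ρ) {B₀ : ℕ} (hB : 1 + T ^ 2 ≤ B₀) (N : ℕ) {n : ℕ}
    (hn : 1 ≤ n) : (Function.support (nso_h ρ) ∩ DN N n).Finite := by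
  set M : ℤ := (B₀ + 1) * n with hM
  have hfin : {C : M2 | ∀ i k, C i k ∈ Set.Icc (-M) M}.Finite :=
    Set.Finite.pi' fun _ => Set.Finite.pi' fun _ => Set.finite_Icc _ _
  apply hfin.subset
  rintro C ⟨hC1, hC2⟩
  have hdet : C.det = n := hC2.2
  have hpos : 0 < C.det := by rw [hdet]; exact_mod_cast hn
  have hle : |C 0 1 * C 1 0| ≤ (B₀ : ℤ) * C.det := by
    by_contra hcon
    push Not at hcon
    exact hC1 (nso_h_big hρ hB hpos hcon)
  have hne : Nsh C ∧ C 0 0 ≠ 0 ∧ C 1 1 ≠ 0 := by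
    by_contra hcon
    apply hC1
    unfold nso_h
    rw [if_neg hcon]
  obtain ⟨⟨h01, h10⟩, h00, h11⟩ := hne
  rw [hdet] at hle
  have hd2 : C 0 0 * C 1 1 - C 0 1 * C 1 0 = n := by rw [← hdet, Matrix.det_fin_two]
  have hn1 : (1 : ℤ) ≤ n := by exact_mod_cast hn
  have hle2 : |C 0 0 * C 1 1| ≤ M := by
    have e : C 0 0 * C 1 1 = n + C 0 1 * C 1 0 := by linarith
    rw [e]
    calc |(n : ℤ) + C 0 1 * C 1 0| ≤ |(n : ℤ)| + |C 0 1 * C 1 0| := abs_add_le _ _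
      _ ≤ n + B₀ * n := by
          rw [abs_of_nonneg (by omega : (0 : ℤ) ≤ n)]
          linarith
      _ = M := by rw [hM]; ring
  have hle1 : |C 0 1 * C 1 0| ≤ M := by
    refine le_trans hle ?_
    rw [hM]
    nlinarith
  have key : ∀ u v : ℤ, u ≠ 0 → v ≠ 0 → |u * v| ≤ M → |u| ≤ M ∧ |v| ≤ M := by
    intro u v hu hv h
    rw [abs_mul] at h
    have h1 : 1 ≤ |u| := Int.one_le_abs hu
    have h2 : 1 ≤ |v| := Int.one_le_abs hv
    constructor <;> nlinarith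
  have k1 := key _ _ h01 h10 hle1
  have k2 := key _ _ h00 h11 hle2
  intro i k
  rw [Set.mem_Icc, ← abs_le]
  fin_cases i <;> fin_cases k
  · exact k2.1
  · exact k1.1
  · exact k1.2
  · exact k2.2

/-- a matrix of determinant prime to `N` with `N ∣ c` has nonzero diagonal -/
theorem nso_diag {N n : ℕ} (hNn : ¬ N ∣ n) {C : M2} (hC : C ∈ DN N n) :
    C 0 0 ≠ 0 ∧ C 1 1 ≠ 0 := by
  have hd2 : C 0 0 * C 1 1 - C 0 1 * C 1 0 = n := by rw [← hC.2, Matrix.det_fin_two]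
  have hmul : C 0 0 * C 1 1 ≠ 0 := by
    intro h
    apply hNn
    have h1 : (N : ℤ) ∣ (n : ℤ) := by
      rw [← hd2, h]
      exact dvd_sub (dvd_zero _) (Dvd.dvd.mul_left hC.1 _)
    exact_mod_cast h1
  exact ⟨left_ne_zero_of_mul hmul, right_ne_zero_of_mul hmul⟩

theorem nso_hm {e : ℕ} (he : 1 ≤ e) {t : ℕ × ℕ × ℕ} (ht : t ∈ HM e) :
    1 ≤ t.1 ∧ 1 ≤ t.2.2 ∧ t.1 * t.2.2 = e := by
  unfold HM at ht
  rw [Finset.mem_filter] at ht
  obtain ⟨_, h1, _⟩ := ht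
  refine ⟨?_, ?_, h1⟩
  · rcases Nat.eq_zero_or_pos t.1 with h | h
    · rw [h, zero_mul] at h1; omega
    · exact h
  · rcases Nat.eq_zero_or_pos t.2.2 with h | h
    · rw [h, mul_zero] at h1; omega
    · exact h

theorem nso_entries (t t' : ℕ × ℕ × ℕ) (g : SL(2, ℤ)) :
    (UT t' * (g : M2) * (UT t).adjugate) 1 0 = (t'.2.2 : ℤ) * g 1 0 * t.2.2 ∧
    (UT t' * (g : M2) * (UT t).adjugate) 0 1 =
      (t'.1 : ℤ) * (g 0 0 * t.2.1 + g 0 1 * t.1) - t'.2.1 * (g 1 0 * t.2.1 + g 1 1 * t.1) := by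
  unfold UT
  rw [Matrix.adjugate_fin_two_of]
  constructor
  · rw [Matrix.mul_apply, Fin.sum_univ_two, Matrix.mul_apply, Matrix.mul_apply, Fin.sum_univ_two,
      Fin.sum_univ_two]
    simp
  · rw [Matrix.mul_apply, Fin.sum_univ_two, Matrix.mul_apply, Matrix.mul_apply, Fin.sum_univ_two,
      Fin.sum_univ_two]
    simp
    ring

theorem nso_det (t t' : ℕ × ℕ × ℕ) (g : SL(2, ℤ)) :
    (UT t' * (g : M2) * (UT t).adjugate).det = ((t.1 * t.2.2 * (t'.1 * t'.2.2) : ℕ) : ℤ) := by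
  rw [Matrix.det_mul, Matrix.det_mul]
  unfold UT
  rw [Matrix.adjugate_fin_two_of, Matrix.det_fin_two_of, Matrix.det_fin_two_of, g.2]
  push_cast
  ring

theorem nso_psi_eq (ρ : ℝ → ℝ) {N e e' : ℕ} (hN : N.Prime) (he : 1 ≤ e) (he' : 1 ≤ e')
    (heN : e < N) (heN' : e' < N) {t t' : ℕ × ℕ × ℕ} (ht : t ∈ HM e) (ht' : t' ∈ HM e') :
    nso_psi ρ N ((t.2.1 : ℝ) / t.1) ((t'.2.1 : ℝ) / t'.1) =
      ∑' γ : CongruenceSubgroup.Gamma0 N,
        nso_h ρ (UT t' * ((γ : SL(2, ℤ)) : M2) * (UT t).adjugate) := by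
  obtain ⟨h1, h2, h3⟩ := nso_hm he ht
  obtain ⟨h1', h2', h3'⟩ := nso_hm he' ht'
  unfold nso_psi
  apply tsum_congr
  intro γ
  set g : SL(2, ℤ) := (γ : SL(2, ℤ)) with hg
  set C : M2 := UT t' * (g : M2) * (UT t).adjugate with hCdef
  have hent := nso_entries t t' g
  rw [← hCdef] at hent
  have hdet : C.det = ((e * e' : ℕ) : ℤ) := by
    rw [hCdef, nso_det, h3, h3']
  have hNg : (N : ℤ) ∣ g 1 0 := by
    have := γ.2
    rw [CongruenceSubgroup.Gamma0_mem] at this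
    exact (ZMod.intCast_zmod_eq_zero_iff_dvd _ _).mp this
  have hCD : C ∈ DN N (e * e') := by
    refine ⟨?_, hdet⟩
    rw [hent.1]
    exact Dvd.dvd.mul_right (Dvd.dvd.mul_left hNg _) _
  have hNee : ¬ N ∣ e * e' := by
    rw [hN.dvd_mul]
    rintro (h | h)
    · exact absurd (Nat.le_of_dvd he h) (by omega)
    · exact absurd (Nat.le_of_dvd he' h) (by omega)
  have hdiag := nso_diag hNee hCD
  have a0 : (t.1 : ℝ) ≠ 0 := by
    have : t.1 ≠ 0 := by omega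
    exact_mod_cast this
  have a0' : (t'.1 : ℝ) ≠ 0 := by
    have : t'.1 ≠ 0 := by omega
    exact_mod_cast this
  have hiff : (g 1 0 ≠ 0 ∧
      ¬ ((((g 0 0 : ℤ) : ℝ) * ((t.2.1 : ℝ) / t.1) + ((g 0 1 : ℤ) : ℝ)) =
        (((g 1 0 : ℤ) : ℝ) * ((t.2.1 : ℝ) / t.1) + ((g 1 1 : ℤ) : ℝ)) * ((t'.2.1 : ℝ) / t'.1))) ↔
      (Nsh C ∧ C 0 0 ≠ 0 ∧ C 1 1 ≠ 0) := by
    rw [and_iff_left hdiag]
    unfold Nsh
    rw [and_comm]
    apply and_congr
    · rw [not_iff_not, hent.2, ← Int.cast_inj (α := ℝ)]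
      push_cast
      constructor
      · intro h
        field_simp at h
        linarith
      · intro h
        field_simp
        linarith
    · rw [not_iff_not, hent.1]
      have b1 : t.2.2 ≠ 0 := by omega
      have b2 : t'.2.2 ≠ 0 := by omega
      simp [b1, b2]
  unfold nso_h
  by_cases h : Nsh C ∧ C 0 0 ≠ 0 ∧ C 1 1 ≠ 0
  · rw [if_pos h, if_pos (hiff.mpr h)]
    exact ip_pair ρ h1 h2 h1' h2' g
  · rw [if_neg h, if_neg (fun h' => h (hiff.mp h'))]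

theorem nso_cc_zero {N E : ℕ} (hN : N.Prime) (hE : E < N) {x : ℕ → ℝ}
    (hx : ∀ e, x e ≠ 0 → 1 ≤ e ∧ e ≤ E) {n : ℕ} (hNn : N ∣ n) : CC E x n = 0 := by
  unfold CC
  apply Finset.sum_eq_zero
  intro j hj
  rw [Finset.mem_Icc] at hj
  rw [mul_eq_zero]
  right
  apply Finset.sum_eq_zero
  intro p hp
  rw [Nat.mem_divisorsAntidiagonal] at hp
  have hp1 : N ∣ p.1 ∨ N ∣ p.2 := by
    rw [← hN.dvd_mul, hp.1]
    exact hNn
  have hp10 : p.1 ≠ 0 := by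
    intro h
    apply hp.2
    rw [← hp.1, h, zero_mul]
  have hp20 : p.2 ≠ 0 := by
    intro h
    apply hp.2
    rw [← hp.1, h, mul_zero]
  have key : ∀ m : ℕ, m ≠ 0 → N ∣ m → x (j * m) = 0 := by
    intro m hm hNm
    by_contra hne
    have h1 := (hx _ hne).2
    have h2 : N ≤ m := Nat.le_of_dvd (Nat.pos_of_ne_zero hm) hNm
    have h3 : m ≤ j * m := Nat.le_mul_of_pos_left _ hj.1
    omega
  rcases hp1 with h | h
  · rw [key _ hp10 h]; simp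
  · rw [key _ hp20 h]; simp

theorem ns_eq_pr {T : ℝ} {ρ : ℝ → ℝ} (hρ : KerL T ρ) {B₀ : ℕ} (hB : 1 + T ^ 2 ≤ B₀) {N E : ℕ}
    (hN : N.Prime) (hE : E < N) {x : ℕ → ℝ} (hx : ∀ e, x e ≠ 0 → 1 ≤ e ∧ e ≤ E) :
    NS ρ N E (wX E x) = ((OD ρ B₀ E x N / Real.pi : ℝ) : ℂ) := by
  have step1 : NS ρ N E (wX E x) = (1 / 2) * ∑ q ∈ Finset.Icc 1 E, (wX E x q : ℂ) *
      ∑ j ∈ RR q, ∑ q' ∈ Finset.Icc 1 E, (wX E x q' : ℂ) *
        ∑ j' ∈ RR q', nso_psi ρ N ((j : ℝ) / q) ((j' : ℝ) / q') := by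
    unfold NS
    congr 1
    apply Finset.sum_congr rfl
    intro q hq
    rw [Finset.mul_sum]
    apply Finset.sum_congr rfl
    intro j _
    rw [Finset.mul_sum]
    apply Finset.sum_congr rfl
    intro q' hq'
    rw [Finset.mul_sum, Finset.mul_sum]
    apply Finset.sum_congr rfl
    intro j' _
    rw [← mul_assoc]
    congr 1
    unfold nso_psi
    apply tsum_congr
    intro γ
    rw [Finset.mem_Icc] at hq hq'
    have hb := nso_bsh (γ : SL(2, ℤ)) (j := j) (j' := j') hq.1 hq'.1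
    simp only [hb]
  have step2 : NS ρ N E (wX E x) = (1 / 2) * ∑ e ∈ Finset.Icc 1 E, ∑ e' ∈ Finset.Icc 1 E,
      ((x e / e * (x e' / e') : ℝ) : ℂ) * ∑ t ∈ HM e, ∑ t' ∈ HM e',
        nso_psi ρ N ((t.2.1 : ℝ) / t.1) ((t'.2.1 : ℝ) / t'.1) := by
    rw [step1]
    congr 1
    have hin : ∀ l : ℝ, ∑ q' ∈ Finset.Icc 1 E, (wX E x q' : ℂ) *
        ∑ j' ∈ RR q', nso_psi ρ N l ((j' : ℝ) / q') =
        ∑ e' ∈ Finset.Icc 1 E, ((x e' / e' : ℝ) : ℂ) *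
          ∑ t' ∈ HM e', nso_psi ρ N l ((t'.2.1 : ℝ) / t'.1) :=
      fun l => nso_frac E x (fun l' => nso_psi ρ N l l')
    simp only [hin]
    rw [nso_frac E x (fun l => ∑ e' ∈ Finset.Icc 1 E, ((x e' / e' : ℝ) : ℂ) *
          ∑ t' ∈ HM e', nso_psi ρ N l ((t'.2.1 : ℝ) / t'.1))]
    apply Finset.sum_congr rfl
    intro e _
    rw [Finset.sum_comm, Finset.mul_sum]
    apply Finset.sum_congr rfl
    intro e' _
    rw [← Finset.mul_sum, ← mul_assoc]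
    congr 1
    push_cast
    ring
  have step3 : NS ρ N E (wX E x) = (1 / 2) * ∑ e ∈ Finset.Icc 1 E, ∑ e' ∈ Finset.Icc 1 E,
      ((x e / e * (x e' / e') : ℝ) : ℂ) * ∑' C : DN N (e * e'),
          ((∑ d ∈ (Nat.gcd e (Nat.gcd e' (cont C))).divisors, d : ℕ) : ℂ) * nso_h ρ C := by
    rw [step2]
    congr 1
    apply Finset.sum_congr rfl
    intro e he
    apply Finset.sum_congr rfl
    intro e' he'
    rw [Finset.mem_Icc] at he he'
    congr 1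
    have hco : ∀ m : ℕ, 1 ≤ m → m ≤ E → m.Coprime N := by
      intro m h1 h2
      exact (Nat.coprime_of_lt_prime (by omega) (by omega) hN).symm
    rw [← coset_sum hN he.1 he'.1 (hco e he.1 he.2) (hco e' he'.1 he'.2) (nso_h ρ)
      (nso_fin hρ hB N (Nat.mul_pos he.1 he'.1))]
    apply Finset.sum_congr rfl
    intro t ht
    apply Finset.sum_congr rfl
    intro t' ht'
    exact nso_psi_eq ρ hN he.1 he'.1 (by omega) (by omega) ht ht'
  rw [step3, conv_sum hN hE hx (nso_h ρ) (fun j C hj => nso_h_smul ρ j C hj)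
    (fun n hn _ => nso_fin hρ hB N hn)]
  have step4 : ∀ n ∈ Finset.Icc 1 (E ^ 2), (CC E x n : ℂ) * ∑' C : DN N n, nso_h ρ C =
      ((4 * (CC E x n * ∑ g ∈ Gs B₀ E,
        tau g.natAbs * tau ((n : ℤ) - g * N).natAbs * GG ρ ((g : ℝ) * N / n)) : ℝ) : ℂ) := by
    intro n hn
    rw [Finset.mem_Icc] at hn
    by_cases hNn : N ∣ n
    · rw [nso_cc_zero hN hE hx hNn]
      simp
    · have hpos : ∀ C ∈ DN N n, 0 < Matrix.det C := by
        intro C hC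
        rw [hC.2]
        exact_mod_cast hn.1
      rw [(enum_sum hN hn.1 hn.2 hNn (nso_h ρ) (GG ρ) (B₀ := B₀) ?_ ?_ ?_).2]
      · push_cast
        rw [Finset.mul_sum, Finset.mul_sum, Finset.mul_sum]
        apply Finset.sum_congr rfl
        intro g _
        ring
      · intro C hC hNs
        have hd := nso_diag hNn hC
        have hfl : Nsh !![C 0 0, -C 0 1; -C 1 0, C 1 1] ∧
            (!![C 0 0, -C 0 1; -C 1 0, C 1 1] : M2) 0 0 ≠ 0 ∧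
            (!![C 0 0, -C 0 1; -C 1 0, C 1 1] : M2) 1 1 ≠ 0 := by
          refine ⟨⟨?_, ?_⟩, ?_, ?_⟩
          · simpa using hNs.1
          · simpa using hNs.2
          · simpa using hd.1
          · simpa using hd.2
        unfold nso_h
        rw [if_pos ⟨hNs, hd⟩, if_pos hfl]
        exact jj_flip hρ (hpos C hC) hNs hd
      · intro C _ hNs
        unfold nso_h
        rw [if_neg (fun h => hNs h.1)]
      · intro C hC hb
        exact nso_h_big hρ hB (hpos C hC) hb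
  rw [Finset.sum_congr rfl step4]
  unfold OD
  have hpi : (Real.pi : ℝ) ≠ 0 := Real.pi_ne_zero
  rw [← Complex.ofReal_sum]
  rw [show ((1 : ℂ) / 2) = (((1 / 2 : ℝ)) : ℂ) by push_cast; ring, ← Complex.ofReal_mul]
  congr 1
  rw [← Finset.mul_sum]
  generalize ∑ n ∈ Finset.Icc 1 (E ^ 2), CC E x n * ∑ g ∈ Gs B₀ E,
    tau g.natAbs * tau ((n : ℤ) - g * N).natAbs * GG ρ ((g : ℝ) * N / n) = S
  field_simp
  norm_num

theorem ns_eq : type_of% @ns_eq_pr := @ns_eq_pr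

end Pool.Agent.LSP
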