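import Pool.Agent.Lib_helper41.LSP.DefsG

/-! LSP, block VLA: the Fricke swap. -/

namespace Pool.Agent.LSP

open Pool.Agent.LEV Pool.Agent.LVB Pool.Agent.KSL
open Pool.Agent.FG61 (mu phi cc ff AA Lam)
open Complex MeasureTheory Filter Topology UpperHalfPlane ModularGroup ProbabilityTheory
open scoped MatrixGroups Modular ENNReal ModularForm ComplexConjugate ContDiff

namespace VLA72

/-- `ipH` is invariant -/
lemma ipH_slash (F G : ℍ → ℂ) (g : GL (Fin 2) ℝ) (hg : 0 < g.det.val) :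
    ipH (F ∣[(2 : ℤ)] g) (G ∣[(2 : ℤ)] g) = ipH F G := by
  unfold ipH
  rw [← MeasureTheory.integral_smul_eq_self (μ := (volume : Measure ℍ))
    (fun z : ℍ => F z * conj (G z) * ((z.im ^ 2 : ℝ) : ℂ)) (g := g)]
  refine integral_congr_ae (Filter.Eventually.of_forall fun z => ?_)
  simp only [ModularForm.slash_apply]
  have hσ : ∀ w : ℂ, σ g w = w := by
    intro w
    rw [σ, if_pos hg]
    rfl
  have hd : denom g z ≠ 0 := denom_ne_zero g z
  have him : (g • z).im = g.det.val * z.im / Complex.normSq (denom g z) := by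
    rw [UpperHalfPlane.im_smul_eq_div_normSq, abs_of_pos hg]
  rw [hσ, hσ, him, abs_of_pos hg]
  have hn : ((Complex.normSq (denom g z) : ℝ) : ℂ) = denom g z * conj (denom g z) :=
    (Complex.mul_conj _).symm
  have hc : conj (denom g z) ≠ 0 := by simp [hd]
  simp only [map_mul, Complex.ofReal_pow, Complex.ofReal_div, Complex.ofReal_mul, hn, map_zpow₀,
    Complex.conj_ofReal]
  rw [show ((2 : ℤ) - 1) = 1 by norm_num, zpow_one, zpow_neg, zpow_neg]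
  rw [show ((2 : ℤ)) = ((2 : ℕ) : ℤ) by norm_num, zpow_natCast, zpow_natCast]
  field_simp

lemma re_add_im_I' (z' : ℍ) (l' a b : ℝ) : ((z' : ℂ) - (l' : ℂ) = (a : ℂ) + (b : ℂ) * Complex.I) →
    z'.re - l' = a ∧ z'.im = b := by
  intro h
  constructor
  · have := congrArg Complex.re h
    simpa only [Complex.sub_re, Complex.add_re, Complex.mul_re, Complex.ofReal_re, Complex.ofReal_im,
      Complex.I_re, Complex.I_im, mul_zero, zero_mul, sub_zero, add_zero, UpperHalfPlane.coe_re]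
      using this
  · have := congrArg Complex.im h
    simpa only [Complex.sub_im, Complex.add_im, Complex.mul_im, Complex.ofReal_re, Complex.ofReal_im,
      Complex.I_re, Complex.I_im, mul_zero, zero_mul, sub_zero, add_zero, UpperHalfPlane.coe_im,
      zero_add, mul_one] using this

/-- the swap of the two ends of a geodesic for points -/
lemma cone_swap (ρ : ℝ → ℝ) (hρ : ∀ t, ρ (-t) = ρ t) {N q : ℕ} (hN : 1 ≤ N) (hq : 1 ≤ q)
    (l l' Y : ℝ) (z z' : ℍ)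
    (h : (z' : ℂ) - (l' : ℂ) = -1 / ((N * (q : ℝ) ^ 2 : ℝ) * ((z : ℂ) - (l : ℂ)))) :
    coneY ρ N q l' Y z' =
      -((N * (q : ℝ) ^ 2 : ℝ) * ((z : ℂ) - (l : ℂ)) ^ 2) * coneY ρ N q l Y z := by
  set M : ℝ := N * (q : ℝ) ^ 2 with hM
  have hMpos : 0 < M := by positivity
  set x : ℝ := z.re - l with hx
  have hy : 0 < z.im := z.im_pos
  set y : ℝ := z.im with hydef
  have hζ : (z : ℂ) - (l : ℂ) = (x : ℂ) + (y : ℂ) * Complex.I := by
    apply Complex.ext <;> simp [hx, hydef]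
  set n : ℝ := x ^ 2 + y ^ 2 with hn
  have hnpos : 0 < n := by positivity
  have hnC : (x : ℂ) ^ 2 + (y : ℂ) ^ 2 ≠ 0 := by
    have : ((n : ℝ) : ℂ) ≠ 0 := by exact_mod_cast hnpos.ne'
    rw [hn] at this
    push_cast at this
    exact this
  have hζ0 : (x : ℂ) + (y : ℂ) * Complex.I ≠ 0 := by
    intro h0
    have := congrArg Complex.im h0
    simp at this
    exact hy.ne' this
  have hMC : (M : ℂ) ≠ 0 := by exact_mod_cast hMpos.ne'
  have h2 : (z' : ℂ) - (l' : ℂ) = ((-x / (M * n) : ℝ) : ℂ) + ((y / (M * n) : ℝ) : ℂ) * Complex.I := by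
    rw [h, hζ]
    rw [div_eq_iff (mul_ne_zero hMC hζ0)]
    push_cast [hn]
    field_simp
    ring_nf
    simp only [I_sq]
    ring
  have hre : z'.re - l' = -x / (M * n) := by
    exact (re_add_im_I' z' l' _ _ h2).1
  have him : z'.im = y / (M * n) := by
    exact (re_add_im_I' z' l' _ _ h2).2
  have hnz : ‖(z : ℂ) - (l : ℂ)‖ ^ 2 = n := by
    rw [hζ, ← Complex.normSq_eq_norm_sq, Complex.normSq_add_mul_I, hn]
  have hnz' : ‖(z' : ℂ) - (l' : ℂ)‖ ^ 2 = 1 / (M ^ 2 * n) := by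
    rw [h2, ← Complex.normSq_eq_norm_sq, Complex.normSq_add_mul_I]
    field_simp
    rw [hn]
  have hMn : 0 < M * n := by positivity
  have c1 : z'.im < Y ↔ y < Y * (M * n) := by
    rw [him, div_lt_iff₀ hMn]
  have c2 : z'.im < Y * (M * ‖(z' : ℂ) - (l' : ℂ)‖ ^ 2) ↔ y < Y := by
    rw [him, hnz', show Y * (M * (1 / (M ^ 2 * n))) = Y / (M * n) by field_simp,
      div_lt_div_iff_of_pos_right hMn]
  unfold coneY
  rw [show (N : ℝ) * (q : ℝ) ^ 2 = M from rfl]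
  rw [hnz]
  by_cases hc : y < Y ∧ y < Y * (M * n)
  · rw [if_pos ⟨c1.mpr hc.2, c2.mpr hc.1⟩, if_pos (by simpa [hydef] using hc)]
    unfold cone
    have hs' : (z'.re - l') / z'.im = -(x / y) := by
      rw [hre, him]
      field_simp
    rw [hs', hρ, him]
    rw [show (z.re - l) / z.im = x / y from rfl, hζ]
    have hyC : (y : ℂ) ≠ 0 := by exact_mod_cast hy.ne'
    push_cast [hn]
    rw [show ((z.im : ℝ) : ℂ) = (y : ℂ) from rfl]
    field_simp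
    ring_nf
    simp only [show Complex.I ^ 3 = -Complex.I by rw [pow_succ, I_sq]; ring, I_sq]
    ring
  · have hc' : ¬ (z'.im < Y ∧ z'.im < Y * (M * ‖(z' : ℂ) - (l' : ℂ)‖ ^ 2)) := by
      rw [c1, c2]
      tauto
    rw [if_neg hc', if_neg (by simpa [hydef] using hc), mul_zero]

/-- the Fricke involution -/
noncomputable def FN (N : ℕ) (hN : 1 ≤ N) : GL (Fin 2) ℝ :=
  Matrix.GeneralLinearGroup.mkOfDetNeZero !![0, -1; (N : ℝ), 0]
    (by rw [Matrix.det_fin_two_of]; simp; positivity)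


/-- the lower left representative -/
def gm (N q j a : ℕ) (b : ℤ) (h : (N : ℤ) * a * j + q * b = -1) : SL(2, ℤ) :=
  ⟨!![-b, a; N * j, q], by rw [Matrix.det_fin_two_of]; linarith⟩

lemma gm_mem {N q j a : ℕ} {b : ℤ} (h : (N : ℤ) * a * j + q * b = -1) :
    gm N q j a b h ∈ CongruenceSubgroup.Gamma0 N := by
  rw [CongruenceSubgroup.Gamma0_mem]
  simp [gm]

lemma coe_GL (g : SL(2, ℤ)) : ((g : GL (Fin 2) ℝ) : Matrix (Fin 2) (Fin 2) ℝ) =
    !![((g 0 0 : ℤ) : ℝ), ((g 0 1 : ℤ) : ℝ); ((g 1 0 : ℤ) : ℝ), ((g 1 1 : ℤ) : ℝ)] := by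
  ext i k
  fin_cases i <;> fin_cases k <;> rfl

lemma coe_FN (N : ℕ) (hN : 1 ≤ N) : ((FN N hN : GL (Fin 2) ℝ) : Matrix (Fin 2) (Fin 2) ℝ) =
    !![0, -1; (N : ℝ), 0] := rfl

/-- `coneY (a/q) ∣ g ∣ F = - coneY (j/q)` -/
lemma cone_slash {ρ : ℝ → ℝ} (hρ : ∀ t, ρ (-t) = ρ t) {N q j a : ℕ} {b : ℤ} (hN : 1 ≤ N)
    (hq : 1 ≤ q) (h : (N : ℤ) * a * j + q * b = -1) (Y : ℝ) :
    (coneY ρ N q ((a : ℝ) / q) Y) ∣[(2 : ℤ)] ((gm N q j a b h : GL (Fin 2) ℝ) * FN N hN) =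
      -(coneY ρ N q ((j : ℝ) / q) Y) := by
  set W : GL (Fin 2) ℝ := (gm N q j a b h : GL (Fin 2) ℝ) * FN N hN with hW
  have hN0 : (0 : ℝ) < N := by exact_mod_cast hN
  have hq0 : (0 : ℝ) < q := by exact_mod_cast hq
  have hWv : (W : Matrix (Fin 2) (Fin 2) ℝ) = !![(N : ℝ) * a, b; (N : ℝ) * q, -((N : ℝ) * j)] := by
    rw [hW, Matrix.GeneralLinearGroup.coe_mul, coe_GL, coe_FN]
    have g00 : (gm N q j a b h) 0 0 = -b := rfl
    have g01 : (gm N q j a b h) 0 1 = a := rfl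
    have g10 : (gm N q j a b h) 1 0 = N * j := rfl
    have g11 : (gm N q j a b h) 1 1 = q := rfl
    rw [g00, g01, g10, g11]
    ext i k
    fin_cases i <;> fin_cases k <;>
      simp [Matrix.mul_apply, Fin.sum_univ_two] <;> ring
  have hdet : W.det.val = N := by
    have : W.det.val = (W : Matrix (Fin 2) (Fin 2) ℝ).det := rfl
    rw [this, hWv, Matrix.det_fin_two_of]
    have h' : (N : ℝ) * a * j + q * b = -1 := by exact_mod_cast h
    linear_combination (-(N : ℝ)) * h'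
  have hdpos : 0 < W.det.val := by rw [hdet]; exact hN0
  funext z
  rw [ModularForm.slash_apply]
  have hσ : ∀ w : ℂ, σ W w = w := by
    intro w
    rw [σ, if_pos hdpos]
    rfl
  have h00 : W 0 0 = (N : ℝ) * a := by
    have := congrFun (congrFun hWv 0) 0
    simpa using this
  have h01 : W 0 1 = (b : ℝ) := by
    have := congrFun (congrFun hWv 0) 1
    simpa using this
  have h10 : W 1 0 = (N : ℝ) * q := by
    have := congrFun (congrFun hWv 1) 0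
    simpa using this
  have h11 : W 1 1 = -((N : ℝ) * j) := by
    have := congrFun (congrFun hWv 1) 1
    simpa using this
  have hnum : num W z = (N : ℂ) * a * (z : ℂ) + b := by
    unfold num
    rw [h00, h01]
    push_cast
    ring
  have hden : denom W z = (N : ℂ) * q * (z : ℂ) - N * j := by
    unfold denom
    rw [h10, h11]
    push_cast
    ring
  have hNC : (N : ℂ) ≠ 0 := by exact_mod_cast hN0.ne'
  have hqC : (q : ℂ) ≠ 0 := by exact_mod_cast hq0.ne'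
  have hd0 : (N : ℂ) * q * (z : ℂ) - N * j ≠ 0 := by
    rw [← hden]
    exact denom_ne_zero W z
  have hd1 : (q : ℂ) * (z : ℂ) - j ≠ 0 := by
    intro h0
    apply hd0
    linear_combination (N : ℂ) * h0
  have hab : (N : ℂ) * a * j + q * b = -1 := by exact_mod_cast h
  have hkey : ((W • z : ℍ) : ℂ) - (((a : ℝ) / q : ℝ) : ℂ) =
      -1 / ((N * (q : ℝ) ^ 2 : ℝ) * ((z : ℂ) - (((j : ℝ) / q : ℝ) : ℂ))) := by
    rw [UpperHalfPlane.coe_smul_of_det_pos hdpos, hnum, hden]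
    have e1 : ((N * (q : ℝ) ^ 2 : ℝ) : ℂ) * ((z : ℂ) - (((j : ℝ) / q : ℝ) : ℂ)) =
        q * ((N : ℂ) * q * (z : ℂ) - N * j) := by
      push_cast
      field_simp
    rw [e1]
    push_cast
    rw [div_sub_div _ _ hd0 hqC, div_eq_div_iff (mul_ne_zero hd0 hqC) (mul_ne_zero hqC hd0)]
    linear_combination (q * ((N : ℂ) * q * (z : ℂ) - N * j)) * hab
  have hc := cone_swap ρ hρ hN hq ((j : ℝ) / q) ((a : ℝ) / q) Y z (W • z) hkey
  rw [hσ, hc, hdet, abs_of_pos hN0, hden, Pi.neg_apply]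
  rw [show ((2 : ℤ) - 1) = 1 by norm_num, zpow_one, show (-(2 : ℤ)) = -((2 : ℕ) : ℤ) by norm_num,
    zpow_neg, zpow_natCast]
  have e2 : (z : ℂ) - (((j : ℝ) / q : ℝ) : ℂ) = ((N : ℂ) * q * (z : ℂ) - N * j) / (N * q) := by
    push_cast
    field_simp
  rw [e2]
  push_cast
  field_simp

/-- the automorphism of `Γ₀(N)` -/
def Pm (N : ℕ) (γ : CongruenceSubgroup.Gamma0 N) : SL(2, ℤ) :=
  ⟨!![(γ : SL(2, ℤ)) 1 1, -((γ : SL(2, ℤ)) 1 0 / N); -(N * (γ : SL(2, ℤ)) 0 1), (γ : SL(2, ℤ)) 0 0],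
    by
      rw [Matrix.det_fin_two_of]
      have h1 := γ.1.det_coe
      rw [Matrix.det_fin_two] at h1
      have h2 := γ.2
      rw [CongruenceSubgroup.Gamma0_mem] at h2
      have h2' : (N : ℤ) ∣ (γ : SL(2, ℤ)) 1 0 := by
        rw [← ZMod.intCast_zmod_eq_zero_iff_dvd] ; exact h2
      have h3 := Int.ediv_mul_cancel h2'
      linear_combination h1 - ((γ : SL(2, ℤ)) 0 1) * h3⟩

lemma Pm_mem (N : ℕ) (γ : CongruenceSubgroup.Gamma0 N) : Pm N γ ∈ CongruenceSubgroup.Gamma0 N := by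
  have h : Pm N γ 1 0 = -(N * (γ : SL(2, ℤ)) 0 1) := rfl
  rw [CongruenceSubgroup.Gamma0_mem, h]
  simp

/-- the automorphism of `Γ₀(N)` -/
def Ph0 (N : ℕ) (γ : CongruenceSubgroup.Gamma0 N) : CongruenceSubgroup.Gamma0 N :=
  ⟨Pm N γ, Pm_mem N γ⟩

lemma dvd10 {N : ℕ} (γ : CongruenceSubgroup.Gamma0 N) : (N : ℤ) ∣ (γ : SL(2, ℤ)) 1 0 := by
  have h2 := γ.2
  rw [CongruenceSubgroup.Gamma0_mem] at h2
  rw [← ZMod.intCast_zmod_eq_zero_iff_dvd]
  exact h2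

lemma P00 {N : ℕ} (γ : CongruenceSubgroup.Gamma0 N) :
    ((Ph0 N γ : CongruenceSubgroup.Gamma0 N) : SL(2, ℤ)) 0 0 = (γ : SL(2, ℤ)) 1 1 := rfl
lemma P01 {N : ℕ} (γ : CongruenceSubgroup.Gamma0 N) :
    ((Ph0 N γ : CongruenceSubgroup.Gamma0 N) : SL(2, ℤ)) 0 1 = -((γ : SL(2, ℤ)) 1 0 / N) := rfl
lemma P10 {N : ℕ} (γ : CongruenceSubgroup.Gamma0 N) :
    ((Ph0 N γ : CongruenceSubgroup.Gamma0 N) : SL(2, ℤ)) 1 0 = -(N * (γ : SL(2, ℤ)) 0 1) := rfl
lemma P11 {N : ℕ} (γ : CongruenceSubgroup.Gamma0 N) :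
    ((Ph0 N γ : CongruenceSubgroup.Gamma0 N) : SL(2, ℤ)) 1 1 = (γ : SL(2, ℤ)) 0 0 := rfl

lemma Ph0_inv {N : ℕ} (hN : 1 ≤ N) : Function.Involutive (Ph0 N) := by
  intro γ
  have h3 := Int.ediv_mul_cancel (dvd10 γ)
  have hN0 : (N : ℤ) ≠ 0 := by positivity
  apply Subtype.ext
  apply Matrix.SpecialLinearGroup.ext
  intro i k
  fin_cases i <;> fin_cases k
  · exact (P00 _).trans (P11 _)
  · refine (P01 _).trans ?_
    rw [P10, Int.neg_ediv_of_dvd (Dvd.intro _ rfl), Int.mul_ediv_cancel_left _ hN0, neg_neg]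
    rfl
  · refine (P10 _).trans ?_
    rw [P01]
    have : -((N : ℤ) * -((γ : SL(2, ℤ)) 1 0 / N)) = (γ : SL(2, ℤ)) 1 0 / N * N := by ring
    rw [this, h3]
    rfl
  · exact (P11 _).trans (P00 _)

lemma Ph0_mul {N : ℕ} (hN : 1 ≤ N) (γ : CongruenceSubgroup.Gamma0 N) :
    (((Ph0 N γ : CongruenceSubgroup.Gamma0 N) : SL(2, ℤ)) : GL (Fin 2) ℝ) * FN N hN =
      FN N hN * ((γ : SL(2, ℤ)) : GL (Fin 2) ℝ) := by
  have h3 := Int.ediv_mul_cancel (dvd10 γ)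
  have h4 : (((γ : SL(2, ℤ)) 1 0 / N : ℤ) : ℝ) * N = ((γ : SL(2, ℤ)) 1 0 : ℝ) := by exact_mod_cast h3
  apply Units.ext
  rw [Matrix.GeneralLinearGroup.coe_mul, Matrix.GeneralLinearGroup.coe_mul, coe_GL, coe_GL, coe_FN,
    P00, P01, P10, P11]
  ext i k
  fin_cases i <;> fin_cases k
  · simp [Matrix.mul_apply, Fin.sum_univ_two, h4]
  · simp [Matrix.mul_apply, Fin.sum_univ_two]
  · simp [Matrix.mul_apply, Fin.sum_univ_two]
    ring
  · simp [Matrix.mul_apply, Fin.sum_univ_two]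

/-- the bijection of `Γ₀(N)` -/
def eqv {N q j a q' j' a' : ℕ} {b b' : ℤ} (hN : 1 ≤ N) (h : (N : ℤ) * a * j + q * b = -1)
    (h' : (N : ℤ) * a' * j' + q' * b' = -1) :
    CongruenceSubgroup.Gamma0 N ≃ CongruenceSubgroup.Gamma0 N :=
  ((Ph0_inv hN).toPerm (Ph0 N)).trans
    ((Equiv.mulLeft (⟨gm N q' j' a' b' h', gm_mem h'⟩ : CongruenceSubgroup.Gamma0 N)).trans
      (Equiv.mulRight (⟨gm N q j a b h, gm_mem h⟩ : CongruenceSubgroup.Gamma0 N)⁻¹))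

lemma eqv_coe {N q j a q' j' a' : ℕ} {b b' : ℤ} (hN : 1 ≤ N) (h : (N : ℤ) * a * j + q * b = -1)
    (h' : (N : ℤ) * a' * j' + q' * b' = -1) (γ : CongruenceSubgroup.Gamma0 N) :
    ((eqv hN h h' γ : CongruenceSubgroup.Gamma0 N) : SL(2, ℤ)) =
      gm N q' j' a' b' h' * (Ph0 N γ : CongruenceSubgroup.Gamma0 N) * (gm N q j a b h)⁻¹ := rfl

lemma eqv_bsh {N q j a q' j' a' : ℕ} {b b' : ℤ} (hN : 1 ≤ N) (h : (N : ℤ) * a * j + q * b = -1)
    (h' : (N : ℤ) * a' * j' + q' * b' = -1) (γ : CongruenceSubgroup.Gamma0 N) :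
    ((eqv hN h h' γ : CongruenceSubgroup.Gamma0 N) : SL(2, ℤ)) 1 0 = 0 ↔
      Bsh (γ : SL(2, ℤ)) q j q' j' := by
  have h3 := Int.ediv_mul_cancel (dvd10 γ)
  have hN0 : (N : ℤ) ≠ 0 := by positivity
  have key : ((eqv hN h h' γ : CongruenceSubgroup.Gamma0 N) : SL(2, ℤ)) 1 0 =
      -N * (((γ : SL(2, ℤ)) 0 0 * j + (γ : SL(2, ℤ)) 0 1 * q) * q' -
        ((γ : SL(2, ℤ)) 1 0 * j + (γ : SL(2, ℤ)) 1 1 * q) * j') := by
    rw [eqv_coe]
    have g00 : (gm N q' j' a' b' h') 1 0 = N * j' := rfl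
    have g11 : (gm N q' j' a' b' h') 1 1 = q' := rfl
    have e : (gm N q' j' a' b' h' * (Ph0 N γ : CongruenceSubgroup.Gamma0 N) * (gm N q j a b h)⁻¹) 1 0 =
        ((gm N q' j' a' b' h') 1 0 * (Ph0 N γ : SL(2, ℤ)) 0 0 +
          (gm N q' j' a' b' h') 1 1 * (Ph0 N γ : SL(2, ℤ)) 1 0) * ((gm N q j a b h)⁻¹) 0 0 +
        ((gm N q' j' a' b' h') 1 0 * (Ph0 N γ : SL(2, ℤ)) 0 1 +
          (gm N q' j' a' b' h') 1 1 * (Ph0 N γ : SL(2, ℤ)) 1 1) * ((gm N q j a b h)⁻¹) 1 0 := by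
      simp [Matrix.mul_apply, Fin.sum_univ_two]
    rw [e, P00, P01, P10, P11, g00, g11]
    have i00 : ((gm N q j a b h)⁻¹) 0 0 = q := by
      rw [Matrix.SpecialLinearGroup.SL2_inv_expl]
      rfl
    have i10 : ((gm N q j a b h)⁻¹) 1 0 = -(N * j) := by
      rw [Matrix.SpecialLinearGroup.SL2_inv_expl]
      rfl
    rw [i00, i10]
    linear_combination (N * j' * j : ℤ) * h3
  rw [key]
  unfold Bsh
  constructor
  · intro h0
    have := (mul_eq_zero.mp h0).resolve_left (neg_ne_zero.mpr hN0)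
    linarith
  · intro h0
    rw [h0]
    ring

/-- the inner products of the pairs -/
lemma ip_eq {ρ : ℝ → ℝ} (hρ : ∀ t, ρ (-t) = ρ t) {N q j a q' j' a' : ℕ} {b b' : ℤ} (hN : 1 ≤ N)
    (hq : 1 ≤ q) (hq' : 1 ≤ q') (h : (N : ℤ) * a * j + q * b = -1)
    (h' : (N : ℤ) * a' * j' + q' * b' = -1) (Y : ℝ) (γ : CongruenceSubgroup.Gamma0 N) :
    ipH (coneY ρ N q ((j : ℝ) / q) Y) ((coneY ρ N q' ((j' : ℝ) / q') Y) ∣[(2 : ℤ)] (γ : SL(2, ℤ))) =
    ipH (coneY ρ N q ((a : ℝ) / q) Y) ((coneY ρ N q' ((a' : ℝ) / q') Y) ∣[(2 : ℤ)]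
      ((eqv hN h h' γ : CongruenceSubgroup.Gamma0 N) : SL(2, ℤ))) := by
  have e1 := cone_slash hρ hN hq h Y
  have e2 := cone_slash hρ hN hq' h' Y
  have hdet : 0 < ((gm N q j a b h : GL (Fin 2) ℝ) * FN N hN).det.val := by
    have h1 : ((gm N q j a b h : GL (Fin 2) ℝ) * FN N hN).det.val =
        (((gm N q j a b h : GL (Fin 2) ℝ) * FN N hN : GL (Fin 2) ℝ) : Matrix (Fin 2) (Fin 2) ℝ).det :=
      rfl
    rw [h1, Matrix.GeneralLinearGroup.coe_mul, Matrix.det_mul, coe_FN, Matrix.det_fin_two_of]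
    have h2 : ((gm N q j a b h : GL (Fin 2) ℝ) : Matrix (Fin 2) (Fin 2) ℝ).det = 1 :=
      (Matrix.SpecialLinearGroup.map (Int.castRingHom ℝ) (gm N q j a b h)).det_coe
    rw [h2]
    have : (0 : ℝ) < N := by exact_mod_cast hN
    simpa using this
  rw [← ipH_slash (coneY ρ N q ((a : ℝ) / q) Y) _ _ hdet, e1]
  have e3 : (coneY ρ N q' ((a' : ℝ) / q') Y ∣[(2 : ℤ)]
      ((eqv hN h h' γ : CongruenceSubgroup.Gamma0 N) : SL(2, ℤ))) ∣[(2 : ℤ)]
        ((gm N q j a b h : GL (Fin 2) ℝ) * FN N hN) =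
      -(coneY ρ N q' ((j' : ℝ) / q') Y ∣[(2 : ℤ)] (γ : SL(2, ℤ))) := by
    rw [ModularForm.SL_slash, ← SlashAction.slash_mul]
    have e4 : (((eqv hN h h' γ : CongruenceSubgroup.Gamma0 N) : SL(2, ℤ)) : GL (Fin 2) ℝ) *
        ((gm N q j a b h : GL (Fin 2) ℝ) * FN N hN) =
        ((gm N q' j' a' b' h' : GL (Fin 2) ℝ) * FN N hN) * ((γ : SL(2, ℤ)) : GL (Fin 2) ℝ) := by
      rw [mul_assoc, ← Ph0_mul hN γ, eqv_coe]
      simp only [map_mul, map_inv]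
      group
    rw [e4, SlashAction.slash_mul, e2, ModularForm.SL_slash, SlashAction.neg_slash]
  rw [e3]
  unfold ipH
  refine integral_congr_ae (Filter.Eventually.of_forall fun z => ?_)
  simp only [Pi.neg_apply, map_neg]
  ring

/-- the permutation of the residues -/
noncomputable def aO (N q j : ℕ) : ℕ := ((-((N : ZMod q) * (j : ZMod q))⁻¹ : ZMod q)).val

lemma aO_spec {N q j : ℕ} (hq : 1 ≤ q) (hNq : N.Coprime q) (hj : q.Coprime j) :
    (q : ℤ) ∣ (N : ℤ) * aO N q j * j + 1 := by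
  have : NeZero q := ⟨by omega⟩
  rw [← ZMod.intCast_zmod_eq_zero_iff_dvd]
  have h1 : ((aO N q j : ℕ) : ZMod q) = -((N : ZMod q) * (j : ZMod q))⁻¹ := by
    unfold aO
    rw [ZMod.natCast_zmod_val]
  push_cast
  rw [h1]
  have hu : IsUnit ((N : ZMod q) * (j : ZMod q)) := by
    have : ((N : ZMod q) * (j : ZMod q)) = ((N * j : ℕ) : ZMod q) := by push_cast; rfl
    rw [this]
    exact (ZMod.isUnit_iff_coprime _ _).mpr (Nat.Coprime.mul_left hNq hj.symm)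
  have h2 : ((N : ZMod q) * (j : ZMod q)) * ((N : ZMod q) * (j : ZMod q))⁻¹ = 1 :=
    ZMod.mul_inv_of_unit _ hu
  linear_combination (-1 : ZMod q) * h2

lemma aO_lt {N q j : ℕ} (hq : 1 ≤ q) : aO N q j < q := by
  have : NeZero q := ⟨by omega⟩
  exact ZMod.val_lt _

lemma aO_mem {N q j : ℕ} (hq : 1 ≤ q) (hNq : N.Coprime q) (hj : j ∈ RR q) : aO N q j ∈ RR q := by
  unfold RR at hj ⊢
  rw [Finset.mem_filter, Finset.mem_range] at hj ⊢
  refine ⟨aO_lt hq, ?_⟩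
  obtain ⟨b, hb⟩ := aO_spec (N := N) hq hNq hj.2
  have : IsCoprime (q : ℤ) (aO N q j : ℤ) := ⟨b, -(N * j), by linear_combination -hb⟩
  exact Nat.isCoprime_iff_coprime.mp this

lemma aO_aO {N q j : ℕ} (hq : 1 ≤ q) (hNq : N.Coprime q) (hj : j ∈ RR q) :
    aO N q (aO N q j) = j := by
  have hm := aO_mem hq hNq hj
  have hm2 := aO_mem hq hNq hm
  have hj' := hj
  unfold RR at hj hm hm2
  rw [Finset.mem_filter, Finset.mem_range] at hj hm hm2
  have s1 := aO_spec (N := N) hq hNq hj.2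
  have s2 := aO_spec (N := N) hq hNq hm.2
  have h3 : (q : ℤ) ∣ (N : ℤ) * aO N q j * ((aO N q (aO N q j) : ℤ) - j) := by
    have h := dvd_sub s2 s1
    have e : (N : ℤ) * aO N q (aO N q j) * aO N q j + 1 - ((N : ℤ) * aO N q j * j + 1) =
        (N : ℤ) * aO N q j * ((aO N q (aO N q j) : ℤ) - j) := by ring
    rw [e] at h
    exact h
  have hc : IsCoprime (q : ℤ) ((N : ℤ) * aO N q j) := by
    obtain ⟨b, hb⟩ := s1
    exact ⟨b, -j, by linear_combination -hb⟩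
  have h4 := hc.dvd_of_dvd_mul_left h3
  have h5 : ((aO N q (aO N q j) : ℕ) : ℤ) ≡ (j : ℤ) [ZMOD q] :=
    (Int.modEq_iff_dvd.mpr h4).symm
  have h6 := (Int.natCast_modEq_iff).mp h5
  exact Nat.ModEq.eq_of_lt_of_lt h6 hm2.1 hj.1

end VLA72

open VLA72 in
/-- pairs with a common end point equivalent to `0` -/
theorem vla_pr {T : ℝ} {ρ : ℝ → ℝ} (hρ : KerL T ρ) {N E : ℕ} (hN : N.Prime) (hE : E < N)
    (w : ℕ → ℝ) (Y : ℝ) :
    PS ρ N E w Y Bsh = PS ρ N E w Y (fun γ _ _ _ _ => γ 1 0 = 0) := by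
  have hN1 : 1 ≤ N := hN.one_lt.le
  have hev := hρ.even
  have hcop : ∀ q ∈ Finset.Icc 1 E, 1 ≤ q ∧ N.Coprime q := by
    intro q hq
    rw [Finset.mem_Icc] at hq
    exact ⟨hq.1, (Nat.Prime.coprime_iff_not_dvd hN).mpr
      (fun hd => by have := Nat.le_of_dvd hq.1 hd; omega)⟩
  unfold PS
  congr 1
  refine Finset.sum_congr rfl fun q hq => ?_
  obtain ⟨hq1, hNq⟩ := hcop q hq
  refine Finset.sum_nbij' (aO N q) (aO N q) (fun j hj => aO_mem hq1 hNq hj)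
    (fun j hj => aO_mem hq1 hNq hj) (fun j hj => aO_aO hq1 hNq hj) (fun j hj => aO_aO hq1 hNq hj)
    fun j hj => ?_
  refine Finset.sum_congr rfl fun q' hq' => ?_
  obtain ⟨hq1', hNq'⟩ := hcop q' hq'
  refine Finset.sum_nbij' (aO N q') (aO N q') (fun j hj => aO_mem hq1' hNq' hj)
    (fun j hj => aO_mem hq1' hNq' hj) (fun j hj => aO_aO hq1' hNq' hj)
    (fun j hj => aO_aO hq1' hNq' hj) fun j' hj' => ?_
  congr 1
  have hj2 := hj
  have hj2' := hj'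
  unfold RR at hj2 hj2'
  rw [Finset.mem_filter] at hj2 hj2'
  obtain ⟨b, hb⟩ := aO_spec (N := N) hq1 hNq hj2.2
  obtain ⟨b', hb'⟩ := aO_spec (N := N) hq1' hNq' hj2'.2
  have h : (N : ℤ) * aO N q j * j + q * (-b) = -1 := by linear_combination hb
  have h' : (N : ℤ) * aO N q' j' * j' + q' * (-b') = -1 := by linear_combination hb'
  refine Eq.trans ?_ ((eqv hN1 h h').tsum_eq (fun γ : CongruenceSubgroup.Gamma0 N =>
    @ite ℂ ((γ : SL(2, ℤ)) 1 0 = 0) (Classical.propDecidable _) (ipH (coneY ρ N q ((aO N q j : ℝ) / q) Y)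
      ((coneY ρ N q' ((aO N q' j' : ℝ) / q') Y) ∣[(2 : ℤ)] (γ : SL(2, ℤ)))) 0))
  refine tsum_congr fun γ => ?_
  rw [ip_eq hev hN1 hq1 hq1' h h' Y γ]
  by_cases hB : Bsh (γ : SL(2, ℤ)) q j q' j'
  · rw [if_pos hB, if_pos ((eqv_bsh hN1 h h' γ).mpr hB)]
  · rw [if_neg hB, if_neg (fun hh => hB ((eqv_bsh hN1 h h' γ).mp hh))]

theorem vla : type_of% @vla_pr := @vla_pr

end Pool.Agent.LSP
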