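import Pool.Agent.Lib_helper41.LSP.DefsG
import Pool.Agent.Lib_helper41.LSPG.DIG
import Pool.Agent.Lib_helper41.LSPG.GHF
import Pool.Agent.Lib_helper41.LSPG.NSL
import Pool.Agent.Lib_helper41.LSPG.NSO
import Pool.Agent.Lib_helper41.LSPG.PAE
import Pool.Agent.Lib_helper41.LSPG.SPL
import Pool.Agent.Lib_helper41.LSPG.VLA

namespace Pool.Agent.LSP

open Pool.Agent.LEV Pool.Agent.LVB Pool.Agent.KSL
open Pool.Agent.FG61 (mu phi cc ff AA Lam)
open Complex MeasureTheory Filter Topology UpperHalfPlane ModularGroup ProbabilityTheory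
open scoped MatrixGroups Modular ENNReal ModularForm ComplexConjugate ContDiff

/-- the kernel function -/
noncomputable def PPL_f (ρ : ℝ → ℝ) (t : ℝ) : ℂ := (ρ t : ℂ) * (1 - (t : ℂ) * Complex.I)

theorem PPL_f_cont {T : ℝ} {ρ : ℝ → ℝ} (hρ : KerL T ρ) : Continuous (PPL_f ρ) := by
  have := hρ.cont
  unfold PPL_f
  fun_prop

theorem PPL_f_supp {T : ℝ} {ρ : ℝ → ℝ} (hρ : KerL T ρ) {t : ℝ} (ht : T < |t|) : PPL_f ρ t = 0 := by
  unfold PPL_f
  rw [hρ.supp t ht]
  simp

theorem PPL_f_cs {T : ℝ} {ρ : ℝ → ℝ} (hρ : KerL T ρ) : HasCompactSupport (PPL_f ρ) := by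
  refine HasCompactSupport.intro (isCompact_Icc (a := -T) (b := T)) ?_
  intro t ht
  apply PPL_f_supp hρ
  by_contra h
  exact ht (abs_le.1 (not_lt.1 h))

theorem PPL_f_int {T : ℝ} {ρ : ℝ → ℝ} (hρ : KerL T ρ) : Integrable (PPL_f ρ) :=
  (PPL_f_cont hρ).integrable_of_hasCompactSupport (PPL_f_cs hρ)

theorem PPL_norm_e (u t : ℝ) : ‖cexp (-(2 * Real.pi * u * t : ℝ) * Complex.I)‖ = 1 := by
  rw [← Complex.ofReal_neg, Complex.norm_exp_ofReal_mul_I]

theorem PPL_kh (ρ : ℝ → ℝ) (u : ℝ) : kh ρ u =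
    ∫ t : ℝ, PPL_f ρ t * cexp (-(2 * Real.pi * u * t : ℝ) * Complex.I) := rfl

theorem PPL_cont {T : ℝ} {ρ : ℝ → ℝ} (hρ : KerL T ρ) : Continuous (kh ρ) := by
  have h : kh ρ = fun u => ∫ t : ℝ, PPL_f ρ t * cexp (-(2 * Real.pi * u * t : ℝ) * Complex.I) := by
    funext u
    exact PPL_kh ρ u
  rw [h]
  refine continuous_of_dominated (bound := fun t => ‖PPL_f ρ t‖) ?_ ?_ (PPL_f_int hρ).norm ?_
  · intro u
    have := PPL_f_cont hρ
    refine Continuous.aestronglyMeasurable ?_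
    fun_prop
  · intro u
    refine Eventually.of_forall ?_
    intro t
    rw [norm_mul, PPL_norm_e, mul_one]
  · refine Eventually.of_forall ?_
    intro t
    fun_prop

/-- the kernel function is Lipschitz near its support -/
theorem PPL_lip {T : ℝ} {ρ : ℝ → ℝ} (hρ : KerL T ρ) : ∃ K : ℝ, 0 < K ∧
    ∀ t h : ℝ, |h| ≤ 1 → ‖PPL_f ρ t - PPL_f ρ (t + h)‖ ≤ K * |h| := by
  obtain ⟨L, hL⟩ := hρ.lip
  have hL0 : 0 ≤ L := by
    have := hL 1 0
    rw [sub_zero, abs_one, mul_one] at this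
    exact (abs_nonneg _).trans this
  have hT := hρ.T1
  have hbd : ∀ t, |ρ t| ≤ L * (2 * T + 2) := by
    intro t
    by_cases ht : T < |t|
    · rw [hρ.supp t ht, abs_zero]
      positivity
    · have h1 := hL t (T + 1)
      rw [hρ.supp (T + 1) (by rw [abs_of_pos (by linarith)]; linarith), sub_zero] at h1
      refine h1.trans (mul_le_mul_of_nonneg_left ?_ hL0)
      have h2 := abs_le.1 (not_lt.1 ht)
      rw [abs_le]
      constructor <;> linarith [h2.1, h2.2]
  refine ⟨L * (T + 4) + L * (2 * T + 2) + 1, by positivity, ?_⟩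
  intro t h hh
  by_cases ht : T + 2 < |t|
  · have h1 : T < |t + h| := by
      have := abs_sub_abs_le_abs_sub t (-h)
      rw [abs_neg, sub_neg_eq_add] at this
      linarith
    rw [PPL_f_supp hρ h1, PPL_f_supp hρ (by linarith), sub_zero, norm_zero]
    positivity
  · have ht' := not_lt.1 ht
    have e : PPL_f ρ t - PPL_f ρ (t + h) = ((ρ t - ρ (t + h) : ℝ) : ℂ) * (1 - (t : ℂ) * Complex.I) +
        (ρ (t + h) : ℂ) * ((h : ℂ) * Complex.I) := by
      unfold PPL_f
      push_cast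
      ring
    rw [e]
    refine (norm_add_le _ _).trans ?_
    have n1 : ‖(1 - (t : ℂ) * Complex.I)‖ ≤ T + 4 := by
      refine (norm_sub_le _ _).trans ?_
      rw [norm_one, norm_mul, Complex.norm_I, mul_one, Complex.norm_real, Real.norm_eq_abs]
      linarith
    have n2 : ‖((ρ t - ρ (t + h) : ℝ) : ℂ)‖ ≤ L * |h| := by
      rw [Complex.norm_real, Real.norm_eq_abs]
      refine (hL _ _).trans ?_
      have : t - (t + h) = -h := by ring
      rw [this, abs_neg]
    have n3 : ‖(ρ (t + h) : ℂ) * ((h : ℂ) * Complex.I)‖ ≤ L * (2 * T + 2) * |h| := by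
      rw [norm_mul, norm_mul, Complex.norm_I, mul_one, Complex.norm_real, Real.norm_eq_abs,
        Complex.norm_real, Real.norm_eq_abs]
      exact mul_le_mul_of_nonneg_right (hbd _) (abs_nonneg _)
    rw [norm_mul]
    have n4 : ‖((ρ t - ρ (t + h) : ℝ) : ℂ)‖ * ‖(1 - (t : ℂ) * Complex.I)‖ ≤
        L * |h| * (T + 4) := mul_le_mul n2 n1 (norm_nonneg _) (by positivity)
    have := abs_nonneg h
    nlinarith

theorem kh_dec_pr {T : ℝ} {ρ : ℝ → ℝ} (hρ : KerL T ρ) : ∃ C : ℝ, 0 < C ∧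
    (∀ u, ‖kh ρ u‖ ≤ C) ∧ ∀ u : ℝ, u ≠ 0 → ‖kh ρ u‖ ≤ C / |u| := by
  obtain ⟨K, hK, hl⟩ := PPL_lip hρ
  have hT := hρ.T1
  set I0 : ℝ := ∫ t : ℝ, ‖PPL_f ρ t‖ with hI0
  have hI00 : 0 ≤ I0 := integral_nonneg (fun t => norm_nonneg _)
  have hb : ∀ u, ‖kh ρ u‖ ≤ I0 := by
    intro u
    rw [PPL_kh]
    refine (norm_integral_le_integral_norm _).trans (le_of_eq ?_)
    congr 1
    funext t
    rw [norm_mul, PPL_norm_e, mul_one]
  refine ⟨I0 + K * (T + 2) + 1, by positivity, ?_, ?_⟩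
  · intro u
    have := hb u
    have h2 : 0 ≤ K * (T + 2) := by positivity
    linarith
  · intro u hu
    have hu' : 0 < |u| := abs_pos.2 hu
    rw [le_div_iff₀ hu']
    have h2 : 0 ≤ K * (T + 2) := by positivity
    rcases lt_or_ge |u| (1 / 2) with h | h
    · have := hb u
      nlinarith [norm_nonneg (kh ρ u)]
    · -- half a period
      set h0 : ℝ := 1 / (2 * u) with hh0
      have hh1 : |h0| ≤ 1 := by
        rw [hh0, abs_div, abs_one, abs_mul, abs_of_pos (show (0 : ℝ) < 2 by norm_num),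
          div_le_one (by positivity)]
        linarith
      have hh2 : |h0| = 1 / (2 * |u|) := by
        rw [hh0, abs_div, abs_one, abs_mul, abs_of_pos (show (0 : ℝ) < 2 by norm_num)]
      have e1 : kh ρ u = ∫ t : ℝ, PPL_f ρ (t + h0) *
          cexp (-(2 * Real.pi * u * (t + h0) : ℝ) * Complex.I) := by
        rw [PPL_kh]
        exact (integral_add_right_eq_self
          (fun t => PPL_f ρ t * cexp (-(2 * Real.pi * u * t : ℝ) * Complex.I)) h0).symm
      have e2 : ∀ t : ℝ, cexp (-(2 * Real.pi * u * (t + h0) : ℝ) * Complex.I) =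
          -cexp (-(2 * Real.pi * u * t : ℝ) * Complex.I) := by
        intro t
        have : (-(2 * Real.pi * u * (t + h0) : ℝ) : ℂ) * Complex.I =
            -(2 * Real.pi * u * t : ℝ) * Complex.I + -(Real.pi * Complex.I) := by
          have e3 : 2 * Real.pi * u * (t + h0) = 2 * Real.pi * u * t + Real.pi := by
            rw [hh0]
            field_simp
          rw [e3]
          push_cast
          ring
        rw [this, Complex.exp_add, Complex.exp_neg (Real.pi * Complex.I), Complex.exp_pi_mul_I]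
        norm_num
      simp_rw [e2, mul_neg] at e1
      rw [integral_neg] at e1
      have i1 : Integrable (fun t : ℝ => PPL_f ρ t *
          cexp (-(2 * Real.pi * u * t : ℝ) * Complex.I)) := by
        refine (PPL_f_int hρ).mono ?_ ?_
        · have := PPL_f_cont hρ
          refine Continuous.aestronglyMeasurable ?_
          fun_prop
        · refine Eventually.of_forall ?_
          intro t
          rw [norm_mul, PPL_norm_e, mul_one]
      have i2 : Integrable (fun t : ℝ => PPL_f ρ (t + h0) *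
          cexp (-(2 * Real.pi * u * t : ℝ) * Complex.I)) := by
        refine ((PPL_f_int hρ).comp_add_right h0).mono ?_ ?_
        · have := PPL_f_cont hρ
          refine Continuous.aestronglyMeasurable ?_
          fun_prop
        · refine Eventually.of_forall ?_
          intro t
          rw [norm_mul, PPL_norm_e, mul_one]
      have e4 : 2 * kh ρ u = ∫ t : ℝ, (PPL_f ρ t - PPL_f ρ (t + h0)) *
          cexp (-(2 * Real.pi * u * t : ℝ) * Complex.I) := by
        have : 2 * kh ρ u = kh ρ u + kh ρ u := by ring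
        rw [this]
        nth_rw 2 [e1]
        rw [PPL_kh, ← sub_eq_add_neg, ← integral_sub i1 i2]
        congr 1
        funext t
        ring
      have e5 : ‖2 * kh ρ u‖ ≤ K * |h0| * (2 * (T + 2)) := by
        rw [e4]
        have hz : ∀ t : ℝ, t ∉ Set.Icc (-(T + 2)) (T + 2) →
            (PPL_f ρ t - PPL_f ρ (t + h0)) *
              cexp (-(2 * Real.pi * u * t : ℝ) * Complex.I) = 0 := by
          intro t ht
          have ht' : T + 2 < |t| := by
            by_contra h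
            exact ht (abs_le.1 (not_lt.1 h))
          have h1 : T < |t + h0| := by
            have := abs_sub_abs_le_abs_sub t (-h0)
            rw [abs_neg, sub_neg_eq_add] at this
            linarith
          rw [PPL_f_supp hρ h1, PPL_f_supp hρ (by linarith), sub_zero, zero_mul]
        rw [← setIntegral_eq_integral_of_forall_compl_eq_zero hz]
        have h6 := norm_setIntegral_le_of_norm_le_const (μ := volume)
          (s := Set.Icc (-(T + 2)) (T + 2)) (C := K * |h0|)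
          (f := fun t : ℝ => (PPL_f ρ t - PPL_f ρ (t + h0)) *
              cexp (-(2 * Real.pi * u * t : ℝ) * Complex.I))
          (by rw [Real.volume_Icc]; exact ENNReal.ofReal_lt_top) (by
            intro t _
            rw [norm_mul, PPL_norm_e, mul_one]
            exact hl t h0 hh1)
        refine h6.trans (le_of_eq ?_)
        rw [Measure.real, Real.volume_Icc, ENNReal.toReal_ofReal (by linarith)]
        ring
      rw [norm_mul, hh2] at e5
      have e6 : ‖(2 : ℂ)‖ = 2 := by norm_num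
      rw [e6] at e5
      have e7 : K * (1 / (2 * |u|)) * (2 * (T + 2)) = K * (T + 2) / |u| := by
        field_simp
      rw [e7, le_div_iff₀ hu'] at e5
      have h5 : 0 ≤ ‖kh ρ u‖ * |u| := by positivity
      nlinarith

theorem PPL_ww (E : ℕ) (w : ℕ → ℝ) (n : ℕ) :
    |WW E w n| ≤ ∑ q ∈ Finset.Icc 1 E, |w q| * ∑ d ∈ q.divisors, (d : ℝ) := by
  unfold WW
  refine (Finset.abs_sum_le_sum_abs _ _).trans ?_
  refine Finset.sum_le_sum ?_
  intro q hq
  rw [abs_mul]
  refine mul_le_mul_of_nonneg_left ?_ (abs_nonneg _)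
  unfold cc
  refine (Finset.abs_sum_le_sum_abs _ _).trans ?_
  refine (Finset.sum_le_sum (g := fun d : ℕ => (d : ℝ)) ?_).trans
    (Finset.sum_le_sum_of_subset_of_nonneg ?_ ?_)
  · intro d _
    rw [abs_mul, abs_of_nonneg (Nat.cast_nonneg d)]
    have h1 : |mu (q / d)| ≤ 1 := by
      have := ArithmeticFunction.abs_moebius_le_one (n := q / d)
      unfold mu
      rw [← Int.cast_abs]
      exact_mod_cast this
    calc (d : ℝ) * |mu (q / d)| ≤ d * 1 := mul_le_mul_of_nonneg_left h1 (Nat.cast_nonneg d)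
      _ = d := mul_one _
  · have hq1 := (Finset.mem_Icc.1 hq).1
    exact Nat.divisors_subset_of_dvd (by omega) (Nat.gcd_dvd_left _ _)
  · intro d _ _
    positivity

theorem pars_int_pr {T : ℝ} {ρ : ℝ → ℝ} (hρ : KerL T ρ) (E : ℕ) (w : ℕ → ℝ) {y₁ : ℝ} (h1 : 0 < y₁) :
    IntegrableOn (fun y : ℝ => ∑' n : ℕ, (‖kh ρ ((n + 1) * y)‖ ^ 2 +
      ‖kh ρ (-((n + 1) * y))‖ ^ 2) * WW E w (n + 1) ^ 2) (Set.Ioi y₁) := by
  obtain ⟨C, hC, -, hd⟩ := kh_dec_pr hρ
  set W : ℝ := ∑ q ∈ Finset.Icc 1 E, |w q| * ∑ d ∈ q.divisors, (d : ℝ) with hW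
  have hW0 : 0 ≤ W := Finset.sum_nonneg (fun q _ => mul_nonneg (abs_nonneg _)
    (Finset.sum_nonneg (fun d _ => Nat.cast_nonneg d)))
  have hww : ∀ n, WW E w n ^ 2 ≤ W ^ 2 := by
    intro n
    rw [← sq_abs (WW E w n)]
    exact pow_le_pow_left₀ (abs_nonneg _) (PPL_ww E w n) 2
  have hterm : ∀ (n : ℕ) (y : ℝ), 0 < y → ‖(‖kh ρ ((n + 1) * y)‖ ^ 2 +
      ‖kh ρ (-((n + 1) * y))‖ ^ 2) * WW E w (n + 1) ^ 2‖ ≤
      2 * C ^ 2 * W ^ 2 * (1 / ((n : ℝ) + 1) ^ 2) * (1 / y ^ 2) := by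
    intro n y hy
    have hp : 0 < ((n : ℝ) + 1) * y := by positivity
    have k1 := hd (((n : ℝ) + 1) * y) hp.ne'
    have k2 := hd (-(((n : ℝ) + 1) * y)) (neg_ne_zero.2 hp.ne')
    rw [abs_neg] at k2
    rw [abs_of_pos hp] at k1 k2
    have k3 := pow_le_pow_left₀ (norm_nonneg _) k1 2
    have k4 := pow_le_pow_left₀ (norm_nonneg _) k2 2
    rw [Real.norm_eq_abs, abs_of_nonneg (by positivity)]
    calc (‖kh ρ ((n + 1) * y)‖ ^ 2 + ‖kh ρ (-((n + 1) * y))‖ ^ 2) * WW E w (n + 1) ^ 2 ≤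
        ((C / (((n : ℝ) + 1) * y)) ^ 2 + (C / (((n : ℝ) + 1) * y)) ^ 2) * W ^ 2 :=
          mul_le_mul (add_le_add k3 k4) (hww _) (sq_nonneg _) (by positivity)
      _ = _ := by
          field_simp
          ring
  have hsum : Summable (fun n : ℕ => 1 / ((n : ℝ) + 1) ^ 2) := by
    have := (summable_nat_add_iff 1).2 (Real.summable_one_div_nat_pow.2 (by norm_num : 1 < 2))
    refine this.congr ?_
    intro n
    push_cast
    rfl
  have hkc := PPL_cont hρ
  have hcont : ContinuousOn (fun y : ℝ => ∑' n : ℕ, (‖kh ρ ((n + 1) * y)‖ ^ 2 +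
      ‖kh ρ (-((n + 1) * y))‖ ^ 2) * WW E w (n + 1) ^ 2) (Set.Ioi y₁) := by
    refine continuousOn_tsum (u := fun n : ℕ => 2 * C ^ 2 * W ^ 2 * (1 / ((n : ℝ) + 1) ^ 2) *
      (1 / y₁ ^ 2)) ?_ ?_ ?_
    · intro n
      refine Continuous.continuousOn ?_
      fun_prop
    · exact (hsum.mul_left _).mul_right _
    · intro n y hy
      have hy' : y₁ < y := hy
      refine (hterm n y (h1.trans hy')).trans ?_
      have : 1 / y ^ 2 ≤ 1 / y₁ ^ 2 := by
        apply one_div_le_one_div_of_le (by positivity)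
        exact pow_le_pow_left₀ h1.le hy'.le 2
      exact mul_le_mul_of_nonneg_left this (by positivity)
  have hI : IntegrableOn (fun y : ℝ => (2 * C ^ 2 * W ^ 2 * ∑' n : ℕ, (1 / ((n : ℝ) + 1) ^ 2)) *
      (1 / y ^ 2)) (Set.Ioi y₁) := by
    refine Integrable.const_mul ?_ _
    have := integrableOn_Ioi_rpow_of_lt (show (-2 : ℝ) < -1 by norm_num) h1
    refine this.congr_fun ?_ measurableSet_Ioi
    intro y hy
    have hy' : 0 < y := h1.trans hy
    simp only
    rw [Real.rpow_neg hy'.le, one_div]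
    norm_cast
  refine Integrable.mono' hI (hcont.aestronglyMeasurable measurableSet_Ioi) ?_
  refine (ae_restrict_iff' measurableSet_Ioi).2 (Eventually.of_forall ?_)
  intro y hy
  have hy' : 0 < y := h1.trans hy
  have hs1 : Summable (fun n : ℕ => 2 * C ^ 2 * W ^ 2 * (1 / ((n : ℝ) + 1) ^ 2) * (1 / y ^ 2)) :=
    (hsum.mul_left _).mul_right _
  have h3 := tsum_of_norm_bounded hs1.hasSum (fun n => hterm n y hy')
  refine h3.trans (le_of_eq ?_)
  rw [tsum_mul_right, tsum_mul_left]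

/-- the dual norm -/
theorem pp_lim_pr {T : ℝ} {ρ : ℝ → ℝ} (hρ : KerL T ρ) {B₀ : ℕ} (hB : 1 + T ^ 2 ≤ B₀) {N E : ℕ}
    (hN : N.Prime) (hE1 : 1 ≤ E) (hE : E < N) {x : ℕ → ℝ} (hx : ∀ e, x e ≠ 0 → 1 ≤ e ∧ e ≤ E)
    (h0 : ∑ e ∈ Finset.Icc 1 E, x e * sg1 e / e = 0) :
    Tendsto (fun Y : ℝ => (PP N (KY ρ N E (wX E x) Y) (KY ρ N E (wX E x) Y)).re) atTop
      (𝓝 (QN ρ T B₀ E x N / Real.pi)) := by
  have hN1 : 1 ≤ N := hN.one_lt.le
  have hNp : (0 : ℝ) < N := by exact_mod_cast hN.pos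
  set w := wX E x with hw
  have hw0 : WW E w 0 = 0 := by
    rw [hw, ww_zero_x hx, h0]
  obtain ⟨Y1, hY1⟩ := pa_eval hρ hN hE1 hE hw0
  obtain ⟨Y2, hY2⟩ := dig hρ hN hE w
  have hT := hρ.T1
  have hyo : 0 < yo T E := by
    unfold yo
    have : (0 : ℝ) < E := by exact_mod_cast hE1
    positivity
  have hpi := pars_int_pr hρ E w hyo
  have hlim1 := intervalIntegral_tendsto_integral_Ioi (yo T E) hpi tendsto_id
  have hns := ns_lim hρ hN hE w
  rw [ns_eq hρ hB hN hE hx] at hns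
  have hns2 := (Complex.continuous_re.tendsto _).comp hns
  rw [Complex.ofReal_re] at hns2
  have hlim := ((hlim1.const_mul 2).add_const (∑ q ∈ Finset.Icc 1 E, phi q * w q ^ 2 *
    (Cr ρ * (2 * Real.log (yo T E) + Real.log ((N : ℝ) * (q : ℝ) ^ 2)) + Cl ρ))).add hns2
  have e1 : 2 * (∫ y in Set.Ioi (yo T E), ∑' n : ℕ,
      (‖kh ρ ((n + 1) * y)‖ ^ 2 + ‖kh ρ (-((n + 1) * y))‖ ^ 2) * WW E w (n + 1) ^ 2) +
      (∑ q ∈ Finset.Icc 1 E, phi q * w q ^ 2 *
        (Cr ρ * (2 * Real.log (yo T E) + Real.log ((N : ℝ) * (q : ℝ) ^ 2)) + Cl ρ)) +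
      OD ρ B₀ E x N / Real.pi = QN ρ T B₀ E x N / Real.pi := by
    unfold QN sh
    have := Real.pi_pos.ne'
    rw [← hw]
    field_simp
  rw [e1] at hlim
  refine hlim.congr' ?_
  filter_upwards [eventually_ge_atTop Y1, eventually_ge_atTop Y2, eventually_gt_atTop 0] with
    Y h1 h2 h3
  rw [pp_split hρ hN1 E w Y, vla hρ hN hE w Y, hY1 Y h1, hY2 Y h2]
  simp only [Function.comp_apply, Complex.add_re, Complex.sub_re, Complex.ofReal_re, id]
  have e2 : ∀ q ∈ Finset.Icc 1 E,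
      phi q * w q ^ 2 * (Cr ρ * (2 * Real.log (yo T E) + Real.log ((N : ℝ) * (q : ℝ) ^ 2)) + Cl ρ) =
      2 * (phi q * w q ^ 2 *
          (Cr ρ * (Real.log (yo T E) + Real.log ((N : ℝ) * (q : ℝ) ^ 2 * Y)) + Cl ρ)) -
      phi q * w q ^ 2 *
        (Cr ρ * Real.log (Y ^ 2 * ((N : ℝ) * (q : ℝ) ^ 2)) + Cl ρ) := by
    intro q hq
    have hq0 : (0 : ℝ) < q := by exact_mod_cast (Finset.mem_Icc.1 hq).1
    have hp : (0 : ℝ) < (N : ℝ) * (q : ℝ) ^ 2 := by positivity
    rw [Real.log_mul hp.ne' h3.ne', Real.log_mul (by positivity) hp.ne', Real.log_pow]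
    push_cast
    ring
  rw [Finset.sum_congr rfl e2, Finset.sum_sub_distrib, ← Finset.mul_sum]
  ring

theorem kh_dec : type_of% @kh_dec_pr := @kh_dec_pr
theorem pars_int : type_of% @pars_int_pr := @pars_int_pr
theorem pp_lim : type_of% @pp_lim_pr := @pp_lim_pr

end Pool.Agent.LSP
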