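import Pool.Agent.Lib_helper41.LSP.DefsG
import Pool.Agent.Lib_helper68.LEV.HPO
import Pool.Agent.Lib_helper68.LEV.EIA
import Pool.Agent.Lib_helper68.LEV.PET
import Pool.Agent.Lib_helper41.LSPG.BDF
import Pool.Agent.Lib_helper41.LSPG.BDG
import Pool.Agent.Lib_helper41.LSPG.BES
import Pool.Agent.Lib_helper41.LSPG.FBE
import Pool.Agent.Lib_helper41.LSPG.FUN
import Pool.Agent.Lib_helper41.LSPG.GHF
import Pool.Agent.Lib_helper41.LSPG.KSC
import Pool.Agent.Lib_helper41.LSPG.KSI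
import Pool.Agent.Lib_helper41.LSPG.KSN
import Pool.Agent.Lib_helper41.LSPG.KSX
import Pool.Agent.Lib_helper41.LSPG.PPL
import Pool.Agent.Lib_helper41.LSPG.SPL

namespace Pool.Agent.LSP

open Pool.Agent.LEV Pool.Agent.LVB Pool.Agent.KSL
open Pool.Agent.FG61 (mu phi cc ff AA Lam)
open Complex MeasureTheory Filter Topology UpperHalfPlane ModularGroup ProbabilityTheory
open scoped MatrixGroups Modular ENNReal ModularForm ComplexConjugate ContDiff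

theorem GFI_sum {N : ℕ} [Fact N.Prime] (f : S2 N) {α : Type} (I : Finset α) (c : α → ℝ)
    (K : α → ℍ → ℂ) (hK : ∀ a ∈ I, Bd (K a)) :
    ipH f (fun z => ∑ a ∈ I, (c a : ℂ) * K a z) = ∑ a ∈ I, (c a : ℂ) * ipH f (K a) := by
  unfold ipH
  have h1 : ∀ z : ℍ, f z * conj (∑ a ∈ I, (c a : ℂ) * K a z) * ((z.im ^ 2 : ℝ) : ℂ) =
      ∑ a ∈ I, (c a : ℂ) * (f z * conj (K a z) * ((z.im ^ 2 : ℝ) : ℂ)) := by
    intro z
    rw [map_sum, Finset.mul_sum, Finset.sum_mul]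
    refine Finset.sum_congr rfl fun a _ => ?_
    rw [map_mul, Complex.conj_ofReal]
    ring
  simp only [h1]
  rw [integral_finsetSum]
  · refine Finset.sum_congr rfl fun a _ => ?_
    rw [integral_const_mul]
  · intro a ha
    exact (bd_int_form f (hK a ha)).const_mul _

/-- the functional of the truncated kernel -/
theorem GFI_ky {T : ℝ} {ρ : ℝ → ℝ} (hρ : KerL T ρ) {N : ℕ} [Fact N.Prime] (f : S2 N) (E : ℕ)
    (w : ℕ → ℝ) (Y : ℝ) : ipH f (KY ρ N E w Y) =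
      ∑ q ∈ Finset.Icc 1 E, (w q : ℂ) * ∑ j ∈ RR q, ipH f (coneY ρ N q ((j : ℝ) / q) Y) := by
  have hN : 1 ≤ N := (Fact.out : N.Prime).one_lt.le
  have h1 : KY ρ N E w Y = fun z => ∑ p ∈ (Finset.Icc 1 E).sigma (fun q => RR q), (w p.1 : ℂ) *
      coneY ρ N p.1 ((p.2 : ℝ) / p.1) Y z := by
    funext z
    unfold KY
    rw [Finset.sum_sigma]
    refine Finset.sum_congr rfl fun q _ => ?_
    rw [Finset.mul_sum]
  rw [h1]
  rw [GFI_sum f ((Finset.Icc 1 E).sigma (fun q => RR q)) (fun p => w p.1)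
    (fun p => coneY ρ N p.1 ((p.2 : ℝ) / p.1) Y)]
  · rw [Finset.sum_sigma]
    refine Finset.sum_congr rfl fun q _ => ?_
    rw [Finset.mul_sum]
  · intro p hp
    exact coneY_bd hρ hN (Finset.mem_Icc.mp (Finset.mem_sigma.mp hp).1).1 _ _

theorem GFI_ky_lim {T : ℝ} {ρ : ℝ → ℝ} (hρ : KerL T ρ) {N : ℕ} [Fact N.Prime] {f : S2 N}
    (hf : IsNew f) {E : ℕ} (hE : E < N) {x : ℕ → ℝ} (hx : ∀ e, x e ≠ 0 → 1 ≤ e ∧ e ≤ E) :
    Tendsto (fun Y : ℝ => 2 * Real.pi * ipH f (KY ρ N E (wX E x) Y)) atTop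
      (𝓝 (Lh f * ((MX E x (la f) : ℝ) : ℂ))) := by
  simp only [GFI_ky hρ f]
  rw [mx_fun hf hE hx]
  refine Tendsto.const_mul _ (tendsto_finset_sum _ fun q hq => Tendsto.const_mul _
    (tendsto_finset_sum _ fun j hj => ?_))
  have hq' := Finset.mem_Icc.mp hq
  exact fun_lim hρ f hq'.1 (lt_of_le_of_lt hq'.2 hE) hj

theorem GFI_exp {θ : ℝ} (h0 : 0 ≤ θ) (h1 : θ ≤ 1) : Real.exp θ - 1 ≤ 2 * θ ∧ Real.exp θ ≤ 3 := by
  have h2 := Real.abs_exp_sub_one_le (x := θ) (by rw [abs_of_nonneg h0]; exact h1)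
  rw [abs_of_nonneg h0] at h2
  have h3 := (abs_le.mp h2).2
  exact ⟨h3, by linarith⟩

theorem GFI_term {C₁ yS : ℝ} (h1 : 0 < C₁) (hy : 0 < yS) {m : ℕ} (hm : 1 ≤ m)
    (hs : 4 * Real.pi * m * yS ≤ 1) {I : ℂ} (hI : ‖I - 1 / (2 * Real.pi * m)‖ ≤ C₁ * yS)
    (s W τ : ℝ) :
    2 * Real.pi * τ * (((s * (2 * Real.sqrt m) * Real.exp (4 * Real.pi * m * yS) * W : ℝ) : ℂ) *
      I).re ≤ 2 * τ * (s * W / Real.sqrt m) +
        4 * Real.pi * (3 * C₁ + 4) * yS * (|τ| * (|s| * |W| * Real.sqrt m)) := by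
  have hm' : (0 : ℝ) < m := by exact_mod_cast hm
  have hsq : 0 < Real.sqrt m := Real.sqrt_pos.mpr hm'
  have hsm : Real.sqrt m * Real.sqrt m = m := Real.mul_self_sqrt hm'.le
  set θ : ℝ := 4 * Real.pi * m * yS with hθ
  have hθ0 : 0 ≤ θ := by positivity
  obtain ⟨he1, he2⟩ := GFI_exp hθ0 hs
  have he3 : 1 ≤ Real.exp θ := Real.one_le_exp hθ0
  have hre : |I.re - 1 / (2 * Real.pi * m)| ≤ C₁ * yS := by
    have h2 := (Complex.abs_re_le_norm (I - 1 / (2 * Real.pi * m))).trans hI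
    have h3 : (I - 1 / (2 * Real.pi * m) : ℂ).re = I.re - 1 / (2 * Real.pi * m) := by
      have h4 : (1 / (2 * Real.pi * m) : ℂ) = ((1 / (2 * Real.pi * m) : ℝ) : ℂ) := by push_cast; rfl
      rw [h4, Complex.sub_re, Complex.ofReal_re]
    rwa [h3] at h2
  rw [Complex.re_ofReal_mul]
  have hkey : |Real.exp θ * I.re - 1 / (2 * Real.pi * m)| ≤ (3 * C₁ + 4) * yS := by
    have e1 : Real.exp θ * I.re - 1 / (2 * Real.pi * m) =
        Real.exp θ * (I.re - 1 / (2 * Real.pi * m)) + (Real.exp θ - 1) * (1 / (2 * Real.pi * m)) := by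
      ring
    rw [e1]
    refine (abs_add_le _ _).trans ?_
    rw [abs_mul, abs_mul, abs_of_pos (Real.exp_pos θ), abs_of_nonneg (by linarith : 0 ≤ Real.exp θ - 1),
      abs_of_pos (by positivity : (0 : ℝ) < 1 / (2 * Real.pi * m))]
    have e2 : Real.exp θ * |I.re - 1 / (2 * Real.pi * m)| ≤ 3 * (C₁ * yS) :=
      mul_le_mul he2 hre (abs_nonneg _) (by norm_num)
    have e3 : (Real.exp θ - 1) * (1 / (2 * Real.pi * m)) ≤ 2 * θ * (1 / (2 * Real.pi * m)) :=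
      mul_le_mul_of_nonneg_right he1 (by positivity)
    have e4 : 2 * θ * (1 / (2 * Real.pi * m)) = 4 * yS := by
      rw [hθ]
      field_simp
    rw [e4] at e3
    nlinarith
  have hid : 2 * Real.pi * τ * (s * (2 * Real.sqrt m) * Real.exp θ * W * I.re) -
      2 * τ * (s * W / Real.sqrt m) = 4 * Real.pi * τ * (s * W) * Real.sqrt m *
        (Real.exp θ * I.re - 1 / (2 * Real.pi * m)) := by
    have e5 : s * W / Real.sqrt m = s * W * Real.sqrt m / m := by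
      rw [div_eq_div_iff hsq.ne' hm'.ne', mul_assoc (s * W), hsm]
    rw [e5]
    field_simp
    ring
  have hfin : 4 * Real.pi * τ * (s * W) * Real.sqrt m *
      (Real.exp θ * I.re - 1 / (2 * Real.pi * m)) ≤
      4 * Real.pi * (3 * C₁ + 4) * yS * (|τ| * (|s| * |W| * Real.sqrt m)) := by
    refine (le_abs_self _).trans ?_
    rw [abs_mul, abs_mul, abs_mul, abs_mul, abs_mul s W,
      abs_of_pos (by positivity : (0 : ℝ) < 4 * Real.pi), abs_of_pos hsq]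
    calc 4 * Real.pi * |τ| * (|s| * |W|) * Real.sqrt m * |Real.exp θ * I.re - 1 / (2 * Real.pi * m)|
        ≤ 4 * Real.pi * |τ| * (|s| * |W|) * Real.sqrt m * ((3 * C₁ + 4) * yS) :=
          mul_le_mul_of_nonneg_left hkey (by positivity)
      _ = _ := by ring
  linarith

theorem geo_main_pr {T : ℝ} {ρ : ℝ → ℝ} (hρ : KerL T ρ) {B₀ : ℕ} (hB : 1 + T ^ 2 ≤ B₀) :
    ∃ C : ℝ, 1 ≤ C ∧ ∀ (N : ℕ) [Fact N.Prime] (E m₀ : ℕ), 1 ≤ E → 1 ≤ m₀ → C * m₀ * E ≤ N →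
    ∀ x : ℕ → ℝ, (∀ e, x e ≠ 0 → 1 ≤ e ∧ e ≤ E) → ∑ e ∈ Finset.Icc 1 E, x e * sg1 e / e = 0 →
    ∀ {ι : Type} [Fintype ι] (f : ι → S2 N), Function.Injective f → (∀ i, IsNew (f i)) →
    ∀ s : ℕ → ℝ, (∀ m, s m ≠ 0 → 1 ≤ m ∧ m ≤ m₀) → ∀ τ : ℝ,
      ∑ i, om (f i) * ((Lh (f i)).re * MX E x (la (f i)) +
          τ * ∑ m ∈ Finset.Icc 1 m₀, s m * Um m (la (f i))) ^ 2 ≤
        QN ρ T B₀ E x N + 2 * τ * ∑ m ∈ Finset.Icc 1 m₀, s m * WW E (wX E x) m / Real.sqrt m +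
          τ ^ 2 * ∑ m ∈ Finset.Icc 1 m₀, s m ^ 2 +
          C * (E / N) * (|τ| * ∑ m ∈ Finset.Icc 1 m₀, |s m| * |WW E (wX E x) m| * Real.sqrt m +
            τ ^ 2 * ∑ m ∈ Finset.Icc 1 m₀, s m ^ 2 * m) := by
  obtain ⟨C₁, hC1, herr⟩ := kh_laplace_err hρ
  have hT : 1 ≤ T := hρ.T1
  have hpi := Real.pi_gt_three
  set C : ℝ := 4 * Real.pi * (3 * C₁ + 4) * (T + 2) with hC
  have hCpi : 4 * Real.pi * (T + 2) ≤ C := by
    rw [hC]
    have : 4 * Real.pi * 1 * (T + 2) ≤ 4 * Real.pi * (3 * C₁ + 4) * (T + 2) := by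
      gcongr
      linarith
    linarith
  have hC36 : 36 ≤ 4 * Real.pi * (T + 2) := by nlinarith
  refine ⟨C, by linarith, ?_⟩
  intro N hNF E m₀ hE1 hm₀ hCN x hx hx0 ι _ f hi hn s hs τ
  have hNp : N.Prime := hNF.out
  have hN1 : 1 ≤ N := hNp.one_lt.le
  have hNpos : (0 : ℝ) < N := by exact_mod_cast hNp.pos
  have hE' : (1 : ℝ) ≤ E := by exact_mod_cast hE1
  have hm' : (1 : ℝ) ≤ m₀ := by exact_mod_cast hm₀
  have hbig : 36 * (m₀ : ℝ) * E ≤ N := by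
    refine le_trans ?_ hCN
    have : (36 : ℝ) ≤ C := by linarith
    gcongr
  have hEN : E < N := by
    have : (E : ℝ) < N := by nlinarith
    exact_mod_cast this
  have hmN : m₀ < N := by
    have : (m₀ : ℝ) < N := by nlinarith
    exact_mod_cast this
  set yS : ℝ := (T + 2) * E / N with hyS
  have hyS0 : 0 < yS := by positivity
  have hyS1 : 1 / (N : ℝ) ≤ yS := by
    rw [hyS]
    gcongr
    nlinarith
  have hsmall : ∀ m : ℕ, m ∈ Finset.Icc 1 m₀ → 4 * Real.pi * m * yS ≤ 1 := by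
    intro m hm
    have hm2 : (m : ℝ) ≤ m₀ := by exact_mod_cast (Finset.mem_Icc.mp hm).2
    rw [hyS, mul_div_assoc', div_le_one hNpos]
    calc 4 * Real.pi * m * ((T + 2) * E) ≤ 4 * Real.pi * m₀ * ((T + 2) * E) := by gcongr
      _ = 4 * Real.pi * (T + 2) * m₀ * E := by ring
      _ ≤ C * m₀ * E := by gcongr
      _ ≤ N := hCN
  set w : ℕ → ℝ := wX E x with hw
  -- the inequality for each `Y`
  set L : ℝ → ℝ := fun Y => ∑ i, om (f i) * ‖2 * Real.pi * ipH (f i) (KY ρ N E w Y) +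
    τ * (2 * Real.pi * ipH (f i) (KS m₀ s yS Y))‖ ^ 2 with hL
  set R : ℝ → ℝ := fun Y => Real.pi * ((PP N (KY ρ N E w Y) (KY ρ N E w Y)).re +
    2 * τ * (PP N (KS m₀ s yS Y) (KY ρ N E w Y)).re +
    τ ^ 2 * (PP N (KS m₀ s yS Y) (KS m₀ s yS Y)).re) with hR
  have hLR : ∀ Y, L Y ≤ R Y := by
    intro Y
    have hb1 : Bd (KY ρ N E w Y) := ky_bd hρ hN1 E w Y
    have hb2 : Bd (KS m₀ s yS Y) := ks_bd m₀ s hyS0 Y
    have h1 := fam_bessel (N := N) (bd_add hb1 hb2 (τ : ℂ)) f hi hn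
    rw [pp_expand hb1 hb2] at h1
    refine le_trans (le_of_eq ?_) h1
    rw [hL]
    refine Finset.sum_congr rfl fun i _ => ?_
    rw [ip_add hb1 hb2]
    congr 3
    ring
  have hLlim : Tendsto L atTop (𝓝 (∑ i, om (f i) * ‖Lh (f i) * ((MX E x (la (f i)) : ℝ) : ℂ) +
      τ * ((∑ m ∈ Finset.Icc 1 m₀, s m * la (f i) m : ℝ) : ℂ)‖ ^ 2)) := by
    refine tendsto_finset_sum _ fun i _ => Tendsto.const_mul _ ?_
    refine (Tendsto.norm ?_).pow 2
    exact (GFI_ky_lim hρ (hn i) hEN hx).add ((ks_coef (hn i) hs hyS0).const_mul _)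
  have hRlim : Tendsto R atTop (𝓝 (Real.pi * (QN ρ T B₀ E x N / Real.pi +
      2 * τ * (∑ m ∈ Finset.Icc 1 m₀,
        ((s m * (2 * Real.sqrt m) * Real.exp (4 * Real.pi * m * yS) * WW E w m : ℝ) : ℂ) *
          ∫ y in Set.Ioi yS, ((Real.exp (-2 * Real.pi * m * y) : ℝ) : ℂ) * kh ρ (-(m * y))).re +
      τ ^ 2 * (1 / Real.pi * ∑ m ∈ Finset.Icc 1 m₀, s m ^ 2 *
        Real.exp (4 * Real.pi * m * yS))))) := by
    refine Tendsto.const_mul _ ?_
    refine ((pp_lim hρ hB hNp hE1 hEN hx hx0).add (Tendsto.const_mul _ ?_)).add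
      (Tendsto.const_mul _ (ks_norm hs hyS1))
    exact (Complex.continuous_re.tendsto _).comp (ks_cross hρ hE1 hEN w hs (le_refl _))
  have hmain := le_of_tendsto_of_tendsto' hLlim hRlim hLR
  -- the left hand side
  have hleft : ∑ i, om (f i) * ((Lh (f i)).re * MX E x (la (f i)) +
          τ * ∑ m ∈ Finset.Icc 1 m₀, s m * Um m (la (f i))) ^ 2 ≤
      ∑ i, om (f i) * ‖Lh (f i) * ((MX E x (la (f i)) : ℝ) : ℂ) +
      τ * ((∑ m ∈ Finset.Icc 1 m₀, s m * la (f i) m : ℝ) : ℂ)‖ ^ 2 := by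
    refine Finset.sum_le_sum fun i _ => ?_
    have hom : 0 ≤ om (f i) := by
      unfold om
      have := nr_pos (new_ne_zero_pr (hn i))
      positivity
    refine mul_le_mul_of_nonneg_left ?_ hom
    have hum : ∑ m ∈ Finset.Icc 1 m₀, s m * Um m (la (f i)) =
        ∑ m ∈ Finset.Icc 1 m₀, s m * la (f i) m := by
      refine Finset.sum_congr rfl fun m hm => ?_
      have hm2 := Finset.mem_Icc.mp hm
      rw [um_new_pr (hn i) (new_real_pr (hn i)) (by omega) (Nat.Coprime.symm ((Nat.Prime.coprime_iff_not_dvd hNp).mpr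
        (Nat.not_dvd_of_pos_of_lt (by omega) (by omega))))]
    rw [hum]
    set A : ℂ := Lh (f i) * ((MX E x (la (f i)) : ℝ) : ℂ) +
      τ * ((∑ m ∈ Finset.Icc 1 m₀, s m * la (f i) m : ℝ) : ℂ) with hA
    have hAre : A.re = (Lh (f i)).re * MX E x (la (f i)) +
        τ * ∑ m ∈ Finset.Icc 1 m₀, s m * la (f i) m := by
      rw [hA, Complex.add_re, Complex.re_mul_ofReal, Complex.re_ofReal_mul, Complex.ofReal_re]
    rw [← hAre, ← sq_abs A.re]
    exact pow_le_pow_left₀ (abs_nonneg _) (Complex.abs_re_le_norm A) 2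
  refine hleft.trans (hmain.trans ?_)
  -- the right hand side
  rw [Complex.re_sum]
  have hpi0 : Real.pi ≠ 0 := Real.pi_pos.ne'
  have hcross : ∀ m ∈ Finset.Icc 1 m₀, 2 * Real.pi * τ *
      (((s m * (2 * Real.sqrt m) * Real.exp (4 * Real.pi * m * yS) * WW E w m : ℝ) : ℂ) *
          ∫ y in Set.Ioi yS, ((Real.exp (-2 * Real.pi * m * y) : ℝ) : ℂ) * kh ρ (-(m * y))).re ≤
      2 * τ * (s m * WW E w m / Real.sqrt m) +
        4 * Real.pi * (3 * C₁ + 4) * yS * (|τ| * (|s m| * |WW E w m| * Real.sqrt m)) := by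
    intro m hm
    exact GFI_term hC1 hyS0 (Finset.mem_Icc.mp hm).1 (hsmall m hm)
      (herr m (Finset.mem_Icc.mp hm).1 yS hyS0) _ _ _
  have hdiag : ∀ m ∈ Finset.Icc 1 m₀, τ ^ 2 * (s m ^ 2 * Real.exp (4 * Real.pi * m * yS)) ≤
      τ ^ 2 * s m ^ 2 + 4 * Real.pi * (3 * C₁ + 4) * yS * (τ ^ 2 * (s m ^ 2 * m)) := by
    intro m hm
    have hm1 : (0 : ℝ) ≤ m := Nat.cast_nonneg m
    have h1 := (GFI_exp (by positivity) (hsmall m hm)).1
    have h2 : 0 ≤ τ ^ 2 * s m ^ 2 := by positivity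
    have h3 : 2 * (4 * Real.pi * m * yS) ≤ 4 * Real.pi * (3 * C₁ + 4) * yS * m := by
      have : 2 * (4 * Real.pi * m * yS) = 4 * Real.pi * 2 * yS * m := by ring
      rw [this]
      gcongr
      linarith
    nlinarith [mul_le_mul_of_nonneg_left (h1.trans h3) h2]
  have e1 := Finset.sum_le_sum hcross
  have e2 := Finset.sum_le_sum hdiag
  rw [Finset.sum_add_distrib, ← Finset.mul_sum, ← Finset.mul_sum, ← Finset.mul_sum,
    ← Finset.mul_sum] at e1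
  rw [Finset.sum_add_distrib, ← Finset.mul_sum, ← Finset.mul_sum, ← Finset.mul_sum,
    ← Finset.mul_sum] at e2
  have hCy : C * (E / N) = 4 * Real.pi * (3 * C₁ + 4) * yS := by
    rw [hC, hyS]
    ring
  rw [hCy]
  have e3 : ∀ S₁ S₂ : ℝ, Real.pi * (QN ρ T B₀ E x N / Real.pi + 2 * τ * S₁ +
      τ ^ 2 * (1 / Real.pi * S₂)) = QN ρ T B₀ E x N + 2 * Real.pi * τ * S₁ + τ ^ 2 * S₂ := by
    intro S₁ S₂
    field_simp
  rw [e3]
  linarith

theorem geo_main : type_of% @geo_main_pr := @geo_main_pr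

end Pool.Agent.LSP
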