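import Pool.Agent.Lib_helper41.LSP.DefsG
import Pool.Agent.Lib_helper41.LSPG.MOB

/-! LSP, block VLF: the flip of the geodesics. -/

namespace Pool.Agent.LSP

open Pool.Agent.LEV Pool.Agent.LVB Pool.Agent.KSL
open Pool.Agent.FG61 (mu phi cc ff AA Lam)
open Complex MeasureTheory Filter Topology UpperHalfPlane ModularGroup ProbabilityTheory
open scoped MatrixGroups Modular ENNReal ModularForm ComplexConjugate ContDiff

theorem vlf_mem {q j : ℕ} : j ∈ RR q ↔ j < q ∧ q.Coprime j := by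
  unfold RR
  rw [Finset.mem_filter, Finset.mem_range]

/-- the partner of the fraction `j/q` -/
theorem vm_exists_pr {N q j : ℕ} (hN : N.Prime) (hq : 1 ≤ q) (hqN : q < N) (hj : j ∈ RR q) :
    ∃ a ∈ RR q, ∃ b : ℤ, (N : ℤ) * a * j + b * q = -1 ∧
      ∀ a' ∈ RR q, (∃ b' : ℤ, (N : ℤ) * a' * j + b' * q = -1) → a' = a := by
  obtain ⟨hjq, hcop⟩ := vlf_mem.mp hj
  have hNq : Nat.Coprime N q := by
    rw [Nat.Prime.coprime_iff_not_dvd hN]
    intro hd
    exact absurd (Nat.le_of_dvd hq hd) (not_le.mpr hqN)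
  have hc : Nat.Coprime (N * j) q := Nat.Coprime.mul_left hNq hcop.symm
  have hc' : IsCoprime ((N * j : ℕ) : ℤ) (q : ℤ) := Nat.isCoprime_iff_coprime.mpr hc
  obtain ⟨u, v, huv⟩ := hc'
  have hqz : (0 : ℤ) < q := by exact_mod_cast hq
  have h0 : 0 ≤ (-u) % (q : ℤ) := Int.emod_nonneg _ hqz.ne'
  have h1 : (-u) % (q : ℤ) < q := Int.emod_lt_of_pos _ hqz
  have hdiv := Int.emod_add_mul_ediv (-u) (q : ℤ)
  set a : ℕ := ((-u) % (q : ℤ)).toNat with ha
  set t : ℤ := (-u) / (q : ℤ) with ht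
  have haz : (a : ℤ) = (-u) % (q : ℤ) := Int.toNat_of_nonneg h0
  have haq : a < q := by
    have : (a : ℤ) < q := by rw [haz]; exact h1
    exact_mod_cast this
  have hu : (a : ℤ) = -u - q * t := by rw [haz]; linarith
  have hb : (N : ℤ) * a * j + (t * (N * j) - v) * q = -1 := by
    have huv' : u * ((N : ℤ) * j) + v * q = 1 := by
      have := huv
      push_cast at this
      exact this
    rw [hu]
    linear_combination (-1) * huv'
  refine ⟨a, ?_, t * (N * j) - v, hb, ?_⟩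
  · rw [vlf_mem]
    refine ⟨haq, ?_⟩
    have : IsCoprime (q : ℤ) (a : ℤ) :=
      ⟨-(t * (N * j) - v), -((N : ℤ) * j), by linear_combination (-1) * hb⟩
    exact Nat.isCoprime_iff_coprime.mp this
  · intro a' ha' hex
    obtain ⟨b', hb'⟩ := hex
    obtain ⟨haq', -⟩ := vlf_mem.mp ha'
    have hd : (q : ℤ) ∣ ((N * j : ℕ) : ℤ) * ((a' : ℤ) - a) := by
      refine ⟨(t * (N * j) - v) - b', ?_⟩
      push_cast
      linear_combination hb' - hb
    have hd2 : (q : ℤ) ∣ ((a' : ℤ) - a) :=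
      IsCoprime.dvd_of_dvd_mul_left (Nat.isCoprime_iff_coprime.mpr hc.symm) hd
    have h3 : ((a' : ℤ) - a) = 0 := by
      apply Int.eq_zero_of_abs_lt_dvd hd2
      rw [abs_lt]
      constructor <;> omega
    omega

theorem vm_det_pr {N q j a : ℕ} {b : ℤ} (h : (N : ℤ) * a * j + b * q = -1) :
    (Vm N q j a b).det = N := by
  unfold Vm
  rw [Matrix.det_fin_two_of]
  linear_combination (-(N : ℤ)) * h

/-- the complex identity -/
theorem vlf_id {N q y s : ℝ} (hN : N ≠ 0) (hq : q ≠ 0) (hy : y ≠ 0) :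
    (N : ℂ) / ((N : ℂ) * ((q : ℂ) * y * (s + Complex.I))) ^ 2 *
      (((N * (q ^ 2 * y ^ 2 * (s ^ 2 + 1)) / y : ℝ) : ℂ) * (1 - (s : ℂ) * Complex.I)) =
      -((1 / y : ℝ) : ℂ) * (1 + (s : ℂ) * Complex.I) := by
  have hN' : (N : ℂ) ≠ 0 := by exact_mod_cast hN
  have hq' : (q : ℂ) ≠ 0 := by exact_mod_cast hq
  have hy' : (y : ℂ) ≠ 0 := by exact_mod_cast hy
  have hs : (s : ℂ) + Complex.I ≠ 0 := by
    intro h
    have := congrArg Complex.im h
    simp at this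
  have e : ((N * (q ^ 2 * y ^ 2 * (s ^ 2 + 1)) / y : ℝ) : ℂ) =
      N * (q ^ 2 * y ^ 2 * (((s : ℂ) + Complex.I) * ((s : ℂ) - Complex.I))) / y := by
    push_cast
    congr 3
    linear_combination Complex.I_sq
  have e2 : (1 - (s : ℂ) * Complex.I) = -Complex.I * ((s : ℂ) + Complex.I) := by
    linear_combination Complex.I_sq
  rw [e, e2]
  push_cast
  field_simp
  linear_combination Complex.I_sq

/-- the geodesics are exchanged, together with the truncations -/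
theorem vm_flip_pr {T : ℝ} {ρ : ℝ → ℝ} (hρ : KerL T ρ) {N q j a : ℕ} {b : ℤ} (hN : 1 ≤ N)
    (hq : 1 ≤ q) (h : (N : ℤ) * a * j + b * q = -1) (Y : ℝ) (z : ℍ) :
    sl2 (Vm N q j a b) (coneY ρ N q ((a : ℝ) / q) Y) z = -coneY ρ N q ((j : ℝ) / q) Y z := by
  have hdet := vm_det_pr h
  have hpos : 0 < (Vm N q j a b).det := by rw [hdet]; exact_mod_cast hN
  obtain ⟨hc, him⟩ := mz_coe hpos z
  have hN' : (0 : ℝ) < N := by exact_mod_cast hN
  have hq' : (0 : ℝ) < q := by exact_mod_cast hq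
  have hy := z.im_pos
  set y : ℝ := z.im with hydef
  set s : ℝ := (z.re - (j : ℝ) / q) / z.im with hs
  have hzre : z.re = (j : ℝ) / q + s * y := by
    rw [hs]
    field_simp
    ring
  have hz : (z : ℂ) = ((j : ℝ) / q + s * y : ℝ) + (y : ℂ) * Complex.I := by
    apply Complex.ext
    · simp [hzre]
    · simp [hydef]
  have e00 : (Vm N q j a b) 0 0 = (N : ℤ) * a := rfl
  have e01 : (Vm N q j a b) 0 1 = b := rfl
  have e10 : (Vm N q j a b) 1 0 = (N : ℤ) * q := rfl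
  have e11 : (Vm N q j a b) 1 1 = -((N : ℤ) * j) := rfl
  have hNc : (N : ℂ) ≠ 0 := by exact_mod_cast hN'.ne'
  have hqc : (q : ℂ) ≠ 0 := by exact_mod_cast hq'.ne'
  have hyc : (y : ℂ) ≠ 0 := by exact_mod_cast hy.ne'
  have hden : ((((Vm N q j a b) 1 0 : ℤ) : ℂ) * (z : ℂ) + (((Vm N q j a b) 1 1 : ℤ) : ℂ)) =
      (N : ℂ) * ((q : ℂ) * y * (s + Complex.I)) := by
    rw [e10, e11, hz]
    push_cast
    field_simp
    ring
  rw [hdet, hden] at him
  rw [hden] at hc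
  have hnorm : ‖(N : ℂ) * ((q : ℂ) * y * (s + Complex.I))‖ ^ 2 =
      N ^ 2 * (q ^ 2 * y ^ 2 * (s ^ 2 + 1)) := by
    rw [norm_mul, norm_mul, norm_mul, mul_pow, mul_pow, mul_pow]
    have e1 : ‖(N : ℂ)‖ = N := by simp
    have e2 : ‖(q : ℂ)‖ = q := by simp
    have e3 : ‖(y : ℂ)‖ = y := by rw [Complex.norm_real, Real.norm_of_nonneg hy.le]
    have e4 : ‖((s : ℂ) + Complex.I)‖ ^ 2 = s ^ 2 + 1 := by
      rw [← Complex.normSq_eq_norm_sq, Complex.normSq_apply]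
      simp
      ring
    rw [e1, e2, e3, e4]
  rw [hnorm] at him
  have hs1 : 0 < s ^ 2 + 1 := by positivity
  have hD : 0 < q ^ 2 * y ^ 2 * (s ^ 2 + 1) := by positivity
  set w := mz (Vm N q j a b) z with hw
  have hwim : w.im = y / (N * (q ^ 2 * y ^ 2 * (s ^ 2 + 1))) := by
    rw [him]
    push_cast
    field_simp
  have hsI : (s : ℂ) + Complex.I ≠ 0 := by
    intro h
    have := congrArg Complex.im h
    simp at this
  have hdiff : (w : ℂ) - (((a : ℝ) / q : ℝ) : ℂ) =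
      -1 / ((N : ℂ) * q * ((q : ℂ) * y * (s + Complex.I))) := by
    rw [hc, e00, e01, hz]
    have hb : (b : ℂ) = (-1 - (N : ℂ) * a * j) / q := by
      rw [eq_div_iff hqc]
      have : (((N : ℤ) * a * j + b * q : ℤ) : ℂ) = ((-1 : ℤ) : ℂ) := by rw [h]
      push_cast at this
      linear_combination this
    push_cast
    rw [hb]
    field_simp
    ring
  have hslope : (w.re - (a : ℝ) / q) / w.im = -s := by
    have h1 : ((w : ℂ) - (((a : ℝ) / q : ℝ) : ℂ)) * (s + Complex.I) =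
        -1 / ((N : ℂ) * q * ((q : ℂ) * y)) := by
      rw [hdiff]
      field_simp
    have h2 : (-1 / ((N : ℂ) * q * ((q : ℂ) * y))) =
        ((-1 / ((N : ℝ) * q * ((q : ℝ) * y)) : ℝ) : ℂ) := by
      push_cast
      ring
    rw [h2] at h1
    have h3 := congrArg Complex.im h1
    rw [Complex.mul_im, Complex.ofReal_im, Complex.sub_re, Complex.sub_im, Complex.ofReal_re,
      Complex.ofReal_im, Complex.add_im, Complex.add_re, Complex.ofReal_re, Complex.ofReal_im,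
      Complex.I_re, Complex.I_im] at h3
    have h4 : (w.re - (a : ℝ) / q) + w.im * s = 0 := by
      have e5 : (w : ℂ).re = w.re := rfl
      have e6 : (w : ℂ).im = w.im := rfl
      rw [e5, e6] at h3
      linarith
    have h5 := w.im_pos.ne'
    rw [div_eq_iff h5]
    linarith
  have hcone : cone ρ ((a : ℝ) / q) w =
      (ρ s : ℂ) * (((N * (q ^ 2 * y ^ 2 * (s ^ 2 + 1)) / y : ℝ) : ℂ) *
        (1 - (s : ℂ) * Complex.I)) := by
    unfold cone
    rw [hslope, hρ.even, hwim]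
    push_cast
    field_simp
    ring
  have hcone2 : cone ρ ((j : ℝ) / q) z = (ρ s : ℂ) * (((1 / y : ℝ) : ℂ) *
      (1 + (s : ℂ) * Complex.I)) := by
    unfold cone
    rw [← hs, ← hydef]
    push_cast
    ring
  have hcond : (w.im < Y ∧ w.im < Y * (N * (q : ℝ) ^ 2 *
      ‖(w : ℂ) - (((a : ℝ) / q : ℝ) : ℂ)‖ ^ 2)) ↔
      (z.im < Y ∧ z.im < Y * (N * (q : ℝ) ^ 2 *
      ‖(z : ℂ) - (((j : ℝ) / q : ℝ) : ℂ)‖ ^ 2)) := by
    have e1 : ‖(w : ℂ) - (((a : ℝ) / q : ℝ) : ℂ)‖ ^ 2 =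
        1 / (N ^ 2 * q ^ 2 * (q ^ 2 * y ^ 2 * (s ^ 2 + 1))) := by
      rw [hdiff, norm_div, norm_neg, norm_one]
      have e2 : (N : ℂ) * q * ((q : ℂ) * y * (s + Complex.I)) =
          (q : ℂ) * ((N : ℂ) * ((q : ℂ) * y * (s + Complex.I))) := by ring
      rw [e2, norm_mul, div_pow, mul_pow, hnorm]
      have e3 : ‖(q : ℂ)‖ = q := by simp
      rw [e3]
      congr 1
      · norm_num
      · ring
    have e4 : ‖(z : ℂ) - (((j : ℝ) / q : ℝ) : ℂ)‖ ^ 2 = y ^ 2 * (s ^ 2 + 1) := by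
      have e5 : (z : ℂ) - (((j : ℝ) / q : ℝ) : ℂ) = (y : ℂ) * (s + Complex.I) := by
        rw [hz]
        push_cast
        ring
      rw [e5, norm_mul, mul_pow, Complex.norm_real, Real.norm_of_nonneg hy.le]
      congr 1
      rw [← Complex.normSq_eq_norm_sq, Complex.normSq_apply]
      simp
      ring
    rw [e1, e4, hwim, ← hydef]
    have k1 : y / (N * (q ^ 2 * y ^ 2 * (s ^ 2 + 1))) < Y ↔
        y < Y * (N * (q : ℝ) ^ 2 * (y ^ 2 * (s ^ 2 + 1))) := by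
      rw [div_lt_iff₀ (by positivity)]
      have : Y * ((N : ℝ) * (q ^ 2 * y ^ 2 * (s ^ 2 + 1))) =
        Y * (N * (q : ℝ) ^ 2 * (y ^ 2 * (s ^ 2 + 1))) := by ring
      rw [this]
    have k2 : y / (N * (q ^ 2 * y ^ 2 * (s ^ 2 + 1))) < Y * (N * (q : ℝ) ^ 2 *
        (1 / (N ^ 2 * q ^ 2 * (q ^ 2 * y ^ 2 * (s ^ 2 + 1))))) ↔ y < Y := by
      have : Y * (N * (q : ℝ) ^ 2 * (1 / (N ^ 2 * q ^ 2 * (q ^ 2 * y ^ 2 * (s ^ 2 + 1))))) =
          Y / (N * (q ^ 2 * y ^ 2 * (s ^ 2 + 1))) := by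
        field_simp
      rw [this]
      exact div_lt_div_iff_of_pos_right (by positivity)
    rw [k1, k2, and_comm]
  unfold sl2
  rw [hdet, hden, ← hw]
  unfold coneY
  by_cases hcase : (z.im < Y ∧ z.im < Y * (N * (q : ℝ) ^ 2 *
      ‖(z : ℂ) - (((j : ℝ) / q : ℝ) : ℂ)‖ ^ 2))
  · rw [if_pos hcase, if_pos (hcond.mpr hcase), hcone, hcone2]
    have := vlf_id (N := N) (q := q) (y := y) (s := s) hN'.ne' hq'.ne' hy.ne'
    push_cast at this ⊢
    linear_combination (ρ s : ℂ) * this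
  · rw [if_neg hcase, if_neg (fun hh => hcase (hcond.mp hh)), mul_zero, neg_zero]

theorem vm_exists : type_of% @vm_exists_pr := @vm_exists_pr
theorem vm_det : type_of% @vm_det_pr := @vm_det_pr
theorem vm_flip : type_of% @vm_flip_pr := @vm_flip_pr

end Pool.Agent.LSP
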